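import Pool.Agent.Lib_helper98.GA.Defs

/-! # LBA, LGR: basic facts and growth -/

set_option autoImplicit false

namespace Pool.Agent.GA

open Finset Complex Metric MeasureTheory Filter Asymptotics
open scoped ArithmeticFunction.vonMangoldt Classical Topology

theorem LF_eq {q : ℕ} [NeZero q] (χ : DirichletCharacter ℂ q) :
    LF χ = DirichletCharacter.LFunction χ := by
  funext s
  unfold LF
  rw [dif_neg (NeZero.ne q)]

theorem LF_diff {q : ℕ} [NeZero q] {χ : DirichletCharacter ℂ q} (hχ : χ ≠ 1) :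
    Differentiable ℂ (LF χ) := by
  rw [LF_eq]
  exact DirichletCharacter.differentiable_LFunction hχ

theorem LF_ne_zero {q : ℕ} [NeZero q] {χ : DirichletCharacter ℂ q} (hχ : χ ≠ 1) {s : ℂ}
    (hs : 1 ≤ s.re) : LF χ s ≠ 0 := by
  rw [LF_eq]
  exact DirichletCharacter.LFunction_ne_zero_of_one_le_re χ (Or.inl hχ) hs

theorem lgr_sub2 : Subsingleton (ZMod 2)ˣ := by
  rw [← Fintype.card_le_one_iff_subsingleton]
  decide

theorem three_le {q : ℕ} [NeZero q] {χ : DirichletCharacter ℂ q} (hχ : χ ≠ 1) : 3 ≤ q := by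
  by_contra h
  have hq := NeZero.pos q
  have h1 : q = 1 ∨ q = 2 := by omega
  apply hχ
  rcases h1 with rfl | rfl
  · exact Subsingleton.elim _ _
  · ext u
    have : u = 1 := lgr_sub2.elim _ _
    rw [this]; simp

theorem one_le_lt {q : ℕ} (hq : 3 ≤ q) (t : ℝ) : 1 ≤ lt q t := by
  unfold lt
  rw [Real.le_log_iff_exp_le]
  · have h1 : (3 : ℝ) ≤ q := by exact_mod_cast hq
    have h2 := abs_nonneg t
    have h3 := Real.exp_one_lt_d9
    nlinarith
  · have h1 : (3 : ℝ) ≤ q := by exact_mod_cast hq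
    have h2 := abs_nonneg t
    positivity

theorem lgr_full {r : ℕ} [NeZero r] (χ : DirichletCharacter ℂ r) (hχ : χ ≠ 1) :
    ∑ k ∈ range r, χ (k : ZMod r) = 0 := by
  have h : ∑ k ∈ range r, χ (k : ZMod r) = ∑ z : ZMod r, χ z := by
    refine Finset.sum_nbij' (fun c => (c : ZMod r)) (fun x => x.val) ?_ ?_ ?_ ?_ ?_
    · intro c _; exact mem_univ _
    · intro x _; rw [mem_range]; exact ZMod.val_lt x
    · intro c hc; rw [mem_range] at hc; exact ZMod.val_cast_of_lt hc
    · intro x _; exact ZMod.natCast_zmod_val x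
    · intro c _; rfl
  rw [h, MulChar.sum_eq_zero_of_ne_one hχ]

theorem lgr_range {r : ℕ} [NeZero r] (χ : DirichletCharacter ℂ r) (hχ : χ ≠ 1) (y : ℕ) :
    ‖∑ k ∈ range y, χ (k : ZMod r)‖ ≤ r := by
  have h1 : ∀ n s : ℕ, ∑ k ∈ range (r * n + s), χ (k : ZMod r) = ∑ k ∈ range s, χ (k : ZMod r) := by
    intro n
    induction n with
    | zero => intro s; simp
    | succ n ih =>
        intro s
        rw [Nat.mul_succ, add_assoc, ih, Finset.sum_range_add, lgr_full χ hχ, zero_add]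
        refine sum_congr rfl fun k _ => ?_
        push_cast
        simp
  have h2 := h1 (y / r) (y % r)
  rw [Nat.div_add_mod] at h2
  rw [h2]
  refine (norm_sum_le _ _).trans ?_
  calc ∑ k ∈ range (y % r), ‖χ (k : ZMod r)‖ ≤ ∑ k ∈ range (y % r), (1:ℝ) :=
        sum_le_sum fun k _ => DirichletCharacter.norm_le_one _ _
    _ = ((y % r : ℕ) : ℝ) := by simp
    _ ≤ r := by exact_mod_cast (Nat.mod_lt y (NeZero.pos r)).le

theorem lgr_Icc {r : ℕ} [NeZero r] (χ : DirichletCharacter ℂ r) (hχ : χ ≠ 1) (y : ℕ) :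
    ‖∑ k ∈ Icc 1 y, χ (k : ZMod r)‖ ≤ r := by
  have h3 := three_le hχ
  have : Nontrivial (ZMod r) := ZMod.nontrivial_iff.mpr (by omega)
  have h4 : χ ((0:ℕ) : ZMod r) = 0 := by
    rw [Nat.cast_zero, MulChar.map_zero]
  have h5 : ∑ k ∈ Icc 1 y, χ (k : ZMod r) = ∑ k ∈ range (y + 1), χ (k : ZMod r) := by
    rw [sum_range_eq_add_Ico _ (Nat.succ_pos y), h4, zero_add]
    have : Finset.Ico 1 (y + 1) = Finset.Icc 1 y := by
      ext k; simp only [Finset.mem_Ico, Finset.mem_Icc]; omega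
    rw [← Nat.succ_eq_add_one] at this
    rw [this]
  rw [h5]
  exact lgr_range χ hχ _

/-- the summatory function of the character, as a function of a real variable -/
noncomputable def lgrS {q : ℕ} (χ : DirichletCharacter ℂ q) (t : ℝ) : ℂ :=
  if 1 < t then ∑ k ∈ Icc 1 ⌊t⌋₊, χ (k : ZMod q) else 0

theorem lgrS_norm {q : ℕ} [NeZero q] {χ : DirichletCharacter ℂ q} (hχ : χ ≠ 1) (t : ℝ) :
    ‖lgrS χ t‖ ≤ q := by
  unfold lgrS
  split_ifs
  · exact lgr_Icc χ hχ _
  · simp

theorem lgrS_meas {q : ℕ} (χ : DirichletCharacter ℂ q) : Measurable (lgrS χ) := by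
  unfold lgrS
  refine Measurable.ite measurableSet_Ioi ?_ measurable_const
  exact (measurable_from_nat (f := fun n : ℕ => ∑ k ∈ Icc 1 n, χ (k : ZMod q))).comp
    Nat.measurable_floor

theorem lgrS_diff {q : ℕ} [NeZero q] {χ : DirichletCharacter ℂ q} (hχ : χ ≠ 1) {s : ℂ}
    (hs : 0 < s.re) : DifferentiableAt ℂ (fun s => s * mellin (lgrS χ) (-s)) s := by
  have h1 : DifferentiableAt ℂ (mellin (lgrS χ)) (-s) := by
    refine mellin_differentiableAt_of_isBigO_rpow (a := 0) (b := -s.re - 1) ?_ ?_ ?_ ?_ ?_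
    · refine (LocallyIntegrable.locallyIntegrableOn ?_ _)
      refine (locallyIntegrable_const (q : ℝ)).mono (lgrS_meas χ).aestronglyMeasurable ?_
      refine Filter.Eventually.of_forall fun t => ?_
      rw [Real.norm_eq_abs, abs_of_nonneg (Nat.cast_nonneg q)]
      exact lgrS_norm hχ t
    · rw [neg_zero]
      simp only [Real.rpow_zero]
      refine IsBigO.of_bound q (Eventually.of_forall fun t => ?_)
      simpa using lgrS_norm hχ t
    · simpa using hs
    · refine IsBigO.of_bound 0 ?_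
      filter_upwards [Ioo_mem_nhdsGT (zero_lt_one' ℝ)] with t ht
      have : lgrS χ t = 0 := by
        unfold lgrS
        rw [if_neg (not_lt.2 ht.2.le)]
      rw [this]; simp
    · simp
  have h2 : DifferentiableAt ℂ (fun s => mellin (lgrS χ) (-s)) s := by
    have := h1.comp s (differentiableAt_id.neg)
    exact this
  exact differentiableAt_id.mul h2

theorem lgrS_mellin {q : ℕ} [NeZero q] (χ : DirichletCharacter ℂ q) (s : ℂ) :
    mellin (lgrS χ) (-s) =
      ∫ t in Set.Ioi (1 : ℝ), (∑ k ∈ Icc 1 ⌊t⌋₊, χ (k : ZMod q)) * (t : ℂ) ^ (-(s + 1)) := by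
  unfold mellin
  have h1 : Set.Ioi (0 : ℝ) = Set.Ioc 0 1 ∪ Set.Ioi 1 :=
    (Set.Ioc_union_Ioi_eq_Ioi zero_le_one).symm
  have h2 : ∀ t : ℝ, (t : ℂ) ^ (-s - 1) • lgrS χ t = (Set.Ioi (1 : ℝ)).indicator
      (fun t : ℝ => (∑ k ∈ Icc 1 ⌊t⌋₊, χ (k : ZMod q)) * (t : ℂ) ^ (-(s + 1))) t := by
    intro t
    by_cases ht : 1 < t
    · rw [Set.indicator_of_mem (Set.mem_Ioi.2 ht)]
      unfold lgrS
      rw [if_pos ht, smul_eq_mul, mul_comm]
      congr 2
      ring
    · rw [Set.indicator_of_notMem (by simpa using ht)]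
      unfold lgrS
      rw [if_neg ht, smul_zero]
  simp_rw [h2]
  rw [MeasureTheory.setIntegral_indicator measurableSet_Ioi]
  congr 2
  ext t
  simp only [Set.mem_inter_iff, Set.mem_Ioi]
  constructor
  · exact fun h => h.2
  · exact fun h => ⟨by linarith, h⟩

theorem LF_eq_mellin {q : ℕ} [NeZero q] {χ : DirichletCharacter ℂ q} (hχ : χ ≠ 1) {s : ℂ}
    (hs : 0 < s.re) : LF χ s = s * mellin (lgrS χ) (-s) := by
  have hopen : IsOpen {s : ℂ | 0 < s.re} := isOpen_lt continuous_const Complex.continuous_re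
  have hpre : IsPreconnected {s : ℂ | 0 < s.re} := (convex_halfSpace_re_gt 0).isPreconnected
  have h1 : AnalyticOnNhd ℂ (LF χ) {s : ℂ | 0 < s.re} := fun z _ => (LF_diff hχ).analyticAt z
  have h2 : AnalyticOnNhd ℂ (fun s => s * mellin (lgrS χ) (-s)) {s : ℂ | 0 < s.re} := by
    refine DifferentiableOn.analyticOnNhd (fun z hz => ?_) hopen
    exact (lgrS_diff hχ hz).differentiableWithinAt
  have h3 : (2 : ℂ) ∈ {s : ℂ | 0 < s.re} := by simp
  have h4 : LF χ =ᶠ[𝓝 (2 : ℂ)] fun s => s * mellin (lgrS χ) (-s) := by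
    have : {s : ℂ | 1 < s.re} ∈ 𝓝 (2 : ℂ) :=
      (isOpen_lt continuous_const Complex.continuous_re).mem_nhds (by simp)
    filter_upwards [this] with w hw
    have hw : 1 < w.re := hw
    rw [LF_eq, DirichletCharacter.LFunction_eq_LSeries χ hw, lgrS_mellin]
    refine LSeries_eq_mul_integral _ le_rfl (by linarith) ?_ ?_
    · exact DirichletCharacter.LSeriesSummable_of_one_lt_re χ hw
    · simp only [Real.rpow_zero]
      refine IsBigO.of_bound q (Eventually.of_forall fun n => ?_)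
      simpa using lgr_Icc χ hχ n
  exact h1.eqOn_of_preconnected_of_eventuallyEq h2 hpre h3 h4 hs

theorem LF_growth : ∃ C : ℝ, 1 ≤ C ∧ ∀ (q : ℕ) [NeZero q] (χ : DirichletCharacter ℂ q),
    χ ≠ 1 → ∀ s : ℂ, 1 / 4 ≤ s.re → ‖LF χ s‖ ≤ C * q * (|s.im| + 2) := by
  refine ⟨4, by norm_num, fun q _ χ hχ s hs => ?_⟩
  have hs0 : 0 < s.re := by linarith
  rw [LF_eq_mellin hχ hs0, lgrS_mellin, norm_mul]
  have h1 : ‖∫ t in Set.Ioi (1 : ℝ), (∑ k ∈ Icc 1 ⌊t⌋₊, χ (k : ZMod q)) *
      (t : ℂ) ^ (-(s + 1))‖ ≤ q / s.re := by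
    refine (norm_integral_le_integral_norm _).trans ?_
    have h2 : ∫ t in Set.Ioi (1 : ℝ), (q : ℝ) * t ^ (-(s.re + 1)) = q / s.re := by
      rw [integral_const_mul, integral_Ioi_rpow_of_lt (by linarith) zero_lt_one]
      rw [Real.one_rpow]
      have : -(s.re + 1) + 1 = -s.re := by ring
      rw [this]
      field_simp
    rw [← h2]
    have hint : IntegrableOn (fun t : ℝ => (q : ℝ) * t ^ (-(s.re + 1))) (Set.Ioi 1) :=
      (integrableOn_Ioi_rpow_of_lt (by linarith) zero_lt_one).const_mul _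
    refine integral_mono_of_nonneg (Eventually.of_forall fun t => norm_nonneg _) hint ?_
    refine (ae_restrict_mem measurableSet_Ioi).mono fun t ht => ?_
    have ht0 : (0 : ℝ) < t := lt_trans zero_lt_one ht
    show ‖_‖ ≤ _
    rw [norm_mul, Complex.norm_cpow_eq_rpow_re_of_pos ht0]
    simp only [neg_re, add_re, one_re]
    gcongr
    exact lgr_Icc χ hχ _
  calc ‖s‖ * _ ≤ ‖s‖ * (q / s.re) := by gcongr
    _ ≤ (s.re + |s.im|) * (q / s.re) := by
        gcongr
        refine (Complex.norm_le_abs_re_add_abs_im s).trans ?_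
        rw [abs_of_pos hs0]
    _ = q * (1 + |s.im| / s.re) := by field_simp
    _ ≤ q * (1 + |s.im| * 4) := by
        gcongr
        rw [div_le_iff₀ hs0]
        have := abs_nonneg s.im
        nlinarith
    _ ≤ 4 * q * (|s.im| + 2) := by
        have := abs_nonneg s.im
        have hq : (0 : ℝ) ≤ q := Nat.cast_nonneg q
        nlinarith

end Pool.Agent.GA
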