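import Pool.Agent.Lib_helper98.GA.Defs

/-! # FIN: finiteness of the zero sets -/

set_option autoImplicit false

namespace Pool.Agent.GA

open Finset Complex Metric
open scoped ComplexConjugate Classical

theorem fin_compact {f : ℂ → ℂ} (hf : Differentiable ℂ f) {c0 : ℂ} (h0 : f c0 ≠ 0)
    {K : Set ℂ} (hK : IsCompact K) : {ρ : ℂ | f ρ = 0 ∧ ρ ∈ K}.Finite := by
  have han : AnalyticOnNhd ℂ f Set.univ := fun z _ => hf.analyticAt z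
  by_contra hinf
  have hinf : {ρ : ℂ | f ρ = 0 ∧ ρ ∈ K}.Infinite := hinf
  obtain ⟨z, hz, hacc⟩ := hinf.exists_accPt_of_subset_isCompact hK (fun x hx => hx.2)
  have hfr : ∃ᶠ w in nhdsWithin z {z}ᶜ, f w = 0 := by
    rw [accPt_iff_frequently_nhdsNE] at hacc
    exact hacc.mono fun w hw => hw.1
  have := han.eqOn_zero_of_preconnected_of_frequently_eq_zero isPreconnected_univ
    (Set.mem_univ z) hfr
  exact h0 (this (Set.mem_univ c0))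

theorem zb_finite {f : ℂ → ℂ} (hf : Differentiable ℂ f) {c0 : ℂ} (h0 : f c0 ≠ 0) (c : ℂ)
    (R : ℝ) : {ρ : ℂ | f ρ = 0 ∧ ρ ∈ closedBall c R}.Finite :=
  fin_compact hf h0 (isCompact_closedBall c R)

theorem mem_zb {f : ℂ → ℂ} (hf : Differentiable ℂ f) {c0 : ℂ} (h0 : f c0 ≠ 0) (c : ℂ)
    (R : ℝ) (ρ : ℂ) : ρ ∈ zb f c R ↔ f ρ = 0 ∧ ρ ∈ closedBall c R := by
  unfold zb
  rw [dif_pos (zb_finite hf h0 c R)]
  simp

theorem zr_finite {f : ℂ → ℂ} (hf : Differentiable ℂ f) {c0 : ℂ} (h0 : f c0 ≠ 0) (a T : ℝ) :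
    {ρ : ℂ | f ρ = 0 ∧ 1 - a ≤ ρ.re ∧ ρ.re ≤ 1 ∧ |ρ.im| ≤ T}.Finite := by
  refine (fin_compact hf h0 (isCompact_closedBall (0 : ℂ) (|a| + 1 + |T|))).subset ?_
  rintro ρ ⟨h1, h2, h3, h4⟩
  refine ⟨h1, ?_⟩
  rw [mem_closedBall_zero_iff]
  refine (Complex.norm_le_abs_re_add_abs_im ρ).trans ?_
  have h5 : |ρ.re| ≤ |a| + 1 := by
    rw [abs_le]
    constructor
    · have := neg_abs_le a
      have := le_abs_self a
      linarith
    · have := abs_nonneg a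
      linarith
  have := le_abs_self T
  linarith

theorem mem_zr {f : ℂ → ℂ} (hf : Differentiable ℂ f) {c0 : ℂ} (h0 : f c0 ≠ 0) (a T : ℝ)
    (ρ : ℂ) : ρ ∈ zr f a T ↔ f ρ = 0 ∧ 1 - a ≤ ρ.re ∧ ρ.re ≤ 1 ∧ |ρ.im| ≤ T := by
  unfold zr
  rw [dif_pos (zr_finite hf h0 a T)]
  simp

theorem order_ne_top {f : ℂ → ℂ} (hf : Differentiable ℂ f) {c0 : ℂ} (h0 : f c0 ≠ 0) (ρ : ℂ) :
    analyticOrderAt f ρ ≠ ⊤ := by
  intro h
  rw [analyticOrderAt_eq_top] at h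
  have han : AnalyticOnNhd ℂ f Set.univ := fun z _ => hf.analyticAt z
  have := han.eqOn_zero_of_preconnected_of_eventuallyEq_zero isPreconnected_univ
    (Set.mem_univ ρ) h
  exact h0 (this (Set.mem_univ c0))

theorem one_le_order {f : ℂ → ℂ} (hf : Differentiable ℂ f) {c0 : ℂ} (h0 : f c0 ≠ 0) {ρ : ℂ}
    (h : f ρ = 0) : 1 ≤ analyticOrderNatAt f ρ := by
  rw [Nat.one_le_iff_ne_zero]
  intro h1
  have h2 := order_ne_top hf h0 ρ
  have h3 : analyticOrderAt f ρ = 0 := by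
    rw [← Nat.cast_analyticOrderNatAt h2, h1]; rfl
  rw [(hf.analyticAt ρ).analyticOrderAt_eq_zero] at h3
  exact h3 h

theorem one_le_mlt {f : ℂ → ℂ} (hf : Differentiable ℂ f) {c0 : ℂ} (h0 : f c0 ≠ 0) {ρ : ℂ}
    (h : f ρ = 0) : 1 ≤ mlt f ρ := by
  unfold mlt
  exact_mod_cast one_le_order hf h0 h

theorem mlt_nonneg (f : ℂ → ℂ) (ρ : ℂ) : 0 ≤ mlt f ρ := Nat.cast_nonneg _

theorem nz_mono {f : ℂ → ℂ} (hf : Differentiable ℂ f) {c0 : ℂ} (h0 : f c0 ≠ 0)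
    {a a' T T' : ℝ} (ha : a ≤ a') (hT : T ≤ T') : nz f a T ≤ nz f a' T' := by
  unfold nz
  refine sum_le_sum_of_subset_of_nonneg ?_ fun ρ _ _ => mlt_nonneg f ρ
  intro ρ hρ
  rw [mem_zr hf h0] at hρ ⊢
  obtain ⟨h1, h2, h3, h4⟩ := hρ
  exact ⟨h1, by linarith, h3, h4.trans hT⟩

end Pool.Agent.GA
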