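import Pool.Agent.Lib_helper98.GAF.Bla

/-! # LBC, LBD: counting zeros and the logarithmic derivative at the centre -/

set_option autoImplicit false

namespace Pool.Agent.GA

open Finset Complex Metric
open scoped ComplexConjugate Classical Topology Nat

/-- the Blaschke factor -/
noncomputable def bfac (c : ℂ) (R : ℝ) (ρ z : ℂ) : ℂ :=
  (R * (z - ρ)) / (R ^ 2 - conj (ρ - c) * (z - c))

theorem bfac_sphere {c : ℂ} {R₁ R₃ : ℝ} (h1 : 0 < R₁) (h13 : R₁ < R₃) {ρ z : ℂ}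
    (hρ : ρ ∈ closedBall c R₁) (hz : z ∈ sphere c R₃) : ‖bfac c R₃ ρ z‖ = 1 := by
  have h3 : 0 < R₃ := h1.trans h13
  have hden := bla_den h1 h13 hρ (sphere_subset_closedBall hz)
  have hz' : ‖z - c‖ = R₃ := by rwa [mem_sphere, dist_eq_norm] at hz
  have key : ‖(R₃ : ℂ) ^ 2 - conj (ρ - c) * (z - c)‖ = R₃ * ‖z - ρ‖ := by
    have e1 : (R₃ : ℂ) ^ 2 = (z - c) * conj (z - c) := by
      rw [Complex.mul_conj, Complex.normSq_eq_norm_sq, hz']
      push_cast; ring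
    have e2 : (R₃ : ℂ) ^ 2 - conj (ρ - c) * (z - c) = (z - c) * conj (z - ρ) := by
      rw [e1]
      simp only [map_sub]
      ring
    rw [e2, norm_mul, RCLike.norm_conj, hz']
  unfold bfac
  rw [norm_div, key, norm_mul, Complex.norm_real, Real.norm_eq_abs, abs_of_pos h3]
  have hne : ‖(R₃ : ℂ) ^ 2 - conj (ρ - c) * (z - c)‖ ≠ 0 := norm_ne_zero_iff.2 hden
  rw [key] at hne
  exact div_self hne

theorem bfac_center {c : ℂ} {R : ℝ} (h : 0 < R) (ρ : ℂ) :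
    ‖bfac c R ρ c‖ = ‖ρ - c‖ / R := by
  have hR : (R : ℂ) ≠ 0 := by exact_mod_cast h.ne'
  unfold bfac
  rw [sub_self, mul_zero, sub_zero, norm_div, norm_mul, norm_pow, Complex.norm_real,
    Real.norm_eq_abs, abs_of_pos h, norm_sub_rev c ρ]
  field_simp

/-- `g` and its bounds -/
theorem bla_bound {f : ℂ → ℂ} (hf : Differentiable ℂ f) {c : ℂ} (h0 : f c ≠ 0) {R₁ R₃ B : ℝ}
    (h1 : 0 < R₁) (h13 : R₁ < R₃) (hB : ∀ z ∈ closedBall c R₃, ‖f z‖ ≤ B * ‖f c‖) :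
    ∃ g : ℂ → ℂ, AnalyticOnNhd ℂ g (closedBall c R₃) ∧ (∀ z ∈ closedBall c R₁, g z ≠ 0) ∧
      (∀ z ∈ closedBall c R₃, f z = g z * ∏ ρ ∈ zb f c R₁,
        (bfac c R₃ ρ z) ^ analyticOrderNatAt f ρ) ∧
      (∀ z ∈ closedBall c R₃, ‖g z‖ ≤ B * ‖f c‖) := by
  have h3 : 0 < R₃ := h1.trans h13
  obtain ⟨g, hg, hg0, hfg⟩ := blaschke hf h0 h1 h13
  refine ⟨g, hg, hg0, hfg, ?_⟩
  have hfr : ∀ z ∈ frontier (ball c R₃), ‖g z‖ ≤ B * ‖f c‖ := by
    intro z hz
    rw [frontier_ball c h3.ne'] at hz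
    have hz' := sphere_subset_closedBall hz
    have h4 := hB z hz'
    rw [hfg z hz', norm_mul, norm_prod] at h4
    have h5 : ∏ ρ ∈ zb f c R₁, ‖((R₃ : ℂ) * (z - ρ) / ((R₃ : ℂ) ^ 2 - conj (ρ - c) * (z - c))) ^
        analyticOrderNatAt f ρ‖ = 1 := by
      refine Finset.prod_eq_one fun ρ hρ => ?_
      rw [norm_pow]
      have := bfac_sphere h1 h13 ((mem_zb hf h0 c R₁ ρ).1 hρ).2 hz
      unfold bfac at this
      rw [this, one_pow]
    rwa [h5, mul_one] at h4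
  intro z hz
  refine Complex.norm_le_of_forall_mem_frontier_norm_le isBounded_ball ?_ hfr ?_
  · refine DifferentiableOn.diffContOnCl ?_
    rw [closure_ball c h3.ne']
    exact hg.differentiableOn
  · rwa [closure_ball c h3.ne']

theorem bla_center {c : ℂ} {R₁ R₃ : ℝ}
    (h1 : 0 < R₁) (h13 : R₁ < R₃) (S : Finset ℂ) (hS : ∀ ρ ∈ S, ρ ∈ closedBall c R₁)
    (ν : ℂ → ℕ) :
    ‖∏ ρ ∈ S, (bfac c R₃ ρ c) ^ ν ρ‖ ≤ (R₁ / R₃) ^ (∑ ρ ∈ S, ν ρ) := by
  have h3 : 0 < R₃ := h1.trans h13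
  rw [norm_prod, ← Finset.prod_pow_eq_pow_sum]
  refine Finset.prod_le_prod (fun ρ _ => norm_nonneg _) fun ρ hρ => ?_
  rw [norm_pow, bfac_center h3]
  have h4 := hS ρ hρ
  rw [mem_closedBall, dist_eq_norm] at h4
  gcongr

/-- Jensen's bound for the number of zeros. -/
theorem zero_count {f : ℂ → ℂ} (hf : Differentiable ℂ f) {c : ℂ} (h0 : f c ≠ 0) {R₁ R₃ B : ℝ}
    (h1 : 0 < R₁) (h13 : R₁ < R₃) (hB : ∀ z ∈ closedBall c R₃, ‖f z‖ ≤ B * ‖f c‖) :
    (∑ ρ ∈ zb f c R₁, mlt f ρ) * Real.log (R₃ / R₁) ≤ Real.log B := by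
  have h3 : 0 < R₃ := h1.trans h13
  obtain ⟨g, hg, hg0, hfg, hgB⟩ := bla_bound hf h0 h1 h13 hB
  have hc := mem_closedBall_self h3.le (x := c)
  have hfc : 0 < ‖f c‖ := norm_pos_iff.2 h0
  set n := ∑ ρ ∈ zb f c R₁, analyticOrderNatAt f ρ with hn
  have h4 : ‖f c‖ ≤ B * ‖f c‖ * (R₁ / R₃) ^ n := by
    conv_lhs => rw [hfg c hc, norm_mul]
    refine mul_le_mul (hgB c hc) ?_ (norm_nonneg _) ((norm_nonneg _).trans (hgB c hc))
    exact bla_center h1 h13 _ (fun ρ hρ => ((mem_zb hf h0 c R₁ ρ).1 hρ).2) _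
  have h5 : (R₃ / R₁) ^ n ≤ B := by
    have h6 : (R₁ / R₃) ^ n * (R₃ / R₁) ^ n = 1 := by
      rw [← mul_pow, div_mul_div_comm, mul_comm R₁ R₃, div_self (by positivity), one_pow]
    have h7 : 1 ≤ B * (R₁ / R₃) ^ n := by
      have : ‖f c‖ * 1 ≤ ‖f c‖ * (B * (R₁ / R₃) ^ n) := by linarith
      exact le_of_mul_le_mul_left this hfc
    calc (R₃ / R₁) ^ n = 1 * (R₃ / R₁) ^ n := (one_mul _).symm
      _ ≤ (B * (R₁ / R₃) ^ n) * (R₃ / R₁) ^ n := by gcongr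
      _ = B * ((R₁ / R₃) ^ n * (R₃ / R₁) ^ n) := by ring
      _ = B := by rw [h6, mul_one]
  have h8 := Real.log_le_log (by positivity) h5
  rw [Real.log_pow] at h8
  have h9 : (∑ ρ ∈ zb f c R₁, mlt f ρ) = (n : ℝ) := by
    rw [hn]; push_cast; rfl
  rw [h9]
  exact h8

/-- a logarithm on a ball -/
theorem exists_log {g : ℂ → ℂ} {c : ℂ} {R : ℝ} (hR : 0 < R) (hg : DifferentiableOn ℂ g (ball c R))
    (hg0 : ∀ z ∈ ball c R, g z ≠ 0) :
    ∃ h : ℂ → ℂ, DifferentiableOn ℂ h (ball c R) ∧ h c = 0 ∧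
      (∀ z ∈ ball c R, HasDerivAt h (logDeriv g z) z) ∧
      ∀ z ∈ ball c R, g z = g c * cexp (h z) := by
  have hcb : c ∈ ball c R := mem_ball_self hR
  have h1 : DifferentiableOn ℂ (logDeriv g) (ball c R) := by
    have h2 : DifferentiableOn ℂ (deriv g) (ball c R) := hg.deriv isOpen_ball
    exact h2.div hg hg0
  obtain ⟨h, hc, hh⟩ := h1.isExactOn_ball.with_val_at c 0
  have hd : DifferentiableOn ℂ h (ball c R) := fun z hz =>
    (hh z hz).differentiableAt.differentiableWithinAt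
  refine ⟨h, hd, hc, hh, ?_⟩
  have hG : ∀ z ∈ ball c R, HasDerivAt (fun w => g w * cexp (-(h w))) 0 z := by
    intro z hz
    have hgz : HasDerivAt g (deriv g z) z :=
      (hg.differentiableAt (isOpen_ball.mem_nhds hz)).hasDerivAt
    have h4 : HasDerivAt (fun w => g w * cexp (-(h w))) _ z := hgz.mul ((hh z hz).neg.cexp)
    refine h4.congr_deriv ?_
    rw [logDeriv_apply]
    have := hg0 z hz
    simp only [Pi.neg_apply]
    field_simp
    ring
  intro z hz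
  have h4 := (convex_ball c R).is_const_of_fderivWithin_eq_zero (𝕜 := ℂ)
    (f := fun w => g w * cexp (-(h w))) (x := z) (y := c)
    (fun z hz => (hG z hz).differentiableAt.differentiableWithinAt) (by
      intro z hz
      have h3 := (hG z hz).hasFDerivAt
      rw [h3.hasFDerivWithinAt.fderivWithin (isOpen_ball.uniqueDiffWithinAt hz)]
      ext; simp) hz hcb
  simp only [hc, neg_zero, Complex.exp_zero, mul_one] at h4
  rw [← h4, mul_assoc, ← Complex.exp_add]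
  simp

theorem iterD_inv_sub (j : ℕ) (ρ c : ℂ) :
    iteratedDeriv j (fun z : ℂ => (z - ρ)⁻¹) c = (-1) ^ j * j.factorial / (c - ρ) ^ (j + 1) := by
  have h := congrFun (iter_deriv_inv_linear j (1 : ℂ) (-ρ)) c
  rw [iteratedDeriv_eq_iterate]
  have h2 : (fun z : ℂ => (1 * z + -ρ)⁻¹) = fun z : ℂ => (z - ρ)⁻¹ := by
    funext z; rw [one_mul, sub_eq_add_neg]
  rw [h2] at h
  rw [h, one_pow, mul_one, one_mul, ← sub_eq_add_neg]
  have h3 : (-1 - (j : ℤ)) = -((j + 1 : ℕ) : ℤ) := by push_cast; ring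
  rw [h3, zpow_neg, zpow_natCast, div_eq_mul_inv]

theorem iterD_inv_lin (j : ℕ) (a b c : ℂ) :
    iteratedDeriv j (fun z : ℂ => (b - a * (z - c))⁻¹) c = j.factorial * a ^ j / b ^ (j + 1) := by
  have h := congrFun (iter_deriv_inv_linear j (-a) (b + a * c)) c
  rw [iteratedDeriv_eq_iterate]
  have h2 : (fun z : ℂ => (-a * z + (b + a * c))⁻¹) = fun z : ℂ => (b - a * (z - c))⁻¹ := by
    funext z; congr 1; ring
  rw [h2] at h
  rw [h]
  have h3 : (-1 - (j : ℤ)) = -((j + 1 : ℕ) : ℤ) := by push_cast; ring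
  have h4 : -a * c + (b + a * c) = b := by ring
  rw [h3, h4, zpow_neg, zpow_natCast, div_eq_mul_inv]
  have h5 : ((-1 : ℂ)) ^ j * (-a) ^ j = a ^ j := by rw [← mul_pow]; ring
  calc (-1 : ℂ) ^ j * (j ! : ℂ) * (-a) ^ j * (b ^ (j + 1))⁻¹
      = (j ! : ℂ) * ((-1 : ℂ) ^ j * (-a) ^ j) * (b ^ (j + 1))⁻¹ := by ring
    _ = _ := by rw [h5]

theorem logDeriv_bfac {c : ℂ} {R : ℝ} (hR : 0 < R) {ρ z : ℂ} (hz : z ≠ ρ)
    (hd : (R : ℂ) ^ 2 - conj (ρ - c) * (z - c) ≠ 0) :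
    logDeriv (bfac c R ρ) z = (z - ρ)⁻¹ +
      conj (ρ - c) * ((R : ℂ) ^ 2 - conj (ρ - c) * (z - c))⁻¹ := by
  have hRc : (R : ℂ) ≠ 0 := by exact_mod_cast hR.ne'
  have hz' : z - ρ ≠ 0 := sub_ne_zero.2 hz
  have e1 : HasDerivAt (fun w : ℂ => (R : ℂ) * (w - ρ)) (R * 1) z :=
    ((hasDerivAt_id z).sub_const ρ).const_mul _
  have e2 : HasDerivAt (fun w : ℂ => (R : ℂ) ^ 2 - conj (ρ - c) * (w - c))
      (-(conj (ρ - c) * 1)) z :=
    (((hasDerivAt_id z).sub_const c).const_mul _).const_sub _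
  have e3 := e1.div e2 hd
  rw [logDeriv_apply]
  have e4 : deriv (bfac c R ρ) z = _ := e3.deriv
  rw [e4]
  unfold bfac
  simp only [map_sub] at hd ⊢
  field_simp
  ring

/-- the Taylor coefficients of the logarithmic derivative -/
theorem logDeriv_coeff {f : ℂ → ℂ} (hf : Differentiable ℂ f) {c : ℂ} (h0 : f c ≠ 0)
    {r R₁ R₃ B : ℝ} (hr : 0 < r) (hr1 : r < R₁) (h13 : R₁ < R₃) (hB1 : 1 ≤ B)
    (hB : ∀ z ∈ closedBall c R₃, ‖f z‖ ≤ B * ‖f c‖) (j : ℕ) :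
    ‖iteratedDeriv j (logDeriv f) c / (j.factorial : ℂ) -
        (-1) ^ j * ∑ ρ ∈ zb f c R₁, (mlt f ρ : ℂ) / (c - ρ) ^ (j + 1)‖ ≤
      2 * (j + 1) * Real.log B / ((R₁ - r) * r ^ j) +
        (∑ ρ ∈ zb f c R₁, mlt f ρ) / R₃ ^ (j + 1) := by
  have h1 : 0 < R₁ := hr.trans hr1
  have h3 : 0 < R₃ := h1.trans h13
  have hr1' : 0 < R₁ - r := by linarith
  have hfact : (j.factorial : ℂ) ≠ 0 := by exact_mod_cast j.factorial_ne_zero
  have hfc : 0 < ‖f c‖ := norm_pos_iff.2 h0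
  obtain ⟨g, hg, hg0, hfg, hgB⟩ := bla_bound hf h0 h1 h13 hB
  have hc1 : c ∈ closedBall c R₁ := mem_closedBall_self h1.le
  have hc3 : c ∈ closedBall c R₃ := mem_closedBall_self h3.le
  have hgc : ‖f c‖ ≤ ‖g c‖ := by
    rw [hfg c hc3, norm_mul]
    have h4 := bla_center h1 h13 (zb f c R₁)
      (fun ρ hρ => ((mem_zb hf h0 c R₁ ρ).1 hρ).2) (analyticOrderNatAt f)
    have h5 : (R₁ / R₃) ^ (∑ ρ ∈ zb f c R₁, analyticOrderNatAt f ρ) ≤ 1 :=
      pow_le_one₀ (by positivity) (by rw [div_le_one h3]; exact h13.le)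
    exact mul_le_of_le_one_right (norm_nonneg _) (h4.trans h5)
  have hgcpos : 0 < ‖g c‖ := hfc.trans_le hgc
  have hgd : DifferentiableOn ℂ g (ball c R₁) :=
    hg.differentiableOn.mono (ball_subset_closedBall.trans (closedBall_subset_closedBall h13.le))
  obtain ⟨h, hhd, hhc, hhder, hexp⟩ := exists_log h1 hgd
    (fun z hz => hg0 z (ball_subset_closedBall hz))
  have hre : ∀ z ∈ ball c R₁, (h z).re ≤ Real.log B := by
    intro z hz
    have hz3 : z ∈ closedBall c R₃ :=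
      closedBall_subset_closedBall h13.le (ball_subset_closedBall hz)
    have h4 := hgB z hz3
    rw [hexp z hz, norm_mul, Complex.norm_exp] at h4
    have h5 : ‖g c‖ * Real.exp (h z).re ≤ ‖g c‖ * B := by
      calc ‖g c‖ * Real.exp (h z).re ≤ B * ‖f c‖ := h4
        _ ≤ B * ‖g c‖ := by gcongr
        _ = ‖g c‖ * B := mul_comm _ _
    have h6 := le_of_mul_le_mul_left h5 hgcpos
    exact (Real.le_log_iff_exp_le (by linarith)).2 h6
  -- Borel-Caratheodory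
  have hBC : ∀ M : ℝ, 0 < M → Real.log B ≤ M → ∀ z ∈ sphere c r,
      ‖h z‖ ≤ 2 * M * r / (R₁ - r) := by
    intro M hM hBM z hz
    have hz' : ‖z - c‖ = r := by rwa [mem_sphere, dist_eq_norm] at hz
    have hmem : z - c ∈ ball (0 : ℂ) R₁ := by
      rw [mem_ball_zero_iff, hz']; exact hr1
    have hmaps : ∀ w ∈ ball (0 : ℂ) R₁, w + c ∈ ball c R₁ := by
      intro w hw
      rw [mem_ball_zero_iff] at hw
      rw [mem_ball, dist_eq_norm]
      simpa using hw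
    have h4 := Complex.borelCaratheodory_zero (f := fun w => h (w + c)) hM
      (by
        refine hhd.comp ?_ hmaps
        exact (differentiable_id.add_const c).differentiableOn)
      (by
        intro w hw
        exact (hre _ (hmaps w hw)).trans hBM) h1 hmem (by simp [hhc])
    simpa [hz'] using h4
  have hcauchy : ∀ M : ℝ, 0 < M → Real.log B ≤ M →
      ‖iteratedDeriv j (logDeriv g) c / (j.factorial : ℂ)‖ ≤
        2 * (j + 1) * M / ((R₁ - r) * r ^ j) := by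
    intro M hM hBM
    have h4 := Complex.norm_iteratedDeriv_le_of_forall_mem_sphere_norm_le (j + 1) hr
      (f := h) (c := c) (C := 2 * M * r / (R₁ - r)) (by
        refine DifferentiableOn.diffContOnCl ?_
        rw [closure_ball c hr.ne']
        exact hhd.mono (closedBall_subset_ball hr1)) (hBC M hM hBM)
    have h5 : iteratedDeriv (j + 1) h c = iteratedDeriv j (logDeriv g) c := by
      rw [iteratedDeriv_succ']
      refine Filter.EventuallyEq.iteratedDeriv_eq j ?_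
      filter_upwards [isOpen_ball.mem_nhds (mem_ball_self h1)] with z hz
      exact (hhder z hz).deriv
    rw [h5] at h4
    rw [norm_div]
    have h6 : ‖(j.factorial : ℂ)‖ = (j.factorial : ℝ) := by simp
    rw [h6]
    have h7 : (0 : ℝ) < j.factorial := by exact_mod_cast j.factorial_pos
    rw [div_le_iff₀ h7]
    refine h4.trans (le_of_eq ?_)
    rw [Nat.factorial_succ]
    push_cast
    field_simp
    ring
  -- the logarithmic derivative of `f`
  have hlog : logDeriv f =ᶠ[𝓝 c] fun z => logDeriv g z + ∑ ρ ∈ zb f c R₁,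
      (mlt f ρ : ℂ) * ((z - ρ)⁻¹ +
        conj (ρ - c) * ((R₃ : ℂ) ^ 2 - conj (ρ - c) * (z - c))⁻¹) := by
    have hne : ∀ᶠ z in 𝓝 c, f z ≠ 0 := (hf.continuous.continuousAt).eventually_ne h0
    filter_upwards [hne.and (isOpen_ball.mem_nhds (mem_ball_self h1))] with z hz
    obtain ⟨hfz, hz1⟩ := hz
    have hz3 : z ∈ ball c R₃ := ball_subset_ball h13.le hz1
    have hev : f =ᶠ[𝓝 z] fun w => g w * ∏ ρ ∈ zb f c R₁,
        (bfac c R₃ ρ w) ^ analyticOrderNatAt f ρ := by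
      filter_upwards [isOpen_ball.mem_nhds hz3] with w hw
      exact hfg w (ball_subset_closedBall hw)
    have hdenz : ∀ ρ ∈ zb f c R₁, (R₃ : ℂ) ^ 2 - conj (ρ - c) * (z - c) ≠ 0 := fun ρ hρ =>
      bla_den h1 h13 ((mem_zb hf h0 c R₁ ρ).1 hρ).2 (ball_subset_closedBall hz3)
    have hzρ : ∀ ρ ∈ zb f c R₁, z ≠ ρ := by
      rintro ρ hρ rfl
      exact hfz ((mem_zb hf h0 c R₁ z).1 hρ).1
    have hbd : ∀ ρ ∈ zb f c R₁, DifferentiableAt ℂ (bfac c R₃ ρ) z := by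
      intro ρ hρ
      have h9 := hdenz ρ hρ
      unfold bfac
      exact DifferentiableAt.div (by fun_prop) (by fun_prop) h9
    have hbne : ∀ ρ ∈ zb f c R₁, bfac c R₃ ρ z ≠ 0 := by
      intro ρ hρ
      unfold bfac
      refine div_ne_zero (mul_ne_zero (by exact_mod_cast h3.ne') (sub_ne_zero.2 (hzρ ρ hρ)))
        (hdenz ρ hρ)
    rw [(logDeriv_congr_nhds hev).eq_of_nhds]
    have e5 := logDeriv_mul (f := g) (g := fun w => ∏ ρ ∈ zb f c R₁,
        (bfac c R₃ ρ w) ^ analyticOrderNatAt f ρ) z (hg0 z (ball_subset_closedBall hz1))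
      (Finset.prod_ne_zero_iff.2 fun ρ hρ => pow_ne_zero _ (hbne ρ hρ))
      (hg z (ball_subset_closedBall hz3)).differentiableAt
      (.fun_finsetProd fun ρ hρ => (hbd ρ hρ).fun_pow _)
    rw [e5]
    congr 1
    rw [logDeriv_prod (f := fun ρ w => (bfac c R₃ ρ w) ^ analyticOrderNatAt f ρ)
      (fun ρ hρ => pow_ne_zero _ (hbne ρ hρ)) (fun ρ hρ => (hbd ρ hρ).fun_pow _)]
    refine Finset.sum_congr rfl fun ρ hρ => ?_
    rw [logDeriv_fun_pow (hbd ρ hρ), logDeriv_bfac h3 (hzρ ρ hρ) (hdenz ρ hρ)]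
    unfold mlt
    push_cast
    rfl
  have hgan : ContDiffAt ℂ j (logDeriv g) c := by
    have h4 : AnalyticAt ℂ (logDeriv g) c := by
      have h5 := hg c hc3
      exact h5.deriv.div h5 (hg0 c hc1)
    exact h4.contDiffAt
  have hcρ : ∀ ρ ∈ zb f c R₁, c - ρ ≠ 0 := by
    intro ρ hρ h
    have : c = ρ := sub_eq_zero.1 h
    subst this
    exact h0 ((mem_zb hf h0 c R₁ c).1 hρ).1
  have hR3c : (R₃ : ℂ) ^ 2 ≠ 0 := pow_ne_zero _ (by exact_mod_cast h3.ne')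
  have hcd1 : ∀ ρ ∈ zb f c R₁, ContDiffAt ℂ j (fun z : ℂ => (z - ρ)⁻¹) c := by
    intro ρ hρ
    exact ContDiffAt.inv (by fun_prop) (hcρ ρ hρ)
  have hcd2 : ∀ ρ ∈ zb f c R₁, ContDiffAt ℂ j
      (fun z : ℂ => conj (ρ - c) * ((R₃ : ℂ) ^ 2 - conj (ρ - c) * (z - c))⁻¹) c := by
    intro ρ hρ
    refine ContDiffAt.mul contDiffAt_const (ContDiffAt.inv (by fun_prop) ?_)
    simpa using hR3c
  have hder : iteratedDeriv j (logDeriv f) c = iteratedDeriv j (logDeriv g) c +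
      ∑ ρ ∈ zb f c R₁, (mlt f ρ : ℂ) * ((-1) ^ j * j.factorial / (c - ρ) ^ (j + 1) +
        conj (ρ - c) * (j.factorial * conj (ρ - c) ^ j / ((R₃ : ℂ) ^ 2) ^ (j + 1))) := by
    rw [hlog.iteratedDeriv_eq j]
    rw [iteratedDeriv_fun_add hgan]
    · congr 1
      rw [iteratedDeriv_fun_sum]
      · refine Finset.sum_congr rfl fun ρ hρ => ?_
        rw [iteratedDeriv_const_mul_field, iteratedDeriv_fun_add (hcd1 ρ hρ) (hcd2 ρ hρ),
          iterD_inv_sub, iteratedDeriv_const_mul_field, iterD_inv_lin]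
      · intro ρ hρ
        exact contDiffAt_const.mul ((hcd1 ρ hρ).add (hcd2 ρ hρ))
    · refine ContDiffAt.sum fun ρ hρ => contDiffAt_const.mul ((hcd1 ρ hρ).add (hcd2 ρ hρ))
  have hmain : iteratedDeriv j (logDeriv f) c / (j.factorial : ℂ) -
        (-1) ^ j * ∑ ρ ∈ zb f c R₁, (mlt f ρ : ℂ) / (c - ρ) ^ (j + 1) =
      iteratedDeriv j (logDeriv g) c / (j.factorial : ℂ) +
        ∑ ρ ∈ zb f c R₁, (mlt f ρ : ℂ) *
          (conj (ρ - c) ^ (j + 1) / ((R₃ : ℂ) ^ 2) ^ (j + 1)) := by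
    rw [hder, add_div, Finset.sum_div, Finset.mul_sum, add_sub_assoc, ← Finset.sum_sub_distrib]
    congr 1
    refine Finset.sum_congr rfl fun ρ hρ => ?_
    have := hcρ ρ hρ
    field_simp
    ring
  have hsecond : ‖∑ ρ ∈ zb f c R₁, (mlt f ρ : ℂ) *
          (conj (ρ - c) ^ (j + 1) / ((R₃ : ℂ) ^ 2) ^ (j + 1))‖ ≤
      (∑ ρ ∈ zb f c R₁, mlt f ρ) / R₃ ^ (j + 1) := by
    rw [Finset.sum_div]
    refine (norm_sum_le _ _).trans (Finset.sum_le_sum fun ρ hρ => ?_)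
    have hρ2 := ((mem_zb hf h0 c R₁ ρ).1 hρ).2
    rw [mem_closedBall, dist_eq_norm] at hρ2
    rw [norm_mul, norm_div, norm_pow, norm_pow, norm_pow, RCLike.norm_conj, Complex.norm_real,
      Complex.norm_real, Real.norm_eq_abs, Real.norm_eq_abs, abs_of_pos h3,
      abs_of_nonneg (mlt_nonneg f ρ), div_eq_mul_inv (mlt f ρ)]
    refine mul_le_mul_of_nonneg_left ?_ (mlt_nonneg f ρ)
    rw [div_le_iff₀ (by positivity)]
    calc ‖ρ - c‖ ^ (j + 1) ≤ R₃ ^ (j + 1) := by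
          gcongr
          linarith
      _ = (R₃ ^ (j + 1))⁻¹ * (R₃ ^ 2) ^ (j + 1) := by
          field_simp
          ring
  rw [hmain]
  refine (norm_add_le _ _).trans (add_le_add ?_ hsecond)
  -- let `M` tend to `log B`
  have hlogB : 0 ≤ Real.log B := Real.log_nonneg hB1
  have hA : 0 < 2 * ((j : ℝ) + 1) / ((R₁ - r) * r ^ j) := by positivity
  refine le_of_forall_pos_le_add fun ε hε => ?_
  have h4 := hcauchy (Real.log B + ε / (2 * ((j : ℝ) + 1) / ((R₁ - r) * r ^ j)))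
    (by positivity) (by
      have : 0 < ε / (2 * ((j : ℝ) + 1) / ((R₁ - r) * r ^ j)) := by positivity
      linarith)
  refine h4.trans (le_of_eq ?_)
  field_simp

end Pool.Agent.GA
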