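import Pool.Agent.Lib_helper98.GA.Defs

/-! # TPO: the interpolating polynomial -/

set_option autoImplicit false

namespace Pool.Agent.GA

open Finset Polynomial Complex Metric

theorem tpo_coeff {ι : Type*} [DecidableEq ι] (s : Finset ι) (z : ι → ℂ) (hz : ∀ i ∈ s, ‖z i‖ ≤ 1) (M : ℕ) :
    ∑ l ∈ range M, ‖(∏ i ∈ s, (X - C (z i)) : ℂ[X]).coeff l‖ ≤ 2 ^ s.card := by
  induction s using Finset.induction_on with
  | empty =>
    simp only [prod_empty, card_empty, pow_zero]
    calc ∑ l ∈ range M, ‖(1 : ℂ[X]).coeff l‖ ≤ ∑ l ∈ range (M + 1), ‖(1 : ℂ[X]).coeff l‖ := by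
          refine sum_le_sum_of_subset_of_nonneg (range_subset_range.2 (by omega)) fun _ _ _ => norm_nonneg _
      _ = 1 := by
          rw [Finset.sum_range_succ']
          simp [Polynomial.coeff_one]
  | insert i s hi ih =>
    rw [Finset.prod_insert hi, Finset.card_insert_of_notMem hi, pow_succ]
    set P : ℂ[X] := ∏ i ∈ s, (X - C (z i)) with hP
    have ih' := ih fun j hj => hz j (Finset.mem_insert_of_mem hj)
    have h1 : ∀ l : ℕ, ‖((X - C (z i)) * P).coeff l‖ ≤
        (if l = 0 then 0 else ‖P.coeff (l - 1)‖) + ‖P.coeff l‖ := by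
      intro l
      rw [sub_mul, coeff_sub, coeff_C_mul]
      refine (norm_sub_le _ _).trans (add_le_add ?_ ?_)
      · rcases l with _ | l
        · simp
        · rw [coeff_X_mul]; simp
      · rw [norm_mul]
        exact mul_le_of_le_one_left (norm_nonneg _) (hz i (Finset.mem_insert_self i s))
    have h2 : ∑ l ∈ range M, (if l = 0 then 0 else ‖P.coeff (l - 1)‖) ≤
        ∑ l ∈ range M, ‖P.coeff l‖ := by
      rcases M with _ | M
      · simp
      · rw [Finset.sum_range_succ']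
        simp only [if_true, add_zero, Nat.succ_ne_zero, if_false, Nat.add_sub_cancel]
        rw [Finset.sum_range_succ]
        have := norm_nonneg (P.coeff M)
        linarith
    calc ∑ l ∈ range M, ‖((X - C (z i)) * P).coeff l‖
        ≤ ∑ l ∈ range M, ((if l = 0 then 0 else ‖P.coeff (l - 1)‖) + ‖P.coeff l‖) :=
          Finset.sum_le_sum fun l _ => h1 l
      _ = ∑ l ∈ range M, (if l = 0 then 0 else ‖P.coeff (l - 1)‖) +
          ∑ l ∈ range M, ‖P.coeff l‖ := Finset.sum_add_distrib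
      _ ≤ 2 ^ s.card * 2 := by linarith

/-- the residue computation -/
theorem tpo_residue {r : ℝ} (hr : 0 < r) {z : ℂ} (hz : ‖z‖ ≠ r) (m : ℕ) :
    ∮ ζ in C(0, r), z ^ (m + 1) * ((ζ ^ (m + 1))⁻¹ * (ζ - z)⁻¹) =
      (2 * Real.pi * I) * ((if r < ‖z‖ then 0 else 1) - 1) := by
  have hne : ∀ ζ ∈ sphere (0 : ℂ) r, ζ ≠ 0 ∧ ζ - z ≠ 0 := by
    intro ζ hζ
    rw [mem_sphere_zero_iff_norm] at hζ
    constructor
    · rintro rfl; simp at hζ; linarith
    · intro h
      rw [sub_eq_zero.1 h] at hζ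
      exact hz hζ
  have h1 : Set.EqOn (fun ζ : ℂ => z ^ (m + 1) * ((ζ ^ (m + 1))⁻¹ * (ζ - z)⁻¹))
      (fun ζ => (ζ - z)⁻¹ - ∑ i ∈ range (m + 1), z ^ i * (ζ - 0) ^ (-((i : ℤ) + 1)))
      (sphere 0 r) := by
    intro ζ hζ
    obtain ⟨h0, h0'⟩ := hne ζ hζ
    simp only [sub_zero]
    have h2 : ∑ i ∈ range (m + 1), z ^ i * ζ ^ (-((i : ℤ) + 1)) =
        (∑ i ∈ range (m + 1), z ^ i * ζ ^ (m + 1 - 1 - i)) * (ζ ^ (m + 1))⁻¹ := by
      rw [Finset.sum_mul]
      refine Finset.sum_congr rfl fun i hi => ?_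
      rw [mem_range] at hi
      rw [mul_assoc]
      congr 1
      have e1 : (-((i : ℤ) + 1)) = ((m + 1 - 1 - i : ℕ) : ℤ) - ((m + 1 : ℕ) : ℤ) := by
        push_cast [Nat.sub_sub, Nat.cast_sub (show i ≤ m by omega)]
        have : ((m + 1 - (1 + i) : ℕ) : ℤ) = m - i := by
          have h3 : m + 1 - (1 + i) = m - i := by omega
          rw [h3, Nat.cast_sub (by omega)]
        omega
      rw [e1, zpow_sub₀ h0, zpow_natCast, zpow_natCast, div_eq_mul_inv]
    rw [h2]
    have h3 := geom_sum₂_mul z ζ (m + 1)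
    have h4 : (∑ i ∈ range (m + 1), z ^ i * ζ ^ (m + 1 - 1 - i)) =
        (ζ ^ (m + 1) - z ^ (m + 1)) * (ζ - z)⁻¹ := by
      have h5 : z - ζ ≠ 0 := by
        intro h; apply h0'; rw [← neg_sub, h, neg_zero]
      have h6 : (ζ - z)⁻¹ = -(z - ζ)⁻¹ := by rw [← neg_sub z ζ, inv_neg]
      have h8 := congrArg (fun w => w * (z - ζ)⁻¹) h3
      simp only [mul_assoc, mul_inv_cancel₀ h5, mul_one] at h8
      rw [h8, h6]; ring
    rw [h4]
    have h7 : ζ ^ (m + 1) ≠ 0 := pow_ne_zero _ h0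
    field_simp
    ring
  rw [circleIntegral.integral_congr hr.le h1]
  have hint1 : CircleIntegrable (fun ζ : ℂ => (ζ - z)⁻¹) 0 r := by
    refine ContinuousOn.circleIntegrable hr.le ?_
    exact (continuousOn_id.sub continuousOn_const).inv₀ fun ζ hζ => (hne ζ hζ).2
  have hint2 : ∀ i ∈ range (m + 1), CircleIntegrable
      (fun ζ : ℂ => z ^ i * (ζ - 0) ^ (-((i : ℤ) + 1))) 0 r := by
    intro i _
    refine ContinuousOn.circleIntegrable hr.le ?_
    refine continuousOn_const.mul ?_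
    refine ContinuousOn.zpow₀ (continuousOn_id.sub continuousOn_const) _ fun ζ hζ => ?_
    left
    simpa using (hne ζ hζ).1
  have hint3 : CircleIntegrable
      (fun ζ : ℂ => ∑ i ∈ range (m + 1), z ^ i * (ζ - 0) ^ (-((i : ℤ) + 1))) 0 r := by
    refine ContinuousOn.circleIntegrable hr.le ?_
    refine continuousOn_finsetSum _ fun i _ => ?_
    refine continuousOn_const.mul ?_
    refine ContinuousOn.zpow₀ (continuousOn_id.sub continuousOn_const) _ fun ζ hζ => ?_
    left
    simpa using (hne ζ hζ).1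
  rw [circleIntegral.integral_sub hint1 hint3]
  have hsum : ∮ ζ in C(0, r), ∑ i ∈ range (m + 1), z ^ i * (ζ - 0) ^ (-((i : ℤ) + 1)) =
      2 * Real.pi * I := by
    rw [circleIntegral.integral_fun_sum hint2]
    rw [Finset.sum_range_succ']
    have h8 : ∀ i ∈ range m, ∮ ζ in C(0, r), z ^ (i + 1) * (ζ - 0) ^ (-(((i + 1 : ℕ) : ℤ) + 1)) =
        0 := by
      intro i _
      rw [circleIntegral.integral_const_mul, circleIntegral.integral_sub_zpow_of_ne, mul_zero]
      push_cast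
      omega
    rw [Finset.sum_eq_zero h8, zero_add, circleIntegral.integral_const_mul]
    have h9 : (fun ζ : ℂ => (ζ - 0) ^ (-(((0 : ℕ) : ℤ) + 1))) = fun ζ : ℂ => (ζ - 0)⁻¹ := by
      funext ζ
      simp
    rw [h9, circleIntegral.integral_sub_center_inv _ hr.ne']
    simp
  rw [hsum]
  split_ifs with hzr
  · have h10 : ∮ ζ in C(0, r), (ζ - z)⁻¹ = 0 := by
      refine Complex.circleIntegral_eq_zero_of_differentiable_on_off_countable hr.le
        Set.countable_empty ?_ ?_
      · refine (continuousOn_id.sub continuousOn_const).inv₀ fun ζ hζ => ?_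
        intro h
        rw [mem_closedBall_zero_iff] at hζ
        rw [show ζ = z from sub_eq_zero.1 h] at hζ
        linarith
      · intro ζ hζ
        have hζ := hζ.1
        rw [mem_ball_zero_iff] at hζ
        refine DifferentiableAt.inv (by fun_prop) ?_
        intro h
        rw [show ζ = z from sub_eq_zero.1 h] at hζ
        linarith
    rw [h10]; ring
  · have h11 : z ∈ ball (0 : ℂ) r := by
      rw [mem_ball_zero_iff]
      exact lt_of_le_of_ne (not_lt.1 hzr) hz
    rw [circleIntegral.integral_sub_inv_of_mem_ball h11]; ring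

theorem turan_poly {n m : ℕ} (hn : 1 ≤ n) (z : Fin n → ℂ) (hz : ∀ i, ‖z i‖ ≤ 1) {r : ℝ}
    (hr : 0 < r) (hr1 : r ≤ 1) (hzr : ∀ i, ‖z i‖ ≠ r) :
    ∃ a : ℕ → ℂ, (∀ i, ∑ k ∈ Icc (m + 1) (m + n), a k * z i ^ k = if r < ‖z i‖ then 1 else 0) ∧
      ∑ k ∈ Icc (m + 1) (m + n), ‖a k‖ ≤ n * 2 ^ n * (r⁻¹) ^ m / ∏ i, |r - ‖z i‖| := by
  classical
  set Q : ℂ[X] := ∏ i, (X - C (z i)) with hQ
  have hQe : ∀ ζ : ℂ, Q.eval ζ = ∏ i, (ζ - z i) := by
    intro ζ
    rw [hQ, eval_prod]
    simp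
  have hdeg : Q.natDegree = n := by
    rw [hQ, natDegree_prod_of_monic _ _ fun i _ => monic_X_sub_C _]
    simp
  set B : ℝ := ∏ i, |r - ‖z i‖| with hB
  have hB0 : 0 < B := by
    refine Finset.prod_pos fun i _ => abs_pos.2 ?_
    intro h
    exact hzr i (by linarith)
  have hQlow : ∀ ζ ∈ sphere (0 : ℂ) r, B ≤ ‖Q.eval ζ‖ := by
    intro ζ hζ
    rw [mem_sphere_zero_iff_norm] at hζ
    rw [hQe, norm_prod, hB]
    refine Finset.prod_le_prod (fun i _ => abs_nonneg _) fun i _ => ?_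
    rw [← hζ]
    exact abs_norm_sub_norm_le ζ (z i)
  have hQne : ∀ ζ ∈ sphere (0 : ℂ) r, Q.eval ζ ≠ 0 := fun ζ hζ =>
    norm_pos_iff.1 (hB0.trans_le (hQlow ζ hζ))
  have hζ0 : ∀ ζ ∈ sphere (0 : ℂ) r, ζ ≠ 0 := by
    intro ζ hζ h
    rw [h, mem_sphere_zero_iff_norm, norm_zero] at hζ
    linarith
  set J : ℕ → ℂ := fun e => -(2 * Real.pi * I)⁻¹ *
    ∮ ζ in C(0, r), ζ ^ e * ((ζ ^ (m + 1))⁻¹ * (Q.eval ζ)⁻¹) with hJ
  have hpi : (2 * (Real.pi : ℂ) * I) ≠ 0 := by
    simp [Real.pi_ne_zero]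
  have hJb : ∀ e, ‖J e‖ ≤ (r⁻¹) ^ m / B := by
    intro e
    have h1 : ‖(2 * (Real.pi : ℂ) * I)⁻¹ *
        ∮ ζ in C(0, r), ζ ^ e * ((ζ ^ (m + 1))⁻¹ * (Q.eval ζ)⁻¹)‖ ≤
          r * ((r⁻¹) ^ (m + 1) / B) := by
      have h2 := circleIntegral.norm_two_pi_i_inv_smul_integral_le_of_norm_le_const
        (f := fun ζ : ℂ => ζ ^ e * ((ζ ^ (m + 1))⁻¹ * (Q.eval ζ)⁻¹)) (c := 0)
        (C := (r⁻¹) ^ (m + 1) / B) hr.le ?_
      · simpa [smul_eq_mul] using h2
      · intro ζ hζ
        have hn1 : ‖ζ‖ = r := mem_sphere_zero_iff_norm.1 hζ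
        rw [norm_mul, norm_mul, norm_inv, norm_inv, norm_pow, norm_pow, hn1]
        have h3 : r ^ e ≤ 1 := pow_le_one₀ hr.le hr1
        have h4 : ‖Q.eval ζ‖⁻¹ ≤ B⁻¹ := inv_anti₀ hB0 (hQlow ζ hζ)
        calc r ^ e * ((r ^ (m + 1))⁻¹ * ‖Q.eval ζ‖⁻¹) ≤ 1 * ((r ^ (m + 1))⁻¹ * B⁻¹) := by gcongr
          _ = _ := by rw [one_mul, inv_pow, div_eq_mul_inv]
    rw [hJ]
    simp only [neg_mul, norm_neg]
    refine h1.trans (le_of_eq ?_)
    rw [pow_succ]
    field_simp
  set a : ℕ → ℂ := fun k => ∑ l ∈ range (n + 1),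
    if k - (m + 1) < l then Q.coeff l * J (l - 1 - (k - (m + 1))) else 0 with ha
  refine ⟨a, ?_, ?_⟩
  · intro i
    have hIcc : Icc (m + 1) (m + n) = (range n).image (fun k => m + 1 + k) := by
      ext k
      simp only [mem_Icc, mem_image, mem_range]
      constructor
      · intro h; exact ⟨k - (m + 1), by omega, by omega⟩
      · rintro ⟨k', hk', rfl⟩; omega
    rw [hIcc, Finset.sum_image (fun x _ y _ h => by simpa using h)]
    have hak : ∀ k, a (m + 1 + k) = ∑ l ∈ range (n + 1),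
        if k < l then Q.coeff l * J (l - 1 - k) else 0 := by
      intro k
      rw [ha]
      simp only [Nat.add_sub_cancel_left]
    simp_rw [hak]
    -- the polynomial
    have h1 : ∑ k ∈ range n, (∑ l ∈ range (n + 1), if k < l then Q.coeff l * J (l - 1 - k) else 0) *
        z i ^ (m + 1 + k) = z i ^ (m + 1) * ∑ l ∈ range (n + 1), ∑ k ∈ range l,
          Q.coeff l * (J (l - 1 - k) * z i ^ k) := by
      rw [Finset.mul_sum]
      simp_rw [Finset.sum_mul]
      rw [Finset.sum_comm]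
      refine Finset.sum_congr rfl fun l hl => ?_
      rw [mem_range] at hl
      have h2 : range l = (range n).filter (fun k => k < l) := by
        ext k
        simp only [mem_range, mem_filter]
        omega
      rw [h2, Finset.sum_filter, Finset.mul_sum]
      refine Finset.sum_congr rfl fun k _ => ?_
      split_ifs
      · rw [pow_add]; ring
      · simp
    rw [h1]
    have h2 : z i ^ (m + 1) * ∑ l ∈ range (n + 1), ∑ k ∈ range l,
          Q.coeff l * (J (l - 1 - k) * z i ^ k) =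
        -(2 * Real.pi * I)⁻¹ * ∮ ζ in C(0, r), z i ^ (m + 1) * ((ζ ^ (m + 1))⁻¹ * (ζ - z i)⁻¹) := by
      have hint : ∀ (e : ℕ) (w : ℂ), CircleIntegrable
          (fun ζ : ℂ => w * (ζ ^ e * ((ζ ^ (m + 1))⁻¹ * (Q.eval ζ)⁻¹))) 0 r := by
        intro e w
        refine ContinuousOn.circleIntegrable hr.le ?_
        refine continuousOn_const.mul ((continuous_pow e).continuousOn.mul ?_)
        refine ContinuousOn.mul ?_ ?_
        · exact (continuous_pow (m + 1)).continuousOn.inv₀ fun ζ hζ => pow_ne_zero _ (hζ0 ζ hζ)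
        · exact Q.continuous.continuousOn.inv₀ fun ζ hζ => hQne ζ hζ
      have h3 : Set.EqOn (fun ζ : ℂ => z i ^ (m + 1) * ((ζ ^ (m + 1))⁻¹ * (ζ - z i)⁻¹))
          (fun ζ => ∑ l ∈ range (n + 1), ∑ k ∈ range l, (z i ^ (m + 1) * (Q.coeff l * z i ^ k)) *
            (ζ ^ (l - 1 - k) * ((ζ ^ (m + 1))⁻¹ * (Q.eval ζ)⁻¹))) (sphere 0 r) := by
        intro ζ hζ
        have hζi : ζ - z i ≠ 0 := by
          intro h
          have h5 := mem_sphere_zero_iff_norm.1 hζ
          rw [show ζ = z i from sub_eq_zero.1 h] at h5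
          exact hzr i h5
        have hzi : z i - ζ ≠ 0 := by
          intro h; apply hζi; rw [← neg_sub, h, neg_zero]
        have hQi : Q.eval (z i) = 0 := by
          rw [hQe]
          exact Finset.prod_eq_zero (Finset.mem_univ i) (sub_self _)
        have hsumQ : ∀ w : ℂ, Q.eval w = ∑ l ∈ range (n + 1), Q.coeff l * w ^ l := by
          intro w
          rw [Polynomial.eval_eq_sum_range, hdeg]
        have h4 : (∑ l ∈ range (n + 1), ∑ k ∈ range l, Q.coeff l * (z i ^ k * ζ ^ (l - 1 - k))) *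
            (z i - ζ) = -(Q.eval ζ) := by
          have h6 : -(Q.eval ζ) = Q.eval (z i) - Q.eval ζ := by rw [hQi, zero_sub]
          rw [h6, hsumQ (z i), hsumQ ζ, ← Finset.sum_sub_distrib, Finset.sum_mul]
          refine Finset.sum_congr rfl fun l _ => ?_
          rw [← Finset.mul_sum, mul_assoc, geom_sum₂_mul]
          ring
        have h5 : (∑ l ∈ range (n + 1), ∑ k ∈ range l, Q.coeff l * (z i ^ k * ζ ^ (l - 1 - k))) =
            Q.eval ζ * (ζ - z i)⁻¹ := by
          have h7 : (ζ - z i)⁻¹ = -(z i - ζ)⁻¹ := by rw [← neg_sub (z i) ζ, inv_neg]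
          rw [h7, eq_comm]
          have h8 := congrArg (fun w => w * (z i - ζ)⁻¹) h4
          simp only [mul_assoc, mul_inv_cancel₀ hzi, mul_one] at h8
          rw [h8]; ring
        have h9 := hQne ζ hζ
        calc z i ^ (m + 1) * ((ζ ^ (m + 1))⁻¹ * (ζ - z i)⁻¹)
            = z i ^ (m + 1) * ((ζ ^ (m + 1))⁻¹ * (Q.eval ζ)⁻¹) * (Q.eval ζ * (ζ - z i)⁻¹) := by
              field_simp
          _ = z i ^ (m + 1) * ((ζ ^ (m + 1))⁻¹ * (Q.eval ζ)⁻¹) *
              (∑ l ∈ range (n + 1), ∑ k ∈ range l, Q.coeff l * (z i ^ k * ζ ^ (l - 1 - k))) := by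
              rw [h5]
          _ = _ := by
              rw [Finset.mul_sum]
              refine Finset.sum_congr rfl fun l _ => ?_
              rw [Finset.mul_sum]
              refine Finset.sum_congr rfl fun k _ => ?_
              ring
      rw [circleIntegral.integral_congr hr.le h3]
      rw [circleIntegral.integral_fun_sum]
      · rw [Finset.mul_sum, Finset.mul_sum]
        refine Finset.sum_congr rfl fun l _ => ?_
        rw [circleIntegral.integral_fun_sum (fun k _ => hint _ _)]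
        rw [Finset.mul_sum, Finset.mul_sum]
        refine Finset.sum_congr rfl fun k _ => ?_
        rw [circleIntegral.integral_const_mul, hJ]
        ring
      · intro l _
        refine ContinuousOn.circleIntegrable hr.le ?_
        refine continuousOn_finsetSum _ fun k _ => ?_
        refine continuousOn_const.mul ((continuous_pow _).continuousOn.mul ?_)
        refine ContinuousOn.mul ?_ ?_
        · exact (continuous_pow (m + 1)).continuousOn.inv₀ fun ζ hζ => pow_ne_zero _ (hζ0 ζ hζ)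
        · exact Q.continuous.continuousOn.inv₀ fun ζ hζ => hQne ζ hζ
    rw [h2, tpo_residue hr (hzr i) m]
    split_ifs <;> field_simp <;> ring
  · -- the norms
    have h1 : ∀ k ∈ Icc (m + 1) (m + n), ‖a k‖ ≤ 2 ^ n * ((r⁻¹) ^ m / B) := by
      intro k _
      rw [ha]
      refine (norm_sum_le _ _).trans ?_
      have h2 : ∀ l ∈ range (n + 1),
          ‖(if k - (m + 1) < l then Q.coeff l * J (l - 1 - (k - (m + 1))) else 0 : ℂ)‖ ≤
            ‖Q.coeff l‖ * ((r⁻¹) ^ m / B) := by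
        intro l _
        split_ifs
        · rw [norm_mul]
          gcongr
          exact hJb _
        · rw [norm_zero]; positivity
      refine (Finset.sum_le_sum h2).trans ?_
      rw [← Finset.sum_mul]
      have h3 := tpo_coeff (univ : Finset (Fin n)) z (fun i _ => hz i) (n + 1)
      rw [← hQ] at h3
      simp only [card_univ, Fintype.card_fin] at h3
      gcongr
    refine (Finset.sum_le_sum h1).trans ?_
    rw [Finset.sum_const, Nat.card_Icc, nsmul_eq_mul]
    have h4 : m + n + 1 - (m + 1) = n := by omega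
    rw [h4]
    exact le_of_eq (by ring)

end Pool.Agent.GA
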