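import Pool.Agent.Lib_helper98.GAF.Tnr
import Pool.Agent.Lib_helper98.GAF.Tpo

/-! # TUR, TUZ: Turan's second main theorem -/

set_option autoImplicit false

namespace Pool.Agent.GA

open Finset Complex Metric

theorem tur_exp {n m : ℕ} (hm : 1 ≤ m) : (((m : ℝ) + n) / m) ^ m ≤ Real.exp n := by
  have hm0 : (0 : ℝ) < m := by exact_mod_cast hm
  have h1 : ((m : ℝ) + n) / m ≤ Real.exp (n / m) := by
    have := Real.add_one_le_exp ((n : ℝ) / m)
    have h2 : ((m : ℝ) + n) / m = n / m + 1 := by field_simp; ring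
    rw [h2]; exact this
  calc (((m : ℝ) + n) / m) ^ m ≤ (Real.exp (n / m)) ^ m := by gcongr
    _ = Real.exp n := by
        rw [← Real.exp_nat_mul]
        congr 1
        field_simp

theorem turan {n m : ℕ} (hn : 1 ≤ n) (hm : 1 ≤ m) (z : Fin n → ℂ) (hz : ∀ i, ‖z i‖ ≤ 1)
    (h1 : ∃ i, ‖z i‖ = 1) :
    ∃ k ∈ Icc (m + 1) (m + n), ((n : ℝ) / (100 * (m + n))) ^ n ≤ ‖∑ i, z i ^ k‖ := by
  have hn0 : (0 : ℝ) < n := by exact_mod_cast hn
  have hm0 : (0 : ℝ) < m := by exact_mod_cast hm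
  obtain ⟨r, hr1, hr2, hr3⟩ := turan_radius hn hm (fun i => ‖z i‖)
  have hr0 : 0 < r := lt_of_lt_of_le (by positivity) hr1
  set τ₀ : ℝ := ((n : ℝ) / (m + n) / (2 * Real.exp 1)) ^ n with hτ₀
  have hτ₀p : 0 < τ₀ := by positivity
  have hne : ∀ i, ‖z i‖ ≠ r := by
    intro i h
    have : ∏ i, |r - ‖z i‖| = 0 := by
      refine Finset.prod_eq_zero (Finset.mem_univ i) ?_
      rw [h, sub_self, abs_zero]
    rw [this] at hr3
    linarith
  obtain ⟨a, ha1, ha2⟩ := turan_poly (m := m) hn z hz hr0 hr2 hne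
  obtain ⟨i₀, hi₀⟩ := h1
  have hrlt : r < 1 := by
    refine lt_of_le_of_ne hr2 fun h => hne i₀ ?_
    rw [hi₀, h]
  by_contra hcon
  push Not at hcon
  set τ : ℝ := ((n : ℝ) / (100 * (m + n))) ^ n with hτ
  have hcount : (1 : ℝ) ≤ ‖∑ k ∈ Icc (m + 1) (m + n), a k * ∑ i, z i ^ k‖ := by
    have e1 : ∑ k ∈ Icc (m + 1) (m + n), a k * ∑ i, z i ^ k =
        ∑ i, (if r < ‖z i‖ then (1 : ℂ) else 0) := by
      simp_rw [Finset.mul_sum]
      rw [Finset.sum_comm]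
      exact Finset.sum_congr rfl fun i _ => ha1 i
    rw [e1]
    have e2 : ∑ i, (if r < ‖z i‖ then (1 : ℂ) else 0) =
        (((univ.filter fun i => r < ‖z i‖).card : ℝ) : ℂ) := by
      rw [Finset.sum_boole]; push_cast; rfl
    rw [e2, Complex.norm_real, Real.norm_eq_abs, Nat.abs_cast]
    have e3 : 0 < (univ.filter fun i => r < ‖z i‖).card := by
      refine Finset.card_pos.2 ⟨i₀, ?_⟩
      rw [Finset.mem_filter]
      exact ⟨Finset.mem_univ _, by rw [hi₀]; exact hrlt⟩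
    exact_mod_cast e3
  have hub : ‖∑ k ∈ Icc (m + 1) (m + n), a k * ∑ i, z i ^ k‖ ≤
      (∑ k ∈ Icc (m + 1) (m + n), ‖a k‖) * τ := by
    refine (norm_sum_le _ _).trans ?_
    rw [Finset.sum_mul]
    refine Finset.sum_le_sum fun k hk => ?_
    rw [norm_mul]
    exact mul_le_mul_of_nonneg_left (hcon k hk).le (norm_nonneg _)
  have hsum : ∑ k ∈ Icc (m + 1) (m + n), ‖a k‖ ≤
      (8 * Real.exp 1 ^ 2 * ((m + n) / n)) ^ n := by
    have e1 : (r⁻¹) ^ m ≤ Real.exp n := by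
      refine le_trans ?_ (tur_exp (n := n) hm)
      refine pow_le_pow_left₀ (by positivity) ?_ m
      have := inv_anti₀ (by positivity) hr1
      rwa [inv_div] at this
    have e2 : (n : ℝ) ≤ 2 ^ n := by exact_mod_cast (Nat.lt_two_pow_self (n := n)).le
    calc ∑ k ∈ Icc (m + 1) (m + n), ‖a k‖ ≤ n * 2 ^ n * (r⁻¹) ^ m / ∏ i, |r - ‖z i‖| := ha2
      _ ≤ 2 ^ n * 2 ^ n * Real.exp n / τ₀ := by gcongr
      _ = (8 * Real.exp 1 ^ 2 * ((m + n) / n)) ^ n := by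
          rw [hτ₀, ← Real.exp_one_pow n, div_pow, div_pow, mul_pow, mul_pow, mul_pow, div_pow,
            show (8 : ℝ) = 2 * 2 * 2 by norm_num, mul_pow, mul_pow, ← pow_mul, mul_comm 2 n,
            pow_mul]
          field_simp
  have hfin : (8 * Real.exp 1 ^ 2 * (((m : ℝ) + n) / n)) ^ n * τ < 1 := by
    rw [hτ, ← mul_pow]
    have e1 : 8 * Real.exp 1 ^ 2 * (((m : ℝ) + n) / n) * ((n : ℝ) / (100 * (m + n))) =
        8 * Real.exp 1 ^ 2 / 100 := by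
      field_simp
    rw [e1]
    refine pow_lt_one₀ (by positivity) ?_ (by omega)
    have := Real.exp_one_lt_d9
    have h0 := Real.exp_pos 1
    rw [div_lt_one (by norm_num)]
    nlinarith
  have hτ0 : 0 ≤ τ := by positivity
  have : (∑ k ∈ Icc (m + 1) (m + n), ‖a k‖) * τ ≤
      (8 * Real.exp 1 ^ 2 * (((m : ℝ) + n) / n)) ^ n * τ := by gcongr
  linarith

/-- `x ↦ (x / (200 K))^x` decreases -/
theorem tuz_mono {n N K : ℕ} (hn : 1 ≤ n) (hnN : n ≤ N) (hNK : N ≤ K) :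
    ((N : ℝ) / (200 * K)) ^ N ≤ ((n : ℝ) / (200 * K)) ^ n := by
  induction N, hnN using Nat.le_induction with
  | base => exact le_rfl
  | succ N hN ih =>
    refine le_trans ?_ (ih (by omega))
    have hN1 : (1 : ℝ) ≤ N := by exact_mod_cast (by omega : 1 ≤ N)
    have hK : ((N : ℝ) + 1) ≤ K := by exact_mod_cast hNK
    have hK0 : (0 : ℝ) < K := by linarith
    have e1 : (((N : ℝ) + 1) / N) ^ N ≤ Real.exp 1 := by
      have := tur_exp (n := 1) (m := N) (by omega)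
      simpa using this
    push_cast
    calc (((N : ℝ) + 1) / (200 * K)) ^ (N + 1)
        = (((N : ℝ) + 1) / N) ^ N * ((N : ℝ) / (200 * K)) ^ N * (((N : ℝ) + 1) / (200 * K)) := by
          rw [pow_succ, ← mul_pow]
          congr 2
          field_simp
      _ ≤ Real.exp 1 * ((N : ℝ) / (200 * K)) ^ N * (1 / 200) := by
          have e2 : ((N : ℝ) + 1) / (200 * K) ≤ 1 / 200 := by
            rw [div_le_div_iff₀ (by positivity) (by norm_num)]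
            linarith
          gcongr
      _ ≤ ((N : ℝ) / (200 * K)) ^ N := by
          have e3 : 0 ≤ ((N : ℝ) / (200 * K)) ^ N := by positivity
          have := Real.exp_one_lt_d9
          nlinarith

theorem turan_zeros {S : Finset ℂ} {ν : ℂ → ℕ} {c ρ₀ : ℂ} {r₀ : ℝ} {N K : ℕ} (hc : c ∉ S)
    (h0 : ρ₀ ∈ S) (hν : 1 ≤ ν ρ₀) (hr : ‖c - ρ₀‖ ≤ r₀) (hN : ∑ ρ ∈ S, ν ρ ≤ N) (hNK : N ≤ K) :
    ∃ k ∈ Icc (K + 1) (2 * K), ((N : ℝ) / (200 * K)) ^ N * (r₀⁻¹) ^ k ≤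
      ‖∑ ρ ∈ S, (ν ρ : ℂ) / (c - ρ) ^ k‖ := by
  classical
  set n := ∑ ρ ∈ S, ν ρ with hn
  have hcρ : ∀ ρ ∈ S, 0 < ‖c - ρ‖ := by
    intro ρ hρ
    refine norm_pos_iff.2 fun h => hc ?_
    rwa [sub_eq_zero.1 h]
  have hr0 : 0 < r₀ := (hcρ ρ₀ h0).trans_le hr
  -- the nearest zero with positive multiplicity
  obtain ⟨ρ₁, hρ₁, hmin⟩ := (S.filter fun ρ => 1 ≤ ν ρ).exists_min_image (fun ρ => ‖c - ρ‖)
    ⟨ρ₀, Finset.mem_filter.2 ⟨h0, hν⟩⟩
  rw [Finset.mem_filter] at hρ₁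
  set d := ‖c - ρ₁‖ with hd
  have hd0 : 0 < d := hcρ ρ₁ hρ₁.1
  have hdr : d ≤ r₀ := (hmin ρ₀ (Finset.mem_filter.2 ⟨h0, hν⟩)).trans hr
  have hn1 : 1 ≤ n := by
    have := Finset.single_le_sum (f := ν) (fun _ _ => Nat.zero_le _) h0
    omega
  -- enumeration with multiplicities
  have hcard : Fintype.card (Σ ρ : {x // x ∈ S}, Fin (ν ρ)) = n := by
    rw [Fintype.card_sigma]
    simp only [Fintype.card_fin]
    exact Finset.sum_coe_sort S ν
  obtain ⟨e⟩ : Nonempty (Fin n ≃ (Σ ρ : {x // x ∈ S}, Fin (ν ρ))) :=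
    ⟨(finCongr hcard.symm).trans (Fintype.equivFin _).symm⟩
  set z : Fin n → ℂ := fun i => (d : ℂ) / (c - ((e i).1 : ℂ)) with hz
  have hzle : ∀ i, ‖z i‖ ≤ 1 := by
    intro i
    rw [hz]
    simp only
    rw [norm_div, Complex.norm_real, Real.norm_eq_abs, abs_of_pos hd0]
    have h2 : 1 ≤ ν ((e i).1 : ℂ) := by
      have := (e i).2.isLt
      omega
    have h3 := hmin ((e i).1 : ℂ) (Finset.mem_filter.2 ⟨(e i).1.2, h2⟩)
    rw [div_le_one (hcρ _ (e i).1.2)]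
    exact h3
  have hz1 : ∃ i, ‖z i‖ = 1 := by
    refine ⟨e.symm ⟨⟨ρ₁, hρ₁.1⟩, ⟨0, lt_of_lt_of_le Nat.zero_lt_one hρ₁.2⟩⟩, ?_⟩
    rw [hz]
    simp only [Equiv.apply_symm_apply]
    rw [norm_div, Complex.norm_real, Real.norm_eq_abs, abs_of_pos hd0, ← hd, div_self hd0.ne']
  have hnN : n ≤ N := hN
  have hK1 : 1 ≤ K := by omega
  obtain ⟨k, hk, hle⟩ := turan (m := K) hn1 hK1 z hzle hz1
  rw [mem_Icc] at hk
  refine ⟨k, mem_Icc.2 ⟨hk.1, by omega⟩, ?_⟩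
  have hsum : ∑ i, z i ^ k = (d : ℂ) ^ k * ∑ ρ ∈ S, (ν ρ : ℂ) / (c - ρ) ^ k := by
    have e1 : ∑ i, z i ^ k = ∑ x : (Σ ρ : {x // x ∈ S}, Fin (ν ρ)),
        ((d : ℂ) / (c - (x.1 : ℂ))) ^ k :=
      Fintype.sum_equiv e _ _ fun i => rfl
    rw [e1, Fintype.sum_sigma, Finset.mul_sum, ← Finset.sum_coe_sort S]
    refine Finset.sum_congr rfl fun ρ _ => ?_
    show ∑ _y : Fin (ν ρ), ((d : ℂ) / (c - (ρ : ℂ))) ^ k = _
    rw [Finset.sum_const, card_univ, Fintype.card_fin, nsmul_eq_mul, div_pow]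
    ring
  have hK0 : (0 : ℝ) < K := by exact_mod_cast hK1
  have h4 : ((N : ℝ) / (200 * K)) ^ N ≤ ‖∑ i, z i ^ k‖ := by
    refine (tuz_mono hn1 hnN hNK).trans (le_trans ?_ hle)
    have h5 : (n : ℝ) ≤ K := by exact_mod_cast (hnN.trans hNK)
    have h6 : (0 : ℝ) < n := by exact_mod_cast hn1
    refine pow_le_pow_left₀ (by positivity) ?_ n
    refine div_le_div_of_nonneg_left h6.le (by positivity) ?_
    linarith
  rw [hsum, norm_mul, norm_pow, Complex.norm_real, Real.norm_eq_abs, abs_of_pos hd0] at h4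
  calc ((N : ℝ) / (200 * K)) ^ N * (r₀⁻¹) ^ k ≤ ((N : ℝ) / (200 * K)) ^ N * (d⁻¹) ^ k := by
        gcongr
    _ ≤ (d ^ k * ‖∑ ρ ∈ S, (ν ρ : ℂ) / (c - ρ) ^ k‖) * (d⁻¹) ^ k := by gcongr
    _ = _ := by
        rw [inv_pow]
        field_simp

end Pool.Agent.GA
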