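import Pool.Agent.Lib_helper98.GAF.Loc

/-!
# GA part Z, file 1: positivity (`3 + 4 cos + cos`), lifting characters
-/

set_option autoImplicit false
set_option linter.unusedSectionVars false

namespace Pool.Agent.GA

open Finset Complex Metric
open scoped ArithmeticFunction.vonMangoldt ComplexConjugate Classical

/-! ## The terms of the Dirichlet series -/

/-- the real part of `χ(n) n^{-i t}` -/
noncomputable def z1_z {q : ℕ} (χ : DirichletCharacter ℂ q) (t : ℝ) (n : ℕ) : ℂ :=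
  χ (n : ZMod q) * cexp (-((t * Real.log n : ℝ) : ℂ) * I)

/-- the weight `Λ(n) n^{-(1+σ)}` -/
noncomputable def z1_w (σ : ℝ) (n : ℕ) : ℝ := Λ n * (n : ℝ) ^ (-(1 + σ))

theorem z1_w_nonneg (σ : ℝ) (n : ℕ) : 0 ≤ z1_w σ n :=
  mul_nonneg ArithmeticFunction.vonMangoldt_nonneg (Real.rpow_nonneg (Nat.cast_nonneg _) _)

theorem z1_term {q : ℕ} (χ : DirichletCharacter ℂ q) (σ t : ℝ) (n : ℕ) :
    LSeries.term (fun n => ((Λ n : ℝ) : ℂ) * χ (n : ZMod q) * (((Real.log n) ^ 0 : ℝ) : ℂ))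
      (1 + σ + t * I) n = (z1_w σ n : ℂ) * z1_z χ t n := by
  rcases Nat.eq_zero_or_pos n with rfl | hn
  · simp [LSeries.term, z1_w]
  · have hn0 : n ≠ 0 := hn.ne'
    have hnR : (0 : ℝ) < n := by exact_mod_cast hn
    have hnC : (n : ℂ) ≠ 0 := by exact_mod_cast hn0
    rw [LSeries.term_of_ne_zero hn0]
    unfold z1_w z1_z
    have h1 : (n : ℂ) ^ (1 + σ + t * I : ℂ) =
        ((n : ℝ) ^ (1 + σ) : ℝ) * cexp (((t * Real.log n : ℝ) : ℂ) * I) := by
      rw [Complex.cpow_add _ _ hnC]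
      congr 1
      · rw [Complex.ofReal_cpow hnR.le]
        push_cast
        rfl
      · rw [Complex.cpow_def_of_ne_zero hnC, ← Complex.natCast_log]
        congr 1
        push_cast
        ring
    rw [h1, pow_zero, Complex.ofReal_one, mul_one, Real.rpow_neg hnR.le]
    have h2 : ((n : ℝ) ^ (1 + σ) : ℝ) ≠ 0 := (Real.rpow_pos_of_pos hnR _).ne'
    have h3 : (((n : ℝ) ^ (1 + σ) : ℝ) : ℂ) ≠ 0 := by exact_mod_cast h2
    have h4 : cexp (-((t * Real.log n : ℝ) : ℂ) * I) = (cexp (((t * Real.log n : ℝ) : ℂ) * I))⁻¹ := by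
      rw [← Complex.exp_neg]
      congr 1
      ring
    rw [h4]
    have h5 := Complex.exp_ne_zero (((t * Real.log n : ℝ) : ℂ) * I)
    rw [Complex.ofReal_mul (Λ n), Complex.ofReal_inv]
    generalize (((n : ℝ) ^ (1 + σ) : ℝ) : ℂ) = A at *
    generalize cexp (((t * Real.log n : ℝ) : ℂ) * I) = B at *
    field_simp

theorem z1_Gj {q : ℕ} [NeZero q] (χ : DirichletCharacter ℂ q) {σ : ℝ} (t : ℝ) (hσ : 0 < σ) :
    Summable (fun n => z1_w σ n * (z1_z χ t n).re) ∧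
      (Gj χ 0 (1 + σ + t * I)).re = ∑' n, z1_w σ n * (z1_z χ t n).re := by
  have hs : 1 < (1 + σ + t * I : ℂ).re := by simp [hσ]
  have h1 := Gj_summable χ 0 hs
  unfold LSeriesSummable at h1
  have h2 : ∀ n, LSeries.term (fun n => ((Λ n : ℝ) : ℂ) * χ (n : ZMod q) *
      (((Real.log n) ^ 0 : ℝ) : ℂ)) (1 + σ + t * I) n = (z1_w σ n : ℂ) * z1_z χ t n :=
    z1_term χ σ t
  have h3 : Summable (fun n => (z1_w σ n : ℂ) * z1_z χ t n) := h1.congr (fun n => h2 n)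
  have h4 : ∀ n, ((z1_w σ n : ℂ) * z1_z χ t n).re = z1_w σ n * (z1_z χ t n).re := fun n =>
    Complex.re_ofReal_mul _ _
  have h5 : HasSum (fun n => ((z1_w σ n : ℂ) * z1_z χ t n).re)
      (∑' n, (z1_w σ n : ℂ) * z1_z χ t n).re := Complex.hasSum_re h3.hasSum
  simp only [h4] at h5
  refine ⟨h5.summable, ?_⟩
  rw [h5.tsum_eq]
  unfold Gj LSeries
  congr 1
  exact tsum_congr h2

theorem z1_zero_t {q : ℕ} (χ : DirichletCharacter ℂ q) (n : ℕ) :
    z1_z χ 0 n = χ (n : ZMod q) := by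
  simp [z1_z]

theorem z1_c0 (σ : ℝ) : (1 + σ + ((0 : ℝ) : ℂ) * I : ℂ) = 1 + σ := by simp

theorem z1_exp (x : ℝ) : ‖cexp (-((x : ℝ) : ℂ) * I)‖ = 1 := by
  rw [Complex.norm_exp]
  have : (-((x : ℝ) : ℂ) * I).re = 0 := by
    rw [neg_mul, Complex.neg_re, Complex.re_ofReal_mul, Complex.I_re, mul_zero, neg_zero]
  rw [this, Real.exp_zero]

theorem z1_norm {q : ℕ} [NeZero q] (χ : DirichletCharacter ℂ q) (t : ℝ) {n : ℕ}
    (h : IsUnit (n : ZMod q)) : ‖z1_z χ t n‖ = 1 := by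
  unfold z1_z
  rw [norm_mul, z1_exp, mul_one]
  obtain ⟨u, hu⟩ := h
  rw [← hu, χ.unit_norm_eq_one u]

theorem z1_nonunit {q : ℕ} (χ : DirichletCharacter ℂ q) (t : ℝ) {n : ℕ}
    (h : ¬ IsUnit (n : ZMod q)) : z1_z χ t n = 0 := by
  unfold z1_z
  rw [MulChar.map_nonunit χ h, zero_mul]

theorem z1_sq {q : ℕ} (χ : DirichletCharacter ℂ q) (t : ℝ) (n : ℕ) :
    z1_z (χ ^ 2) (2 * t) n = z1_z χ t n ^ 2 := by
  unfold z1_z
  rw [mul_pow, ← Complex.exp_nat_mul, MulChar.pow_apply' χ two_ne_zero]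
  congr 2
  push_cast
  ring

theorem z1_one {q : ℕ} {n : ℕ} (h : IsUnit (n : ZMod q)) :
    z1_z (1 : DirichletCharacter ℂ q) 0 n = 1 := by
  rw [z1_zero_t, MulChar.one_apply h]

theorem z1_341 {z : ℂ} (hz : ‖z‖ = 1) : 0 ≤ 3 + 4 * z.re + (z ^ 2).re := by
  have h1 : z.re ^ 2 + z.im ^ 2 = 1 := by
    have := Complex.sq_norm z
    rw [hz, Complex.normSq_apply] at this
    nlinarith
  have h2 : (z ^ 2).re = z.re ^ 2 - z.im ^ 2 := by
    rw [sq, Complex.mul_re]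
    ring
  rw [h2]
  nlinarith [sq_nonneg (z.re + 1)]

theorem pos_341 {q : ℕ} [NeZero q] (χ : DirichletCharacter ℂ q) {σ : ℝ} (t : ℝ) (hσ : 0 < σ) :
    0 ≤ 3 * (Gj (1 : DirichletCharacter ℂ q) 0 (1 + σ)).re + 4 * (Gj χ 0 (1 + σ + t * I)).re +
      (Gj (χ ^ 2) 0 (1 + σ + (2 * t : ℝ) * I)).re := by
  have h1 := z1_Gj (1 : DirichletCharacter ℂ q) 0 hσ
  have h2 := z1_Gj χ t hσ
  have h3 := z1_Gj (χ ^ 2) (2 * t) hσ
  rw [z1_c0] at h1
  rw [h1.2, h2.2, h3.2, ← tsum_mul_left, ← tsum_mul_left,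
    ← (h1.1.mul_left 3).tsum_add (h2.1.mul_left 4),
    ← ((h1.1.mul_left 3).add (h2.1.mul_left 4)).tsum_add h3.1]
  refine tsum_nonneg fun n => ?_
  have hw := z1_w_nonneg σ n
  by_cases hu : IsUnit (n : ZMod q)
  · have h4 := z1_341 (z1_norm χ t hu)
    rw [z1_one hu, z1_sq, Complex.one_re]
    nlinarith
  · rw [z1_nonunit _ _ hu, z1_nonunit _ _ hu, z1_nonunit _ _ hu]
    simp

theorem z1_real {q : ℕ} {χ : DirichletCharacter ℂ q} (hχ : χ ^ 2 = 1) {n : ℕ}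
    (hu : IsUnit (n : ZMod q)) : χ (n : ZMod q) = 1 ∨ χ (n : ZMod q) = -1 := by
  have h1 : χ (n : ZMod q) ^ 2 = 1 := by
    rw [← MulChar.pow_apply' χ two_ne_zero, hχ, MulChar.one_apply hu]
  exact sq_eq_one_iff_of_ne_zero' h1
where
  sq_eq_one_iff_of_ne_zero' {z : ℂ} (h : z ^ 2 = 1) : z = 1 ∨ z = -1 := by
    have h1 : (z - 1) * (z + 1) = 0 := by linear_combination h
    rcases mul_eq_zero.1 h1 with h2 | h2
    · left; linear_combination h2
    · right; linear_combination h2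

theorem pos_two {q : ℕ} [NeZero q] {χ : DirichletCharacter ℂ q} (hχ : χ ^ 2 = 1) {σ : ℝ}
    (hσ : 0 < σ) :
    0 ≤ (Gj (1 : DirichletCharacter ℂ q) 0 (1 + σ)).re + (Gj χ 0 (1 + σ)).re := by
  have h1 := z1_Gj (1 : DirichletCharacter ℂ q) 0 hσ
  have h2 := z1_Gj χ 0 hσ
  rw [z1_c0] at h1 h2
  rw [h1.2, h2.2, ← h1.1.tsum_add h2.1]
  refine tsum_nonneg fun n => ?_
  have hw := z1_w_nonneg σ n
  by_cases hu : IsUnit (n : ZMod q)
  · rw [z1_one hu, z1_zero_t]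
    rcases z1_real hχ hu with h | h <;> rw [h] <;> simp <;> linarith
  · rw [z1_nonunit _ _ hu, z1_nonunit _ _ hu]
    simp

theorem pos_four {q : ℕ} [NeZero q] {χ ψ : DirichletCharacter ℂ q} (hχ : χ ^ 2 = 1)
    (hψ : ψ ^ 2 = 1) {σ : ℝ} (hσ : 0 < σ) :
    0 ≤ (Gj (1 : DirichletCharacter ℂ q) 0 (1 + σ)).re + (Gj χ 0 (1 + σ)).re +
      (Gj ψ 0 (1 + σ)).re + (Gj (χ * ψ) 0 (1 + σ)).re := by
  have h1 := z1_Gj (1 : DirichletCharacter ℂ q) 0 hσ
  have h2 := z1_Gj χ 0 hσ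
  have h3 := z1_Gj ψ 0 hσ
  have h4 := z1_Gj (χ * ψ) 0 hσ
  rw [z1_c0] at h1 h2 h3 h4
  rw [h1.2, h2.2, h3.2, h4.2, ← h1.1.tsum_add h2.1, ← (h1.1.add h2.1).tsum_add h3.1,
    ← ((h1.1.add h2.1).add h3.1).tsum_add h4.1]
  refine tsum_nonneg fun n => ?_
  have hw := z1_w_nonneg σ n
  by_cases hu : IsUnit (n : ZMod q)
  · rw [z1_one hu, z1_zero_t, z1_zero_t, z1_zero_t, MulChar.mul_apply]
    rcases z1_real hχ hu with h | h <;> rcases z1_real hψ hu with h' | h' <;> rw [h, h'] <;>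
      simp <;> linarith
  · rw [z1_nonunit _ _ hu, z1_nonunit _ _ hu, z1_nonunit _ _ hu, z1_nonunit _ _ hu]
    simp

/-! ## Lifting -/

theorem z1_lift_coprime {q m : ℕ} [NeZero q] [NeZero m] (h : q ∣ m) (χ : DirichletCharacter ℂ q)
    {n : ℕ} (hn : n.Coprime m) :
    DirichletCharacter.changeLevel h χ (n : ZMod m) = χ (n : ZMod q) := by
  have h1 : IsCoprime (n : ℤ) (m : ℤ) := Nat.isCoprime_iff_coprime.2 hn
  have h2 := DirichletCharacter.changeLevel_eq_cast_of_dvd' χ h h1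
  simpa using h2

theorem z1_lift_not {m : ℕ} [NeZero m] (ψ : DirichletCharacter ℂ m)
    {n : ℕ} (hn : ¬ n.Coprime m) : ψ (n : ZMod m) = 0 :=
  MulChar.map_nonunit ψ (fun h => hn ((ZMod.isUnit_iff_coprime n m).1 h))

/-- the sum over the prime powers which are not prime to `m` -/
theorem z1_sum {m : ℕ} (hm : m ≠ 0) {σ : ℝ} (hσ : 0 < σ) :
    Summable (fun n : ℕ => if n.Coprime m then 0 else z1_w σ n) ∧
      ∑' n : ℕ, (if n.Coprime m then 0 else z1_w σ n) ≤ Real.log m := by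
  set P := m.primeFactors with hP
  -- the parametrisation of the prime powers
  let e : P × ℕ → ℕ := fun x => (x.1 : ℕ) ^ (x.2 + 1)
  have he : Function.Injective e := by
    rintro ⟨⟨p, hp⟩, k⟩ ⟨⟨p', hp'⟩, k'⟩ h
    have h1 : p ^ (k + 1) = p' ^ (k' + 1) := h
    have hpp := Nat.prime_of_mem_primeFactors hp
    have hpp' := Nat.prime_of_mem_primeFactors hp'
    have h2 : p = p' := by
      have h3 : p ∣ p' ^ (k' + 1) := by
        rw [← h1]; exact dvd_pow_self p (Nat.succ_ne_zero k)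
      exact (Nat.prime_dvd_prime_iff_eq hpp hpp').1 (hpp.dvd_of_dvd_pow h3)
    subst h2
    have h3 : k + 1 = k' + 1 := Nat.pow_right_injective hpp.two_le h1
    have h4 : k = k' := by omega
    subst h4
    rfl
  have hsupp : Function.support (fun n : ℕ => if n.Coprime m then 0 else z1_w σ n) ⊆
      Set.range e := by
    intro n hn
    rw [Function.mem_support] at hn
    by_cases hc : n.Coprime m
    · rw [if_pos hc] at hn; exact absurd rfl hn
    · rw [if_neg hc] at hn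
      have hΛ : Λ n ≠ 0 := by
        intro h0
        apply hn
        unfold z1_w
        rw [h0, zero_mul]
      have hpp : IsPrimePow n := ArithmeticFunction.vonMangoldt_ne_zero_iff.1 hΛ
      obtain ⟨p, k, hp, hk, rfl⟩ := (isPrimePow_nat_iff n).1 hpp
      have hpm : p ∣ m := by
        by_contra h
        apply hc
        exact Nat.Coprime.pow_left k ((Nat.Prime.coprime_iff_not_dvd hp).2 h)
      refine ⟨(⟨p, Nat.mem_primeFactors.2 ⟨hp, hpm, hm⟩⟩, k - 1), ?_⟩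
      show p ^ (k - 1 + 1) = p ^ k
      congr 1
      omega
  have hval : ∀ x : P × ℕ, (if (e x).Coprime m then 0 else z1_w σ (e x)) =
      Real.log (x.1 : ℕ) * (((x.1 : ℕ) : ℝ) ^ (-(1 + σ))) ^ (x.2 + 1) := by
    rintro ⟨⟨p, hp⟩, k⟩
    have hpp := Nat.prime_of_mem_primeFactors hp
    have hpm := Nat.dvd_of_mem_primeFactors hp
    have h1 : ¬ (e (⟨p, hp⟩, k)).Coprime m := by
      intro h
      have h2 : p ∣ 1 := by
        rw [← h]
        exact Nat.dvd_gcd (dvd_pow_self p (Nat.succ_ne_zero k)) hpm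
      exact hpp.one_lt.ne' (Nat.dvd_one.1 h2)
    rw [if_neg h1]
    unfold z1_w
    show Λ (p ^ (k + 1)) * ((p ^ (k + 1) : ℕ) : ℝ) ^ (-(1 + σ)) = _
    rw [ArithmeticFunction.vonMangoldt_apply_pow (Nat.succ_ne_zero k),
      ArithmeticFunction.vonMangoldt_apply_prime hpp]
    congr 1
    rw [Nat.cast_pow, ← Real.rpow_natCast, ← Real.rpow_natCast, ← Real.rpow_mul (Nat.cast_nonneg p),
      ← Real.rpow_mul (Nat.cast_nonneg p), mul_comm]
  have hx : ∀ p : P, 0 ≤ (((p : ℕ) : ℝ) ^ (-(1 + σ))) ∧ (((p : ℕ) : ℝ) ^ (-(1 + σ))) ≤ 1 / 2 := by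
    rintro ⟨p, hp⟩
    have hpp := Nat.prime_of_mem_primeFactors hp
    have h2 : (2 : ℝ) ≤ p := by exact_mod_cast hpp.two_le
    refine ⟨Real.rpow_nonneg (by positivity) _, ?_⟩
    have h3 : ((p : ℝ) ^ (-(1 + σ))) ≤ (p : ℝ) ^ (-1 : ℝ) :=
      Real.rpow_le_rpow_of_exponent_le (by linarith) (by linarith)
    refine h3.trans ?_
    rw [Real.rpow_neg_one]
    have : (p : ℝ)⁻¹ ≤ (2 : ℝ)⁻¹ := inv_anti₀ (by norm_num) h2
    show ((p : ℕ) : ℝ)⁻¹ ≤ _
    linarith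
  have hgeo : ∀ p : P, HasSum (fun k : ℕ => Real.log (p : ℕ) *
      (((p : ℕ) : ℝ) ^ (-(1 + σ))) ^ (k + 1))
      (Real.log (p : ℕ) * ((((p : ℕ) : ℝ) ^ (-(1 + σ))) * (1 - (((p : ℕ) : ℝ) ^ (-(1 + σ))))⁻¹)) := by
    intro p
    have h1 := hasSum_geometric_of_lt_one (hx p).1 (by linarith [(hx p).2])
    have h2 := (h1.mul_left (((p : ℕ) : ℝ) ^ (-(1 + σ)))).mul_left (Real.log (p : ℕ))
    refine h2.congr_fun ?_
    intro k
    ring
  have hsum : Summable (fun x : P × ℕ => Real.log (x.1 : ℕ) *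
      (((x.1 : ℕ) : ℝ) ^ (-(1 + σ))) ^ (x.2 + 1)) := by
    rw [summable_prod_of_nonneg]
    · exact ⟨fun p => (hgeo p).summable, Summable.of_finite⟩
    · intro x
      have := (hx x.1).1
      have h2 : 0 ≤ Real.log (x.1 : ℕ) := Real.log_natCast_nonneg _
      positivity
  have hS : Summable ((fun n : ℕ => if n.Coprime m then 0 else z1_w σ n) ∘ e) := by
    refine hsum.congr fun x => ?_
    exact (hval x).symm
  have hS' : Summable (fun n : ℕ => if n.Coprime m then 0 else z1_w σ n) := by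
    rw [← Function.Injective.summable_iff he]
    · exact hS
    · intro n hn
      by_contra h0
      exact hn (hsupp h0)
  refine ⟨hS', ?_⟩
  rw [← he.tsum_eq hsupp]
  simp only [hval]
  rw [hsum.tsum_prod, tsum_fintype]
  have hlog : ∑ p : P, Real.log (p : ℕ) ≤ Real.log m := by
    have h1 : ∑ p : P, Real.log (p : ℕ) = ∑ p ∈ P, Real.log p :=
      Finset.sum_coe_sort P (fun p => Real.log (p : ℕ))
    rw [h1, ← Real.log_prod]
    · have h2 : (∏ p ∈ P, (p : ℝ)) = ((∏ p ∈ P, p : ℕ) : ℝ) := by push_cast; rfl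
      rw [h2]
      apply Real.log_le_log
      · have : 0 < ∏ p ∈ P, p := Finset.prod_pos fun p hp =>
          (Nat.prime_of_mem_primeFactors hp).pos
        exact_mod_cast this
      · have h3 : ∏ p ∈ P, p ≤ m :=
          Nat.le_of_dvd (Nat.pos_of_ne_zero hm) (Nat.prod_primeFactors_dvd m)
        exact_mod_cast h3
    · intro p hp
      have := (Nat.prime_of_mem_primeFactors hp).pos
      positivity
  refine le_trans (Finset.sum_le_sum fun p _ => ?_) hlog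
  rw [(hgeo p).tsum_eq]
  have h1 := hx p
  have h2 : 0 ≤ Real.log (p : ℕ) := Real.log_natCast_nonneg _
  have h3 : (((p : ℕ) : ℝ) ^ (-(1 + σ))) * (1 - (((p : ℕ) : ℝ) ^ (-(1 + σ))))⁻¹ ≤ 1 := by
    rw [← div_eq_mul_inv, div_le_one (by linarith)]
    linarith
  nlinarith

theorem lift_diff {q m : ℕ} [NeZero q] [NeZero m] (h : q ∣ m) (χ : DirichletCharacter ℂ q)
    {s : ℂ} (hs : 1 < s.re) :
    ‖Gj (DirichletCharacter.changeLevel h χ) 0 s - Gj χ 0 s‖ ≤ Real.log m := by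
  obtain ⟨σ, t, hσ, rfl⟩ : ∃ σ t : ℝ, 0 < σ ∧ s = 1 + σ + t * I :=
    ⟨s.re - 1, s.im, by linarith, by
      apply Complex.ext <;> simp⟩
  have h1 := Gj_summable (DirichletCharacter.changeLevel h χ) 0 hs
  have h2 := Gj_summable χ 0 hs
  unfold LSeriesSummable at h1 h2
  obtain ⟨h3, h4⟩ := z1_sum (NeZero.ne m) hσ
  unfold Gj LSeries
  rw [← h1.tsum_sub h2]
  refine le_trans (tsum_of_norm_bounded h3.hasSum fun n => ?_) h4
  rw [z1_term, z1_term]
  by_cases hc : n.Coprime m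
  · rw [if_pos hc]
    unfold z1_z
    rw [z1_lift_coprime h χ hc, sub_self, norm_zero]
  · rw [if_neg hc]
    have h5 : z1_z (DirichletCharacter.changeLevel h χ) t n = 0 := by
      unfold z1_z
      rw [z1_lift_not _ hc, zero_mul]
    rw [h5, mul_zero, zero_sub, norm_neg, norm_mul, Complex.norm_real,
      Real.norm_of_nonneg (z1_w_nonneg σ n)]
    have h6 : ‖z1_z χ t n‖ ≤ 1 := by
      unfold z1_z
      rw [norm_mul, z1_exp, mul_one]
      exact χ.norm_le_one (n : ZMod q)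
    have := z1_w_nonneg σ n
    nlinarith

end Pool.Agent.GA
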