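import Pool.Agent.Lib_helper98.GAF.Loc
import Pool.Agent.Lib_helper98.GAF.Lbd
import Pool.Agent.Lib_helper98.GAF.Tur
import Pool.Agent.Lib_helper98.GAF.Fin
import Pool.Agent.Lib_helper98.GAF.Z1

/-!
# GA part Z, file 2: growth of the zeta function and the principal character
-/

set_option autoImplicit false
set_option linter.unusedSectionVars false

namespace Pool.Agent.GA

open Finset Complex Metric Asymptotics Filter
open MeasureTheory Set
open scoped ArithmeticFunction.vonMangoldt ComplexConjugate Classical Topology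

/-- the fractional part on `(1, ∞)` -/
noncomputable def z2_f (t : ℝ) : ℂ := if 1 < t then ((Int.fract t : ℝ) : ℂ) else 0

theorem z2_meas : Measurable z2_f := by
  unfold z2_f
  refine Measurable.ite measurableSet_Ioi ?_ measurable_const
  exact Complex.measurable_ofReal.comp measurable_fract

theorem z2_le (t : ℝ) : ‖z2_f t‖ ≤ 1 := by
  unfold z2_f
  split_ifs
  · rw [Complex.norm_real, Real.norm_of_nonneg (Int.fract_nonneg t)]
    exact (Int.fract_lt_one t).le
  · rw [norm_zero]; exact zero_le_one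

theorem z2_diff {s : ℂ} (hs : 0 < s.re) : DifferentiableAt ℂ (mellin z2_f) (-s) := by
  refine mellin_differentiableAt_of_isBigO_rpow (a := 0) (b := -s.re - 1) ?_ ?_ ?_ ?_ ?_
  · have h1 : LocallyIntegrable (fun _ : ℝ => (1 : ℝ)) volume := locallyIntegrable_const _
    refine (h1.mono z2_meas.aestronglyMeasurable ?_).locallyIntegrableOn _
    refine Eventually.of_forall fun t => ?_
    rw [norm_one]; exact z2_le t
  · refine IsBigO.of_bound 1 (Eventually.of_forall fun t => ?_)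
    simp only [neg_zero, Real.rpow_zero, norm_one, mul_one]
    exact z2_le t
  · simpa using hs
  · refine IsBigO.of_bound 1 ?_
    have h1 : ∀ᶠ t : ℝ in 𝓝[>] 0, t < 1 := by
      exact (eventually_lt_nhds zero_lt_one).filter_mono nhdsWithin_le_nhds
    filter_upwards [h1] with t ht
    unfold z2_f
    rw [if_neg (not_lt.2 ht.le), norm_zero]
    positivity
  · simp

theorem z2_bound {s : ℂ} (hs : 0 < s.re) : ‖mellin z2_f (-s)‖ ≤ 1 / s.re := by
  unfold mellin
  have h1 : ∫ t : ℝ in Set.Ioi 0, (t : ℂ) ^ (-s - 1) • z2_f t =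
      ∫ t : ℝ in Set.Ioi 1, (t : ℂ) ^ (-s - 1) • z2_f t := by
    apply setIntegral_eq_of_subset_of_forall_sdiff_eq_zero measurableSet_Ioi
    · exact Set.Ioi_subset_Ioi zero_le_one
    · intro t ht
      have h2 : ¬ 1 < t := fun h => ht.2 h
      unfold z2_f
      rw [if_neg h2, smul_zero]
  rw [h1]
  have h2 : ∫ t : ℝ in Set.Ioi 1, t ^ (-s.re - 1) = 1 / s.re := by
    rw [integral_Ioi_rpow_of_lt (by linarith) zero_lt_one, Real.one_rpow]
    have e : -s.re - 1 + 1 = -s.re := by ring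
    rw [e, neg_div_neg_eq]
  rw [← h2]
  refine norm_integral_le_of_norm_le (integrableOn_Ioi_rpow_of_lt (by linarith) zero_lt_one) ?_
  rw [ae_restrict_iff' measurableSet_Ioi]
  refine Eventually.of_forall fun t ht => ?_
  have ht0 : (0 : ℝ) < t := lt_trans zero_lt_one ht
  rw [norm_smul, Complex.norm_cpow_eq_rpow_re_of_pos ht0]
  have h3 : (-s - 1).re = -s.re - 1 := by simp
  rw [h3]
  have := z2_le t
  have h4 : 0 ≤ t ^ (-s.re - 1) := Real.rpow_nonneg ht0.le _
  nlinarith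

/-- the continuation of `ζ(s) - 1/(s-1)` -/
noncomputable def z2_F (s : ℂ) : ℂ := 1 - s * mellin z2_f (-s)

theorem z2_right {s : ℂ} (hs : 1 < s.re) : riemannZeta₀ s = z2_F s := by
  have hs1 : s ≠ 1 := by rintro rfl; simp at hs
  have hs0 : s ≠ 0 := by rintro rfl; simp at hs; linarith
  have h0 : riemannZeta s = (s - 1)⁻¹ + riemannZeta₀ s := riemannZeta_eq_inv_sub_add hs1
  -- the integral representation
  have h1 : riemannZeta s = s * ∫ t in Set.Ioi (1 : ℝ), (∑ k ∈ Icc 1 ⌊t⌋₊, (1 : ℂ)) *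
      (t : ℂ) ^ (-(s + 1)) := by
    rw [← LSeries_one_eq_riemannZeta hs]
    apply LSeries_eq_mul_integral (1 : ℕ → ℂ) (r := 1) zero_le_one hs
    · exact LSeriesSummable_one_iff.2 hs
    · refine IsBigO.of_bound 1 (Eventually.of_forall fun n => ?_)
      simp
  have h2 : ∀ t ∈ Set.Ioi (1 : ℝ), (∑ k ∈ Icc 1 ⌊t⌋₊, (1 : ℂ)) * (t : ℂ) ^ (-(s + 1)) =
      (t : ℂ) ^ (-s) - (t : ℂ) ^ (-s - 1) • z2_f t := by
    intro t ht
    have ht0 : (0 : ℝ) < t := lt_trans zero_lt_one ht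
    have htC : (t : ℂ) ≠ 0 := by exact_mod_cast ht0.ne'
    have h3 : (∑ k ∈ Icc 1 ⌊t⌋₊, (1 : ℂ)) = (t : ℂ) - z2_f t := by
      rw [Finset.sum_const, Nat.card_Icc, nsmul_eq_mul, mul_one]
      unfold z2_f
      rw [if_pos (show 1 < t from ht)]
      have h4 : ((⌊t⌋₊ + 1 - 1 : ℕ) : ℂ) = ((t - Int.fract t : ℝ) : ℂ) := by
        have h5 : ((⌊t⌋₊ : ℕ) : ℝ) = t - Int.fract t := by
          rw [Int.fract, sub_sub_cancel]
          exact (natCast_floor_eq_intCast_floor ht0.le)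
        rw [Nat.add_sub_cancel, ← h5]
        push_cast
        rfl
      rw [h4]
      push_cast
      rfl
    have h6 : (t : ℂ) ^ (-s) = (t : ℂ) * (t : ℂ) ^ (-(s + 1)) := by
      have : (-s : ℂ) = 1 + (-(s + 1)) := by ring
      rw [this, Complex.cpow_add _ _ htC, Complex.cpow_one]
    have h7 : (-s - 1 : ℂ) = -(s + 1) := by ring
    rw [h3, h6, h7, smul_eq_mul]
    ring
  have h3 : ∫ t in Set.Ioi (1 : ℝ), (t : ℂ) ^ (-s) = 1 / (s - 1) := by
    rw [integral_Ioi_cpow_of_lt (by simpa using hs) zero_lt_one]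
    have : s - 1 ≠ 0 := sub_ne_zero.2 hs1
    have h4 : (-s + 1 : ℂ) ≠ 0 := by
      intro h; apply this; linear_combination -h
    rw [Complex.ofReal_one, Complex.one_cpow]
    field_simp
    ring
  have hint1 : IntegrableOn (fun t : ℝ => (t : ℂ) ^ (-s)) (Set.Ioi 1) :=
    integrableOn_Ioi_cpow_of_lt (by simpa using hs) zero_lt_one
  have hint2 : IntegrableOn (fun t : ℝ => (t : ℂ) ^ (-s - 1) • z2_f t) (Set.Ioi 1) := by
    have h4 : IntegrableOn (fun t : ℝ => (t : ℝ) ^ (-s.re - 1)) (Set.Ioi 1) :=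
      integrableOn_Ioi_rpow_of_lt (by linarith) zero_lt_one
    refine Integrable.mono' h4 ?_ ?_
    · refine (AEStronglyMeasurable.smul (f := fun t : ℝ => (t : ℂ) ^ (-s - 1)) ?_
        z2_meas.aestronglyMeasurable)
      exact (integrableOn_Ioi_cpow_of_lt (a := -s - 1) (c := 1)
        (by simp; linarith) zero_lt_one).aestronglyMeasurable
    · rw [ae_restrict_iff' measurableSet_Ioi]
      refine Eventually.of_forall fun t ht => ?_
      have ht0 : (0 : ℝ) < t := lt_trans zero_lt_one ht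
      rw [norm_smul, Complex.norm_cpow_eq_rpow_re_of_pos ht0]
      have h3 : (-s - 1).re = -s.re - 1 := by simp
      rw [h3]
      have := z2_le t
      have h4 : 0 ≤ t ^ (-s.re - 1) := Real.rpow_nonneg ht0.le _
      nlinarith
  have hmel : mellin z2_f (-s) = ∫ t : ℝ in Set.Ioi 1, (t : ℂ) ^ (-s - 1) • z2_f t := by
    unfold mellin
    apply setIntegral_eq_of_subset_of_forall_sdiff_eq_zero measurableSet_Ioi
    · exact Set.Ioi_subset_Ioi zero_le_one
    · intro t ht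
      have h2 : ¬ 1 < t := fun h => ht.2 h
      unfold z2_f
      rw [if_neg h2, smul_zero]
  rw [setIntegral_congr_fun measurableSet_Ioi h2, integral_sub hint1 hint2, h3, ← hmel] at h1
  unfold z2_F
  rw [h0] at h1
  have : s - 1 ≠ 0 := sub_ne_zero.2 hs1
  have h5 : riemannZeta₀ s = s * (1 / (s - 1) - mellin z2_f (-s)) - (s - 1)⁻¹ := by
    rw [← h1]; ring
  rw [h5]
  field_simp
  ring

theorem z2_all {s : ℂ} (hs : 0 < s.re) : riemannZeta₀ s = z2_F s := by
  set U : Set ℂ := {s : ℂ | 0 < s.re} with hU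
  have hUo : IsOpen U := isOpen_lt continuous_const Complex.continuous_re
  have hUc : IsPreconnected U := (convex_halfSpace_re_gt 0).isPreconnected
  have hf : AnalyticOnNhd ℂ riemannZeta₀ U :=
    differentiable_riemannZeta₀.differentiableOn.analyticOnNhd hUo
  have hg : AnalyticOnNhd ℂ z2_F U := by
    refine DifferentiableOn.analyticOnNhd (fun z hz => ?_) hUo
    have h1 := z2_diff (s := z) hz
    have h2 : DifferentiableAt ℂ (fun s : ℂ => mellin z2_f (-s)) z :=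
      DifferentiableAt.comp (g := mellin z2_f) (f := fun s : ℂ => -s) z h1
        differentiableAt_id.neg
    exact ((differentiableAt_const _).sub (differentiableAt_id.mul h2)).differentiableWithinAt
  have h2 : (2 : ℂ) ∈ U := by simp [hU]
  refine hf.eqOn_of_preconnected_of_eventuallyEq hg hUc h2 ?_ hs
  have h3 : {s : ℂ | 1 < s.re} ∈ 𝓝 (2 : ℂ) := by
    refine (isOpen_lt continuous_const Complex.continuous_re).mem_nhds ?_
    show (1 : ℝ) < (2 : ℂ).re
    norm_num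
  filter_upwards [h3] with z hz
  exact z2_right hz

theorem zeta_growth : ∃ C : ℝ, 1 ≤ C ∧ ∀ s : ℂ, 1 / 4 ≤ s.re → s.re ≤ 4 → s ≠ 1 →
    ‖(s - 1) * riemannZeta s‖ ≤ C * (|s.im| + 2) ^ 2 := by
  refine ⟨40, by norm_num, fun s h1 h2 h3 => ?_⟩
  have hs0 : 0 < s.re := by linarith
  have h4 : (s - 1) * riemannZeta s = 1 + (s - 1) * z2_F s := by
    rw [riemannZeta_eq_inv_sub_add h3, ← z2_all hs0, mul_add,
      mul_inv_cancel₀ (sub_ne_zero.2 h3)]
  rw [h4]
  have h5 : ‖mellin z2_f (-s)‖ ≤ 4 := by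
    refine (z2_bound hs0).trans ?_
    rw [div_le_iff₀ hs0]; linarith
  have h6 : ‖s‖ ≤ 4 + |s.im| := by
    refine (Complex.norm_le_abs_re_add_abs_im s).trans ?_
    rw [abs_of_pos hs0]; linarith
  have h7 : ‖s - 1‖ ≤ 3 + |s.im| := by
    refine (Complex.norm_le_abs_re_add_abs_im _).trans ?_
    have e1 : (s - 1).re = s.re - 1 := by simp
    have e2 : (s - 1).im = s.im := by simp
    rw [e1, e2]
    have : |s.re - 1| ≤ 3 := by rw [abs_le]; constructor <;> linarith
    linarith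
  have h8 : ‖z2_F s‖ ≤ 1 + (4 + |s.im|) * 4 := by
    unfold z2_F
    refine (norm_sub_le _ _).trans ?_
    rw [norm_one, norm_mul]
    have := mul_le_mul h6 h5 (norm_nonneg _) (by positivity)
    linarith
  have h9 : ‖(1 : ℂ) + (s - 1) * z2_F s‖ ≤ 1 + (3 + |s.im|) * (1 + (4 + |s.im|) * 4) := by
    refine (norm_add_le _ _).trans ?_
    rw [norm_one, norm_mul]
    have := mul_le_mul h7 h8 (norm_nonneg _) (by positivity)
    linarith
  refine h9.trans ?_
  have := abs_nonneg s.im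
  nlinarith

/-- growth of `(s-1) ζ(s)`, any real part at least `1/4` -/
theorem z2_growth {s : ℂ} (h1 : 1 / 4 ≤ s.re) : ‖riemannZeta₁ s‖ ≤ 5 * (‖s‖ + 2) ^ 2 := by
  have hs0 : 0 < s.re := by linarith
  unfold riemannZeta₁
  rw [z2_all hs0]
  have h5 : ‖mellin z2_f (-s)‖ ≤ 4 := by
    refine (z2_bound hs0).trans ?_
    rw [div_le_iff₀ hs0]; linarith
  have h8 : ‖z2_F s‖ ≤ 1 + ‖s‖ * 4 := by
    unfold z2_F
    refine (norm_sub_le _ _).trans ?_
    rw [norm_one, norm_mul]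
    have := mul_le_mul_of_nonneg_left h5 (norm_nonneg s)
    linarith
  have h7 : ‖s - 1‖ ≤ ‖s‖ + 1 := by
    have := norm_sub_le s 1
    rwa [norm_one] at this
  refine (norm_add_le _ _).trans ?_
  rw [norm_one, norm_mul]
  have := mul_le_mul h7 h8 (norm_nonneg _) (by positivity)
  nlinarith [norm_nonneg s]

/-- growth of `(s-1) ζ(s)` in the strip -/
theorem Z1_growth : ∃ C : ℝ, 1 ≤ C ∧ ∀ s : ℂ, 1 / 4 ≤ s.re → s.re ≤ 4 →
    ‖riemannZeta₁ s‖ ≤ C * (|s.im| + 2) ^ 2 := by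
  refine ⟨45, by norm_num, fun s h1 h2 => (z2_growth h1).trans ?_⟩
  have h6 : ‖s‖ ≤ 4 + |s.im| := by
    refine (Complex.norm_le_abs_re_add_abs_im s).trans ?_
    rw [abs_of_pos (by linarith)]; linarith
  have h3 : ‖s‖ + 2 ≤ 3 * (|s.im| + 2) := by linarith [abs_nonneg s.im]
  have h4 : (‖s‖ + 2) ^ 2 ≤ (3 * (|s.im| + 2)) ^ 2 := pow_le_pow_left₀ (by positivity) h3 2
  nlinarith

/-! ## The principal character -/

theorem z2_re_inv_nonneg {c ρ : ℂ} (h : ρ.re ≤ c.re) : 0 ≤ (1 / (c - ρ)).re := by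
  rw [one_div, Complex.inv_re]
  exact div_nonneg (by rw [Complex.sub_re]; linarith) (Complex.normSq_nonneg _)

theorem z2_f1 {s : ℂ} (hs : s ≠ 1) : riemannZeta₁ s = (s - 1) * riemannZeta s := by
  rw [riemannZeta_eq_inv_sub_mul hs, ← mul_assoc, mul_inv_cancel₀ (sub_ne_zero.2 hs), one_mul]

theorem z2_zero {ρ : ℂ} (h : riemannZeta₁ ρ = 0) : ρ.re < 1 := by
  by_contra h1
  push Not at h1
  have hρ : ρ ≠ 1 := by
    rintro rfl
    rw [riemannZeta₁_one] at h
    exact one_ne_zero h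
  rw [z2_f1 hρ] at h
  rcases mul_eq_zero.1 h with h2 | h2
  · exact hρ (sub_eq_zero.1 h2)
  · exact riemannZeta_ne_zero_of_one_le_re h1 h2

theorem z2_log3 : 1 ≤ Real.log 3 := by
  rw [Real.le_log_iff_exp_le (by norm_num)]
  have := Real.exp_one_lt_d9
  linarith

theorem z2_L {q : ℕ} [NeZero q] {y ℒ : ℝ} (h : lt q y ≤ ℒ) :
    |y| + 2 ≤ Real.exp ℒ ∧ Real.log q ≤ ℒ := by
  have hq : (1 : ℝ) ≤ q := by exact_mod_cast NeZero.one_le
  have hy := abs_nonneg y
  have h1 : (q : ℝ) * (|y| + 2) ≤ Real.exp ℒ := by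
    unfold lt at h
    rwa [Real.log_le_iff_le_exp (by positivity)] at h
  constructor
  · nlinarith
  · have h2 : (q : ℝ) ≤ Real.exp ℒ := by nlinarith
    rw [Real.log_le_iff_le_exp (by linarith)]
    exact h2

theorem z2_zeta_upper : ∃ C : ℝ, 1 ≤ C ∧ ∀ (y σ ℒ : ℝ), |y| + 2 ≤ Real.exp ℒ →
    1 ≤ ℒ → Real.exp (-ℒ) ≤ σ → σ ≤ 1 / 16 →
    ∀ T : Finset ℂ, (∀ ρ ∈ T, riemannZeta₁ ρ = 0 ∧ ‖1 + σ + y * I - ρ‖ ≤ 1 / 4) →
    (Gj (1 : DirichletCharacter ℂ 1) 0 (1 + σ + y * I)).re ≤ σ / (σ ^ 2 + y ^ 2) + C * ℒ -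
      ∑ ρ ∈ T, (1 / (1 + σ + y * I - ρ)).re := by
  obtain ⟨C₀, hC₀, hgr⟩ := zeta_growth
  set K : ℝ := 4 + Real.log (7 * C₀) with hK
  have hlog0 : 0 ≤ Real.log (7 * C₀) := Real.log_nonneg (by linarith)
  have hK4 : 4 ≤ K := by linarith
  refine ⟨18 * K, by linarith, fun y σ ℒ hy hℒ hσ hσ1 T hT => ?_⟩
  have hσ0 : 0 < σ := lt_of_lt_of_le (Real.exp_pos _) hσ
  set c : ℂ := 1 + σ + y * I with hc
  have hcre : c.re = 1 + σ := by simp [hc]
  have hcim : c.im = y := by simp [hc]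
  have hc1 : c ≠ 1 := by
    intro h
    have := congrArg Complex.re h
    rw [hcre, Complex.one_re] at this
    linarith
  have hcre1 : 1 < c.re := by rw [hcre]; linarith
  have hf := differentiable_riemannZeta₁
  have hLF : LF (1 : DirichletCharacter ℂ 1) = riemannZeta := by
    rw [LF_eq, DirichletCharacter.LFunction_modOne_eq]
  -- lower bound at the centre
  have hlow : σ ^ 2 / 3 ≤ ‖riemannZeta₁ c‖ := by
    rw [z2_f1 hc1, norm_mul]
    have h1 := LF_lower (1 : DirichletCharacter ℂ 1) hcre1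
    rw [hLF, hcre] at h1
    have h2 : min 1 (1 + σ - 1) = σ := by
      rw [add_sub_cancel_left]; exact min_eq_right (by linarith)
    rw [h2] at h1
    have h3 : σ ≤ ‖c - 1‖ := by
      have h4 := Complex.re_le_norm (c - 1)
      rw [Complex.sub_re, hcre, Complex.one_re] at h4
      linarith
    have := mul_le_mul h3 h1 (by positivity) (norm_nonneg _)
    nlinarith
  have h0 : riemannZeta₁ c ≠ 0 := by
    intro h
    rw [h, norm_zero] at hlow
    have : 0 < σ ^ 2 / 3 := by positivity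
    linarith
  -- upper bound on the disc
  have hyn := abs_nonneg y
  have hup : ∀ z ∈ closedBall c (3 / 4), ‖riemannZeta₁ z‖ ≤ C₀ * (|y| + 3) ^ 2 := by
    intro z hz
    rw [mem_closedBall, dist_eq_norm] at hz
    have h1 := (Complex.abs_re_le_norm (z - c)).trans hz
    have h2 := (Complex.abs_im_le_norm (z - c)).trans hz
    rw [Complex.sub_re, hcre, abs_le] at h1
    rw [Complex.sub_im, hcim] at h2
    have h3 : |z.im| ≤ |y| + 3 / 4 := by
      have : |z.im| ≤ |z.im - y| + |y| := by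
        have := abs_add_le (z.im - y) y
        simpa using this
      linarith
    by_cases hz1 : z = 1
    · rw [hz1, riemannZeta₁_one, norm_one]
      nlinarith [sq_nonneg (|y| + 3)]
    · rw [z2_f1 hz1]
      refine (hgr z (by linarith [h1.1]) (by linarith [h1.2]) hz1).trans ?_
      have h4 : (|z.im| + 2) ^ 2 ≤ (|y| + 3) ^ 2 :=
        pow_le_pow_left₀ (by positivity) (by linarith) 2
      exact mul_le_mul_of_nonneg_left h4 (by linarith)
  set B : ℝ := Real.exp (K * ℒ) with hB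
  have hB1 : 1 ≤ B := Real.one_le_exp (by positivity)
  have hlogB : Real.log B = K * ℒ := Real.log_exp _
  have hmain : C₀ * (|y| + 3) ^ 2 ≤ B * (σ ^ 2 / 3) := by
    have h1 : (|y| + 3) ^ 2 ≤ (9 / 4) * Real.exp ℒ ^ 2 := by
      have : |y| + 3 ≤ (3 / 2) * Real.exp ℒ := by linarith
      have h2 := pow_le_pow_left₀ (by positivity) this 2
      calc (|y| + 3) ^ 2 ≤ (3 / 2 * Real.exp ℒ) ^ 2 := h2
        _ = _ := by ring
    have h2 : Real.exp (-ℒ) ^ 2 ≤ σ ^ 2 := pow_le_pow_left₀ (Real.exp_pos _).le hσ 2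
    have h3 : 7 * C₀ ≤ Real.exp (Real.log (7 * C₀) * ℒ) := by
      have : Real.exp (Real.log (7 * C₀)) ≤ Real.exp (Real.log (7 * C₀) * ℒ) :=
        Real.exp_le_exp.2 (by nlinarith)
      rwa [Real.exp_log (by positivity)] at this
    have h4 : B = Real.exp ℒ ^ 4 * Real.exp (Real.log (7 * C₀) * ℒ) := by
      rw [hB, hK, ← Real.exp_nat_mul, ← Real.exp_add]
      congr 1
      push_cast
      ring
    have h5 : Real.exp ℒ * Real.exp (-ℒ) = 1 := by
      rw [← Real.exp_add, add_neg_cancel, Real.exp_zero]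
    have h6 : B * (Real.exp (-ℒ) ^ 2 / 3) ≤ B * (σ ^ 2 / 3) :=
      mul_le_mul_of_nonneg_left (by linarith) (by positivity)
    refine le_trans ?_ h6
    have h7 : B * (Real.exp (-ℒ) ^ 2 / 3) =
        Real.exp ℒ ^ 2 * (Real.exp ℒ * Real.exp (-ℒ)) ^ 2 *
          Real.exp (Real.log (7 * C₀) * ℒ) / 3 := by
      rw [h4]; ring
    rw [h7, h5, one_pow, mul_one]
    have h8 : 0 < Real.exp ℒ ^ 2 := by positivity
    calc C₀ * (|y| + 3) ^ 2 ≤ C₀ * ((9 / 4) * Real.exp ℒ ^ 2) :=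
          mul_le_mul_of_nonneg_left h1 (by linarith)
      _ ≤ Real.exp ℒ ^ 2 * (7 * C₀) / 3 := by nlinarith
      _ ≤ _ := by
          have := mul_le_mul_of_nonneg_left h3 h8.le
          linarith
  have hBall : ∀ z ∈ closedBall c (3 / 4), ‖riemannZeta₁ z‖ ≤ B * ‖riemannZeta₁ c‖ := by
    intro z hz
    refine (hup z hz).trans (hmain.trans ?_)
    exact mul_le_mul_of_nonneg_left hlow (by positivity)
  have hcount := zero_count hf h0 (R₁ := 1 / 4) (R₃ := 3 / 4) (B := B) (by norm_num)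
    (by norm_num) hBall
  have hco := logDeriv_coeff hf h0 (r := 1 / 8) (R₁ := 1 / 4) (R₃ := 3 / 4) (B := B)
    (by norm_num) (by norm_num) (by norm_num) hB1 hBall 0
  have e3 : (3 / 4 : ℝ) / (1 / 4) = 3 := by norm_num
  rw [e3, hlogB] at hcount
  have hm0 : 0 ≤ ∑ ρ ∈ zb riemannZeta₁ c (1 / 4), mlt riemannZeta₁ ρ :=
    Finset.sum_nonneg fun ρ _ => by unfold mlt; positivity
  have hcount' : ∑ ρ ∈ zb riemannZeta₁ c (1 / 4), mlt riemannZeta₁ ρ ≤ K * ℒ := by
    have := z2_log3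
    nlinarith
  rw [hlogB] at hco
  simp only [iteratedDeriv_zero, Nat.factorial_zero, Nat.cast_one, div_one, pow_zero, one_mul,
    zero_add, pow_one, Nat.cast_zero, mul_one] at hco
  have hco' : ‖logDeriv riemannZeta₁ c - ∑ ρ ∈ zb riemannZeta₁ c (1 / 4),
      (mlt riemannZeta₁ ρ : ℂ) / (c - ρ)‖ ≤ 18 * K * ℒ := by
    refine hco.trans ?_
    have hKL : 0 ≤ K * ℒ := by positivity
    have h1 : 2 * (K * ℒ) / (1 / 4 - 1 / 8) = 16 * (K * ℒ) := by ring
    have h2 : (∑ ρ ∈ zb riemannZeta₁ c (1 / 4), mlt riemannZeta₁ ρ) / (3 / 4) ≤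
        2 * (K * ℒ) := by
      rw [div_le_iff₀ (by norm_num)]; linarith
    linarith
  -- the sum over the zeros
  have hsum : ∑ ρ ∈ T, (1 / (c - ρ)).re ≤
      (∑ ρ ∈ zb riemannZeta₁ c (1 / 4), (mlt riemannZeta₁ ρ : ℂ) / (c - ρ)).re := by
    rw [Complex.re_sum]
    have hsub : T ⊆ zb riemannZeta₁ c (1 / 4) := by
      intro ρ hρ
      rw [mem_zb hf h0]
      refine ⟨(hT ρ hρ).1, ?_⟩
      rw [mem_closedBall, dist_comm, dist_eq_norm]
      exact (hT ρ hρ).2
    have hre : ∀ ρ ∈ zb riemannZeta₁ c (1 / 4), 0 ≤ (1 / (c - ρ)).re ∧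
        ((mlt riemannZeta₁ ρ : ℂ) / (c - ρ)).re = mlt riemannZeta₁ ρ * (1 / (c - ρ)).re := by
      intro ρ hρ
      have h1 := ((mem_zb hf h0 c (1 / 4) ρ).1 hρ).1
      have h2 := z2_zero h1
      refine ⟨z2_re_inv_nonneg (by linarith), ?_⟩
      have h4 : (mlt riemannZeta₁ ρ : ℂ) / (c - ρ) = (mlt riemannZeta₁ ρ : ℂ) * (1 / (c - ρ)) := by
        ring
      rw [h4, Complex.re_ofReal_mul]
    refine le_trans (Finset.sum_le_sum fun ρ hρ => ?_)
      (Finset.sum_le_sum_of_subset_of_nonneg hsub fun ρ hρ _ => ?_)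
    · have h4 := hre ρ (hsub hρ)
      rw [h4.2]
      have h5 := one_le_mlt hf h0 (hT ρ hρ).1
      nlinarith [h4.1]
    · have h4 := hre ρ hρ
      rw [h4.2]
      exact mul_nonneg (by unfold mlt; positivity) h4.1
  -- the logarithmic derivative
  have hld : logDeriv riemannZeta₁ c = 1 / (c - 1) + logDeriv riemannZeta c := by
    have h1 : riemannZeta₁ =ᶠ[𝓝 c] fun s => (s - 1) * riemannZeta s := by
      filter_upwards [isOpen_ne.mem_nhds hc1] with s hs
      exact z2_f1 hs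
    have h2 : logDeriv riemannZeta₁ c = logDeriv (fun s => (s - 1) * riemannZeta s) c := by
      rw [logDeriv_apply, logDeriv_apply, h1.deriv_eq, h1.eq_of_nhds]
    have hζ : riemannZeta c ≠ 0 := riemannZeta_ne_zero_of_one_le_re hcre1.le
    have h5 := logDeriv_mul (f := fun s : ℂ => s - 1) (g := riemannZeta) c
      (sub_ne_zero.2 hc1) hζ (by fun_prop) (differentiableAt_riemannZeta hc1)
    rw [h2, h5]
    congr 1
    rw [logDeriv_apply]
    simp
  have hG := LF_deriv (1 : DirichletCharacter ℂ 1) 0 hcre1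
  rw [iteratedDeriv_zero, pow_zero, one_mul, hLF] at hG
  have h1 : (Gj (1 : DirichletCharacter ℂ 1) 0 c).re = (1 / (c - 1)).re -
      (logDeriv riemannZeta₁ c).re := by
    rw [hld, hG]
    simp
  have h2 : (1 / (c - 1)).re = σ / (σ ^ 2 + y ^ 2) := by
    have : c - 1 = (σ : ℂ) + y * I := by rw [hc]; ring
    rw [this, one_div, Complex.inv_re, Complex.normSq_apply]
    simp
    ring
  have h3 := (Complex.abs_re_le_norm _).trans hco'
  rw [Complex.sub_re, abs_le] at h3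
  rw [h1, h2]
  linarith [h3.1]

theorem principal_upper : ∃ C : ℝ, 1 ≤ C ∧ ∀ (q : ℕ) [NeZero q] (y σ ℒ : ℝ), lt q y ≤ ℒ →
    1 ≤ ℒ → Real.exp (-ℒ) ≤ σ → σ ≤ 1 / 16 →
    (Gj (1 : DirichletCharacter ℂ q) 0 (1 + σ + y * I)).re ≤ σ / (σ ^ 2 + y ^ 2) + C * ℒ := by
  obtain ⟨C, hC, h⟩ := z2_zeta_upper
  refine ⟨C + 1, by linarith, fun q _ y σ ℒ hL hℒ hσ hσ1 => ?_⟩
  obtain ⟨h1, h2⟩ := z2_L hL
  have hσ0 : 0 < σ := lt_of_lt_of_le (Real.exp_pos _) hσ
  have h3 := h y σ ℒ h1 hℒ hσ hσ1 ∅ (by simp)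
  rw [Finset.sum_empty, sub_zero] at h3
  have h4 := lift_diff (one_dvd q) (1 : DirichletCharacter ℂ 1) (s := 1 + σ + y * I)
    (by simp [hσ0])
  rw [DirichletCharacter.changeLevel_one] at h4
  have h5 := (Complex.abs_re_le_norm _).trans h4
  rw [Complex.sub_re, abs_le] at h5
  linarith [h5.2]

end Pool.Agent.GA
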