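import Pool.Agent.Lib_helper98.GAF.Loc
import Pool.Agent.Lib_helper98.GAF.Lbd
import Pool.Agent.Lib_helper98.GAF.Tur
import Pool.Agent.Lib_helper98.GAF.Fin
import Pool.Agent.Lib_helper98.GAF.Z2

/-!
# GA part Z, file 3: nontrivial characters and the zero-free region
-/

set_option autoImplicit false
set_option linter.unusedSectionVars false

namespace Pool.Agent.GA

open Finset Complex Metric Filter
open scoped ArithmeticFunction.vonMangoldt ComplexConjugate Classical Topology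

theorem z3_zero_re {q : ℕ} [NeZero q] {χ : DirichletCharacter ℂ q} (hχ : χ ≠ 1) {ρ : ℂ}
    (h : LF χ ρ = 0) : ρ.re < 1 := by
  by_contra h1
  push Not at h1
  exact LF_ne_zero hχ h1 h

theorem nontrivial_upper : ∃ C : ℝ, 1 ≤ C ∧ ∀ (q : ℕ) [NeZero q] (χ : DirichletCharacter ℂ q),
    χ ≠ 1 → ∀ t σ ℒ : ℝ, lt q t ≤ ℒ → Real.exp (-ℒ) ≤ σ → σ ≤ 1 / 16 →
    ∀ T : Finset ℂ, (∀ ρ ∈ T, LF χ ρ = 0 ∧ ‖1 + σ + t * I - ρ‖ ≤ 1 / 4) →
      (Gj χ 0 (1 + σ + t * I)).re ≤ C * ℒ - ∑ ρ ∈ T, (1 / (1 + σ + t * I - ρ)).re := by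
  obtain ⟨C, hC, h⟩ := local_expansion
  refine ⟨C, hC, fun q _ χ hχ t σ ℒ hL hσ hσ1 T hT => ?_⟩
  have hσ0 : 0 < σ := lt_of_lt_of_le (Real.exp_pos _) hσ
  have h1 := h q χ hχ t σ ℒ hL hσ hσ1 0
  simp only [Nat.factorial_zero, Nat.cast_one, div_one, zero_add, pow_one, pow_zero,
    mul_one] at h1
  have hd := LF_diff hχ
  have h0 : LF χ 2 ≠ 0 := LF_ne_zero hχ (by norm_num)
  set c : ℂ := 1 + σ + t * I with hc
  have hcre : c.re = 1 + σ := by simp [hc]
  have h2 := (Complex.abs_re_le_norm _).trans h1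
  rw [Complex.add_re, abs_le] at h2
  have h3 : ∑ ρ ∈ T, (1 / (c - ρ)).re ≤
      (∑ ρ ∈ zb (LF χ) c (1 / 4), (mlt (LF χ) ρ : ℂ) / (c - ρ)).re := by
    rw [Complex.re_sum]
    have hsub : T ⊆ zb (LF χ) c (1 / 4) := by
      intro ρ hρ
      rw [mem_zb hd h0]
      refine ⟨(hT ρ hρ).1, ?_⟩
      rw [mem_closedBall, dist_comm, dist_eq_norm]
      exact (hT ρ hρ).2
    have hre : ∀ ρ ∈ zb (LF χ) c (1 / 4), 0 ≤ (1 / (c - ρ)).re ∧
        ((mlt (LF χ) ρ : ℂ) / (c - ρ)).re = mlt (LF χ) ρ * (1 / (c - ρ)).re := by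
      intro ρ hρ
      have h4 := ((mem_zb hd h0 c (1 / 4) ρ).1 hρ).1
      have h5 := z3_zero_re hχ h4
      refine ⟨z2_re_inv_nonneg (by linarith), ?_⟩
      have h6 : (mlt (LF χ) ρ : ℂ) / (c - ρ) = (mlt (LF χ) ρ : ℂ) * (1 / (c - ρ)) := by ring
      rw [h6, Complex.re_ofReal_mul]
    refine le_trans (Finset.sum_le_sum fun ρ hρ => ?_)
      (Finset.sum_le_sum_of_subset_of_nonneg hsub fun ρ hρ _ => ?_)
    · have h4 := hre ρ (hsub hρ)
      rw [h4.2]
      have h5 := one_le_mlt hd h0 (hT ρ hρ).1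
      nlinarith [h4.1]
    · have h4 := hre ρ hρ
      rw [h4.2]
      exact mul_nonneg (by unfold mlt; positivity) h4.1
  linarith [h2.2]

/-- the zeros of a real character are symmetric -/
theorem LF_conj {q : ℕ} [NeZero q] {χ : DirichletCharacter ℂ q} (hχ : χ ^ 2 = 1) (hχ1 : χ ≠ 1)
    (s : ℂ) : LF χ (conj s) = conj (LF χ s) := by
  have hd := LF_diff hχ1
  have hd2 : Differentiable ℂ (fun s : ℂ => conj (LF χ (conj s))) := by
    intro z
    have h1 := (hd (conj z)).conj_conj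
    rw [Complex.conj_conj] at h1
    exact h1
  have hval : ∀ n : ℕ, conj (χ (n : ZMod q)) = χ (n : ZMod q) := by
    intro n
    by_cases hu : IsUnit (n : ZMod q)
    · rcases z1_real hχ hu with h | h <;> rw [h] <;> simp
    · rw [MulChar.map_nonunit χ hu, map_zero]
  have hright : ∀ s : ℂ, 1 < s.re → conj (LF χ (conj s)) = LF χ s := by
    intro s hs
    have hs' : 1 < (conj s).re := by simpa using hs
    rw [LF_eq, DirichletCharacter.LFunction_eq_LSeries χ hs,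
      DirichletCharacter.LFunction_eq_LSeries χ hs']
    unfold LSeries
    rw [Complex.conj_tsum]
    refine tsum_congr fun n => ?_
    rcases Nat.eq_zero_or_pos n with rfl | hn
    · simp [LSeries.term]
    · rw [LSeries.term_of_ne_zero hn.ne', LSeries.term_of_ne_zero hn.ne', map_div₀, hval]
      congr 1
      have hnC : (n : ℂ) ≠ 0 := by exact_mod_cast hn.ne'
      rw [Complex.cpow_def_of_ne_zero hnC, Complex.cpow_def_of_ne_zero hnC, ← Complex.exp_conj,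
        map_mul, Complex.conj_conj, ← Complex.natCast_log, Complex.conj_ofReal]
  have hall : (fun s : ℂ => conj (LF χ (conj s))) = LF χ := by
    have h1 : AnalyticOnNhd ℂ (fun s : ℂ => conj (LF χ (conj s))) Set.univ :=
      hd2.differentiableOn.analyticOnNhd isOpen_univ
    have h2 : AnalyticOnNhd ℂ (LF χ) Set.univ :=
      hd.differentiableOn.analyticOnNhd isOpen_univ
    refine h1.eq_of_eventuallyEq h2 (z₀ := 2) ?_
    have h3 : {s : ℂ | 1 < s.re} ∈ 𝓝 (2 : ℂ) := by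
      refine (isOpen_lt continuous_const Complex.continuous_re).mem_nhds ?_
      show (1 : ℝ) < (2 : ℂ).re
      norm_num
    filter_upwards [h3] with z hz
    exact hright z hz
  have h4 := congrFun hall s
  have h5 := congrArg conj h4
  simp only [Complex.conj_conj] at h5
  exact h5

/-! ## Parameters -/

/-- choice of `ℒ = A log D` for a given `a` -/
theorem z3_par {a : ℝ} (ha : 0 < a) : ∃ A : ℝ, 1 ≤ A ∧ ∀ D : ℕ, 2 ≤ D →
    1 ≤ A * Real.log D ∧ Real.exp (-(A * Real.log D)) ≤ a / (A * Real.log D) ∧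
    a / (A * Real.log D) ≤ a ∧
    (∀ q ∈ Icc 1 D, ∀ t : ℝ, |t| ≤ 2 * D → lt q t ≤ A * Real.log D) ∧
    (∀ q₁ ∈ Icc 1 D, ∀ q₂ ∈ Icc 1 D, lt (q₁ * q₂) 0 ≤ A * Real.log D) := by
  set A : ℝ := 4 + 4 / a with hA
  have ha2 : 0 < 4 / a := by positivity
  have hl2 : (1 : ℝ) / 2 ≤ Real.log 2 := by
    have := Real.log_two_gt_d9; linarith
  refine ⟨A, by linarith, fun D hD => ?_⟩
  have hDR : (2 : ℝ) ≤ D := by exact_mod_cast hD
  have hlD : Real.log 2 ≤ Real.log D := Real.log_le_log (by norm_num) hDR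
  have hlD0 : 0 < Real.log D := by linarith
  set ℒ : ℝ := A * Real.log D with hℒd
  have hℒ1 : 2 ≤ ℒ := by
    rw [hℒd]; nlinarith
  have hℒa : 1 ≤ a * ℒ := by
    have h1 : a * ℒ = (4 * a + 4) * Real.log D := by
      rw [hℒd, hA]; field_simp
    rw [h1]
    nlinarith [mul_pos ha hlD0]
  have hℒ4 : 4 * Real.log D ≤ ℒ := by
    rw [hℒd]; nlinarith [mul_pos ha2 hlD0]
  refine ⟨by linarith, ?_, ?_, ?_, ?_⟩
  · rw [le_div_iff₀ (by linarith), Real.exp_neg, ← div_eq_inv_mul, div_le_iff₀ (Real.exp_pos _)]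
    -- ℒ ≤ a exp ℒ
    have h1 : ℒ ^ 2 / 2 ≤ Real.exp ℒ := by
      have := Real.quadratic_le_exp_of_nonneg (x := ℒ) (by linarith)
      nlinarith
    have h2 : a * (ℒ ^ 2 / 2) ≤ a * Real.exp ℒ := mul_le_mul_of_nonneg_left h1 ha.le
    -- ℒ ≤ a ℒ² / 2 as `a ℒ ≥ 2`
    have h3 : 2 ≤ a * ℒ := by
      have h1 : a * ℒ = (4 * a + 4) * Real.log D := by
        rw [hℒd, hA]; field_simp
      rw [h1]
      nlinarith [mul_pos ha hlD0]
    nlinarith
  · rw [div_le_iff₀ (by linarith)]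
    nlinarith
  · intro q hq t ht
    rw [Finset.mem_Icc] at hq
    have hq1 : (1 : ℝ) ≤ q := by exact_mod_cast hq.1
    have hq2 : (q : ℝ) ≤ D := by exact_mod_cast hq.2
    unfold lt
    refine le_trans ?_ hℒ4
    have h1 : 4 * Real.log D = Real.log ((D : ℝ) ^ 4) := by
      rw [Real.log_pow]; norm_num
    rw [h1]
    have ht0 := abs_nonneg t
    apply Real.log_le_log (by positivity)
    calc (q : ℝ) * (|t| + 2) ≤ D * (2 * D + 2) := by
          apply mul_le_mul hq2 (by linarith) (by linarith) (by linarith)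
      _ ≤ (D : ℝ) ^ 4 := by
          have h5 : (D : ℝ) ^ 4 = D * (D * (D * D)) := by ring
          rw [h5]
          apply mul_le_mul_of_nonneg_left _ (by linarith)
          nlinarith
  · intro q₁ h₁ q₂ h₂
    rw [Finset.mem_Icc] at h₁ h₂
    have hq1 : (1 : ℝ) ≤ q₁ := by exact_mod_cast h₁.1
    have hq2 : (q₁ : ℝ) ≤ D := by exact_mod_cast h₁.2
    have hq1' : (1 : ℝ) ≤ q₂ := by exact_mod_cast h₂.1
    have hq2' : (q₂ : ℝ) ≤ D := by exact_mod_cast h₂.2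
    unfold lt
    refine le_trans ?_ hℒ4
    have h1 : 4 * Real.log D = Real.log ((D : ℝ) ^ 4) := by
      rw [Real.log_pow]; norm_num
    rw [h1, abs_zero, zero_add]
    push_cast
    have h3 : (q₁ : ℝ) * q₂ ≤ D * D := mul_le_mul hq2 hq2' (by linarith) (by linarith)
    apply Real.log_le_log
    · have : (0 : ℝ) < q₁ * q₂ := mul_pos (by linarith) (by linarith)
      linarith
    · have h5 : (D : ℝ) ^ 4 = (D * D) * (D * D) := by ring
      rw [h5]
      have h6 : (4 : ℝ) ≤ D * D := by nlinarith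
      nlinarith

/-! ## The zero-free region -/

theorem z3_inv {σ x : ℝ} (_ : 0 < σ) (_ : 0 < x) :
    (1 / ((σ + x : ℝ) : ℂ)).re = 1 / (σ + x) := by
  rw [← Complex.ofReal_one, ← Complex.ofReal_div, Complex.ofReal_re]

theorem z3_Prm {q : ℕ} {χ : DirichletCharacter ℂ q} (h : χ ∈ Prm q) :
    χ.IsPrimitive ∧ χ ≠ 1 := by
  unfold Prm at h
  rw [Finset.mem_filter] at h
  exact h.2

/-- the final step: `1 - β ≥ 1/16` or `1 - β ≥ κ σ`, `σ = a / (A log D)` -/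
theorem z3_final {a A κ : ℝ} (ha : 0 < a) (hA : 1 ≤ A) (hκ : 0 < κ) {D : ℕ} (hD : 2 ≤ D) {β : ℝ}
    (h : 1 / 16 ≤ 1 - β ∨ κ * (a / (A * Real.log D)) ≤ 1 - β) :
    β ≤ 1 - min (κ * a / A) (1 / 32) / Real.log D := by
  have hDR : (2 : ℝ) ≤ D := by exact_mod_cast hD
  have hl2 : (1 : ℝ) / 2 ≤ Real.log 2 := by
    have := Real.log_two_gt_d9; linarith
  have hlD : Real.log 2 ≤ Real.log D := Real.log_le_log (by norm_num) hDR
  have hlD0 : 0 < Real.log D := by linarith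
  rcases h with h | h
  · have h1 : min (κ * a / A) (1 / 32) / Real.log D ≤ 1 / 16 := by
      rw [div_le_iff₀ hlD0]
      have := min_le_right (κ * a / A) (1 / 32)
      linarith
    linarith
  · have h1 : min (κ * a / A) (1 / 32) / Real.log D ≤ κ * (a / (A * Real.log D)) := by
      have h2 : κ * (a / (A * Real.log D)) = (κ * a / A) / Real.log D := by
        field_simp
      rw [h2]
      exact div_le_div_of_nonneg_right (min_le_left _ _) hlD0.le
    linarith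

theorem zero_free_complex : ∃ c : ℝ, 0 < c ∧ ∀ D : ℕ, 2 ≤ D → ∀ q ∈ Icc 1 D, ∀ χ ∈ Prm q,
    χ ^ 2 ≠ 1 → ∀ ρ : ℂ, LF χ ρ = 0 → |ρ.im| ≤ D → ρ.re ≤ 1 - c / Real.log D := by
  obtain ⟨C₁, hC₁, hP⟩ := principal_upper
  obtain ⟨C₂, hC₂, hN⟩ := nontrivial_upper
  set C : ℝ := C₁ + C₂ with hC
  set a : ℝ := 1 / (64 * C) with ha
  have hC0 : 2 ≤ C := by linarith
  have ha0 : 0 < a := by positivity
  have haC : a * C = 1 / 64 := by rw [ha]; field_simp
  have ha1 : a ≤ 1 / 64 := by nlinarith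
  obtain ⟨A, hA, hpar⟩ := z3_par ha0
  refine ⟨min ((1 / 14) * a / A) (1 / 32), by positivity, fun D hD q hq χ hχ hχ2 ρ hρ him => ?_⟩
  obtain ⟨hℒ1, hexp, hσa, hlt, -⟩ := hpar D hD
  apply z3_final ha0 hA (by norm_num) hD
  by_cases hcase : 1 / 16 ≤ 1 - ρ.re
  · left; exact hcase
  right
  push Not at hcase
  set ℒ : ℝ := A * Real.log D with hℒ
  set σ : ℝ := a / ℒ with hσ
  have hσ0 : 0 < σ := by positivity
  have hσ1 : σ ≤ 1 / 16 := by linarith
  have hq1 : 1 ≤ q := (Finset.mem_Icc.1 hq).1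
  have : NeZero q := ⟨by omega⟩
  obtain ⟨-, hχ1⟩ := z3_Prm hχ
  have hre := z3_zero_re hχ1 hρ
  set x : ℝ := 1 - ρ.re with hx
  have hx0 : 0 < x := by linarith
  have hDR : (2 : ℝ) ≤ D := by exact_mod_cast hD
  have h0 := pos_341 χ ρ.im hσ0
  have h1 := hP q 0 σ ℒ (hlt q hq 0 (by rw [abs_zero]; positivity)) hℒ1 hexp hσ1
  have h2 := hN q χ hχ1 ρ.im σ ℒ (hlt q hq ρ.im (by linarith)) hexp hσ1 {ρ} (by
    intro ρ' hρ'
    rw [Finset.mem_singleton] at hρ'
    subst hρ'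
    refine ⟨hρ, ?_⟩
    have e : (1 + σ + ρ'.im * I - ρ' : ℂ) = ((σ + x : ℝ) : ℂ) := by
      apply Complex.ext <;> simp [hx]; ring
    rw [e, Complex.norm_real, Real.norm_of_nonneg (by positivity)]
    linarith)
  have h3 := hN q (χ ^ 2) hχ2 (2 * ρ.im) σ ℒ (hlt q hq (2 * ρ.im) (by
    rw [abs_mul, abs_of_pos (by norm_num : (0 : ℝ) < 2)]; linarith)) hexp hσ1 ∅ (by simp)
  rw [Finset.sum_singleton] at h2
  rw [Finset.sum_empty, sub_zero] at h3
  have e : (1 + σ + ρ.im * I - ρ : ℂ) = ((σ + x : ℝ) : ℂ) := by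
    apply Complex.ext <;> simp [hx]; ring
  rw [e, z3_inv hσ0 hx0] at h2
  rw [z1_c0] at h1
  have e2 : σ / (σ ^ 2 + 0 ^ 2) = 1 / σ := by field_simp; ring
  rw [e2] at h1
  have hCL : C * ℒ = 1 / (64 * σ) := by
    have : C * ℒ * σ = 1 / 64 := by
      rw [hσ, ← haC]; field_simp
    field_simp
    linarith
  have h4 : 4 * (1 / (σ + x)) ≤ 3 * (1 / σ) + 8 * (1 / (64 * σ)) := by
    have hc1 : C₁ * ℒ ≤ C * ℒ := mul_le_mul_of_nonneg_right (by linarith) (by linarith)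
    have hc2 : C₂ * ℒ ≤ C * ℒ := mul_le_mul_of_nonneg_right (by linarith) (by linarith)
    rw [← hCL]
    linarith
  have h5 : 4 * σ ≤ (3 + 8 / 64) * (σ + x) := by
    have h6 : 3 * (1 / σ) + 8 * (1 / (64 * σ)) = (3 + 8 / 64) / σ := by field_simp
    rw [h6, mul_one_div, div_le_div_iff₀ (by positivity) hσ0] at h4
    linarith
  linarith

theorem zero_free_real : ∃ c : ℝ, 0 < c ∧ ∀ D : ℕ, 2 ≤ D → ∀ q ∈ Icc 1 D, ∀ χ ∈ Prm q,
    χ ^ 2 = 1 → ∀ ρ : ℂ, LF χ ρ = 0 → |ρ.im| ≤ D → ρ.im ≠ 0 →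
      ρ.re ≤ 1 - c / Real.log D := by
  obtain ⟨C₁, hC₁, hP⟩ := principal_upper
  obtain ⟨C₂, hC₂, hN⟩ := nontrivial_upper
  set C : ℝ := C₁ + C₂ with hC
  set a : ℝ := 1 / (64 * C) with ha
  have hC0 : 2 ≤ C := by linarith
  have ha0 : 0 < a := by positivity
  have haC : a * C = 1 / 64 := by rw [ha]; field_simp
  have ha1 : a ≤ 1 / 64 := by nlinarith
  obtain ⟨A, hA, hpar⟩ := z3_par ha0
  refine ⟨min ((1 / 14) * a / A) (1 / 32), by positivity,
    fun D hD q hq χ hχ hχ2 ρ hρ him him0 => ?_⟩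
  obtain ⟨hℒ1, hexp, hσa, hlt, -⟩ := hpar D hD
  apply z3_final ha0 hA (by norm_num) hD
  by_cases hcase : 1 / 16 ≤ 1 - ρ.re
  · left; exact hcase
  right
  push Not at hcase
  set ℒ : ℝ := A * Real.log D with hℒ
  set σ : ℝ := a / ℒ with hσ
  have hσ0 : 0 < σ := by positivity
  have hσ1 : σ ≤ 1 / 16 := by linarith
  have hq1 : 1 ≤ q := (Finset.mem_Icc.1 hq).1
  have : NeZero q := ⟨by omega⟩
  obtain ⟨-, hχ1⟩ := z3_Prm hχ
  have hre := z3_zero_re hχ1 hρ
  set x : ℝ := 1 - ρ.re with hx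
  have hx0 : 0 < x := by linarith
  have hDR : (2 : ℝ) ≤ D := by exact_mod_cast hD
  have hc1 : C₁ * ℒ ≤ C * ℒ := mul_le_mul_of_nonneg_right (by linarith) (by linarith)
  have hc2 : C₂ * ℒ ≤ C * ℒ := mul_le_mul_of_nonneg_right (by linarith) (by linarith)
  have hCL : C * ℒ = 1 / (64 * σ) := by
    have : C * ℒ * σ = 1 / 64 := by
      rw [hσ, ← haC]; field_simp
    field_simp
    linarith
  by_cases hγ : σ ≤ |ρ.im|
  · -- `|γ| ≥ σ`
    have h0 := pos_341 χ ρ.im hσ0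
    have h1 := hP q 0 σ ℒ (hlt q hq 0 (by rw [abs_zero]; positivity)) hℒ1 hexp hσ1
    have h2 := hN q χ hχ1 ρ.im σ ℒ (hlt q hq ρ.im (by linarith)) hexp hσ1 {ρ} (by
      intro ρ' hρ'
      rw [Finset.mem_singleton] at hρ'
      subst hρ'
      refine ⟨hρ, ?_⟩
      have e : (1 + σ + ρ'.im * I - ρ' : ℂ) = ((σ + x : ℝ) : ℂ) := by
        apply Complex.ext <;> simp [hx]; ring
      rw [e, Complex.norm_real, Real.norm_of_nonneg (by positivity)]
      linarith)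
    have h3 := hP q (2 * ρ.im) σ ℒ (hlt q hq (2 * ρ.im) (by
      rw [abs_mul, abs_of_pos (by norm_num : (0 : ℝ) < 2)]; linarith)) hℒ1 hexp hσ1
    rw [hχ2] at h0
    rw [Finset.sum_singleton] at h2
    have e : (1 + σ + ρ.im * I - ρ : ℂ) = ((σ + x : ℝ) : ℂ) := by
      apply Complex.ext <;> simp [hx]; ring
    rw [e, z3_inv hσ0 hx0] at h2
    rw [z1_c0] at h1
    have e2 : σ / (σ ^ 2 + 0 ^ 2) = 1 / σ := by field_simp; ring
    rw [e2] at h1
    have e3 : σ / (σ ^ 2 + (2 * ρ.im) ^ 2) ≤ 1 / (5 * σ) := by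
      rw [div_le_div_iff₀ (by positivity) (by positivity)]
      have h6 : σ ^ 2 ≤ ρ.im ^ 2 := by
        rw [← sq_abs ρ.im]
        exact pow_le_pow_left₀ hσ0.le hγ 2
      nlinarith
    have h4 : 4 * (1 / (σ + x)) ≤ 3 * (1 / σ) + 1 / (5 * σ) + 8 * (1 / (64 * σ)) := by
      rw [← hCL]
      linarith
    have h5 : 4 * σ ≤ (3 + 1 / 5 + 8 / 64) * (σ + x) := by
      have h6 : 3 * (1 / σ) + 1 / (5 * σ) + 8 * (1 / (64 * σ)) = (3 + 1 / 5 + 8 / 64) / σ := by
        field_simp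
      rw [h6, mul_one_div, div_le_div_iff₀ (by positivity) hσ0] at h4
      linarith
    linarith
  · -- `0 < |γ| < σ`
    push Not at hγ
    by_contra hcon
    push Not at hcon
    have hxσ : x < σ / 2 := by linarith
    have h3σ : 3 * σ ≤ 1 / 16 := by linarith
    have h0 := pos_two hχ2 (σ := 3 * σ) (by positivity)
    have h1 := hP q 0 (3 * σ) ℒ (hlt q hq 0 (by rw [abs_zero]; positivity)) hℒ1 (by linarith) h3σ
    have hconj : LF χ (conj ρ) = 0 := by rw [LF_conj hχ2 hχ1, hρ, map_zero]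
    have hne : ρ ≠ conj ρ := by
      intro h
      have h1 := congrArg Complex.im h
      rw [Complex.conj_im] at h1
      exact him0 (by linarith)
    set X : ℝ := 3 * σ + x with hX
    have hX0 : 0 < X := by positivity
    have hnorm : ∀ y : ℝ, |y| = |ρ.im| → ‖(X : ℂ) + y * I‖ ≤ 1 / 4 := by
      intro y hy
      refine (norm_add_le _ _).trans ?_
      rw [norm_mul, Complex.norm_I, mul_one, Complex.norm_real, Complex.norm_real,
        Real.norm_of_nonneg hX0.le, Real.norm_eq_abs, hy]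
      linarith
    have e1 : (1 + ((3 * σ : ℝ) : ℂ) + ((0 : ℝ) : ℂ) * I - ρ : ℂ) = (X : ℂ) + ((-ρ.im : ℝ) : ℂ) * I := by
      apply Complex.ext <;> simp [hX, hx]; ring
    have e2 : (1 + ((3 * σ : ℝ) : ℂ) + ((0 : ℝ) : ℂ) * I - conj ρ : ℂ) =
        (X : ℂ) + ((ρ.im : ℝ) : ℂ) * I := by
      apply Complex.ext <;> simp [hX, hx]; ring
    have h2 := hN q χ hχ1 0 (3 * σ) ℒ (hlt q hq 0 (by rw [abs_zero]; positivity))
      (by linarith) h3σ {ρ, conj ρ} (by
      intro ρ' hρ'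
      rw [Finset.mem_insert, Finset.mem_singleton] at hρ'
      rcases hρ' with rfl | rfl
      · exact ⟨hρ, by rw [e1]; exact hnorm _ (abs_neg _)⟩
      · exact ⟨hconj, by rw [e2]; exact hnorm _ rfl⟩)
    rw [Finset.sum_pair hne, e1, e2] at h2
    have e3 : ∀ y : ℝ, (1 / ((X : ℂ) + (y : ℂ) * I)).re = X / (X ^ 2 + y ^ 2) := by
      intro y
      rw [one_div, Complex.inv_re, Complex.normSq_apply]
      simp
      ring
    rw [e3, e3, neg_sq] at h2
    rw [z1_c0] at h1 h2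
    have e4 : 3 * σ / ((3 * σ) ^ 2 + 0 ^ 2) = 1 / (3 * σ) := by field_simp; ring
    rw [e4] at h1
    have h4 : 1 / (4 * σ) ≤ X / (X ^ 2 + ρ.im ^ 2) := by
      have h6 : ρ.im ^ 2 ≤ σ ^ 2 := by
        rw [← sq_abs ρ.im]
        exact pow_le_pow_left₀ (abs_nonneg _) hγ.le 2
      rw [div_le_div_iff₀ (by positivity) (by positivity)]
      nlinarith [mul_nonneg (by linarith : (0 : ℝ) ≤ X - 3 * σ) (by linarith : (0:ℝ) ≤ 7 / 2 * σ - X)]
    have h5 : 2 * (1 / (4 * σ)) ≤ 1 / (3 * σ) + 2 * (1 / (64 * σ)) := by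
      rw [← hCL]
      linarith
    have h6 : 2 * (1 / (4 * σ)) - (1 / (3 * σ) + 2 * (1 / (64 * σ))) = (13 / 96) / σ := by
      field_simp; ring
    have h7 : 0 < (13 / 96) / σ := by positivity
    linarith

end Pool.Agent.GA
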