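import Pool.Agent.Lib_helper98.GAF.Den2

/-! # Log-free zero density (restated) -/

set_option autoImplicit false

namespace Pool.Agent.GA

open Finset

open scoped Classical

theorem density : ∃ C : ℝ, 1 ≤ C ∧ ∀ D : ℕ, 2 ≤ D → ∀ δ : ℝ, 0 ≤ δ → δ ≤ 1 / 16 →
    ∑ q ∈ Icc 1 D, ∑ χ ∈ Prm q, nz (LF χ) δ D ≤ Real.exp (C * (1 + δ * Real.log D)) :=
  GAT.density

end Pool.Agent.GA
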