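import Pool.Agent.Lib_helper98.GAF.Loc

/-! # LSC: primes twisted by a character, on the logarithmic scale -/

set_option autoImplicit false

namespace Pool.Agent.GA

open Finset Complex Metric
open scoped ArithmeticFunction.vonMangoldt Classical

theorem mem_Prm {q : ℕ} {χ : DirichletCharacter ℂ q} : χ ∈ Prm q ↔ χ.IsPrimitive ∧ χ ≠ 1 := by
  simp [Prm]

/-- dyadic summation -/
theorem dyadic_aux {ι : Type*} (S : Finset ι) (m d : ι → ℝ) (hm : ∀ ρ ∈ S, 0 ≤ m ρ)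
    {R₀ A : ℝ} (hR : 0 < R₀) (hA : ∀ R : ℝ, R₀ ≤ R → ∑ ρ ∈ S.filter (fun ρ => d ρ ≤ R), m ρ ≤ A * R)
    {j : ℕ} (hj : 1 ≤ j) (N : ℕ) :
    ∑ ρ ∈ S.filter (fun ρ => R₀ < d ρ ∧ d ρ ≤ 2 ^ N * R₀), m ρ / d ρ ^ (j + 1) ≤
      2 * A / R₀ ^ j * ∑ i ∈ range N, (1 / 2 : ℝ) ^ i := by
  induction N with
  | zero =>
    have : S.filter (fun ρ => R₀ < d ρ ∧ d ρ ≤ 2 ^ 0 * R₀) = ∅ := by
      refine Finset.filter_eq_empty_iff.2 fun ρ _ h => ?_
      rw [pow_zero, one_mul] at h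
      linarith [h.1, h.2]
    rw [this]; simp
  | succ N ih =>
    have h2N : (0 : ℝ) < 2 ^ N := by positivity
    have hsub : S.filter (fun ρ => R₀ < d ρ ∧ d ρ ≤ 2 ^ (N + 1) * R₀) ⊆
        S.filter (fun ρ => R₀ < d ρ ∧ d ρ ≤ 2 ^ N * R₀) ∪
        S.filter (fun ρ => 2 ^ N * R₀ < d ρ ∧ d ρ ≤ 2 ^ (N + 1) * R₀) := by
      intro ρ hρ
      rw [mem_filter] at hρ
      rw [mem_union, mem_filter, mem_filter]
      rcases le_or_gt (d ρ) (2 ^ N * R₀) with h | h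
      · exact Or.inl ⟨hρ.1, hρ.2.1, h⟩
      · exact Or.inr ⟨hρ.1, h, hρ.2.2⟩
    have hpos : ∀ ρ ∈ S.filter (fun ρ => R₀ < d ρ ∧ d ρ ≤ 2 ^ N * R₀) ∪
        S.filter (fun ρ => 2 ^ N * R₀ < d ρ ∧ d ρ ≤ 2 ^ (N + 1) * R₀),
        0 ≤ m ρ / d ρ ^ (j + 1) := by
      intro ρ hρ
      rw [mem_union, mem_filter, mem_filter] at hρ
      rcases hρ with h | h
      · have : 0 < d ρ := hR.trans h.2.1
        exact div_nonneg (hm ρ h.1) (by positivity)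
      · have : 0 < d ρ := lt_trans (by positivity) h.2.1
        exact div_nonneg (hm ρ h.1) (by positivity)
    have h1 : ∑ ρ ∈ S.filter (fun ρ => R₀ < d ρ ∧ d ρ ≤ 2 ^ (N + 1) * R₀), m ρ / d ρ ^ (j + 1) ≤
        ∑ ρ ∈ S.filter (fun ρ => R₀ < d ρ ∧ d ρ ≤ 2 ^ N * R₀), m ρ / d ρ ^ (j + 1) +
        ∑ ρ ∈ S.filter (fun ρ => 2 ^ N * R₀ < d ρ ∧ d ρ ≤ 2 ^ (N + 1) * R₀),
          m ρ / d ρ ^ (j + 1) := by
      have e1 := Finset.sum_le_sum_of_subset_of_nonneg hsub fun ρ hρ _ => hpos ρ hρ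
      have e2 : 0 ≤ ∑ ρ ∈ S.filter (fun ρ => R₀ < d ρ ∧ d ρ ≤ 2 ^ N * R₀) ∩
        S.filter (fun ρ => 2 ^ N * R₀ < d ρ ∧ d ρ ≤ 2 ^ (N + 1) * R₀), m ρ / d ρ ^ (j + 1) :=
        Finset.sum_nonneg fun ρ hρ => hpos ρ (mem_union_left _ (mem_inter.1 hρ).1)
      have e3 := Finset.sum_union_inter (s₁ := S.filter (fun ρ => R₀ < d ρ ∧ d ρ ≤ 2 ^ N * R₀))
        (s₂ := S.filter (fun ρ => 2 ^ N * R₀ < d ρ ∧ d ρ ≤ 2 ^ (N + 1) * R₀))
        (f := fun ρ => m ρ / d ρ ^ (j + 1))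
      linarith
    have h2 : ∑ ρ ∈ S.filter (fun ρ => 2 ^ N * R₀ < d ρ ∧ d ρ ≤ 2 ^ (N + 1) * R₀),
          m ρ / d ρ ^ (j + 1) ≤ 2 * A / R₀ ^ j * (1 / 2 : ℝ) ^ N := by
      have hR2 : R₀ ≤ 2 ^ (N + 1) * R₀ := by
        have : (1 : ℝ) ≤ 2 ^ (N + 1) := one_le_pow₀ (by norm_num)
        nlinarith
      have hAR := hA (2 ^ (N + 1) * R₀) hR2
      have hA0 : 0 ≤ A := by
        have e4 : 0 ≤ ∑ ρ ∈ S.filter (fun ρ => d ρ ≤ 2 ^ (N + 1) * R₀), m ρ :=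
          Finset.sum_nonneg fun ρ hρ => hm ρ (mem_filter.1 hρ).1
        have e5 : 0 ≤ A * (2 ^ (N + 1) * R₀) := e4.trans hAR
        exact nonneg_of_mul_nonneg_left e5 (by positivity)
      calc ∑ ρ ∈ S.filter (fun ρ => 2 ^ N * R₀ < d ρ ∧ d ρ ≤ 2 ^ (N + 1) * R₀),
            m ρ / d ρ ^ (j + 1)
          ≤ ∑ ρ ∈ S.filter (fun ρ => 2 ^ N * R₀ < d ρ ∧ d ρ ≤ 2 ^ (N + 1) * R₀),
            m ρ / (2 ^ N * R₀) ^ (j + 1) := by
            refine Finset.sum_le_sum fun ρ hρ => ?_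
            rw [mem_filter] at hρ
            have := hm ρ hρ.1
            have h3 := hρ.2.1.le
            gcongr
        _ = (∑ ρ ∈ S.filter (fun ρ => 2 ^ N * R₀ < d ρ ∧ d ρ ≤ 2 ^ (N + 1) * R₀), m ρ) /
            (2 ^ N * R₀) ^ (j + 1) := by rw [Finset.sum_div]
        _ ≤ (∑ ρ ∈ S.filter (fun ρ => d ρ ≤ 2 ^ (N + 1) * R₀), m ρ) /
            (2 ^ N * R₀) ^ (j + 1) := by
            refine div_le_div_of_nonneg_right ?_ (by positivity)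
            refine Finset.sum_le_sum_of_subset_of_nonneg (fun ρ hρ => ?_)
              (fun ρ hρ _ => ?_)
            · rw [mem_filter] at hρ ⊢
              exact ⟨hρ.1, hρ.2.2⟩
            · rw [mem_filter] at hρ
              exact hm ρ hρ.1
        _ ≤ (A * (2 ^ (N + 1) * R₀)) / (2 ^ N * R₀) ^ (j + 1) := by gcongr
        _ = 2 * A / R₀ ^ j * (1 / (2 ^ N) ^ j) := by
            rw [pow_succ 2 N, mul_pow, pow_succ R₀ j, pow_succ (2 ^ N : ℝ) j]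
            field_simp
        _ ≤ 2 * A / R₀ ^ j * (1 / 2 : ℝ) ^ N := by
            gcongr
            rw [one_div_pow]
            refine one_div_le_one_div_of_le (by positivity) ?_
            calc (2 : ℝ) ^ N = (2 ^ N) ^ 1 := (pow_one _).symm
              _ ≤ (2 ^ N) ^ j := pow_le_pow_right₀ (one_le_pow₀ (by norm_num)) hj
    rw [Finset.sum_range_succ, mul_add]
    linarith

theorem dyadic {ι : Type*} (S : Finset ι) (m d : ι → ℝ) (hm : ∀ ρ ∈ S, 0 ≤ m ρ)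
    {R₀ A : ℝ} (hR : 0 < R₀) (hA : ∀ R : ℝ, R₀ ≤ R → ∑ ρ ∈ S.filter (fun ρ => d ρ ≤ R), m ρ ≤ A * R)
    {j : ℕ} (hj : 1 ≤ j) :
    ∑ ρ ∈ S.filter (fun ρ => R₀ < d ρ), m ρ / d ρ ^ (j + 1) ≤ 4 * A / R₀ ^ j := by
  have hA0 : 0 ≤ A := by
    have e4 : 0 ≤ ∑ ρ ∈ S.filter (fun ρ => d ρ ≤ R₀), m ρ :=
      Finset.sum_nonneg fun ρ hρ => hm ρ (mem_filter.1 hρ).1
    exact nonneg_of_mul_nonneg_left (e4.trans (hA R₀ le_rfl)) hR
  obtain ⟨N, hN⟩ : ∃ N : ℕ, ∀ ρ ∈ S, d ρ ≤ 2 ^ N * R₀ := by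
    rcases S.eq_empty_or_nonempty with rfl | hne
    · exact ⟨0, by simp⟩
    · obtain ⟨ρ₀, _, hmax⟩ := S.exists_max_image d hne
      obtain ⟨N, hN⟩ := pow_unbounded_of_one_lt (d ρ₀ / R₀) (one_lt_two)
      refine ⟨N, fun ρ hρ => (hmax ρ hρ).trans ?_⟩
      rw [div_lt_iff₀ hR] at hN
      exact hN.le
  have h1 : S.filter (fun ρ => R₀ < d ρ) = S.filter (fun ρ => R₀ < d ρ ∧ d ρ ≤ 2 ^ N * R₀) := by
    refine Finset.filter_congr fun ρ hρ => ?_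
    exact ⟨fun h => ⟨h, hN ρ hρ⟩, fun h => h.1⟩
  rw [h1]
  refine (dyadic_aux S m d hm hR hA hj N).trans ?_
  have h2 : ∑ i ∈ range N, (1 / 2 : ℝ) ^ i ≤ 2 := by
    rw [geom_sum_eq (by norm_num)]
    have : (0 : ℝ) < (1 / 2) ^ N := by positivity
    rw [div_le_iff_of_neg (by norm_num)]
    linarith
  calc 2 * A / R₀ ^ j * ∑ i ∈ range N, (1 / 2 : ℝ) ^ i ≤ 2 * A / R₀ ^ j * 2 := by gcongr
    _ = _ := by ring

/-- the number of zeros at distance at most `R` from `c` -/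
theorem cnt_R : ∃ C : ℝ, 1 ≤ C ∧ ∀ (q : ℕ) [NeZero q] (χ : DirichletCharacter ℂ q),
    χ ≠ 1 → ∀ t σ ℒ : ℝ, lt q t ≤ ℒ → Real.exp (-ℒ) ≤ σ → σ ≤ 1 / 16 →
    ∀ R : ℝ, σ ≤ R → 1 / ℒ ≤ R →
      ∑ ρ ∈ (zb (LF χ) (1 + σ + t * I) (1 / 4)).filter (fun ρ => ‖1 + σ + t * I - ρ‖ ≤ R),
        mlt (LF χ) ρ ≤ C * ℒ * R := by
  obtain ⟨C₁, hC₁, h1⟩ := near_count
  obtain ⟨C₂, hC₂, h2⟩ := local_count
  refine ⟨2 * C₁ + 32 * C₂, by linarith, fun q _ χ hχ t σ ℒ hℒ hσ hσ1 R hR hR' => ?_⟩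
  have hσ0 : 0 < σ := lt_of_lt_of_le (Real.exp_pos _) hσ
  have hℒ1 : 1 ≤ ℒ := (one_le_lt (three_le hχ) t).trans hℒ
  have hR0 : 0 < R := hσ0.trans_le hR
  have hf := LF_diff hχ
  have hc0 : LF χ (1 + σ + t * I) ≠ 0 := LF_c_ne hχ hσ0.le t
  rcases le_or_gt (2 * R) (1 / 16) with h | h
  · have h3 := h1 q χ hχ t (2 * R) ℒ hℒ (by linarith) h
    have hsub : (zb (LF χ) (1 + σ + t * I) (1 / 4)).filter
        (fun ρ => ‖1 + σ + t * I - ρ‖ ≤ R) ⊆ zb (LF χ) (1 + t * I) (2 * R) := by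
      intro ρ hρ
      rw [mem_filter, mem_zb hf hc0] at hρ
      rw [mem_zb hf hc0]
      refine ⟨hρ.1.1, ?_⟩
      rw [mem_closedBall, dist_eq_norm]
      have e1 : ρ - (1 + t * I) = σ - (1 + σ + t * I - ρ) := by ring
      rw [e1]
      refine (norm_sub_le _ _).trans ?_
      rw [Complex.norm_real, Real.norm_eq_abs, abs_of_pos hσ0]
      linarith [hρ.2]
    calc _ ≤ ∑ ρ ∈ zb (LF χ) (1 + t * I) (2 * R), mlt (LF χ) ρ :=
          Finset.sum_le_sum_of_subset_of_nonneg hsub fun ρ _ _ => mlt_nonneg _ ρ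
      _ ≤ C₁ * (2 * R * ℒ) := h3
      _ ≤ (2 * C₁ + 32 * C₂) * ℒ * R := by
          have : 0 ≤ C₂ * ℒ * R := by positivity
          nlinarith
  · have h3 := h2 q χ hχ t σ ℒ hℒ hσ hσ1
    calc _ ≤ ∑ ρ ∈ zb (LF χ) (1 + σ + t * I) (1 / 4), mlt (LF χ) ρ :=
          Finset.sum_le_sum_of_subset_of_nonneg (Finset.filter_subset _ _)
            fun ρ _ _ => mlt_nonneg _ ρ
      _ ≤ C₂ * ℒ := h3
      _ ≤ C₂ * ℒ * (32 * R) := by
          have : 0 ≤ C₂ * ℒ := by positivity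
          nlinarith
      _ ≤ (2 * C₁ + 32 * C₂) * ℒ * R := by
          have : 0 ≤ C₁ * ℒ * R := by positivity
          nlinarith

/-- the main estimate, for prime powers -/
theorem log_scale_powers {c₀ : ℝ} (hc₀ : 0 < c₀) (hc₁ : c₀ ≤ 1 / 64) :
    ∃ C : ℝ, 1 ≤ C ∧ ∀ D : ℕ, 2 ≤ D → ∀ q ∈ Icc 1 D, ∀ χ ∈ Prm q,
    (∀ ρ : ℂ, LF χ ρ = 0 → |ρ.im| ≤ D → ρ.re ≤ 1 - c₀ / Real.log D) →
    ∀ t : ℝ, |t| ≤ D / 2 → ∀ σ : ℝ, 1 / (D : ℝ) ≤ σ → σ ≤ 1 / 600 → ∀ j : ℕ, 1 ≤ j →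
    σ ^ (j + 1) * ‖Gj χ j (1 + σ + t * I) / (j.factorial : ℂ)‖ ≤
      C * (1 + σ * Real.log D) / (1 + c₀ / (σ * Real.log D)) ^ j := by
  obtain ⟨C₁, hC₁, hexp⟩ := local_expansion
  obtain ⟨C₂, hC₂, hcnt⟩ := cnt_R
  refine ⟨4 * C₁ + 32 * C₂, by linarith, fun D hD q hq χ hχ hfree t ht σ hσ hσ1 j hj => ?_⟩
  rw [mem_Icc] at hq
  have hq0 : NeZero q := ⟨by omega⟩
  have hχ1 : χ ≠ 1 := (mem_Prm.1 hχ).2
  have hDr : (2 : ℝ) ≤ D := by exact_mod_cast hD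
  have hD0 : (0 : ℝ) < D := by linarith
  have hlD : 0 < Real.log D := Real.log_pos (by linarith)
  have hlD2 : Real.log 2 ≤ Real.log D := Real.log_le_log (by norm_num) hDr
  have hlog2 := Real.log_two_gt_d9
  have hσ0 : 0 < σ := lt_of_lt_of_le (by positivity) hσ
  set ℒ : ℝ := 4 * Real.log D with hℒ
  set h : ℝ := c₀ / Real.log D with hh
  have hh0 : 0 < h := by positivity
  have hhle : h ≤ 1 / ℒ := by
    rw [hh, hℒ, div_le_div_iff₀ hlD (by positivity)]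
    nlinarith
  have hℒ0 : 0 < ℒ := by positivity
  have hlt : lt q t ≤ ℒ := by
    unfold lt
    have h1 : ℒ = Real.log ((D : ℝ) ^ 4) := by rw [hℒ, Real.log_pow]; norm_num
    rw [h1]
    have hq1 : (1 : ℝ) ≤ q := by exact_mod_cast hq.1
    have hqD : (q : ℝ) ≤ D := by exact_mod_cast hq.2
    have := abs_nonneg t
    refine Real.log_le_log (by positivity) ?_
    calc (q : ℝ) * (|t| + 2) ≤ D * (D / 2 + 2) := by gcongr
      _ ≤ D * (D ^ 3) := by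
          gcongr
          nlinarith [pow_pos hD0 2, mul_pos hD0 hD0]
      _ = D ^ 4 := by ring
  have hexpσ : Real.exp (-ℒ) ≤ σ := by
    refine le_trans ?_ hσ
    rw [hℒ, Real.exp_neg, one_div]
    refine inv_anti₀ hD0 ?_
    calc (D : ℝ) = Real.exp (Real.log D) := (Real.exp_log hD0).symm
      _ ≤ Real.exp (4 * Real.log D) := Real.exp_le_exp.2 (by linarith)
  have hσ16 : σ ≤ 1 / 16 := by linarith
  have h1 := hexp q χ hχ1 t σ ℒ hlt hexpσ hσ16 j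
  have hf := LF_diff hχ1
  have hc0 : LF χ (1 + σ + t * I) ≠ 0 := LF_c_ne hχ1 hσ0.le t
  set c : ℂ := 1 + σ + t * I with hc
  have hcre : c.re = 1 + σ := c_re σ t
  have hcim : c.im = t := c_im σ t
  set S := zb (LF χ) c (1 / 4) with hS
  set y : ℝ := 1 + h / σ with hy
  have hy1 : 1 ≤ y := by
    have : 0 ≤ h / σ := by positivity
    rw [hy]; linarith
  have hy0 : 0 < y := by linarith
  have hyeq : 1 + c₀ / (σ * Real.log D) = y := by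
    rw [hy, hh]; congr 1; field_simp
  rw [hyeq]
  have hdist : ∀ ρ ∈ S, σ + h ≤ ‖c - ρ‖ := by
    intro ρ hρ
    rw [hS, mem_zb hf hc0] at hρ
    have e1 := hρ.2
    rw [mem_closedBall, dist_eq_norm] at e1
    have e2 : |ρ.im - t| ≤ 1 / 4 := by
      have := (abs_im_le_norm (ρ - c)).trans e1
      rwa [sub_im, hcim] at this
    have e3 : |ρ.im| ≤ D := by
      have e4 : |ρ.im| ≤ |ρ.im - t| + |t| := by
        calc |ρ.im| = |(ρ.im - t) + t| := by ring_nf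
          _ ≤ _ := abs_add_le _ _
      linarith
    have e5 := hfree ρ hρ.1 e3
    have e6 : σ + h ≤ (c - ρ).re := by
      rw [sub_re, hcre, hh]; linarith
    exact e6.trans ((le_abs_self _).trans (abs_re_le_norm _))
  -- the sum over the zeros
  have hsum : σ ^ (j + 1) * ∑ ρ ∈ S, mlt (LF χ) ρ / ‖c - ρ‖ ^ (j + 1) ≤
      C₂ * (8 * (1 + σ * Real.log D) * 4) / y ^ j := by
    set R₀ : ℝ := 2 * σ + 2 / ℒ with hR₀
    have hR₀0 : 0 < R₀ := by positivity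
    have hRσ : σ ≤ R₀ := by
      have : 0 < 2 / ℒ := by positivity
      linarith
    have hRℒ : 1 / ℒ ≤ R₀ := by
      have : 2 / ℒ = 1 / ℒ + 1 / ℒ := by ring
      have : 0 < 1 / ℒ := by positivity
      linarith
    have hσℒ : R₀ * ℒ = 2 * (σ * ℒ + 1) := by rw [hR₀]; field_simp
    have hfar := dyadic S (mlt (LF χ)) (fun ρ => ‖c - ρ‖) (fun ρ _ => mlt_nonneg _ ρ) hR₀0
      (A := C₂ * ℒ) (fun R hR => hcnt q χ hχ1 t σ ℒ hlt hexpσ hσ16 R (hRσ.trans hR)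
        (hRℒ.trans hR)) hj
    have hnear : ∑ ρ ∈ S.filter (fun ρ => ¬ R₀ < ‖c - ρ‖), mlt (LF χ) ρ / ‖c - ρ‖ ^ (j + 1) ≤
        C₂ * ℒ * R₀ / (σ + h) ^ (j + 1) := by
      calc _ ≤ ∑ ρ ∈ S.filter (fun ρ => ¬ R₀ < ‖c - ρ‖), mlt (LF χ) ρ / (σ + h) ^ (j + 1) := by
            refine Finset.sum_le_sum fun ρ hρ => ?_
            have e1 := hdist ρ (mem_filter.1 hρ).1
            have e2 := mlt_nonneg (LF χ) ρ
            gcongr
        _ = (∑ ρ ∈ S.filter (fun ρ => ¬ R₀ < ‖c - ρ‖), mlt (LF χ) ρ) / (σ + h) ^ (j + 1) := by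
            rw [Finset.sum_div]
        _ ≤ _ := by
            gcongr
            simp only [not_lt]
            exact hcnt q χ hχ1 t σ ℒ hlt hexpσ hσ16 R₀ hRσ hRℒ
    have hsplit := Finset.sum_filter_add_sum_filter_not S (fun ρ => R₀ < ‖c - ρ‖)
      (fun ρ => mlt (LF χ) ρ / ‖c - ρ‖ ^ (j + 1))
    rw [← hsplit, mul_add]
    have e1 : σ / R₀ ≤ 1 / (2 * y) := by
      rw [div_le_div_iff₀ hR₀0 (by positivity), hy, hR₀]
      have : h / σ * σ = h := by field_simp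
      have e2 : σ * (2 * (1 + h / σ)) = 2 * σ + 2 * h := by
        calc σ * (2 * (1 + h / σ)) = 2 * σ + 2 * (h / σ * σ) := by ring
          _ = _ := by rw [this]
      rw [e2]
      have : 2 / ℒ = 2 * (1 / ℒ) := by ring
      linarith
    have hfar2 : σ ^ (j + 1) * ∑ ρ ∈ S.filter (fun ρ => R₀ < ‖c - ρ‖),
        mlt (LF χ) ρ / ‖c - ρ‖ ^ (j + 1) ≤ C₂ * (4 * (σ * ℒ)) / y ^ j := by
      calc _ ≤ σ ^ (j + 1) * (4 * (C₂ * ℒ) / R₀ ^ j) := by gcongr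
        _ = C₂ * (4 * (σ * ℒ)) * (σ / R₀) ^ j := by rw [div_pow, pow_succ]; ring
        _ ≤ C₂ * (4 * (σ * ℒ)) * (1 / y) ^ j := by
            have e3 : σ / R₀ ≤ 1 / y := by
              refine e1.trans ?_
              exact one_div_le_one_div_of_le hy0 (by linarith)
            gcongr
        _ = _ := by rw [one_div_pow]; ring
    have hnear2 : σ ^ (j + 1) * ∑ ρ ∈ S.filter (fun ρ => ¬ R₀ < ‖c - ρ‖),
        mlt (LF χ) ρ / ‖c - ρ‖ ^ (j + 1) ≤ C₂ * (2 * (σ * ℒ + 1)) / y ^ j := by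
      have e4 : σ + h = σ * y := by rw [hy]; field_simp
      calc _ ≤ σ ^ (j + 1) * (C₂ * ℒ * R₀ / (σ + h) ^ (j + 1)) := by gcongr
        _ = C₂ * (R₀ * ℒ) / y ^ (j + 1) := by rw [e4, mul_pow]; field_simp
        _ = C₂ * (2 * (σ * ℒ + 1)) / y ^ (j + 1) := by rw [hσℒ]
        _ ≤ _ := by
            have : y ^ j ≤ y ^ (j + 1) := pow_le_pow_right₀ hy1 (by omega)
            gcongr
    calc _ ≤ C₂ * (4 * (σ * ℒ)) / y ^ j + C₂ * (2 * (σ * ℒ + 1)) / y ^ j :=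
          add_le_add hfar2 hnear2
      _ = C₂ * (6 * (σ * ℒ) + 2) / y ^ j := by ring
      _ ≤ _ := by
          gcongr
          rw [hℒ]
          have : 0 < σ * Real.log D := by positivity
          nlinarith
  -- the error term
  have herr : σ ^ (j + 1) * (C₁ * ℒ * 16 ^ j) ≤ C₁ * (4 * (1 + σ * Real.log D)) / y ^ j := by
    have e1 : 16 * σ * y ≤ 1 := by
      rw [hy]
      have : σ * (h / σ) = h := by field_simp
      have e2 : 16 * σ * (1 + h / σ) = 16 * σ + 16 * (σ * (h / σ)) := by ring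
      rw [e2, this]
      have e3 : h ≤ (1 / 64) / Real.log 2 := by
        rw [hh]
        have : 0 < Real.log 2 := by linarith
        gcongr
      have e4 : (1 / 64) / Real.log 2 ≤ 1 / 40 := by
        rw [div_le_div_iff₀ (by linarith) (by norm_num)]
        linarith
      linarith
    have e5 : (16 * σ) ^ j ≤ 1 / y ^ j := by
      rw [le_div_iff₀ (by positivity), ← mul_pow]
      exact pow_le_one₀ (by positivity) e1
    calc σ ^ (j + 1) * (C₁ * ℒ * 16 ^ j) = C₁ * (σ * ℒ) * (16 * σ) ^ j := by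
          rw [mul_pow, pow_succ]; ring
      _ ≤ C₁ * (σ * ℒ) * (1 / y ^ j) := by gcongr
      _ = C₁ * (σ * ℒ) / y ^ j := by ring
      _ ≤ _ := by
          have e6 : σ * ℒ ≤ 4 * (1 + σ * Real.log D) := by
            rw [hℒ]
            have : 0 < σ * Real.log D := by positivity
            nlinarith
          exact div_le_div_of_nonneg_right (mul_le_mul_of_nonneg_left e6 (by linarith))
            (by positivity)
  have hG : ‖Gj χ j c / (j.factorial : ℂ)‖ ≤ C₁ * ℒ * 16 ^ j +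
      ∑ ρ ∈ S, mlt (LF χ) ρ / ‖c - ρ‖ ^ (j + 1) := by
    have e1 : Gj χ j c / (j.factorial : ℂ) = (Gj χ j c / (j.factorial : ℂ) +
        ∑ ρ ∈ S, (mlt (LF χ) ρ : ℂ) / (c - ρ) ^ (j + 1)) -
        ∑ ρ ∈ S, (mlt (LF χ) ρ : ℂ) / (c - ρ) ^ (j + 1) := by ring
    rw [e1]
    refine (norm_sub_le _ _).trans (add_le_add h1 ?_)
    refine (norm_sum_le _ _).trans (Finset.sum_le_sum fun ρ _ => ?_)
    rw [norm_div, norm_pow, Complex.norm_real, Real.norm_eq_abs, abs_of_nonneg (mlt_nonneg _ ρ)]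
  calc σ ^ (j + 1) * ‖Gj χ j c / (j.factorial : ℂ)‖
      ≤ σ ^ (j + 1) * (C₁ * ℒ * 16 ^ j + ∑ ρ ∈ S, mlt (LF χ) ρ / ‖c - ρ‖ ^ (j + 1)) := by gcongr
    _ = σ ^ (j + 1) * (C₁ * ℒ * 16 ^ j) +
        σ ^ (j + 1) * ∑ ρ ∈ S, mlt (LF χ) ρ / ‖c - ρ‖ ^ (j + 1) := by ring
    _ ≤ C₁ * (4 * (1 + σ * Real.log D)) / y ^ j +
        C₂ * (8 * (1 + σ * Real.log D) * 4) / y ^ j := add_le_add herr hsum
    _ = _ := by ring

end Pool.Agent.GA
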