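import Pool.Agent.Lib_helper98.GAF.Loc
import Pool.Agent.Lib_helper98.GAF.Lbd
import Pool.Agent.Lib_helper98.GAF.Tur
import Pool.Agent.Lib_helper98.GAF.Fin
import Pool.Agent.Lib_helper98.GAF.Z3

/-!
# GA part Z, file 4: Landau's theorem, clean ranges
-/

set_option autoImplicit false
set_option linter.unusedSectionVars false

namespace Pool.Agent.GA

open Finset Complex Metric Filter
open scoped ArithmeticFunction.vonMangoldt ComplexConjugate Classical Topology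

theorem z4_dvd {q₁ q₂ : ℕ} [NeZero q₁] {χ₁ : DirichletCharacter ℂ q₁}
    {χ₂ : DirichletCharacter ℂ q₂} (h1 : χ₁.IsPrimitive)
    (h : DirichletCharacter.changeLevel (q₁.dvd_mul_right q₂) χ₁ =
      DirichletCharacter.changeLevel (q₂.dvd_mul_left q₁) χ₂) : q₁ ∣ q₂ := by
  have h2 := DirichletCharacter.factorsThrough_gcd χ₁ χ₂ h
  have h3 : χ₁.conductor ≤ q₁.gcd q₂ := Nat.sInf_le h2
  rw [(DirichletCharacter.isPrimitive_def χ₁).1 h1] at h3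
  have h4 : q₁.gcd q₂ = q₁ :=
    le_antisymm (Nat.le_of_dvd (NeZero.pos q₁) (Nat.gcd_dvd_left _ _)) h3
  rw [← h4]
  exact Nat.gcd_dvd_right _ _

theorem z4_lift_ne {q₁ q₂ : ℕ} [NeZero q₁] [NeZero q₂] (hne : q₁ ≠ q₂)
    {χ₁ : DirichletCharacter ℂ q₁} {χ₂ : DirichletCharacter ℂ q₂} (h1 : χ₁.IsPrimitive)
    (h2 : χ₂.IsPrimitive) :
    DirichletCharacter.changeLevel (q₁.dvd_mul_right q₂) χ₁ ≠
      DirichletCharacter.changeLevel (q₂.dvd_mul_left q₁) χ₂ := by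
  intro h
  have h3 := z4_dvd h1 h
  have h4 : ∀ (m : ℕ) (_ : m = q₁ * q₂) (ha : q₁ ∣ m) (hb : q₂ ∣ m),
      DirichletCharacter.changeLevel ha χ₁ = DirichletCharacter.changeLevel hb χ₂ := by
    intro m hm ha hb
    subst hm
    exact h
  have h5 := h4 (q₂ * q₁) (mul_comm _ _) (q₁.dvd_mul_left q₂) (q₂.dvd_mul_right q₁)
  exact hne (Nat.dvd_antisymm h3 (z4_dvd h2 h5.symm))

theorem landau : ∃ c : ℝ, 0 < c ∧ ∀ D : ℕ, 2 ≤ D → ∀ q₁ ∈ Icc 1 D, ∀ q₂ ∈ Icc 1 D, q₁ ≠ q₂ →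
    ∀ χ₁ ∈ Prm q₁, ∀ χ₂ ∈ Prm q₂, χ₁ ^ 2 = 1 → χ₂ ^ 2 = 1 → ∀ β₁ β₂ : ℝ,
      LF χ₁ (β₁ : ℂ) = 0 → LF χ₂ (β₂ : ℂ) = 0 → min β₁ β₂ ≤ 1 - c / Real.log D := by
  obtain ⟨C₁, hC₁, hP⟩ := principal_upper
  obtain ⟨C₂, hC₂, hN⟩ := nontrivial_upper
  set C : ℝ := C₁ + C₂ with hC
  set a : ℝ := 1 / (64 * C) with ha
  have hC0 : 2 ≤ C := by linarith
  have ha0 : 0 < a := by positivity
  have haC : a * C = 1 / 64 := by rw [ha]; field_simp
  have ha1 : a ≤ 1 / 64 := by nlinarith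
  obtain ⟨A, hA, hpar⟩ := z3_par ha0
  refine ⟨min ((1 / 2) * a / A) (1 / 32), by positivity,
    fun D hD q₁ hq₁ q₂ hq₂ hne χ₁ hχ₁ χ₂ hχ₂ hχ₁2 hχ₂2 β₁ β₂ hβ₁ hβ₂ => ?_⟩
  obtain ⟨hℒ1, hexp, hσa, hlt, hlt2⟩ := hpar D hD
  apply z3_final ha0 hA (by norm_num) hD
  by_cases hcase : 1 / 16 ≤ 1 - min β₁ β₂
  · left; exact hcase
  right
  push Not at hcase
  set ℒ : ℝ := A * Real.log D with hℒ
  set σ : ℝ := a / ℒ with hσ
  have hσ0 : 0 < σ := by positivity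
  have hσ1 : σ ≤ 1 / 16 := by linarith
  have hq1 : 1 ≤ q₁ := (Finset.mem_Icc.1 hq₁).1
  have hq2 : 1 ≤ q₂ := (Finset.mem_Icc.1 hq₂).1
  have : NeZero q₁ := ⟨by omega⟩
  have : NeZero q₂ := ⟨by omega⟩
  have : NeZero (q₁ * q₂) := ⟨(Nat.mul_pos hq1 hq2).ne'⟩
  obtain ⟨hp₁, hχ₁1⟩ := z3_Prm hχ₁
  obtain ⟨hp₂, hχ₂1⟩ := z3_Prm hχ₂
  have hre1 := z3_zero_re hχ₁1 hβ₁
  have hre2 := z3_zero_re hχ₂1 hβ₂
  rw [Complex.ofReal_re] at hre1 hre2
  set β : ℝ := min β₁ β₂ with hβ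
  have hβ1 : β ≤ β₁ := min_le_left _ _
  have hβ2 : β ≤ β₂ := min_le_right _ _
  set ψ₁ := DirichletCharacter.changeLevel (q₁.dvd_mul_right q₂) χ₁ with hψ₁
  set ψ₂ := DirichletCharacter.changeLevel (q₂.dvd_mul_left q₁) χ₂ with hψ₂
  have hψ₁2 : ψ₁ ^ 2 = 1 := by rw [hψ₁, ← map_pow, hχ₁2, map_one]
  have hψ₂2 : ψ₂ ^ 2 = 1 := by rw [hψ₂, ← map_pow, hχ₂2, map_one]
  have hψ : ψ₁ * ψ₂ ≠ 1 := by
    intro h
    apply z4_lift_ne hne hp₁ hp₂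
    have h1 : ψ₁ * ψ₂ = ψ₂ * ψ₂ := by rw [h, ← sq, hψ₂2]
    exact mul_right_cancel h1
  have h0 := pos_four hψ₁2 hψ₂2 hσ0
  have hltm := hlt2 q₁ hq₁ q₂ hq₂
  have hlogm := (z2_L hltm).2
  have hDR : (2 : ℝ) ≤ D := by exact_mod_cast hD
  have h1 := hP (q₁ * q₂) 0 σ ℒ hltm hℒ1 hexp hσ1
  have h4 := hN (q₁ * q₂) (ψ₁ * ψ₂) hψ 0 σ ℒ hltm hexp hσ1 ∅ (by simp)
  have key : ∀ (q : ℕ) (_ : NeZero q) (hq : q ∈ Icc 1 D) (χ : DirichletCharacter ℂ q) (_ : χ ≠ 1)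
      (β' : ℝ) (_ : LF χ (β' : ℂ) = 0) (_ : β ≤ β') (_ : β' < 1) (h : q ∣ q₁ * q₂),
      (Gj (DirichletCharacter.changeLevel h χ) 0 (1 + σ)).re ≤
        C₂ * ℒ + ℒ - 1 / (σ + (1 - β)) := by
    intro q _ hq χ hχ β' hβ' hββ hβ1 h
    have h2 := hN q χ hχ 0 σ ℒ (hlt q hq 0 (by rw [abs_zero]; positivity)) hexp hσ1 {(β' : ℂ)} (by
      intro ρ' hρ'
      rw [Finset.mem_singleton] at hρ'
      subst hρ'
      refine ⟨hβ', ?_⟩
      have e : (1 + σ + ((0 : ℝ) : ℂ) * I - (β' : ℂ) : ℂ) = ((σ + (1 - β') : ℝ) : ℂ) := by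
        push_cast; ring
      rw [e, Complex.norm_real, Real.norm_of_nonneg (by linarith)]
      linarith)
    rw [Finset.sum_singleton] at h2
    have e : (1 + σ + ((0 : ℝ) : ℂ) * I - (β' : ℂ) : ℂ) = ((σ + (1 - β') : ℝ) : ℂ) := by
      push_cast; ring
    rw [e, z3_inv hσ0 (by linarith), z1_c0] at h2
    have h3 := lift_diff h χ (s := 1 + σ) (by simp [hσ0])
    have h5 := (Complex.abs_re_le_norm _).trans h3
    rw [Complex.sub_re, abs_le] at h5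
    have h6 : 1 / (σ + (1 - β)) ≤ 1 / (σ + (1 - β')) :=
      one_div_le_one_div_of_le (by linarith) (by linarith)
    linarith [h5.2]
  have k1 := key q₁ inferInstance hq₁ χ₁ hχ₁1 β₁ hβ₁ hβ1 hre1 (q₁.dvd_mul_right q₂)
  have k2 := key q₂ inferInstance hq₂ χ₂ hχ₂1 β₂ hβ₂ hβ2 hre2 (q₂.dvd_mul_left q₁)
  rw [z1_c0] at h1 h4
  rw [Finset.sum_empty, sub_zero] at h4
  have e2 : σ / (σ ^ 2 + 0 ^ 2) = 1 / σ := by field_simp; ring
  rw [e2] at h1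
  have hc1 : C₁ * ℒ ≤ C * ℒ := mul_le_mul_of_nonneg_right (by linarith) (by linarith)
  have hc2 : C₂ * ℒ ≤ C * ℒ := mul_le_mul_of_nonneg_right (by linarith) (by linarith)
  have hc3 : ℒ ≤ C * ℒ := by nlinarith
  have hCL : C * ℒ = 1 / (64 * σ) := by
    have : C * ℒ * σ = 1 / 64 := by
      rw [hσ, ← haC]; field_simp
    field_simp
    linarith
  have h5 : 2 * (1 / (σ + (1 - β))) ≤ 1 / σ + 6 * (1 / (64 * σ)) := by
    rw [← hCL]
    linarith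
  have hx0 : 0 < 1 - β := by linarith
  have h6 : 1 / σ + 6 * (1 / (64 * σ)) = (1 + 6 / 64) / σ := by field_simp
  rw [h6, mul_one_div, div_le_div_iff₀ (by positivity) hσ0] at h5
  linarith

/-- the real zeros of real characters of conductor at most `D` near `1` -/
def z4_S (c : ℝ) (D : ℕ) : Set ℝ :=
  {β : ℝ | 1 - c / Real.log D < β ∧ ∃ q ∈ Icc 1 D, ∃ χ ∈ Prm q, χ ^ 2 = 1 ∧ LF χ (β : ℂ) = 0}

theorem z4_finite (c : ℝ) (D : ℕ) : (z4_S c D).Finite := by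
  have h1 : z4_S c D ⊆ ⋃ q ∈ Icc 1 D, ⋃ χ ∈ Prm q,
      {β : ℝ | 1 - c / Real.log D < β ∧ LF χ (β : ℂ) = 0} := by
    rintro β ⟨hβ, q, hq, χ, hχ, -, h0⟩
    simp only [Set.mem_iUnion]
    exact ⟨q, hq, χ, hχ, hβ, h0⟩
  refine Set.Finite.subset ?_ h1
  refine Set.Finite.biUnion (Finset.finite_toSet _) fun q hq => ?_
  refine Set.Finite.biUnion (Finset.finite_toSet _) fun χ hχ => ?_
  have hq1 : 1 ≤ q := (Finset.mem_Icc.1 hq).1
  have : NeZero q := ⟨by omega⟩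
  obtain ⟨-, hχ1⟩ := z3_Prm hχ
  have hd := LF_diff hχ1
  have h0 : LF χ 2 ≠ 0 := LF_ne_zero hχ1 (by norm_num)
  have h2 := zb_finite hd h0 1 |c / Real.log D|
  have h3 : {β : ℝ | 1 - c / Real.log D < β ∧ LF χ (β : ℂ) = 0} ⊆
      (fun β : ℝ => (β : ℂ)) ⁻¹' {ρ : ℂ | LF χ ρ = 0 ∧ ρ ∈ closedBall 1 |c / Real.log D|} := by
    rintro β ⟨hβ, hβ0⟩
    refine ⟨hβ0, ?_⟩
    have hre := z3_zero_re hχ1 hβ0
    rw [Complex.ofReal_re] at hre
    rw [mem_closedBall, dist_eq_norm]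
    have e : (β : ℂ) - 1 = ((β - 1 : ℝ) : ℂ) := by push_cast; rfl
    rw [e, Complex.norm_real, Real.norm_eq_abs, abs_of_neg (by linarith)]
    have := le_abs_self (c / Real.log D)
    linarith
  exact (h2.preimage (Complex.ofReal_injective.injOn)).subset h3

theorem good_frequently : ∃ c : ℝ, 0 < c ∧ ∃ᶠ D : ℕ in Filter.atTop, Good c D := by
  obtain ⟨cL, hcL, hL⟩ := landau
  refine ⟨cL / 4, by positivity, ?_⟩
  rw [Filter.frequently_atTop]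
  intro D₀
  by_contra hcon
  push Not at hcon
  set c : ℝ := cL / 4 with hc
  have hc0 : 0 < c := by positivity
  set D : ℕ := max D₀ 2 with hD
  have hD2 : 2 ≤ D := le_max_right _ _
  have hDR : (2 : ℝ) ≤ D := by exact_mod_cast hD2
  have hlD0 : 0 < Real.log D := Real.log_pos (by linarith)
  have hbad := hcon D (le_max_left _ _)
  have hne : (z4_S c D).Nonempty := by
    unfold Good at hbad
    push Not at hbad
    obtain ⟨q, hq, χ, hχ, hχ2, β, hβ, hβ'⟩ := hbad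
    exact ⟨β, hβ', q, hq, χ, hχ, hχ2, hβ⟩
  obtain ⟨β, hβS, hmax⟩ := Set.exists_max_image (z4_S c D) id (z4_finite c D) hne
  obtain ⟨hβ, q, hq, χ, hχ, hχ2, hβ0⟩ := hβS
  have hq1 : 1 ≤ q := (Finset.mem_Icc.1 hq).1
  have : NeZero q := ⟨by omega⟩
  obtain ⟨-, hχ1⟩ := z3_Prm hχ
  have hre := z3_zero_re hχ1 hβ0
  rw [Complex.ofReal_re] at hre
  have hx0 : 0 < 1 - β := by linarith
  set E : ℝ := c / (1 - β) with hE
  have hE0 : 0 < E := by positivity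
  have hDE : Real.log D < E := by
    rw [hE, lt_div_iff₀ hx0]
    have h1 : 1 - β < c / Real.log D := by linarith
    rw [lt_div_iff₀ hlD0] at h1
    linarith
  set D' : ℕ := ⌈Real.exp E⌉₊ with hD'
  have hD'1 : Real.exp E ≤ D' := Nat.le_ceil _
  have hD'2 : (D' : ℝ) < Real.exp E + 1 := Nat.ceil_lt_add_one (Real.exp_pos _).le
  have hDD' : (D : ℝ) < D' := by
    have h1 : (D : ℝ) < Real.exp E := (Real.log_lt_iff_lt_exp (by linarith)).1 hDE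
    linarith
  have hDD'N : D < D' := by exact_mod_cast hDD'
  have hlogD' : E ≤ Real.log D' := by
    rw [Real.le_log_iff_exp_le (by linarith)]; exact hD'1
  have hlogD'2 : Real.log D' ≤ 2 * E := by
    rw [Real.log_le_iff_le_exp (by linarith)]
    have h2 : (2 : ℝ) ≤ Real.exp E := by
      have h1 : (D : ℝ) < Real.exp E := (Real.log_lt_iff_lt_exp (by linarith)).1 hDE
      linarith
    have h3 : Real.exp (2 * E) = Real.exp E * Real.exp E := by rw [← Real.exp_add]; ring_nf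
    rw [h3]
    nlinarith
  have hbad' := hcon D' ((le_max_left _ _).trans hDD'N.le)
  unfold Good at hbad'
  push Not at hbad'
  obtain ⟨q', hq', χ', hχ', hχ'2, β', hβ'0, hβ'⟩ := hbad'
  have hββ' : β < β' := by
    have h1 : c / Real.log D' ≤ 1 - β := by
      rw [div_le_iff₀ (by linarith)]
      have h2 : (1 - β) * E = c := by rw [hE]; field_simp
      nlinarith
    linarith
  have hq'D : D < q' := by
    by_contra h
    push Not at h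
    have h1 : q' ∈ Icc 1 D := Finset.mem_Icc.2 ⟨(Finset.mem_Icc.1 hq').1, h⟩
    have h2 : β' ∈ z4_S c D := ⟨by linarith, q', h1, χ', hχ', hχ'2, hβ'0⟩
    have h3 := hmax β' h2
    simp only [id] at h3
    linarith
  have hqD' : q ∈ Icc 1 D' := Finset.mem_Icc.2 ⟨hq1, (Finset.mem_Icc.1 hq).2.trans hDD'N.le⟩
  have hqq' : q ≠ q' := by
    have := (Finset.mem_Icc.1 hq).2
    omega
  have h1 := hL D' (by omega) q hqD' q' hq' hqq' χ hχ χ' hχ' hχ2 hχ'2 β β' hβ0 hβ'0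
  rw [min_eq_left hββ'.le] at h1
  have h2 : cL / (2 * E) ≤ cL / Real.log D' :=
    div_le_div_of_nonneg_left hcL.le (by linarith) hlogD'2
  have h3 : cL / (2 * E) = 2 * (1 - β) := by
    rw [hE, hc]; field_simp; ring
  linarith

theorem zero_free_good : ∀ c₁ : ℝ, 0 < c₁ → ∃ c : ℝ, 0 < c ∧ ∀ D : ℕ, 2 ≤ D → Good c₁ D →
    ∀ q ∈ Icc 1 D, ∀ χ ∈ Prm q, ∀ ρ : ℂ, LF χ ρ = 0 → |ρ.im| ≤ D →
      ρ.re ≤ 1 - c / Real.log D := by
  intro c₁ hc₁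
  obtain ⟨c₂, hc₂, h₂⟩ := zero_free_complex
  obtain ⟨c₃, hc₃, h₃⟩ := zero_free_real
  refine ⟨min c₁ (min c₂ c₃), by positivity, fun D hD hgood q hq χ hχ ρ hρ him => ?_⟩
  have hDR : (2 : ℝ) ≤ D := by exact_mod_cast hD
  have hlD0 : 0 < Real.log D := Real.log_pos (by linarith)
  have key : ∀ c' : ℝ, min c₁ (min c₂ c₃) ≤ c' → ρ.re ≤ 1 - c' / Real.log D →
      ρ.re ≤ 1 - min c₁ (min c₂ c₃) / Real.log D := by
    intro c' hc' h
    have : min c₁ (min c₂ c₃) / Real.log D ≤ c' / Real.log D :=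
      div_le_div_of_nonneg_right hc' hlD0.le
    linarith
  by_cases h2 : χ ^ 2 = 1
  · by_cases h0 : ρ.im = 0
    · have e : ρ = (ρ.re : ℂ) := by apply Complex.ext <;> simp [h0]
      rw [e] at hρ
      exact key c₁ (min_le_left _ _) (hgood q hq χ hχ h2 ρ.re hρ)
    · exact key c₃ ((min_le_right _ _).trans (min_le_right _ _)) (h₃ D hD q hq χ hχ h2 ρ hρ him h0)
  · exact key c₂ ((min_le_right _ _).trans (min_le_left _ _)) (h₂ D hD q hq χ hχ h2 ρ hρ him)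

end Pool.Agent.GA
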