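import Pool.Agent.Lib_helper98.GAF.X3

/-!
# GA part X, file 4: Gallagher's theorem, all nontrivial characters of conductor at most `D`
-/

set_option autoImplicit false
set_option linter.unusedSectionVars false

namespace Pool.Agent.GA

open Finset Complex Metric
open scoped ArithmeticFunction.vonMangoldt Classical

theorem x4_exp {D : ℕ} (hD : 2 ≤ D) {a c M : ℝ} (hM : 0 ≤ M) (hc : 2 * c ≤ a) (hc0 : 0 ≤ c) :
    Real.exp (-(a * M)) ≤ Real.exp (-(c * M / Real.log D)) := by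
  have hDR : (2 : ℝ) ≤ D := by exact_mod_cast hD
  have hl2 : (1 : ℝ) / 2 ≤ Real.log 2 := by
    have := Real.log_two_gt_d9; linarith
  have hlD : Real.log 2 ≤ Real.log D := Real.log_le_log (by norm_num) hDR
  apply Real.exp_le_exp.2
  have h1 : c * M / Real.log D ≤ a * M := by
    rw [div_le_iff₀ (by linarith)]
    have h2 : c ≤ a * Real.log D := by nlinarith
    nlinarith
  linarith

/-- Gallagher's theorem for prime powers: sum over the nontrivial primitive characters of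
conductor at most `D`, windows of any width. -/
theorem gal_SK : ∀ c₁ : ℝ, 0 < c₁ → ∃ C : ℝ, 1 ≤ C ∧ ∃ c : ℝ, 0 < c ∧ ∃ A : ℝ, 1 ≤ A ∧
    ∀ D : ℕ, 4 ≤ D → Good c₁ D → ∀ (k : ℕ) (M : ℝ), 2 ≤ M → A * Real.log D ≤ M →
    M ^ 2 ≤ k → 4 * k ≤ D ^ 2 * M → ∀ t : (q : ℕ) → DirichletCharacter ℂ q → ℝ,
    (∀ (q : ℕ) (χ : DirichletCharacter ℂ q), |t q χ| ≤ D / 2) →
    ∑ q ∈ Icc 1 D, ∑ χ ∈ Prm q, ‖SK χ k M (t q χ)‖ ≤
      C * Real.exp (-(c * M / Real.log D)) := by
  intro c₁ hc₁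
  obtain ⟨Cd, hCd, hden⟩ := density
  obtain ⟨c₀, hc₀, hzf⟩ := zero_free_good c₁ hc₁
  obtain ⟨C₁, hC₁, hone⟩ := x3_one
  refine ⟨2 * Real.exp (2 * Cd) + 1000000 * C₁, by
      have := Real.exp_pos (2 * Cd)
      nlinarith, min (c₀ / 8) (1 / 264), by positivity,
    max (8 * Cd + 8) 1500, le_trans (by norm_num) (le_max_right _ _),
    fun D hD hgood k M hM2 hMA hk hk4 t ht => ?_⟩
  have hD2 : 2 ≤ D := by omega
  have hDR : (4 : ℝ) ≤ D := by exact_mod_cast hD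
  set L : ℝ := Real.log D with hL
  have hL0 : 0 < L := Real.log_pos (by linarith)
  set K : ℝ := M / L with hK
  have hKL : K * L = M := by rw [hK]; field_simp
  have hM1500 : 1500 * L ≤ M := by
    have := mul_le_mul_of_nonneg_right (le_max_right (8 * Cd + 8) 1500) hL0.le
    linarith
  have hMCd : 8 * Cd + 8 ≤ K := by
    rw [hK, le_div_iff₀ hL0]
    have := mul_le_mul_of_nonneg_right (le_max_left (8 * Cd + 8) 1500) hL0.le
    linarith
  have hk0 : (0 : ℝ) < k := by nlinarith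
  have hσ1 : k / M ≤ (D / 2 : ℝ) ^ 2 := by
    rw [div_le_iff₀ (by linarith)]; nlinarith
  have hsq : Real.sqrt (k / M) ≤ D / 2 := by
    rw [Real.sqrt_le_left (by linarith)]; exact hσ1
  have hne : ∀ q ∈ Icc 1 D, NeZero q := fun q hq => ⟨by
    have := (Finset.mem_Icc.1 hq).1
    omega⟩
  -- the individual bounds
  set E : ℝ := 1000000 * C₁ * Real.exp (-(M / 132)) / (D : ℝ) ^ 2 with hE
  have hDsq : (0 : ℝ) < (D : ℝ) ^ 2 := by positivity
  have h1 : ∀ q ∈ Icc 1 D, ∀ χ ∈ Prm q, ‖SK χ k M (t q χ)‖ ≤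
      ∑ ρ ∈ zr (LF χ) (1 / 16) D, mlt (LF χ) ρ * Real.exp (-(K * L * (1 - ρ.re) / 4)) + E := by
    intro q hq χ hχ
    have := hne q hq
    obtain ⟨-, hχ1⟩ := z3_Prm hχ
    have h2 := hone q χ hχ1 k M (t q χ) D (by linarith) hk (by
      have := ht q χ
      linarith)
    have h3 := x3_err hC₁ hD2 (by linarith) hM1500 hk hk4 (ht q χ) (q := q)
      (by exact_mod_cast (Finset.mem_Icc.1 hq).1) (by exact_mod_cast (Finset.mem_Icc.1 hq).2)
    rw [hKL]
    refine h2.trans ?_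
    have h4 : 72 * (k + 1) * (k / M) * Real.log (3 * (C₁ * q) *
        (2 * (k / M) + |t q χ| + 4) ^ 2) * Real.exp (-(M / 33)) ≤ E := by
      rw [hE, le_div_iff₀ hDsq]
      linarith
    linarith
  -- the sum of the errors
  have hcard : ∑ q ∈ Icc 1 D, ∑ χ ∈ Prm q, E ≤ 1000000 * C₁ * Real.exp (-(M / 132)) := by
    have hE0 : 0 ≤ E := by positivity
    have h2 : ∑ q ∈ Icc 1 D, ∑ _χ ∈ Prm q, E ≤ ∑ q ∈ Icc 1 D, (D : ℝ) * E := by
      apply Finset.sum_le_sum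
      intro q hq
      have := hne q hq
      rw [Finset.sum_const, nsmul_eq_mul]
      apply mul_le_mul_of_nonneg_right _ hE0
      refine (x3_card (q := q)).trans ?_
      exact_mod_cast (Finset.mem_Icc.1 hq).2
    refine h2.trans ?_
    rw [Finset.sum_const, Nat.card_Icc, nsmul_eq_mul, Nat.add_sub_cancel]
    have h3 : (D : ℝ) * (D * E) = (D : ℝ) ^ 2 * E := by ring
    rw [h3, hE, mul_div_cancel₀ _ hDsq.ne']
  -- the sum over the zeros
  have hzeros : ∑ q ∈ Icc 1 D, ∑ χ ∈ Prm q, ∑ ρ ∈ zr (LF χ) (1 / 16) D,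
      mlt (LF χ) ρ * Real.exp (-(K * L * (1 - ρ.re) / 4)) ≤
      2 * Real.exp (2 * Cd) * Real.exp (-(c₀ * K / 8)) := by
    have h2 := x2_zero_sum ((Icc 1 D).sigma Prm) (fun i => LF i.2) (fun _ => 2)
      (D := D) (L := L) (K := K) (c₀ := c₀) (Cd := Cd) ?_ ?_ hL0 (by linarith) hMCd ?_ ?_
    · rw [Finset.sum_sigma] at h2
      exact h2
    · rintro ⟨q, χ⟩ hi
      rw [Finset.mem_sigma] at hi
      have := hne q hi.1
      exact LF_diff (z3_Prm hi.2).2
    · rintro ⟨q, χ⟩ hi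
      rw [Finset.mem_sigma] at hi
      have := hne q hi.1
      exact LF_ne_zero (z3_Prm hi.2).2 (by norm_num)
    · rintro ⟨q, χ⟩ hi ρ hρ him
      rw [Finset.mem_sigma] at hi
      exact hzf D hD2 hgood q hi.1 χ hi.2 ρ hρ him
    · intro δ hδ hδ1
      rw [Finset.sum_sigma]
      exact hden D hD2 δ hδ hδ1
  calc ∑ q ∈ Icc 1 D, ∑ χ ∈ Prm q, ‖SK χ k M (t q χ)‖ ≤
      ∑ q ∈ Icc 1 D, ∑ χ ∈ Prm q, (∑ ρ ∈ zr (LF χ) (1 / 16) D,
        mlt (LF χ) ρ * Real.exp (-(K * L * (1 - ρ.re) / 4)) + E) :=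
        Finset.sum_le_sum fun q hq => Finset.sum_le_sum fun χ hχ => h1 q hq χ hχ
    _ = ∑ q ∈ Icc 1 D, ∑ χ ∈ Prm q, (∑ ρ ∈ zr (LF χ) (1 / 16) D,
        mlt (LF χ) ρ * Real.exp (-(K * L * (1 - ρ.re) / 4))) +
        ∑ q ∈ Icc 1 D, ∑ χ ∈ Prm q, E := by
        rw [← Finset.sum_add_distrib]
        exact Finset.sum_congr rfl fun q _ => Finset.sum_add_distrib
    _ ≤ 2 * Real.exp (2 * Cd) * Real.exp (-(c₀ * K / 8)) +
        1000000 * C₁ * Real.exp (-(M / 132)) := by linarith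
    _ ≤ 2 * Real.exp (2 * Cd) * Real.exp (-(min (c₀ / 8) (1 / 264) * M / L)) +
        1000000 * C₁ * Real.exp (-(min (c₀ / 8) (1 / 264) * M / L)) := by
        have h5 : Real.exp (-(c₀ * K / 8)) ≤ Real.exp (-(min (c₀ / 8) (1 / 264) * M / L)) := by
          apply Real.exp_le_exp.2
          have h6 : min (c₀ / 8) (1 / 264) * M / L = min (c₀ / 8) (1 / 264) * K := by
            rw [hK]; ring
          rw [h6]
          have h7 : 0 ≤ K := by positivity
          have := mul_le_mul_of_nonneg_right (min_le_left (c₀ / 8) (1 / 264)) h7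
          linarith
        have h6 : Real.exp (-(M / 132)) ≤ Real.exp (-(min (c₀ / 8) (1 / 264) * M / L)) := by
          have h7 := x4_exp hD2 (a := 1 / 132) (c := min (c₀ / 8) (1 / 264)) (M := M)
            (by linarith) (by
              have := min_le_right (c₀ / 8) (1 / 264)
              linarith) (by positivity)
          have e : (1 / 132 : ℝ) * M = M / 132 := by ring
          rw [e] at h7
          exact h7
        gcongr
    _ = _ := by ring

/-- Gallagher's theorem for primes: sum over the nontrivial primitive characters of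
conductor at most `D`, windows of any width. -/
theorem gal_SKP : ∀ c₁ : ℝ, 0 < c₁ → ∃ C : ℝ, 1 ≤ C ∧ ∃ c : ℝ, 0 < c ∧ ∃ A : ℝ, 1 ≤ A ∧
    ∀ D : ℕ, 4 ≤ D → Good c₁ D → ∀ (k : ℕ) (M : ℝ), 2 ≤ M → A * Real.log D ≤ M →
    M ^ 2 ≤ k → 4 * k ≤ D ^ 2 * M → ∀ t : (q : ℕ) → DirichletCharacter ℂ q → ℝ,
    (∀ (q : ℕ) (χ : DirichletCharacter ℂ q), |t q χ| ≤ D / 2) →
    ∑ q ∈ Icc 1 D, ∑ χ ∈ Prm q, ‖SKP χ k M (t q χ)‖ ≤
      C * Real.exp (-(c * M / Real.log D)) := by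
  intro c₁ hc₁
  obtain ⟨C, hC, c, hc, A, hA, h⟩ := gal_SK c₁ hc₁
  obtain ⟨C₂, hC₂, hpp⟩ := x3_SK_sub_SKP
  refine ⟨C + C₂, by linarith, min c (1 / 16), by positivity, max A 32,
    hA.trans (le_max_left _ _), fun D hD hgood k M hM2 hMA hk hk4 t ht => ?_⟩
  have hD2 : 2 ≤ D := by omega
  have hDR : (4 : ℝ) ≤ D := by exact_mod_cast hD
  set L : ℝ := Real.log D with hL
  have hL0 : 0 < L := Real.log_pos (by linarith)
  have hMA1 : A * L ≤ M := (mul_le_mul_of_nonneg_right (le_max_left A 32) hL0.le).trans hMA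
  have hMA2 : 32 * L ≤ M := (mul_le_mul_of_nonneg_right (le_max_right A 32) hL0.le).trans hMA
  have h0 := h D hD hgood k M hM2 hMA1 hk hk4 t ht
  have hk0 : (0 : ℝ) < k := by nlinarith
  have hne : ∀ q ∈ Icc 1 D, NeZero q := fun q hq => ⟨by
    have := (Finset.mem_Icc.1 hq).1
    omega⟩
  set E : ℝ := C₂ * Real.exp (-(M / 8)) / (D : ℝ) ^ 2 with hE
  have hDsq : (0 : ℝ) < (D : ℝ) ^ 2 := by positivity
  have hEle : C₂ * (k / M / Real.sqrt k) * Real.exp (-(M / 4)) ≤ E := by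
    rw [hE, le_div_iff₀ hDsq]
    have h1 : k / M / Real.sqrt k ≤ (D : ℝ) ^ 2 := by
      have h2 : k / M ≤ (D : ℝ) ^ 2 / 4 := by
        rw [div_le_iff₀ (by linarith)]; linarith
      have h3 : 1 ≤ Real.sqrt k := by
        rw [Real.one_le_sqrt]; nlinarith
      refine (div_le_self (by positivity) h3).trans ?_
      linarith
    have h2 : (D : ℝ) ^ 4 * Real.exp (-((1 / 8) * M)) ≤ 1 :=
      x3_pow hD2 rfl (by norm_num) (by push_cast; linarith)
    have h3 : Real.exp (-(M / 4)) = Real.exp (-((1 / 8) * M)) * Real.exp (-(M / 8)) := by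
      rw [← Real.exp_add]; congr 1; ring
    calc C₂ * (k / M / Real.sqrt k) * Real.exp (-(M / 4)) * (D : ℝ) ^ 2 ≤
        C₂ * (D : ℝ) ^ 2 * Real.exp (-(M / 4)) * (D : ℝ) ^ 2 := by gcongr
      _ = C₂ * ((D : ℝ) ^ 4 * Real.exp (-((1 / 8) * M))) * Real.exp (-(M / 8)) := by
          rw [h3]; ring
      _ ≤ C₂ * 1 * Real.exp (-(M / 8)) := by gcongr
      _ = _ := by ring
  have h1 : ∀ q ∈ Icc 1 D, ∀ χ ∈ Prm q, ‖SKP χ k M (t q χ)‖ ≤ ‖SK χ k M (t q χ)‖ + E := by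
    intro q hq χ hχ
    have := hne q hq
    have h2 := hpp q χ k M (t q χ) hM2 hk
    have h3 := norm_sub_norm_le (SKP χ k M (t q χ)) (SK χ k M (t q χ))
    rw [norm_sub_rev] at h3
    linarith
  have hcard : ∑ q ∈ Icc 1 D, ∑ χ ∈ Prm q, E ≤ C₂ * Real.exp (-(M / 8)) := by
    have hE0 : 0 ≤ E := by positivity
    have h2 : ∑ q ∈ Icc 1 D, ∑ _χ ∈ Prm q, E ≤ ∑ q ∈ Icc 1 D, (D : ℝ) * E := by
      apply Finset.sum_le_sum
      intro q hq
      have := hne q hq
      rw [Finset.sum_const, nsmul_eq_mul]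
      apply mul_le_mul_of_nonneg_right _ hE0
      refine (x3_card (q := q)).trans ?_
      exact_mod_cast (Finset.mem_Icc.1 hq).2
    refine h2.trans ?_
    rw [Finset.sum_const, Nat.card_Icc, nsmul_eq_mul, Nat.add_sub_cancel]
    have h3 : (D : ℝ) * (D * E) = (D : ℝ) ^ 2 * E := by ring
    rw [h3, hE, mul_div_cancel₀ _ hDsq.ne']
  calc ∑ q ∈ Icc 1 D, ∑ χ ∈ Prm q, ‖SKP χ k M (t q χ)‖ ≤
      ∑ q ∈ Icc 1 D, ∑ χ ∈ Prm q, (‖SK χ k M (t q χ)‖ + E) :=
        Finset.sum_le_sum fun q hq => Finset.sum_le_sum fun χ hχ => h1 q hq χ hχ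
    _ = ∑ q ∈ Icc 1 D, ∑ χ ∈ Prm q, ‖SK χ k M (t q χ)‖ +
        ∑ q ∈ Icc 1 D, ∑ χ ∈ Prm q, E := by
        rw [← Finset.sum_add_distrib]
        exact Finset.sum_congr rfl fun q _ => Finset.sum_add_distrib
    _ ≤ C * Real.exp (-(c * M / L)) + C₂ * Real.exp (-(M / 8)) := by linarith
    _ ≤ C * Real.exp (-(min c (1 / 16) * M / L)) + C₂ * Real.exp (-(min c (1 / 16) * M / L)) := by
        have h5 : Real.exp (-(c * M / L)) ≤ Real.exp (-(min c (1 / 16) * M / L)) := by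
          apply Real.exp_le_exp.2
          have := div_le_div_of_nonneg_right (mul_le_mul_of_nonneg_right
            (min_le_left c (1 / 16)) (by linarith : (0 : ℝ) ≤ M)) hL0.le
          linarith
        have h6 : Real.exp (-(M / 8)) ≤ Real.exp (-(min c (1 / 16) * M / L)) := by
          have h7 := x4_exp hD2 (a := 1 / 8) (c := min c (1 / 16)) (M := M)
            (by linarith) (by
              have := min_le_right c (1 / 16)
              linarith) (by positivity)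
          have e : (1 / 8 : ℝ) * M = M / 8 := by ring
          rw [e] at h7
          exact h7
        gcongr
    _ = _ := by ring

end Pool.Agent.GA
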