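import Pool.Agent.Lib_helper98.GAF.Lgr

/-! # LCE, LDS, LOG: the half plane of absolute convergence -/

set_option autoImplicit false

namespace Pool.Agent.GA

open Finset Complex Metric MeasureTheory Filter Asymptotics
open scoped ArithmeticFunction.vonMangoldt ArithmeticFunction.Moebius Classical Topology

/-! ## the real zeta function -/

theorem zs_summable {σ : ℝ} (hσ : 1 < σ) : Summable (fun n : ℕ => (n : ℝ) ^ (-σ)) :=
  Real.summable_nat_rpow.2 (by linarith)

theorem zs_integral {σ : ℝ} (hσ : 1 < σ) {N : ℕ} (hN : 1 ≤ N) :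
    ∫ x in ((1 : ℕ) : ℝ)..(N : ℝ), x ^ (-σ) = (1 - (N : ℝ) ^ (1 - σ)) / (σ - 1) := by
  rw [integral_rpow]
  · rw [Nat.cast_one, Real.one_rpow]
    have h1 : -σ + 1 = 1 - σ := by ring
    rw [h1]
    have h2 : 1 - σ ≠ 0 := by linarith
    have h3 : σ - 1 ≠ 0 := by linarith
    rw [div_eq_div_iff h2 h3]
    ring
  · right
    refine ⟨by linarith, ?_⟩
    rw [Set.uIcc_of_le (by exact_mod_cast hN)]
    rintro ⟨h, _⟩
    norm_num at h

theorem zs_anti {σ : ℝ} (hσ : 1 < σ) (N : ℕ) :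
    AntitoneOn (fun x : ℝ => x ^ (-σ)) (Set.Icc ((1 : ℕ) : ℝ) (N : ℝ)) := by
  intro x hx y hy hxy
  have h1 : (0 : ℝ) < x := by
    have := hx.1
    simp only [Nat.cast_one] at this
    linarith
  exact Real.rpow_le_rpow_of_nonpos h1 hxy (by linarith)

theorem zs_le {σ : ℝ} (hσ : 1 < σ) : ∑' n : ℕ, (n : ℝ) ^ (-σ) ≤ σ / (σ - 1) := by
  have h0 : 0 < σ - 1 := by linarith
  refine Real.tsum_le_of_sum_range_le (fun n => by positivity) fun n => ?_
  -- enlarge the range
  have h1 : ∑ i ∈ range n, (i : ℝ) ^ (-σ) ≤ ∑ i ∈ range (n + 2), (i : ℝ) ^ (-σ) := by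
    refine sum_le_sum_of_subset_of_nonneg (range_subset_range.2 (by omega)) fun _ _ _ => by positivity
  refine h1.trans ?_
  have h2 : ∑ i ∈ range (n + 2), (i : ℝ) ^ (-σ) =
      1 + ∑ i ∈ Ico 1 (n + 1), ((i + 1 : ℕ) : ℝ) ^ (-σ) := by
    rw [Finset.range_eq_Ico, Finset.sum_eq_sum_Ico_succ_bot (by omega),
      Finset.sum_eq_sum_Ico_succ_bot (by omega)]
    have h3 : ((0 : ℕ) : ℝ) ^ (-σ) = 0 := by
      rw [Nat.cast_zero, Real.zero_rpow (by linarith)]
    rw [h3, zero_add]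
    have h4 : ((0 + 1 : ℕ) : ℝ) ^ (-σ) = 1 := by simp
    rw [h4]
    congr 1
    rw [Finset.sum_Ico_add' (fun i : ℕ => (i : ℝ) ^ (-σ)) 1 (n + 1) 1]
  rw [h2]
  have h5 := AntitoneOn.sum_le_integral_Ico (f := fun x : ℝ => x ^ (-σ)) (a := 1) (b := n + 1)
    (by omega) (zs_anti hσ (n + 1))
  have h6 := zs_integral hσ (N := n + 1) (by omega)
  have h7 : (0 : ℝ) ≤ ((n + 1 : ℕ) : ℝ) ^ (1 - σ) := by positivity
  have h8 : (1 - ((n + 1 : ℕ) : ℝ) ^ (1 - σ)) / (σ - 1) ≤ 1 / (σ - 1) := by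
    gcongr
    linarith
  have h9 : σ / (σ - 1) = 1 + 1 / (σ - 1) := by field_simp; ring
  rw [h9]
  have h10 : ∑ i ∈ Ico 1 (n + 1), ((i + 1 : ℕ) : ℝ) ^ (-σ) ≤ 1 / (σ - 1) := by
    calc _ ≤ _ := h5
      _ = _ := h6
      _ ≤ _ := h8
  linarith

theorem zs_ge {σ : ℝ} (hσ : 1 < σ) : 1 / (σ - 1) ≤ ∑' n : ℕ, (n : ℝ) ^ (-σ) := by
  have h0 : 0 < σ - 1 := by linarith
  have h1 : ∀ N : ℕ, 1 ≤ N → (1 - (N : ℝ) ^ (1 - σ)) / (σ - 1) ≤ ∑' n : ℕ, (n : ℝ) ^ (-σ) := by
    intro N hN
    rw [← zs_integral hσ hN]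
    have h5 := AntitoneOn.integral_le_sum_Ico (f := fun x : ℝ => x ^ (-σ)) (a := 1) (b := N)
      hN (zs_anti hσ N)
    refine h5.trans ?_
    exact (zs_summable hσ).sum_le_tsum _ fun _ _ => by positivity
  have h2 : Tendsto (fun N : ℕ => (1 - (N : ℝ) ^ (1 - σ)) / (σ - 1)) atTop
      (𝓝 ((1 - 0) / (σ - 1))) := by
    refine Tendsto.div_const (tendsto_const_nhds.sub ?_) _
    have h3 := (tendsto_rpow_neg_atTop h0).comp tendsto_natCast_atTop_atTop
    refine h3.congr fun n => ?_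
    simp only [Function.comp]
    congr 1
    ring
  rw [sub_zero] at h2
  exact le_of_tendsto h2 (eventually_atTop.2 ⟨1, h1⟩)

/-! ## LCE -/

theorem norm_LS_le (f : ℕ → ℂ) (hf : ∀ n, ‖f n‖ ≤ 1)
    {s : ℂ} (hs : 1 < s.re) : ‖LSeries f s‖ ≤ s.re / (s.re - 1) := by
  unfold LSeries
  refine (norm_tsum_le_tsum_norm ?_).trans ?_
  · refine Summable.of_nonneg_of_le (fun _ => norm_nonneg _) (fun n => ?_) (zs_summable hs)
    rcases Nat.eq_zero_or_pos n with rfl | hn
    · simp [LSeries.term]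
      positivity
    · rw [LSeries.term_of_ne_zero hn.ne', norm_div, Complex.norm_natCast_cpow_of_pos hn,
        Real.rpow_neg (Nat.cast_nonneg n), div_eq_mul_inv]
      exact mul_le_of_le_one_left (by positivity) (hf n)
  · refine le_trans ?_ (zs_le hs)
    refine Summable.tsum_le_tsum (fun n => ?_) ?_ (zs_summable hs)
    · rcases Nat.eq_zero_or_pos n with rfl | hn
      · simp [LSeries.term]
        positivity
      · rw [LSeries.term_of_ne_zero hn.ne', norm_div, Complex.norm_natCast_cpow_of_pos hn,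
          Real.rpow_neg (Nat.cast_nonneg n), div_eq_mul_inv]
        exact mul_le_of_le_one_left (by positivity) (hf n)
    · refine Summable.of_nonneg_of_le (fun _ => norm_nonneg _) (fun n => ?_) (zs_summable hs)
      rcases Nat.eq_zero_or_pos n with rfl | hn
      · simp [LSeries.term]
        positivity
      · rw [LSeries.term_of_ne_zero hn.ne', norm_div, Complex.norm_natCast_cpow_of_pos hn,
          Real.rpow_neg (Nat.cast_nonneg n), div_eq_mul_inv]
        exact mul_le_of_le_one_left (by positivity) (hf n)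

theorem LF_eq_LS {q : ℕ} [NeZero q] (χ : DirichletCharacter ℂ q) {s : ℂ} (hs : 1 < s.re) :
    LF χ s = LSeries (fun n => χ (n : ZMod q)) s := by
  rw [LF_eq, DirichletCharacter.LFunction_eq_LSeries χ hs]

theorem LF_lower {q : ℕ} [NeZero q] (χ : DirichletCharacter ℂ q) {s : ℂ} (hs : 1 < s.re) :
    min 1 (s.re - 1) / 3 ≤ ‖LF χ s‖ := by
  have h0 : 0 < s.re - 1 := by linarith
  have h1 := DirichletCharacter.LSeries.mul_mu_eq_one χ hs
  rw [LF_eq_LS χ hs]
  set A := LSeries (fun n => χ (n : ZMod q)) s with hA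
  set B := LSeries ((fun n : ℕ => χ (n : ZMod q)) * fun n : ℕ => ((μ n : ℤ) : ℂ)) s with hB
  have h2 : ‖A‖ * ‖B‖ = 1 := by
    rw [← norm_mul]
    have : A * B = 1 := h1
    rw [this, norm_one]
  have h3 : ‖B‖ ≤ s.re / (s.re - 1) := by
    refine norm_LS_le _ (fun n => ?_) hs
    rw [Pi.mul_apply, norm_mul]
    have h4 : ‖((μ n : ℤ) : ℂ)‖ ≤ 1 := by
      rw [Complex.norm_intCast]
      exact_mod_cast ArithmeticFunction.abs_moebius_le_one
    exact mul_le_one₀ (DirichletCharacter.norm_le_one _ _) (norm_nonneg _) h4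
  have h5 : 0 < ‖B‖ := by
    by_contra h
    have : ‖B‖ = 0 := le_antisymm (not_lt.1 h) (norm_nonneg _)
    rw [this, mul_zero] at h2
    exact zero_ne_one h2
  have h6 : min 1 (s.re - 1) / 3 * ‖B‖ ≤ 1 := by
    calc min 1 (s.re - 1) / 3 * ‖B‖ ≤ min 1 (s.re - 1) / 3 * (s.re / (s.re - 1)) := by
          gcongr
      _ ≤ 1 := by
          rw [div_mul_div_comm, div_le_one (by positivity)]
          rcases le_total 1 (s.re - 1) with h | h
          · rw [min_eq_left h]; nlinarith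
          · rw [min_eq_right h]; nlinarith
  have h7 : min 1 (s.re - 1) / 3 * ‖B‖ ≤ ‖A‖ * ‖B‖ := by rw [h2]; exact h6
  exact le_of_mul_le_mul_right h7 h5

/-! ## LDS -/

theorem abs_conv_Lam {q : ℕ} (χ : DirichletCharacter ℂ q) {s : ℂ} (hs : 1 < s.re) :
    LSeries.abscissaOfAbsConv (fun n => ((Λ n : ℝ) : ℂ) * χ (n : ZMod q)) < s.re := by
  have h1 : LSeries.abscissaOfAbsConv (fun n => ((Λ n : ℝ) : ℂ) * χ (n : ZMod q)) ≤ 1 := by
    refine LSeries.abscissaOfAbsConv_le_of_forall_lt_LSeriesSummable fun y hy => ?_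
    have h2 := DirichletCharacter.LSeriesSummable_twist_vonMangoldt χ (s := (y : ℂ))
      (by simpa using hy)
    refine (LSeriesSummable_congr _ fun {n} _ => ?_).1 h2
    simp only [Pi.mul_apply]
    ring
  refine h1.trans_lt ?_
  exact_mod_cast hs

theorem logMul_iter (f : ℕ → ℂ) (j : ℕ) :
    LSeries.logMul^[j] f = fun n => f n * (((Real.log n) ^ j : ℝ) : ℂ) := by
  induction j with
  | zero => funext n; simp
  | succ j ih =>
    rw [Function.iterate_succ_apply', ih]
    funext n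
    simp only [LSeries.logMul]
    rw [pow_succ]
    push_cast
    rw [← Complex.natCast_log]
    ring

theorem Gj_eq {q : ℕ} (χ : DirichletCharacter ℂ q) (j : ℕ) (s : ℂ) :
    Gj χ j s = LSeries (LSeries.logMul^[j] (fun n => ((Λ n : ℝ) : ℂ) * χ (n : ZMod q))) s := by
  rw [logMul_iter]
  rfl

theorem Gj_summable {q : ℕ} [NeZero q] (χ : DirichletCharacter ℂ q) (j : ℕ) {s : ℂ}
    (hs : 1 < s.re) : LSeriesSummable
      (fun n => ((Λ n : ℝ) : ℂ) * χ (n : ZMod q) * (((Real.log n) ^ j : ℝ) : ℂ)) s := by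
  have h1 := logMul_iter (fun n => ((Λ n : ℝ) : ℂ) * χ (n : ZMod q)) j
  have h2 : LSeriesSummable
      (LSeries.logMul^[j] (fun n => ((Λ n : ℝ) : ℂ) * χ (n : ZMod q))) s := by
    refine LSeriesSummable_of_abscissaOfAbsConv_lt_re ?_
    rw [LSeries.absicssaOfAbsConv_logPowMul]
    exact abs_conv_Lam χ hs
  rw [h1] at h2
  exact h2

theorem LF_deriv {q : ℕ} [NeZero q] (χ : DirichletCharacter ℂ q) (j : ℕ) {s : ℂ}
    (hs : 1 < s.re) : iteratedDeriv j (logDeriv (LF χ)) s = -((-1) ^ j * Gj χ j s) := by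
  have h1 : logDeriv (LF χ) =ᶠ[𝓝 s]
      -LSeries (fun n => ((Λ n : ℝ) : ℂ) * χ (n : ZMod q)) := by
    filter_upwards [(isOpen_lt continuous_const Complex.continuous_re).mem_nhds hs] with w hw
    have hw : 1 < w.re := hw
    have h2 := DirichletCharacter.LSeries_twist_vonMangoldt_eq χ hw
    have h3 : LF χ =ᶠ[𝓝 w] LSeries (fun n => χ (n : ZMod q)) := by
      filter_upwards [(isOpen_lt continuous_const Complex.continuous_re).mem_nhds hw] with z hz
      exact LF_eq_LS χ hz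
    rw [logDeriv_apply, h3.deriv_eq, h3.eq_of_nhds, Pi.neg_apply]
    have h4 : LSeries (fun n => ((Λ n : ℝ) : ℂ) * χ (n : ZMod q)) w =
        -deriv (LSeries (fun n => χ (n : ZMod q))) w / LSeries (fun n => χ (n : ZMod q)) w := by
      rw [← h2]
      refine LSeries_congr (fun {n} _ => ?_) w
      simp only [Pi.mul_apply]
      ring
    rw [h4]
    ring
  rw [h1.iteratedDeriv_eq j, iteratedDeriv_neg, LSeries_iteratedDeriv j (abs_conv_Lam χ hs),
    Gj_eq]

/-! ## LOG -/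

theorem log_le_rpow {r : ℝ} (hr : 0 < r) {n : ℕ} (hn : 1 ≤ n) :
    Real.log n ≤ 2 / r * (n : ℝ) ^ (r / 2) := by
  have h1 := Real.log_le_rpow_div (x := n) (ε := r / 2) (by positivity) (by positivity)
  calc Real.log n ≤ (n : ℝ) ^ (r / 2) / (r / 2) := h1
    _ = _ := by field_simp

theorem sum_Lam_rpow : ∃ C : ℝ, 1 ≤ C ∧ ∀ r : ℝ, 0 < r → r ≤ 1 →
    Summable (fun n : ℕ => Λ n * (n : ℝ) ^ (-(1 + r))) ∧
      ∑' n : ℕ, Λ n * (n : ℝ) ^ (-(1 + r)) ≤ C / r := by
  refine ⟨6, by norm_num, fun r hr hr1 => ?_⟩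
  set s : ℂ := ((1 + r : ℝ) : ℂ) with hs
  have hsre : s.re = 1 + r := by simp [hs]
  have hs1 : 1 < s.re := by rw [hsre]; linarith
  have hterm : ∀ (f : ℕ → ℝ) (n : ℕ), f 0 = 0 →
      LSeries.term (fun n => ((f n : ℝ) : ℂ)) s n = ((f n * (n : ℝ) ^ (-(1 + r)) : ℝ) : ℂ) := by
    intro f n hf
    rcases Nat.eq_zero_or_pos n with rfl | hn
    · simp [LSeries.term, hf]
    · rw [LSeries.term_of_ne_zero hn.ne', hs, ← Complex.ofReal_natCast n,
        ← Complex.ofReal_cpow (Nat.cast_nonneg n), ← Complex.ofReal_div,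
        Real.rpow_neg (Nat.cast_nonneg n), div_eq_mul_inv]
  have hsumL : LSeriesSummable (fun n => ((Λ n : ℝ) : ℂ)) s :=
    ArithmeticFunction.LSeriesSummable_vonMangoldt hs1
  have hS1 : Summable (fun n : ℕ => Λ n * (n : ℝ) ^ (-(1 + r))) := by
    have h1 : Summable (fun n : ℕ => ((Λ n * (n : ℝ) ^ (-(1 + r)) : ℝ) : ℂ)) := by
      refine hsumL.congr fun n => ?_
      exact hterm (fun n => Λ n) n (by simp)
    exact Complex.summable_ofReal.1 h1
  refine ⟨hS1, ?_⟩
  have hL1 : LSeries (fun n => ((Λ n : ℝ) : ℂ)) s =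
      ((∑' n : ℕ, Λ n * (n : ℝ) ^ (-(1 + r)) : ℝ) : ℂ) := by
    unfold LSeries
    rw [Complex.ofReal_tsum]
    exact tsum_congr fun n => hterm (fun n => Λ n) n (by simp)
  have hS2 : Summable (fun n : ℕ => Real.log n * (n : ℝ) ^ (-(1 + r))) := by
    have h2 : Summable (fun n : ℕ => 2 / r * (n : ℝ) ^ (-(1 + r / 2))) :=
      (zs_summable (by linarith)).mul_left _
    refine Summable.of_nonneg_of_le (fun n => ?_) (fun n => ?_) h2
    · have : 0 ≤ Real.log n := Real.log_natCast_nonneg n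
      positivity
    · rcases Nat.eq_zero_or_pos n with rfl | hn
      · simp
        positivity
      · calc Real.log n * (n : ℝ) ^ (-(1 + r))
            ≤ 2 / r * (n : ℝ) ^ (r / 2) * (n : ℝ) ^ (-(1 + r)) := by
              gcongr
              exact log_le_rpow hr hn
          _ = 2 / r * (n : ℝ) ^ (-(1 + r / 2)) := by
              rw [mul_assoc, ← Real.rpow_add (by exact_mod_cast hn)]
              congr 2
              ring
  have hlogle : ∑' n : ℕ, Real.log n * (n : ℝ) ^ (-(1 + r)) ≤ 6 / r ^ 2 := by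
    calc ∑' n : ℕ, Real.log n * (n : ℝ) ^ (-(1 + r))
        ≤ ∑' n : ℕ, 2 / r * (n : ℝ) ^ (-(1 + r / 2)) := by
          refine Summable.tsum_le_tsum (fun n => ?_) hS2 ((zs_summable (by linarith)).mul_left _)
          rcases Nat.eq_zero_or_pos n with rfl | hn
          · simp
            positivity
          · calc Real.log n * (n : ℝ) ^ (-(1 + r))
                ≤ 2 / r * (n : ℝ) ^ (r / 2) * (n : ℝ) ^ (-(1 + r)) := by
                  gcongr
                  exact log_le_rpow hr hn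
              _ = 2 / r * (n : ℝ) ^ (-(1 + r / 2)) := by
                  rw [mul_assoc, ← Real.rpow_add (by exact_mod_cast hn)]
                  congr 2
                  ring
      _ = 2 / r * ∑' n : ℕ, (n : ℝ) ^ (-(1 + r / 2)) := tsum_mul_left
      _ ≤ 2 / r * ((1 + r / 2) / (1 + r / 2 - 1)) := by
          gcongr
          exact zs_le (by linarith)
      _ ≤ 6 / r ^ 2 := by
          have : 1 + r / 2 - 1 = r / 2 := by ring
          rw [this, div_mul_div_comm, div_le_div_iff₀ (by positivity) (by positivity)]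
          nlinarith
  -- the convolution identity
  have hconv := ArithmeticFunction.convolution_vonMangoldt_const_one
  have hL2 : LSeries (fun n => ((Λ n : ℝ) : ℂ)) s * LSeries 1 s =
      ((∑' n : ℕ, Real.log n * (n : ℝ) ^ (-(1 + r)) : ℝ) : ℂ) := by
    have h3 := LSeries_convolution' hsumL (LSeriesSummable_one_iff.2 hs1)
    rw [← h3, hconv, Complex.ofReal_tsum]
    unfold LSeries
    refine tsum_congr fun n => ?_
    rw [← hterm (fun n => Real.log n) n (by simp)]
    congr 1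
    funext m
    exact (Complex.natCast_log).symm
  have hL3 : LSeries 1 s = ((∑' n : ℕ, (n : ℝ) ^ (-(1 + r)) : ℝ) : ℂ) := by
    unfold LSeries
    rw [Complex.ofReal_tsum]
    refine tsum_congr fun n => ?_
    rcases Nat.eq_zero_or_pos n with rfl | hn
    · simp only [LSeries.term_zero, Nat.cast_zero]
      rw [Real.zero_rpow (by linarith)]
      simp
    · have h5 := hterm (fun n => if n = 0 then 0 else 1) n (by simp)
      have h6 : LSeries.term 1 s n =
          LSeries.term (fun n => (((if n = 0 then 0 else 1 : ℝ)) : ℂ)) s n := by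
        rw [LSeries.term_of_ne_zero hn.ne', LSeries.term_of_ne_zero hn.ne']
        simp [hn.ne']
      rw [h6, h5]
      simp [hn.ne']
  rw [hL1, hL3, ← Complex.ofReal_mul] at hL2
  have hL4 := Complex.ofReal_injective hL2
  set A := ∑' n : ℕ, Λ n * (n : ℝ) ^ (-(1 + r)) with hA
  set Z := ∑' n : ℕ, (n : ℝ) ^ (-(1 + r)) with hZ
  have hZ1 : 1 / r ≤ Z := by
    have := zs_ge (σ := 1 + r) (by linarith)
    have h7 : 1 + r - 1 = r := by ring
    rwa [h7] at this
  have hA0 : 0 ≤ A := tsum_nonneg fun n => mul_nonneg ArithmeticFunction.vonMangoldt_nonneg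
    (by positivity)
  have h8 : A * (1 / r) ≤ 6 / r ^ 2 := by
    calc A * (1 / r) ≤ A * Z := by gcongr
      _ = _ := hL4
      _ ≤ _ := hlogle
  have h9 : A * (1 / r) * r ≤ 6 / r ^ 2 * r := by gcongr
  calc A = A * (1 / r) * r := by field_simp
    _ ≤ 6 / r ^ 2 * r := h9
    _ = 6 / r := by field_simp

end Pool.Agent.GA
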