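import Pool.Agent.Lib_helper98.GAF.T0

set_option autoImplicit false

namespace Pool.Agent.GAT

open Pool.Agent.GA

open Finset Complex Metric
open scoped ArithmeticFunction.vonMangoldt ArithmeticFunction.Moebius Classical

/-- the Fourier transform of the Gaussian -/
theorem gpl_ft {T : ℝ} (hT : 0 < T) (l : ℝ) :
    ∫ t : ℝ, cexp (-(t * I) * l) * ((Real.exp (-(t ^ 2 / T ^ 2)) : ℝ) : ℂ) =
      ((T * Real.sqrt Real.pi * Real.exp (-(T ^ 2 * l ^ 2 / 4)) : ℝ) : ℂ) := by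
  have hb : 0 < ((1 / T ^ 2 : ℝ) : ℂ).re := by
    rw [Complex.ofReal_re]; positivity
  have h := fourierIntegral_gaussian hb (-l : ℂ)
  have h1 : ∀ t : ℝ, cexp (-(t * I) * l) * ((Real.exp (-(t ^ 2 / T ^ 2)) : ℝ) : ℂ) =
      cexp (I * (-l : ℂ) * t) * cexp (-((1 / T ^ 2 : ℝ) : ℂ) * (t : ℂ) ^ 2) := by
    intro t
    rw [Complex.ofReal_exp]
    congr 1
    · congr 1; ring
    · congr 1; push_cast; ring
  simp_rw [h1]
  rw [h]
  have h2 : ((Real.pi : ℂ) / ((1 / T ^ 2 : ℝ) : ℂ)) ^ (1 / 2 : ℂ) =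
      ((T * Real.sqrt Real.pi : ℝ) : ℂ) := by
    have e1 : (Real.pi : ℂ) / ((1 / T ^ 2 : ℝ) : ℂ) = ((Real.pi * T ^ 2 : ℝ) : ℂ) := by
      push_cast
      field_simp
    have e2 : (1 / 2 : ℂ) = ((1 / 2 : ℝ) : ℂ) := by push_cast; rfl
    rw [e1, e2, ← Complex.ofReal_cpow (by positivity), ← Real.sqrt_eq_rpow,
      Real.sqrt_mul (by positivity), Real.sqrt_sq hT.le, mul_comm]
  have h3 : cexp (-(-(l : ℂ)) ^ 2 / (4 * ((1 / T ^ 2 : ℝ) : ℂ))) =
      ((Real.exp (-(T ^ 2 * l ^ 2 / 4)) : ℝ) : ℂ) := by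
    rw [Complex.ofReal_exp]
    congr 1
    push_cast
    have : (T : ℂ) ≠ 0 := by exact_mod_cast hT.ne'
    field_simp
  rw [h2, h3, ← Complex.ofReal_mul]

theorem gpl_gg {T : ℝ} (hT : 0 < T) (u v : ℝ) :
    ∫ x : ℝ, Real.exp (-(T ^ 2 * (x - u) ^ 2 / 2)) * Real.exp (-(T ^ 2 * (x - v) ^ 2 / 2)) =
      Real.sqrt Real.pi / T * Real.exp (-(T ^ 2 * (u - v) ^ 2 / 4)) := by
  have h1 : ∀ x : ℝ, Real.exp (-(T ^ 2 * (x - u) ^ 2 / 2)) *
      Real.exp (-(T ^ 2 * (x - v) ^ 2 / 2)) =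
      Real.exp (-(T ^ 2 * (u - v) ^ 2 / 4)) * Real.exp (-T ^ 2 * (x - (u + v) / 2) ^ 2) := by
    intro x
    rw [← Real.exp_add, ← Real.exp_add]
    congr 1
    ring
  simp_rw [h1]
  rw [MeasureTheory.integral_const_mul,
    MeasureTheory.integral_sub_right_eq_self (fun x : ℝ => Real.exp (-T ^ 2 * x ^ 2))
      ((u + v) / 2)]
  have h2 := integral_gaussian (T ^ 2)
  rw [h2, Real.sqrt_div (by positivity), Real.sqrt_sq hT.le, mul_comm]

theorem gpl_int_gg {T : ℝ} (hT : 0 < T) (u v : ℝ) :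
    MeasureTheory.Integrable (fun x : ℝ => Real.exp (-(T ^ 2 * (x - u) ^ 2 / 2)) *
      Real.exp (-(T ^ 2 * (x - v) ^ 2 / 2))) := by
  have h1 : ∀ x : ℝ, Real.exp (-(T ^ 2 * (x - u) ^ 2 / 2)) *
      Real.exp (-(T ^ 2 * (x - v) ^ 2 / 2)) =
      Real.exp (-(T ^ 2 * (u - v) ^ 2 / 4)) * Real.exp (-(T ^ 2) * (x - (u + v) / 2) ^ 2) := by
    intro x
    rw [← Real.exp_add, ← Real.exp_add]
    congr 1
    ring
  simp_rw [h1]
  exact ((integrable_exp_neg_mul_sq (by positivity : 0 < T ^ 2)).comp_sub_right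
    ((u + v) / 2)).const_mul _

theorem gpl_int_t {T : ℝ} (hT : 0 < T) (l : ℝ) :
    MeasureTheory.Integrable (fun t : ℝ => cexp (-(t * I) * l) *
      ((Real.exp (-(t ^ 2 / T ^ 2)) : ℝ) : ℂ)) := by
  have h0 : MeasureTheory.Integrable (fun t : ℝ => Real.exp (-(t ^ 2 / T ^ 2))) := by
    have := integrable_exp_neg_mul_sq (by positivity : 0 < 1 / T ^ 2)
    refine this.congr (Filter.Eventually.of_forall fun t => ?_)
    change Real.exp (-(1 / T ^ 2) * t ^ 2) = Real.exp (-(t ^ 2 / T ^ 2))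
    congr 1; ring
  refine MeasureTheory.Integrable.mono' h0 ?_ (Filter.Eventually.of_forall fun t => ?_)
  · exact (by fun_prop : Continuous (fun t : ℝ => cexp (-(t * I) * l) *
      ((Real.exp (-(t ^ 2 / T ^ 2)) : ℝ) : ℂ))).aestronglyMeasurable
  · rw [norm_mul, Complex.norm_real, Real.norm_eq_abs, abs_of_pos (Real.exp_pos _)]
    have : ‖cexp (-(t * I) * l)‖ = 1 := by
      rw [Complex.norm_exp]
      simp
    rw [this, one_mul]

/-- the square of the norm of a finite sum -/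
theorem gpl_sq {ι : Type*} (s : Finset ι) (f : ι → ℂ) :
    ((‖∑ n ∈ s, f n‖ ^ 2 : ℝ) : ℂ) = ∑ m ∈ s, ∑ n ∈ s, f m * (starRingEnd ℂ) (f n) := by
  rw [← Complex.normSq_eq_norm_sq, ← Complex.mul_conj, map_sum, Finset.sum_mul_sum]

theorem gpl_term {n m : ℕ} (hn : 1 ≤ n) (hm : 1 ≤ m) (t : ℝ) :
    (m : ℂ) ^ (-(t * I) : ℂ) * (starRingEnd ℂ) ((n : ℂ) ^ (-(t * I) : ℂ)) =
      cexp (-(t * I) * ((Real.log m - Real.log n : ℝ) : ℂ)) := by
  have hn0 : (n : ℂ) ≠ 0 := by exact_mod_cast (by omega : n ≠ 0)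
  have hm0 : (m : ℂ) ≠ 0 := by exact_mod_cast (by omega : m ≠ 0)
  rw [Complex.cpow_def_of_ne_zero hn0, Complex.cpow_def_of_ne_zero hm0, ← Complex.exp_conj,
    ← Complex.exp_add, ← Complex.natCast_log, ← Complex.natCast_log]
  congr 1
  simp only [map_mul, map_neg, Complex.conj_ofReal, Complex.conj_I]
  push_cast
  ring

theorem gauss_plancherel (s : Finset ℕ) (hs : ∀ n ∈ s, 1 ≤ n) (a : ℕ → ℂ) {T : ℝ}
    (hT : 0 < T) :
    ∫ t : ℝ, ‖∑ n ∈ s, a n * (n : ℂ) ^ (-(t * I) : ℂ)‖ ^ 2 * Real.exp (-(t ^ 2 / T ^ 2)) =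
      T ^ 2 * ∫ x : ℝ, ‖∑ n ∈ s, a n *
        ((Real.exp (-(T ^ 2 * (x - Real.log n) ^ 2 / 2)) : ℝ) : ℂ)‖ ^ 2 := by
  have hL : ((∫ t : ℝ, ‖∑ n ∈ s, a n * (n : ℂ) ^ (-(t * I) : ℂ)‖ ^ 2 *
      Real.exp (-(t ^ 2 / T ^ 2)) : ℝ) : ℂ) = ∑ m ∈ s, ∑ n ∈ s, a m * (starRingEnd ℂ) (a n) *
      ((T * Real.sqrt Real.pi *
        Real.exp (-(T ^ 2 * (Real.log m - Real.log n) ^ 2 / 4)) : ℝ) : ℂ) := by
    rw [← integral_complex_ofReal]
    have e1 : ∀ t : ℝ, ((‖∑ n ∈ s, a n * (n : ℂ) ^ (-(t * I) : ℂ)‖ ^ 2 *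
        Real.exp (-(t ^ 2 / T ^ 2)) : ℝ) : ℂ) = ∑ m ∈ s, ∑ n ∈ s, a m * (starRingEnd ℂ) (a n) *
        (cexp (-(t * I) * ((Real.log m - Real.log n : ℝ) : ℂ)) *
          ((Real.exp (-(t ^ 2 / T ^ 2)) : ℝ) : ℂ)) := by
      intro t
      rw [Complex.ofReal_mul, gpl_sq, Finset.sum_mul]
      refine Finset.sum_congr rfl fun m hm => ?_
      rw [Finset.sum_mul]
      refine Finset.sum_congr rfl fun n hn => ?_
      rw [← gpl_term (hs n hn) (hs m hm) t, map_mul]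
      ring
    simp_rw [e1]
    rw [MeasureTheory.integral_finsetSum]
    · refine Finset.sum_congr rfl fun m hm => ?_
      rw [MeasureTheory.integral_finsetSum]
      · refine Finset.sum_congr rfl fun n hn => ?_
        rw [MeasureTheory.integral_const_mul, gpl_ft hT]
      · intro n hn
        exact (gpl_int_t hT _).const_mul _
    · intro m hm
      exact MeasureTheory.integrable_finsetSum _ fun n hn => (gpl_int_t hT _).const_mul _
  have hR : ((T ^ 2 * ∫ x : ℝ, ‖∑ n ∈ s, a n *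
        ((Real.exp (-(T ^ 2 * (x - Real.log n) ^ 2 / 2)) : ℝ) : ℂ)‖ ^ 2 : ℝ) : ℂ) =
      ∑ m ∈ s, ∑ n ∈ s, a m * (starRingEnd ℂ) (a n) *
      ((T * Real.sqrt Real.pi *
        Real.exp (-(T ^ 2 * (Real.log m - Real.log n) ^ 2 / 4)) : ℝ) : ℂ) := by
    rw [Complex.ofReal_mul, ← integral_complex_ofReal]
    have e1 : ∀ x : ℝ, ((‖∑ n ∈ s, a n *
        ((Real.exp (-(T ^ 2 * (x - Real.log n) ^ 2 / 2)) : ℝ) : ℂ)‖ ^ 2 : ℝ) : ℂ) =
        ∑ m ∈ s, ∑ n ∈ s, a m * (starRingEnd ℂ) (a n) *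
        ((Real.exp (-(T ^ 2 * (x - Real.log m) ^ 2 / 2)) *
          Real.exp (-(T ^ 2 * (x - Real.log n) ^ 2 / 2)) : ℝ) : ℂ) := by
      intro x
      rw [gpl_sq]
      refine Finset.sum_congr rfl fun m hm => Finset.sum_congr rfl fun n hn => ?_
      rw [map_mul, Complex.conj_ofReal]
      push_cast
      ring
    simp_rw [e1]
    rw [MeasureTheory.integral_finsetSum, Finset.mul_sum]
    · refine Finset.sum_congr rfl fun m hm => ?_
      rw [MeasureTheory.integral_finsetSum, Finset.mul_sum]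
      · refine Finset.sum_congr rfl fun n hn => ?_
        rw [MeasureTheory.integral_const_mul, integral_complex_ofReal, gpl_gg hT]
        push_cast
        field_simp
      · intro n hn
        exact (gpl_int_gg hT _ _).ofReal.const_mul _
    · intro m hm
      exact MeasureTheory.integrable_finsetSum _ fun n hn =>
        (gpl_int_gg hT _ _).ofReal.const_mul _
  have := hL.trans hR.symm
  exact_mod_cast this

theorem gauss_integrable (s : Finset ℕ) (a : ℕ → ℂ) {T : ℝ} (hT : 0 < T) :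
    MeasureTheory.Integrable (fun x : ℝ => ‖∑ n ∈ s, a n *
        ((Real.exp (-(T ^ 2 * (x - Real.log n) ^ 2 / 2)) : ℝ) : ℂ)‖ ^ 2) := by
  have h : MeasureTheory.Integrable (fun x : ℝ => ∑ m ∈ s, ∑ n ∈ s, a m * (starRingEnd ℂ) (a n) *
        ((Real.exp (-(T ^ 2 * (x - Real.log m) ^ 2 / 2)) *
          Real.exp (-(T ^ 2 * (x - Real.log n) ^ 2 / 2)) : ℝ) : ℂ)) :=
    MeasureTheory.integrable_finsetSum _ fun m hm =>
      MeasureTheory.integrable_finsetSum _ fun n hn =>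
        (gpl_int_gg hT _ _).ofReal.const_mul _
  have h2 := h.re
  refine h2.congr (Filter.Eventually.of_forall fun x => ?_)
  have e1 : ((‖∑ n ∈ s, a n *
        ((Real.exp (-(T ^ 2 * (x - Real.log n) ^ 2 / 2)) : ℝ) : ℂ)‖ ^ 2 : ℝ) : ℂ) =
        ∑ m ∈ s, ∑ n ∈ s, a m * (starRingEnd ℂ) (a n) *
        ((Real.exp (-(T ^ 2 * (x - Real.log m) ^ 2 / 2)) *
          Real.exp (-(T ^ 2 * (x - Real.log n) ^ 2 / 2)) : ℝ) : ℂ) := by
    rw [gpl_sq]
    refine Finset.sum_congr rfl fun m hm => Finset.sum_congr rfl fun n hn => ?_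
    rw [map_mul, Complex.conj_ofReal]
    push_cast
    ring
  change RCLike.re (∑ m ∈ s, ∑ n ∈ s, a m * (starRingEnd ℂ) (a n) *
        ((Real.exp (-(T ^ 2 * (x - Real.log m) ^ 2 / 2)) *
          Real.exp (-(T ^ 2 * (x - Real.log n) ^ 2 / 2)) : ℝ) : ℂ)) = _
  rw [← e1]
  exact Complex.ofReal_re _

end Pool.Agent.GAT
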