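import Pool.Agent.Lib_helper98.GAF.T0

set_option autoImplicit false

namespace Pool.Agent.GAT

open Pool.Agent.GA Pool.Agent.Var73

open Finset Complex Metric
open scoped ArithmeticFunction.vonMangoldt ArithmeticFunction.Moebius Classical

theorem gauss_induced {q r : ℕ} [NeZero q] [NeZero r] (hqr : q.Coprime r) (hr : Squarefree r)
    (χ : DirichletCharacter ℂ q) (hχ : χ.IsPrimitive) :
    ‖gaussSum (DirichletCharacter.changeLevel (Nat.dvd_mul_right q r) χ)
      (ZMod.stdAddChar (N := q * r))‖ ^ 2 = q := by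
  obtain ⟨u, v, huv⟩ : ∃ u v : ℤ, (q : ℤ) * u + r * v = 1 := by
    have h1 : IsCoprime (q : ℤ) (r : ℤ) := Nat.isCoprime_iff_coprime.mpr hqr
    obtain ⟨u, v, h2⟩ := h1
    exact ⟨u, v, by linarith⟩
  rw [gauss_crt q r hqr u v huv χ, sum_unit_std r u ⟨q, v, by linarith⟩, gauss_shift_eq χ hχ,
    norm_mul, norm_mul, mul_pow, mul_pow, gauss_norm_prim χ hχ]
  have h2 : ‖((μ r : ℤ) : ℂ)‖ ^ 2 = 1 := by
    rw [Complex.norm_intCast]
    have h3 : |μ r| = 1 := by
      rw [ArithmeticFunction.abs_moebius_eq_one_of_squarefree hr]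
    have h4 : |((μ r : ℤ) : ℝ)| = 1 := by exact_mod_cast h3
    rw [h4, one_pow]
  have h3 : ‖χ⁻¹ (v : ZMod q)‖ = 1 := by
    have hv : IsUnit (v : ZMod q) := by
      rw [isUnit_iff_exists_inv]
      refine ⟨(r : ZMod q), ?_⟩
      have h5 : (((q : ℤ) * u + r * v : ℤ) : ZMod q) = ((1 : ℤ) : ZMod q) := by rw [huv]
      push_cast at h5
      rw [ZMod.natCast_self, zero_mul, zero_add] at h5
      rw [mul_comm]
      exact h5
    obtain ⟨w, hw⟩ := hv
    rw [← hw]
    exact DirichletCharacter.unit_norm_eq_one χ⁻¹ w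
  rw [h2, h3]
  ring

end Pool.Agent.GAT
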