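import Pool.Agent.Lib_helper98.GAF.T0
import Pool.Agent.Lib_helper98.GAF.GSI

/-!
# GA, block LSB: Bessel inequality for one modulus (helper6)
-/

set_option autoImplicit false

namespace Pool.Agent.GAT

open Pool.Agent.GA

open Finset Complex Metric
open Pool.Agent.Var35 (e)
open Pool.Agent.Var73 (Cd)
open scoped ArithmeticFunction.vonMangoldt ArithmeticFunction.Moebius Classical

/-- value of a Gauss sum of an arbitrary character at an argument coprime to the modulus -/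
theorem lsb_shift {m : ℕ} [NeZero m] (ψ : DirichletCharacter ℂ m) (n : ℕ) (hn : Nat.Coprime n m) :
    ∑ c : ZMod m, ψ⁻¹ c * ZMod.stdAddChar (N := m) ((n : ZMod m) * c) =
      ψ (n : ZMod m) * gaussSum ψ⁻¹ (ZMod.stdAddChar (N := m)) := by
  have hu : IsUnit (n : ZMod m) := (ZMod.isUnit_iff_coprime n m).mpr hn
  obtain ⟨u, hu⟩ := hu
  have h := gaussSum_mulShift_eq ψ⁻¹ (ZMod.stdAddChar (N := m)) u
  rw [inv_inv, hu] at h
  rw [← h]
  rfl

/-- the square of one character sum -/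
theorem lsb_single {q r : ℕ} [NeZero q] [NeZero r] (hqr : q.Coprime r) (hr : Squarefree r)
    (χ : DirichletCharacter ℂ q) (hχ : χ.IsPrimitive) (I : Finset ℕ) (a : ℕ → ℂ)
    (ha : ∀ n ∈ I, a n ≠ 0 → Nat.Coprime n (q * r)) :
    (q : ℝ) * ‖∑ n ∈ I, a n * χ (n : ZMod q)‖ ^ 2 =
      ‖∑ c : ZMod (q * r), (DirichletCharacter.changeLevel (Nat.dvd_mul_right q r) χ)⁻¹ c *
        ∑ n ∈ I, a n * ZMod.stdAddChar (N := q * r) ((n : ZMod (q * r)) * c)‖ ^ 2 := by
  have hg := gauss_induced hqr hr χ⁻¹ (Pool.Agent.Var73.inv_primitive hχ)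
  rw [map_inv] at hg
  have h2 : ∑ c : ZMod (q * r), (DirichletCharacter.changeLevel (Nat.dvd_mul_right q r) χ)⁻¹ c *
        ∑ n ∈ I, a n * ZMod.stdAddChar (N := q * r) ((n : ZMod (q * r)) * c)
      = (∑ n ∈ I, a n * χ (n : ZMod q)) *
        gaussSum (DirichletCharacter.changeLevel (Nat.dvd_mul_right q r) χ)⁻¹
          (ZMod.stdAddChar (N := q * r)) := by
    simp only [mul_sum]
    rw [sum_comm, sum_mul]
    refine sum_congr rfl fun n hn => ?_
    by_cases hz : a n = 0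
    · simp [hz]
    have hc := ha n hn hz
    have h3 := lsb_shift (DirichletCharacter.changeLevel (Nat.dvd_mul_right q r) χ) n hc
    have h4 := Pool.Agent.Var73.char_level q r χ n
    rw [if_pos (Nat.Coprime.coprime_mul_left_right hc)] at h4
    rw [h4] at h3
    rw [mul_assoc, ← h3, mul_sum]
    refine sum_congr rfl fun c _ => by ring
  rw [h2, norm_mul, mul_pow, hg, mul_comm]

/-- the same with an arbitrary modulus -/
theorem lsb_single' {m q : ℕ} [NeZero m] (h : q ∣ m) (hqr : q.Coprime (m / q))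
    (hr : Squarefree (m / q))
    (χ : DirichletCharacter ℂ q) (hχ : χ.IsPrimitive) (I : Finset ℕ) (a : ℕ → ℂ)
    (ha : ∀ n ∈ I, a n ≠ 0 → Nat.Coprime n m) :
    (q : ℝ) * ‖∑ n ∈ I, a n * χ (n : ZMod q)‖ ^ 2 =
      ‖∑ c : ZMod m, (DirichletCharacter.changeLevel h χ)⁻¹ c *
        ∑ n ∈ I, a n * ZMod.stdAddChar (N := m) ((n : ZMod m) * c)‖ ^ 2 := by
  obtain ⟨r, rfl⟩ := h
  have hq0 : NeZero q := ⟨fun h => NeZero.ne (q * r) (by rw [h, zero_mul])⟩
  have hr0 : NeZero r := ⟨fun h => NeZero.ne (q * r) (by rw [h, mul_zero])⟩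
  rw [Nat.mul_div_cancel_left r (Nat.pos_of_ne_zero (NeZero.ne q))] at hqr hr
  exact lsb_single hqr hr χ hχ I a ha

theorem bessel_induced {m : ℕ} [NeZero m] (I : Finset ℕ) (a : ℕ → ℂ)
    (ha : ∀ n ∈ I, a n ≠ 0 → Nat.Coprime n m) :
    ∑ q ∈ m.divisors.filter (fun q => q.Coprime (m / q) ∧ Squarefree (m / q)),
        (q : ℝ) * ∑ χ ∈ Prp q, ‖∑ n ∈ I, a n * χ (n : ZMod q)‖ ^ 2 ≤
      (Nat.totient m : ℝ) * ∑ c ∈ Cd m, ‖∑ n ∈ I, a n * e (n * ((c : ℝ) / m))‖ ^ 2 := by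
  classical
  set T : ZMod m → ℂ := fun c => ∑ n ∈ I, a n * ZMod.stdAddChar (N := m) ((n : ZMod m) * c) with hT
  set S := m.divisors.filter (fun q => q.Coprime (m / q) ∧ Squarefree (m / q)) with hS
  set G : (Σ q : ℕ, DirichletCharacter ℂ q) → DirichletCharacter ℂ m :=
    fun x => if h : x.1 ∣ m then DirichletCharacter.changeLevel h x.2 else 1 with hG
  set F : DirichletCharacter ℂ m → ℝ := fun ψ => ‖∑ c : ZMod m, ψ⁻¹ c * T c‖ ^ 2 with hF
  have h1 : ∑ q ∈ S, (q : ℝ) * ∑ χ ∈ Prp q, ‖∑ n ∈ I, a n * χ (n : ZMod q)‖ ^ 2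
      = ∑ x ∈ S.sigma (fun q => Prp q), F (G x) := by
    rw [sum_sigma]
    refine sum_congr rfl fun q hq => ?_
    rw [mul_sum]
    refine sum_congr rfl fun χ hχ => ?_
    rw [hS, mem_filter, Nat.mem_divisors] at hq
    obtain ⟨⟨hqm, _⟩, hq1, hq2⟩ := hq
    have hχ' : χ.IsPrimitive := by
      simpa [Prp] using hχ
    rw [lsb_single' hqm hq1 hq2 χ hχ' I a ha]
    simp only [hG, dif_pos hqm, hF, hT]
  have hinj : Set.InjOn G (S.sigma (fun q => Prp q) : Finset (Σ q : ℕ, DirichletCharacter ℂ q)) := by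
    rintro ⟨q, χ⟩ hx ⟨q', χ'⟩ hx' hxx
    rw [mem_coe, mem_sigma] at hx hx'
    obtain ⟨hq, hχ⟩ := hx
    obtain ⟨hq', hχ'⟩ := hx'
    simp only at hq hχ hq' hχ'
    rw [hS, mem_filter, Nat.mem_divisors] at hq hq'
    have hχ1 : χ.IsPrimitive := by simpa [Prp] using hχ
    have hχ1' : χ'.IsPrimitive := by simpa [Prp] using hχ'
    simp only [hG, dif_pos hq.1.1, dif_pos hq'.1.1] at hxx
    have e1 := DirichletCharacter.conductor_changeLevel χ hq.1.1
    have e2 := DirichletCharacter.conductor_changeLevel χ' hq'.1.1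
    rw [hxx, e2] at e1
    rw [(DirichletCharacter.isPrimitive_def _).mp hχ1,
      (DirichletCharacter.isPrimitive_def _).mp hχ1'] at e1
    subst e1
    have := DirichletCharacter.changeLevel_injective hq.1.1 hxx
    rw [this]
  have h4 : ∑ x ∈ S.sigma (fun q => Prp q), F (G x) ≤ ∑ ψ : DirichletCharacter ℂ m, F ψ := by
    rw [← sum_image (f := F) (g := G) (s := S.sigma (fun q => Prp q)) hinj]
    exact sum_le_sum_of_subset_of_nonneg (subset_univ _) fun _ _ _ => by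
      simp only [hF]; positivity
  rw [h1]
  refine h4.trans ?_
  have h5 : ∑ χ : DirichletCharacter ℂ m, F χ
      = ∑ χ : DirichletCharacter ℂ m, ‖∑ c : ZMod m, χ c * T c‖ ^ 2 :=
    Fintype.sum_bijective (fun χ : DirichletCharacter ℂ m => χ⁻¹) (inv_involutive.bijective) _ _
      (fun χ => rfl)
  rw [h5, Pool.Agent.Var73.orthr, Pool.Agent.Var73.sum_unit_Cd]
  refine le_of_eq ?_
  congr 1
  refine sum_congr rfl fun c _ => ?_
  congr 2
  simp only [hT]
  refine sum_congr rfl fun n _ => ?_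
  congr 1
  have := Pool.Agent.Var73.std_eq_nat m (n * c)
  push_cast at this
  rw [this]
  congr 1; ring

end Pool.Agent.GAT
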