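import Pool.Agent.Lib_helper98.GAF.T0

/-! Gallagher, block SMP: the sum of `1/φ(r)` -/

set_option autoImplicit false

namespace Pool.Agent.GAT

open Pool.Agent.GA

open Finset Complex Metric
open Pool.Agent.Var35 (e)
open Pool.Agent.Var73 (Cd)
open scoped ArithmeticFunction.vonMangoldt ArithmeticFunction.Moebius Classical

/-- `n ↦ 1/n` -/
noncomputable def smp_f : ℕ →* ℝ where
  toFun n := (n : ℝ)⁻¹
  map_one' := by simp
  map_mul' := by
    intro a b
    push_cast
    rw [mul_inv]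

theorem smp_f_apply (n : ℕ) : smp_f n = (n : ℝ)⁻¹ := rfl

theorem smp_prod {M : ℕ} (hM : 1 ≤ M) :
    ∏ p ∈ M.primeFactors with p.Prime, (1 - smp_f p)⁻¹ = (M : ℝ) / Nat.totient M := by
  have h1 : M.primeFactors.filter (fun p => p.Prime) = M.primeFactors := by
    refine Finset.filter_true_of_mem fun p hp => ?_
    exact Nat.prime_of_mem_primeFactors hp
  rw [h1]
  have h2 := Nat.totient_eq_mul_prod_factors M
  have h3 : (Nat.totient M : ℝ) = M * ∏ p ∈ M.primeFactors, (1 - (p : ℝ)⁻¹) := by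
    have := congrArg (fun x : ℚ => (x : ℝ)) h2
    push_cast at this
    exact this
  have hM0 : (M : ℝ) ≠ 0 := by
    have : M ≠ 0 := by omega
    exact_mod_cast this
  have h4 : (Nat.totient M : ℝ) ≠ 0 := by
    have : Nat.totient M ≠ 0 := (Nat.totient_pos.2 hM).ne'
    exact_mod_cast this
  rw [Finset.prod_inv_distrib]
  simp only [smp_f_apply]
  rw [h3] at h4 ⊢
  have h5 : ∏ p ∈ M.primeFactors, (1 - (p : ℝ)⁻¹) ≠ 0 := right_ne_zero_of_mul h4
  field_simp

/-- finite sums over numbers with prescribed primes -/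
theorem smp_sum {M : ℕ} (hM : 1 ≤ M) (A : Finset ℕ)
    (hA : ∀ k ∈ A, k ∈ Nat.factoredNumbers M.primeFactors) :
    ∑ k ∈ A, (k : ℝ)⁻¹ ≤ (M : ℝ) / Nat.totient M := by
  have hlt : ∀ {p : ℕ}, p.Prime → ‖smp_f p‖ < 1 := by
    intro p hp
    rw [smp_f_apply, norm_inv, Real.norm_natCast]
    have : (1 : ℝ) < p := by exact_mod_cast hp.one_lt
    exact inv_lt_one_of_one_lt₀ this
  have h1 := (EulerProduct.summable_and_hasSum_factoredNumbers_prod_filter_prime_geometric
    (f := smp_f) hlt M.primeFactors).2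
  rw [smp_prod hM] at h1
  have h2 : ∑ k ∈ A, (k : ℝ)⁻¹ = ∑ k ∈ A.subtype (fun k => k ∈ Nat.factoredNumbers M.primeFactors),
      smp_f (k : ℕ) := by
    rw [← Finset.sum_subtype_of_mem (fun k : ℕ => (k : ℝ)⁻¹) hA]
    rfl
  rw [h2]
  exact sum_le_hasSum _ (fun k _ => by
    rw [smp_f_apply]
    positivity) h1

/-- the part of the radical prime to `q` -/
noncomputable def smp_R (q n : ℕ) : ℕ := ∏ p ∈ n.primeFactors.filter (fun p => ¬ p ∣ q), p

theorem smp_R_dvd {q n : ℕ} : smp_R q n ∣ n := by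
  unfold smp_R
  exact (Finset.prod_dvd_prod_of_subset _ _ _ (Finset.filter_subset _ _)).trans
    (Nat.prod_primeFactors_dvd n)

theorem smp_R_sq {q n : ℕ} : Squarefree (smp_R q n) := by
  unfold smp_R
  refine Finset.squarefree_prod_of_pairwise_isCoprime (fun p hp r hr hpr => ?_) ?_
  · have hp' := Nat.prime_of_mem_primeFactors (Finset.mem_of_mem_filter _ hp)
    have hr' := Nat.prime_of_mem_primeFactors (Finset.mem_of_mem_filter _ hr)
    exact Nat.coprime_iff_isRelPrime.1 ((Nat.coprime_primes hp' hr').2 hpr)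
  · intro p hp
    exact (Nat.prime_of_mem_primeFactors (Finset.mem_of_mem_filter _ hp)).squarefree

theorem smp_R_cop {q n : ℕ} : (smp_R q n).Coprime q := by
  unfold smp_R
  refine Nat.Coprime.prod_left fun p hp => ?_
  rw [Finset.mem_filter] at hp
  exact (Nat.Prime.coprime_iff_not_dvd (Nat.prime_of_mem_primeFactors hp.1)).2 hp.2

theorem smp_R_fac {q n : ℕ} (hq : 1 ≤ q) (hn : 1 ≤ n) :
    n / smp_R q n ∈ Nat.factoredNumbers (q * smp_R q n).primeFactors := by
  have hR0 : smp_R q n ≠ 0 := smp_R_sq.ne_zero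
  have hk0 : n / smp_R q n ≠ 0 := by
    have := Nat.div_pos (Nat.le_of_dvd hn smp_R_dvd) (Nat.pos_of_ne_zero hR0)
    omega
  rw [Nat.mem_factoredNumbers]
  refine ⟨hk0, fun p hp => ?_⟩
  have hpp := Nat.prime_of_mem_primeFactorsList hp
  have hpk := Nat.dvd_of_mem_primeFactorsList hp
  have hpn : p ∣ n := hpk.trans (Nat.div_dvd_of_dvd smp_R_dvd)
  rw [Nat.mem_primeFactors]
  refine ⟨hpp, ?_, mul_ne_zero (by omega) hR0⟩
  by_cases hpq : p ∣ q
  · exact hpq.mul_right _
  · refine Dvd.dvd.mul_left ?_ _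
    unfold smp_R
    refine Finset.dvd_prod_of_mem (fun p => p) ?_
    rw [Finset.mem_filter, Nat.mem_primeFactors]
    exact ⟨⟨hpp, hpn, by omega⟩, hpq⟩

theorem sum_mu_phi {q z : ℕ} (hq : 1 ≤ q) (hz : 1 ≤ z) :
    (Nat.totient q : ℝ) / q * Real.log z ≤
      ∑ r ∈ (Icc 1 z).filter (fun r => Nat.Coprime r q ∧ Squarefree r),
        1 / (Nat.totient r : ℝ) := by
  have hlog : Real.log z ≤ ∑ n ∈ Icc 1 z, (n : ℝ)⁻¹ := by
    have h1 := log_add_one_le_harmonic z
    rw [harmonic_eq_sum_Icc] at h1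
    push_cast at h1
    refine le_trans (Real.log_le_log (by exact_mod_cast hz) ?_) h1
    linarith
  have hmaps : ∀ n ∈ Icc 1 z, smp_R q n ∈
      (Icc 1 z).filter (fun r => Nat.Coprime r q ∧ Squarefree r) := by
    intro n hn
    rw [Finset.mem_Icc] at hn
    rw [Finset.mem_filter, Finset.mem_Icc]
    have h1 : smp_R q n ≤ n := Nat.le_of_dvd hn.1 smp_R_dvd
    have h2 : smp_R q n ≠ 0 := smp_R_sq.ne_zero
    exact ⟨⟨by omega, by omega⟩, smp_R_cop, smp_R_sq⟩
  have hqp : (0 : ℝ) < q := by exact_mod_cast hq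
  have hφq : (0 : ℝ) < Nat.totient q := by exact_mod_cast Nat.totient_pos.2 hq
  have hfib : ∀ r ∈ (Icc 1 z).filter (fun r => Nat.Coprime r q ∧ Squarefree r),
      ∑ n ∈ (Icc 1 z).filter (fun n => smp_R q n = r), (n : ℝ)⁻¹ ≤
        (q : ℝ) / Nat.totient q * (1 / (Nat.totient r : ℝ)) := by
    intro r hr
    rw [Finset.mem_filter, Finset.mem_Icc] at hr
    obtain ⟨⟨hr1, hrz⟩, hrq, hrs⟩ := hr
    have hr0 : (0 : ℝ) < r := by exact_mod_cast hr1
    have hφr : (0 : ℝ) < Nat.totient r := by exact_mod_cast Nat.totient_pos.2 hr1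
    set T := (Icc 1 z).filter (fun n => smp_R q n = r) with hT
    have hinj : Set.InjOn (fun n => n / r) (T : Set ℕ) := by
      intro a ha b hb hab
      rw [Finset.mem_coe, hT, Finset.mem_filter] at ha hb
      have h1 : r ∣ a := by rw [← ha.2]; exact smp_R_dvd
      have h2 : r ∣ b := by rw [← hb.2]; exact smp_R_dvd
      have h3 : a / r = b / r := hab
      rw [← Nat.div_mul_cancel h1, ← Nat.div_mul_cancel h2, h3]
    have h1 := smp_sum (M := q * r) (Nat.mul_pos hq hr1) (T.image (fun n => n / r)) (by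
      intro k hk
      rw [Finset.mem_image] at hk
      obtain ⟨n, hn, rfl⟩ := hk
      rw [hT, Finset.mem_filter, Finset.mem_Icc] at hn
      have := smp_R_fac hq hn.1.1
      rwa [hn.2] at this)
    rw [Finset.sum_image hinj] at h1
    have h2 : ∑ n ∈ T, (n : ℝ)⁻¹ = (r : ℝ)⁻¹ * ∑ n ∈ T, ((n / r : ℕ) : ℝ)⁻¹ := by
      rw [Finset.mul_sum]
      refine Finset.sum_congr rfl fun n hn => ?_
      rw [hT, Finset.mem_filter] at hn
      have h3 : r ∣ n := by rw [← hn.2]; exact smp_R_dvd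
      rw [← mul_inv, ← Nat.cast_mul, Nat.mul_div_cancel' h3]
    rw [h2]
    have h4 : Nat.totient (q * r) = Nat.totient q * Nat.totient r :=
      Nat.totient_mul hrq.symm
    rw [h4] at h1
    calc (r : ℝ)⁻¹ * ∑ n ∈ T, ((n / r : ℕ) : ℝ)⁻¹
        ≤ (r : ℝ)⁻¹ * (((q * r : ℕ) : ℝ) / ((Nat.totient q * Nat.totient r : ℕ) : ℝ)) :=
          mul_le_mul_of_nonneg_left h1 (by positivity)
      _ = (q : ℝ) / Nat.totient q * (1 / (Nat.totient r : ℝ)) := by
          push_cast
          field_simp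
  have hall : ∑ n ∈ Icc 1 z, (n : ℝ)⁻¹ ≤ (q : ℝ) / Nat.totient q *
      ∑ r ∈ (Icc 1 z).filter (fun r => Nat.Coprime r q ∧ Squarefree r),
        1 / (Nat.totient r : ℝ) := by
    rw [← Finset.sum_fiberwise_of_maps_to hmaps, Finset.mul_sum]
    exact Finset.sum_le_sum hfib
  calc (Nat.totient q : ℝ) / q * Real.log z
      ≤ (Nat.totient q : ℝ) / q * ((q : ℝ) / Nat.totient q *
        ∑ r ∈ (Icc 1 z).filter (fun r => Nat.Coprime r q ∧ Squarefree r),
          1 / (Nat.totient r : ℝ)) := by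
        refine mul_le_mul_of_nonneg_left (hlog.trans hall) (by positivity)
    _ = _ := by
        field_simp

end Pool.Agent.GAT
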