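import Pool.Agent.Lib_helper98.GAF.T0
import Pool.Agent.Lib_helper98.GAF.SMP
import Pool.Agent.Lib_helper98.GAF.LSB

/-!
# GA, block LSR: the large sieve for numbers without small prime factors (helper6)
-/

set_option autoImplicit false

namespace Pool.Agent.GAT

open Pool.Agent.GA

open Finset Complex Metric
open Pool.Agent.Var35 (e)
open Pool.Agent.Var73 (Cd)
open scoped ArithmeticFunction.vonMangoldt ArithmeticFunction.Moebius Classical

open Pool.Agent.Var35 in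
/-- the additive large sieve for a set of moduli -/
theorem lsr_additive (DD : Finset ℕ) (D : ℕ) (hD : ∀ d ∈ DD, 1 ≤ d ∧ d ≤ D) (hD1 : 1 ≤ D)
    (a : ℕ → ℂ) (M H : ℕ) :
    ∑ d ∈ DD, ∑ c ∈ Cd d, ‖∑ m ∈ Finset.Ioc M (M + H), a m * e (m * ((c:ℝ) / d))‖ ^ 2
      ≤ 22 * (H + (D:ℝ) ^ 2) * ∑ m ∈ Finset.Ioc M (M + H), ‖a m‖ ^ 2 := by
  have hPr : (1:ℝ) ≤ D := by exact_mod_cast hD1
  have h2 : ∑ d ∈ DD, ∑ c ∈ Cd d, ‖∑ m ∈ Finset.Ioc M (M + H), a m * e (m * ((c:ℝ) / d))‖ ^ 2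
      = ∑ x ∈ DD.sigma (fun d => Cd d),
          ‖∑ m ∈ range H, a (M + 1 + m) * e (m * ((x.2:ℝ) / x.1))‖ ^ 2 := by
    rw [sum_sigma]
    refine sum_congr rfl fun p _ => sum_congr rfl fun c _ => ?_
    have h3 : ∑ m ∈ Finset.Ioc M (M + H), a m * e (m * ((c:ℝ) / p))
        = e ((M + 1 : ℕ) * ((c:ℝ) / p)) * ∑ m ∈ range H, a (M + 1 + m) * e (m * ((c:ℝ) / p)) := by
      rw [mul_sum]
      have : Finset.Ioc M (M + H) = (range H).image (fun m => M + 1 + m) := by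
        ext m
        simp only [Finset.mem_Ioc, mem_image, mem_range]
        constructor
        · intro h; exact ⟨m - (M + 1), by omega, by omega⟩
        · rintro ⟨j, hj, rfl⟩; omega
      rw [this, sum_image (fun a _ b _ h => by simpa using h)]
      refine sum_congr rfl fun m _ => ?_
      have : ((M + 1 + m : ℕ) : ℝ) * ((c:ℝ) / p) = ((M + 1 : ℕ):ℝ) * ((c:ℝ) / p) + m * ((c:ℝ) / p) := by
        push_cast; ring
      rw [this, e_add]; ring
    rw [h3, norm_mul, norm_e, one_mul]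
  rw [h2]
  have h4 := large_sieve (DD.sigma (fun d => Cd d)) (fun x : (Σ _ : ℕ, ℕ) => (x.2:ℝ) / x.1)
    (1 / (D:ℝ) ^ 2) (by positivity) (by rw [div_le_one (by positivity)]; nlinarith)
    (Pool.Agent.Var73.farey_sep_gen DD D hD hD1) (fun m => a (M + 1 + m)) H
  refine h4.trans (le_of_eq ?_)
  have h5 : ∑ m ∈ Finset.Ioc M (M + H), ‖a m‖ ^ 2 = ∑ m ∈ range H, ‖a (M + 1 + m)‖ ^ 2 := by
    have : Finset.Ioc M (M + H) = (range H).image (fun m => M + 1 + m) := by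
      ext m
      simp only [Finset.mem_Ioc, mem_image, mem_range]
      constructor
      · intro h; exact ⟨m - (M + 1), by omega, by omega⟩
      · rintro ⟨j, hj, rfl⟩; omega
    rw [this, sum_image (fun a _ b _ h => by simpa using h)]
  rw [h5, one_div_one_div]

/-- the pairs of moduli -/
theorem lsr_pairs (D : ℕ) (Y : ℕ → ℝ) (hY : ∀ q, 0 ≤ Y q) :
    ∑ q ∈ Icc 1 D, ∑ r ∈ (Icc 1 D).filter (fun r => Nat.Coprime r q ∧ Squarefree r),
        ((q : ℝ) / (Nat.totient (q * r) : ℝ)) * Y q ≤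
      ∑ m ∈ ((Icc 1 D) ×ˢ (Icc 1 D)).image (fun p : ℕ × ℕ => p.1 * p.2),
        ∑ q ∈ m.divisors.filter (fun q => q.Coprime (m / q) ∧ Squarefree (m / q)),
          ((q : ℝ) / (Nat.totient m : ℝ)) * Y q := by
  rw [sum_sigma', sum_sigma']
  set S1 := (Icc 1 D).sigma
    (fun q => (Icc 1 D).filter (fun r => Nat.Coprime r q ∧ Squarefree r)) with hS1
  set S2 := (((Icc 1 D) ×ˢ (Icc 1 D)).image (fun p : ℕ × ℕ => p.1 * p.2)).sigma
    (fun m => m.divisors.filter (fun q => q.Coprime (m / q) ∧ Squarefree (m / q))) with hS2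
  set g : (Σ _ : ℕ, ℕ) → (Σ _ : ℕ, ℕ) := fun x => ⟨x.1 * x.2, x.1⟩ with hg
  set f : (Σ _ : ℕ, ℕ) → ℝ := fun x => ((x.2 : ℝ) / (Nat.totient x.1 : ℝ)) * Y x.2 with hf
  have hinj : Set.InjOn g (S1 : Finset (Σ _ : ℕ, ℕ)) := by
    rintro ⟨q, r⟩ h1 ⟨q', r'⟩ h2 h3
    simp only [hg, Sigma.mk.injEq, heq_eq_eq] at h3
    obtain ⟨h4, h5⟩ := h3
    subst h5
    rw [mem_coe, hS1, mem_sigma, mem_Icc] at h1
    have : r = r' := Nat.eq_of_mul_eq_mul_left h1.1.1 h4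
    rw [this]
  have hsub : S1.image g ⊆ S2 := by
    intro x hx
    rw [mem_image] at hx
    obtain ⟨⟨q, r⟩, h1, rfl⟩ := hx
    rw [hS1, mem_sigma, mem_filter] at h1
    simp only [hg]
    rw [hS2, mem_sigma, mem_image, mem_filter, Nat.mem_divisors]
    simp only at h1 ⊢
    obtain ⟨h1q, h1r, h1c, h1s⟩ := h1
    have hq := mem_Icc.mp h1q
    have hr := mem_Icc.mp h1r
    refine ⟨⟨(q, r), mem_product.mpr ⟨h1q, h1r⟩, rfl⟩, ⟨Nat.dvd_mul_right q r, ?_⟩, ?_, ?_⟩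
    · have := Nat.mul_pos hq.1 hr.1; omega
    · rw [Nat.mul_div_cancel_left r hq.1]; exact h1c.symm
    · rw [Nat.mul_div_cancel_left r hq.1]; exact h1s
  calc ∑ x ∈ S1, ((x.1 : ℝ) / (Nat.totient (x.1 * x.2) : ℝ)) * Y x.1
      = ∑ x ∈ S1, f (g x) := rfl
    _ = ∑ y ∈ S1.image g, f y := (sum_image hinj).symm
    _ ≤ ∑ y ∈ S2, f y := sum_le_sum_of_subset_of_nonneg hsub fun y _ _ => by
        have := hY y.2
        simp only [hf]
        positivity

theorem large_sieve_rough : ∃ C : ℝ, 1 ≤ C ∧ ∀ D : ℕ, 2 ≤ D → ∀ A H : ℕ, ∀ a : ℕ → ℂ,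
    (∀ n, a n ≠ 0 → ∀ p, p.Prime → p ∣ n → D < p) →
    Real.log D * ∑ q ∈ Icc 1 D, ∑ χ ∈ Prp q,
        ‖∑ n ∈ Ioc A (A + H), a n * χ (n : ZMod q)‖ ^ 2 ≤
      C * (H + (D : ℝ) ^ 4) * ∑ n ∈ Ioc A (A + H), ‖a n‖ ^ 2 := by
  refine ⟨22, by norm_num, ?_⟩
  intro D hD A H a ha
  set Y : ℕ → ℝ := fun q => ∑ χ ∈ Prp q, ‖∑ n ∈ Ioc A (A + H), a n * χ (n : ZMod q)‖ ^ 2 with hYdef
  have hY : ∀ q, 0 ≤ Y q := fun q => sum_nonneg fun _ _ => by positivity
  set MM := ((Icc 1 D) ×ˢ (Icc 1 D)).image (fun p : ℕ × ℕ => p.1 * p.2) with hMM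
  have hMM1 : ∀ m ∈ MM, 1 ≤ m ∧ m ≤ D ^ 2 := by
    intro m hm
    rw [hMM, mem_image] at hm
    obtain ⟨⟨q, r⟩, hqr, rfl⟩ := hm
    rw [mem_product, mem_Icc, mem_Icc] at hqr
    simp only at hqr ⊢
    refine ⟨Nat.mul_pos hqr.1.1 hqr.2.1, ?_⟩
    rw [sq]
    exact Nat.mul_le_mul hqr.1.2 hqr.2.2
  have h1 := lsr_additive MM (D ^ 2) hMM1 (Nat.one_le_pow _ _ (by omega)) a A H
  have h2 : ∑ m ∈ MM, ∑ q ∈ m.divisors.filter (fun q => q.Coprime (m / q) ∧ Squarefree (m / q)),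
          ((q : ℝ) / (Nat.totient m : ℝ)) * Y q ≤
      ∑ d ∈ MM, ∑ c ∈ Cd d, ‖∑ m ∈ Finset.Ioc A (A + H), a m * e (m * ((c:ℝ) / d))‖ ^ 2 := by
    refine sum_le_sum fun m hm => ?_
    have hm1 := (hMM1 m hm).1
    have hne : NeZero m := ⟨by omega⟩
    have hφ : (0:ℝ) < Nat.totient m := by exact_mod_cast Nat.totient_pos.mpr hm1
    have hcop : ∀ n ∈ Ioc A (A + H), a n ≠ 0 → Nat.Coprime n m := by
      intro n _ hn
      by_contra hc
      rw [Nat.Prime.not_coprime_iff_dvd] at hc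
      obtain ⟨p, hp, hpn, hpm⟩ := hc
      have h3 := ha n hn p hp hpn
      rw [hMM, mem_image] at hm
      obtain ⟨⟨q, r⟩, hqr, rfl⟩ := hm
      rw [mem_product, mem_Icc, mem_Icc] at hqr
      simp only at hqr hpm
      rcases (Nat.Prime.dvd_mul hp).mp hpm with h | h
      · have := Nat.le_of_dvd hqr.1.1 h; omega
      · have := Nat.le_of_dvd hqr.2.1 h; omega
    have h3 := bessel_induced (m := m) (Ioc A (A + H)) a hcop
    have h4 : ∑ q ∈ m.divisors.filter (fun q => q.Coprime (m / q) ∧ Squarefree (m / q)),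
          ((q : ℝ) / (Nat.totient m : ℝ)) * Y q =
        (∑ q ∈ m.divisors.filter (fun q => q.Coprime (m / q) ∧ Squarefree (m / q)),
          (q : ℝ) * Y q) / (Nat.totient m : ℝ) := by
      rw [sum_div]
      refine sum_congr rfl fun q _ => by ring
    rw [h4, div_le_iff₀ hφ, mul_comm]
    exact h3
  have h3 := lsr_pairs D Y hY
  have h4 : Real.log D * ∑ q ∈ Icc 1 D, Y q ≤
      ∑ q ∈ Icc 1 D, ∑ r ∈ (Icc 1 D).filter (fun r => Nat.Coprime r q ∧ Squarefree r),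
        ((q : ℝ) / (Nat.totient (q * r) : ℝ)) * Y q := by
    rw [mul_sum]
    refine sum_le_sum fun q hq => ?_
    rw [mem_Icc] at hq
    have hφ : (0:ℝ) < Nat.totient q := by exact_mod_cast Nat.totient_pos.mpr hq.1
    have hq0 : (0:ℝ) < q := by exact_mod_cast hq.1
    have h5 := sum_mu_phi (q := q) (z := D) hq.1 (by omega)
    have h6 : ∑ r ∈ (Icc 1 D).filter (fun r => Nat.Coprime r q ∧ Squarefree r),
        ((q : ℝ) / (Nat.totient (q * r) : ℝ)) * Y q =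
        ((q : ℝ) / Nat.totient q * Y q) *
          ∑ r ∈ (Icc 1 D).filter (fun r => Nat.Coprime r q ∧ Squarefree r),
            1 / (Nat.totient r : ℝ) := by
      rw [mul_sum]
      refine sum_congr rfl fun r hr => ?_
      rw [mem_filter] at hr
      rw [Nat.totient_mul hr.2.1.symm]
      push_cast
      have hr1 := (mem_Icc.mp hr.1).1
      have hφr : (0:ℝ) < Nat.totient r := by exact_mod_cast Nat.totient_pos.mpr hr1
      field_simp
    rw [h6]
    calc Real.log D * Y q = ((q : ℝ) / Nat.totient q * Y q) * ((Nat.totient q : ℝ) / q * Real.log D) := by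
          field_simp
      _ ≤ _ := by
          refine mul_le_mul_of_nonneg_left h5 ?_
          have := hY q
          positivity
  refine h4.trans (h3.trans (h2.trans (h1.trans (le_of_eq ?_))))
  push_cast
  ring

end Pool.Agent.GAT
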