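import Pool.Agent.Lib_helper98.GAF.T0
import Pool.Agent.Lib_helper98.GAF.LSR
import Pool.Agent.Lib_helper98.GAF.GPL

/-!
# GA, block LSH: the hybrid large sieve
-/

set_option autoImplicit false

namespace Pool.Agent.GAT

open Pool.Agent.GA

open Finset Complex Metric
open Pool.Agent.Var35 (e)
open Pool.Agent.Var73 (Cd)
open scoped ArithmeticFunction.vonMangoldt ArithmeticFunction.Moebius Classical

theorem lsh_block : ∃ C : ℝ, 1 ≤ C ∧ ∀ D : ℕ, 2 ≤ D → ∀ T : ℝ, 1 ≤ T → ∀ B : Finset ℕ,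
    B.Nonempty → (∀ n ∈ B, 1 ≤ n ∧ ∀ p, p.Prime → p ∣ n → D < p) →
    (∀ n ∈ B, ∀ m ∈ B, Real.log n - Real.log m ≤ 1 / T) → ∀ c : ℕ → ℂ,
    Real.log D * ∑ q ∈ Icc 1 D, ∑ χ ∈ Prp q, ‖∑ n ∈ B, c n * χ (n : ZMod q)‖ ^ 2 ≤
      C * ∑ n ∈ B, (2 * n / T + 1 + (D : ℝ) ^ 4) * ‖c n‖ ^ 2 := by
  obtain ⟨C, hC, hls⟩ := large_sieve_rough
  refine ⟨C, hC, ?_⟩
  intro D hD T hT B hB hrough hlog c
  have hT0 : 0 < T := by linarith
  have hmin := B.min'_mem hB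
  have hmax := B.max'_mem hB
  obtain ⟨m, hm⟩ : ∃ m : ℕ, m = B.min' hB := ⟨_, rfl⟩
  obtain ⟨M, hM⟩ : ∃ M : ℕ, M = B.max' hB := ⟨_, rfl⟩
  rw [← hm] at hmin
  rw [← hM] at hmax
  have hm1 : 1 ≤ m := (hrough m hmin).1
  have hmM : m ≤ M := by rw [hm, hM]; exact B.min'_le _ (B.max'_mem hB)
  have hmr : (0 : ℝ) < m := by exact_mod_cast hm1
  have hMr : (0 : ℝ) < M := by exact_mod_cast (lt_of_lt_of_le hm1 hmM)
  have hsub : B ⊆ Ioc (m - 1) (m - 1 + (M - m + 1)) := by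
    intro n hn
    rw [mem_Ioc]
    have h1 : m ≤ n := by rw [hm]; exact B.min'_le n hn
    have h2 : n ≤ M := by rw [hM]; exact B.le_max' n hn
    omega
  have h := hls D hD (m - 1) (M - m + 1) (fun n => if n ∈ B then c n else 0) (by
    intro n hn p hp hpn
    have hnB : n ∈ B := by
      by_contra hcon
      exact hn (if_neg hcon)
    exact (hrough n hnB).2 p hp hpn)
  have hsum : ∀ (q : ℕ) (χ : DirichletCharacter ℂ q),
      ∑ n ∈ Ioc (m - 1) (m - 1 + (M - m + 1)), (if n ∈ B then c n else 0) * χ (n : ZMod q) =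
        ∑ n ∈ B, c n * χ (n : ZMod q) := by
    intro q χ
    rw [← Finset.sum_subset hsub]
    · apply Finset.sum_congr rfl
      intro n hn
      rw [if_pos hn]
    · intro n _ hn
      rw [if_neg hn, zero_mul]
  have hsum2 : ∑ n ∈ Ioc (m - 1) (m - 1 + (M - m + 1)), ‖(if n ∈ B then c n else 0)‖ ^ 2 =
      ∑ n ∈ B, ‖c n‖ ^ 2 := by
    rw [← Finset.sum_subset hsub]
    · apply Finset.sum_congr rfl
      intro n hn
      rw [if_pos hn]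
    · intro n _ hn
      rw [if_neg hn, norm_zero]
      norm_num
  simp only [hsum, hsum2] at h
  refine h.trans ?_
  rw [mul_assoc]
  apply mul_le_mul_of_nonneg_left _ (by linarith)
  rw [Finset.mul_sum]
  apply Finset.sum_le_sum
  intro n hn
  apply mul_le_mul_of_nonneg_right _ (by positivity)
  have hmn : m ≤ n := by rw [hm]; exact B.min'_le n hn
  have hmn' : (m : ℝ) ≤ n := by exact_mod_cast hmn
  have hH : (((M - m + 1 : ℕ)) : ℝ) = M - m + 1 := by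
    rw [Nat.cast_add, Nat.cast_sub hmM]
    norm_num
  rw [hH]
  have h1 := hlog M hmax m hmin
  have h2 : (M : ℝ) ≤ m * Real.exp (1 / T) := by
    have h3 : Real.log (M / m) ≤ 1 / T := by rwa [Real.log_div hMr.ne' hmr.ne']
    have h4 := Real.exp_le_exp.2 h3
    rw [Real.exp_log (by positivity), div_le_iff₀ hmr] at h4
    linarith
  have h5 : Real.exp (1 / T) ≤ 1 + 2 / T := by
    have h6 : |1 / T| ≤ 1 := by
      rw [abs_of_pos (by positivity), div_le_one hT0]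
      exact hT
    have h7 := Real.abs_exp_sub_one_sub_id_le h6
    have h8 := (abs_le.1 h7).2
    have h9 : (1 / T) ^ 2 ≤ 1 / T := by
      have : 1 / T ≤ 1 := by rw [div_le_one hT0]; exact hT
      have h0 : 0 ≤ 1 / T := by positivity
      nlinarith
    have h10 : 2 / T = 1 / T + 1 / T := by ring
    linarith
  have h11 : (M : ℝ) ≤ m * (1 + 2 / T) := h2.trans (mul_le_mul_of_nonneg_left h5 hmr.le)
  have h12 : (m : ℝ) * (2 / T) ≤ n * (2 / T) := mul_le_mul_of_nonneg_right hmn' (by positivity)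
  have h13 : 2 * (n : ℝ) / T = n * (2 / T) := by ring
  rw [h13]
  linarith

theorem lsh_summable : Summable (fun k : ℤ => 1 / (1 + (k : ℝ) ^ 2)) := by
  have h1 : Summable (fun k : ℤ => 1 / (k : ℝ) ^ 2) :=
    Real.summable_one_div_int_pow.2 (by norm_num)
  apply Summable.of_norm_bounded_eventually h1
  filter_upwards [(Set.finite_singleton (0 : ℤ)).compl_mem_cofinite] with k hk
  have hk0 : (k : ℝ) ≠ 0 := by exact_mod_cast hk
  rw [Real.norm_of_nonneg (by positivity)]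
  apply one_div_le_one_div_of_le (by positivity)
  linarith

theorem lsh_gauss (u : ℝ) (k : ℤ) (hk1 : (k : ℝ) ≤ -u) (hk2 : -u < k + 1) :
    Real.exp (-(u ^ 2 / 2)) ^ 2 * (1 + (k : ℝ) ^ 2) ≤ 5 * Real.exp (-(u ^ 2 / 2)) := by
  have h1 : |(k : ℝ)| ≤ |u| + 1 := by
    rw [abs_le]
    have h2 := neg_abs_le u
    have h3 := le_abs_self u
    constructor <;> linarith
  have h4 : (k : ℝ) ^ 2 ≤ (|u| + 1) ^ 2 := by
    rw [← sq_abs (k : ℝ)]
    exact pow_le_pow_left₀ (abs_nonneg _) h1 2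
  have h5 : 1 + (k : ℝ) ^ 2 ≤ 3 + 2 * u ^ 2 := by
    have h6 : |u| ^ 2 = u ^ 2 := sq_abs u
    nlinarith [sq_nonneg (|u| - 1)]
  have h7 : 3 + 2 * u ^ 2 ≤ 5 * Real.exp (u ^ 2 / 2) := by
    have := Real.add_one_le_exp (u ^ 2 / 2)
    nlinarith [sq_nonneg u]
  have h8 : Real.exp (-(u ^ 2 / 2)) * Real.exp (u ^ 2 / 2) = 1 := by
    rw [← Real.exp_add]; simp
  have h9 := Real.exp_pos (-(u ^ 2 / 2))
  calc Real.exp (-(u ^ 2 / 2)) ^ 2 * (1 + (k : ℝ) ^ 2)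
      ≤ Real.exp (-(u ^ 2 / 2)) ^ 2 * (5 * Real.exp (u ^ 2 / 2)) := by
        apply mul_le_mul_of_nonneg_left (h5.trans h7) (by positivity)
    _ = 5 * Real.exp (-(u ^ 2 / 2)) * (Real.exp (-(u ^ 2 / 2)) * Real.exp (u ^ 2 / 2)) := by ring
    _ = _ := by rw [h8, mul_one]

/-- the inequality for one `x` -/
theorem lsh_point : ∃ C : ℝ, 1 ≤ C ∧ ∀ D : ℕ, 2 ≤ D → ∀ T : ℝ, 1 ≤ T →
    ∀ s : Finset ℕ, (∀ n ∈ s, 1 ≤ n ∧ ∀ p, p.Prime → p ∣ n → D < p) → ∀ (a : ℕ → ℂ) (x : ℝ),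
    Real.log D * ∑ q ∈ Icc 1 D, ∑ χ ∈ Prp q, ‖∑ n ∈ s, a n * χ (n : ZMod q) *
        ((Real.exp (-(T ^ 2 * (x - Real.log n) ^ 2 / 2)) : ℝ) : ℂ)‖ ^ 2 ≤
      C * ∑ n ∈ s, (2 * n / T + 1 + (D : ℝ) ^ 4) * ‖a n‖ ^ 2 *
        Real.exp (-(T ^ 2 * (x - Real.log n) ^ 2 / 2)) := by
  obtain ⟨C, hC, hblock⟩ := lsh_block
  obtain ⟨L, hL⟩ : ∃ L : ℝ, L = ∑' k : ℤ, 1 / (1 + (k : ℝ) ^ 2) := ⟨_, rfl⟩
  have hL1 : 1 ≤ L := by
    rw [hL]
    have := lsh_summable.le_tsum (0 : ℤ) (fun j _ => by positivity)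
    simpa using this
  refine ⟨L * C * 5, by nlinarith, ?_⟩
  intro D hD T hT s hs a x
  have hT0 : 0 < T := by linarith
  have hlogD : 0 ≤ Real.log D := Real.log_nonneg (by exact_mod_cast (by omega : 1 ≤ D))
  obtain ⟨w, hw⟩ : ∃ w : ℕ → ℝ, w = fun (n : ℕ) => Real.exp (-(T ^ 2 * (x - Real.log n) ^ 2 / 2)) :=
    ⟨_, rfl⟩
  obtain ⟨κ, hκ⟩ : ∃ κ : ℕ → ℤ, κ = fun (n : ℕ) => ⌊T * (Real.log n - x)⌋ := ⟨_, rfl⟩
  obtain ⟨K, hK⟩ : ∃ K : Finset ℤ, K = s.image κ := ⟨_, rfl⟩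
  obtain ⟨G, hG⟩ : ∃ G : ℤ → (q : ℕ) → DirichletCharacter ℂ q → ℂ, G = fun k q χ =>
    ∑ n ∈ s.filter (fun n => κ n = k), (a n * ((w n : ℝ) : ℂ)) * χ (n : ZMod q) := ⟨_, rfl⟩
  have hdec : ∀ (q : ℕ) (χ : DirichletCharacter ℂ q), ∑ n ∈ s, a n * χ (n : ZMod q) *
      ((Real.exp (-(T ^ 2 * (x - Real.log n) ^ 2 / 2)) : ℝ) : ℂ) = ∑ k ∈ K, G k q χ := by
    intro q χ
    rw [hG, hK]
    simp only
    rw [← Finset.sum_fiberwise_of_maps_to (g := κ) (t := s.image κ)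
      (fun n hn => Finset.mem_image_of_mem κ hn)]
    apply Finset.sum_congr rfl
    intro k _
    apply Finset.sum_congr rfl
    intro n _
    rw [hw]
    simp only
    ring
  have hCS : ∀ (q : ℕ) (χ : DirichletCharacter ℂ q), ‖∑ k ∈ K, G k q χ‖ ^ 2 ≤
      L * ∑ k ∈ K, (1 + (k : ℝ) ^ 2) * ‖G k q χ‖ ^ 2 := by
    intro q χ
    by_cases hne : K.Nonempty
    · have h1 := Finset.sq_sum_div_le_sum_sq_div K (fun k => ‖G k q χ‖)
        (g := fun k : ℤ => 1 / (1 + (k : ℝ) ^ 2)) (fun k _ => by positivity)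
      have h2 : 0 < ∑ k ∈ K, 1 / (1 + (k : ℝ) ^ 2) :=
        Finset.sum_pos (fun k _ => by positivity) hne
      have h3 : ∑ k ∈ K, 1 / (1 + (k : ℝ) ^ 2) ≤ L := by
        rw [hL]
        exact lsh_summable.sum_le_tsum K (fun k _ => by positivity)
      rw [div_le_iff₀ h2] at h1
      have h4 : ∑ k ∈ K, ‖G k q χ‖ ^ 2 / (1 / (1 + (k : ℝ) ^ 2)) =
          ∑ k ∈ K, (1 + (k : ℝ) ^ 2) * ‖G k q χ‖ ^ 2 := by
        apply Finset.sum_congr rfl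
        intro k _
        rw [div_div_eq_mul_div, div_one]
        ring
      rw [h4] at h1
      have h5 : 0 ≤ ∑ k ∈ K, (1 + (k : ℝ) ^ 2) * ‖G k q χ‖ ^ 2 :=
        Finset.sum_nonneg (fun k _ => by positivity)
      calc ‖∑ k ∈ K, G k q χ‖ ^ 2 ≤ (∑ k ∈ K, ‖G k q χ‖) ^ 2 :=
            pow_le_pow_left₀ (norm_nonneg _) (norm_sum_le _ _) 2
        _ ≤ (∑ k ∈ K, (1 + (k : ℝ) ^ 2) * ‖G k q χ‖ ^ 2) * ∑ k ∈ K, 1 / (1 + (k : ℝ) ^ 2) := h1
        _ ≤ (∑ k ∈ K, (1 + (k : ℝ) ^ 2) * ‖G k q χ‖ ^ 2) * L :=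
            mul_le_mul_of_nonneg_left h3 h5
        _ = _ := by ring
    · rw [Finset.not_nonempty_iff_eq_empty] at hne
      rw [hne]
      simp
  have hstep : ∑ q ∈ Icc 1 D, ∑ χ ∈ Prp q, ‖∑ n ∈ s, a n * χ (n : ZMod q) *
        ((Real.exp (-(T ^ 2 * (x - Real.log n) ^ 2 / 2)) : ℝ) : ℂ)‖ ^ 2 ≤
      L * ∑ k ∈ K, (1 + (k : ℝ) ^ 2) * ∑ q ∈ Icc 1 D, ∑ χ ∈ Prp q, ‖G k q χ‖ ^ 2 := by
    have h1 : ∑ q ∈ Icc 1 D, ∑ χ ∈ Prp q, ‖∑ n ∈ s, a n * χ (n : ZMod q) *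
        ((Real.exp (-(T ^ 2 * (x - Real.log n) ^ 2 / 2)) : ℝ) : ℂ)‖ ^ 2 ≤
        ∑ q ∈ Icc 1 D, ∑ χ ∈ Prp q, L * ∑ k ∈ K, (1 + (k : ℝ) ^ 2) * ‖G k q χ‖ ^ 2 := by
      apply Finset.sum_le_sum
      intro q _
      apply Finset.sum_le_sum
      intro χ _
      rw [hdec q χ]
      exact hCS q χ
    refine h1.trans (le_of_eq ?_)
    have h2 : ∀ q ∈ Icc 1 D, ∑ χ ∈ Prp q, L * ∑ k ∈ K, (1 + (k : ℝ) ^ 2) * ‖G k q χ‖ ^ 2 =
        L * ∑ k ∈ K, (1 + (k : ℝ) ^ 2) * ∑ χ ∈ Prp q, ‖G k q χ‖ ^ 2 := by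
      intro q _
      rw [← Finset.mul_sum, Finset.sum_comm]
      congr 1
      apply Finset.sum_congr rfl
      intro k _
      rw [Finset.mul_sum]
    rw [Finset.sum_congr rfl h2, ← Finset.mul_sum, Finset.sum_comm]
    congr 1
    apply Finset.sum_congr rfl
    intro k _
    rw [Finset.mul_sum]
  have hk : ∀ k ∈ K, Real.log D * ∑ q ∈ Icc 1 D, ∑ χ ∈ Prp q, ‖G k q χ‖ ^ 2 ≤
      C * ∑ n ∈ s.filter (fun n => κ n = k), (2 * n / T + 1 + (D : ℝ) ^ 4) *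
        ‖a n * ((w n : ℝ) : ℂ)‖ ^ 2 := by
    intro k hk
    rw [hK, Finset.mem_image] at hk
    obtain ⟨n₀, hn₀, hn₀k⟩ := hk
    rw [hG]
    apply hblock D hD T hT
    · exact ⟨n₀, Finset.mem_filter.2 ⟨hn₀, hn₀k⟩⟩
    · intro n hn
      exact hs n (Finset.mem_filter.1 hn).1
    · intro n hn m hm
      have e1 := (Finset.mem_filter.1 hn).2
      have e2 := (Finset.mem_filter.1 hm).2
      rw [hκ] at e1 e2
      simp only at e1 e2
      have h1 := Int.lt_floor_add_one (T * (Real.log n - x))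
      have h2 := Int.floor_le (T * (Real.log m - x))
      rw [e1] at h1
      rw [e2] at h2
      rw [le_div_iff₀ hT0]
      nlinarith
  have hkey : Real.log D * ∑ k ∈ K, (1 + (k : ℝ) ^ 2) * ∑ q ∈ Icc 1 D, ∑ χ ∈ Prp q,
      ‖G k q χ‖ ^ 2 ≤ C * 5 * ∑ n ∈ s, (2 * n / T + 1 + (D : ℝ) ^ 4) * ‖a n‖ ^ 2 * w n := by
    have h1 : Real.log D * ∑ k ∈ K, (1 + (k : ℝ) ^ 2) * ∑ q ∈ Icc 1 D, ∑ χ ∈ Prp q,
        ‖G k q χ‖ ^ 2 ≤ ∑ k ∈ K, (1 + (k : ℝ) ^ 2) * (C * ∑ n ∈ s.filter (fun n => κ n = k),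
          (2 * n / T + 1 + (D : ℝ) ^ 4) * ‖a n * ((w n : ℝ) : ℂ)‖ ^ 2) := by
      rw [Finset.mul_sum]
      apply Finset.sum_le_sum
      intro k hkK
      have := mul_le_mul_of_nonneg_left (hk k hkK) (by positivity : 0 ≤ 1 + (k : ℝ) ^ 2)
      calc _ = (1 + (k : ℝ) ^ 2) * (Real.log D * ∑ q ∈ Icc 1 D, ∑ χ ∈ Prp q, ‖G k q χ‖ ^ 2) := by
            ring
        _ ≤ _ := this
    refine h1.trans ?_
    have h2 : ∀ k ∈ K, (1 + (k : ℝ) ^ 2) * (C * ∑ n ∈ s.filter (fun n => κ n = k),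
        (2 * n / T + 1 + (D : ℝ) ^ 4) * ‖a n * ((w n : ℝ) : ℂ)‖ ^ 2) ≤
        ∑ n ∈ s.filter (fun n => κ n = k), C * 5 * ((2 * n / T + 1 + (D : ℝ) ^ 4) *
          ‖a n‖ ^ 2 * w n) := by
      intro k _
      rw [Finset.mul_sum, Finset.mul_sum]
      apply Finset.sum_le_sum
      intro n hn
      have e1 := (Finset.mem_filter.1 hn).2
      rw [hκ] at e1
      simp only at e1
      have h3 := Int.lt_floor_add_one (T * (Real.log n - x))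
      have h4 := Int.floor_le (T * (Real.log n - x))
      rw [e1] at h3 h4
      have h5 := lsh_gauss (T * (x - Real.log n)) k (by linarith) (by linarith)
      have h6 : w n = Real.exp (-((T * (x - Real.log n)) ^ 2 / 2)) := by
        rw [hw]; simp only; congr 2; ring
      rw [← h6] at h5
      have hw0 : 0 ≤ w n := by rw [h6]; exact (Real.exp_pos _).le
      rw [norm_mul, Complex.norm_real, Real.norm_of_nonneg hw0, mul_pow]
      have h7 : 0 ≤ C * ((2 * n / T + 1 + (D : ℝ) ^ 4) * ‖a n‖ ^ 2) := by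
        have : 0 ≤ C := by linarith
        positivity
      have h8 := mul_le_mul_of_nonneg_left h5 h7
      calc _ = C * ((2 * n / T + 1 + (D : ℝ) ^ 4) * ‖a n‖ ^ 2) * (w n ^ 2 * (1 + (k : ℝ) ^ 2)) := by
            ring
        _ ≤ _ := h8
        _ = _ := by ring
    refine (Finset.sum_le_sum h2).trans (le_of_eq ?_)
    rw [hK, Finset.sum_fiberwise_of_maps_to (g := κ) (t := s.image κ)
      (fun n hn => Finset.mem_image_of_mem κ hn), ← Finset.mul_sum]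
  have hfin := mul_le_mul_of_nonneg_left hstep hlogD
  refine hfin.trans ?_
  have h9 := mul_le_mul_of_nonneg_left hkey (by linarith : 0 ≤ L)
  calc Real.log D * (L * ∑ k ∈ K, (1 + (k : ℝ) ^ 2) * ∑ q ∈ Icc 1 D, ∑ χ ∈ Prp q,
        ‖G k q χ‖ ^ 2) = L * (Real.log D * ∑ k ∈ K, (1 + (k : ℝ) ^ 2) *
          ∑ q ∈ Icc 1 D, ∑ χ ∈ Prp q, ‖G k q χ‖ ^ 2) := by ring
    _ ≤ L * (C * 5 * ∑ n ∈ s, (2 * n / T + 1 + (D : ℝ) ^ 4) * ‖a n‖ ^ 2 * w n) := h9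
    _ = _ := by rw [hw]; ring

theorem lsh_int_gauss {T : ℝ} (hT : 0 < T) (y : ℝ) :
    MeasureTheory.Integrable (fun x : ℝ => Real.exp (-(T ^ 2 * (x - y) ^ 2 / 2))) ∧
      ∫ x : ℝ, Real.exp (-(T ^ 2 * (x - y) ^ 2 / 2)) = Real.sqrt (2 * Real.pi) / T := by
  have hb : 0 < T ^ 2 / 2 := by positivity
  have h1 := integrable_exp_neg_mul_sq hb
  have h2 := integral_gaussian (T ^ 2 / 2)
  have e : ∀ x : ℝ, Real.exp (-(T ^ 2 * (x - y) ^ 2 / 2)) =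
      (fun u : ℝ => Real.exp (-(T ^ 2 / 2) * u ^ 2)) (x - y) := by
    intro x
    simp only
    congr 1
    ring
  simp only [e]
  constructor
  · exact h1.comp_sub_right y
  · rw [MeasureTheory.integral_sub_right_eq_self
      (fun u : ℝ => Real.exp (-(T ^ 2 / 2) * u ^ 2)) y, h2]
    have h3 : Real.pi / (T ^ 2 / 2) = (2 * Real.pi) / T ^ 2 := by field_simp
    rw [h3, Real.sqrt_div (by positivity), Real.sqrt_sq hT.le]

/-- truncation of the Gaussian -/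
theorem lsh_trunc (s : Finset ℕ) (hs : ∀ n ∈ s, 1 ≤ n) (b : ℕ → ℂ) {T : ℝ} (hT : 0 < T) :
    ∫ t in (-T)..T, ‖∑ n ∈ s, b n * (n : ℂ) ^ (-(t * I) : ℂ)‖ ^ 2 ≤
      Real.exp 1 * ∫ t : ℝ, ‖∑ n ∈ s, b n * (n : ℂ) ^ (-(t * I) : ℂ)‖ ^ 2 *
        Real.exp (-(t ^ 2 / T ^ 2)) := by
  have hcont : Continuous (fun t : ℝ => ‖∑ n ∈ s, b n * (n : ℂ) ^ (-(t * I) : ℂ)‖ ^ 2) := by
    apply Continuous.pow
    apply Continuous.norm
    apply continuous_finset_sum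
    intro n hn
    apply continuous_const.mul
    have hn0 : (n : ℂ) ≠ 0 := by
      have := hs n hn
      exact_mod_cast (by omega : n ≠ 0)
    apply Continuous.const_cpow (by fun_prop)
    exact Or.inl hn0
  have hbd : ∀ t : ℝ, ‖∑ n ∈ s, b n * (n : ℂ) ^ (-(t * I) : ℂ)‖ ^ 2 ≤ (∑ n ∈ s, ‖b n‖) ^ 2 := by
    intro t
    apply pow_le_pow_left₀ (norm_nonneg _)
    refine (norm_sum_le _ _).trans (Finset.sum_le_sum fun n hn => ?_)
    rw [norm_mul, Complex.norm_natCast_cpow_of_pos (by have := hs n hn; omega)]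
    simp
  have hgi : MeasureTheory.Integrable (fun t : ℝ => Real.exp (-(t ^ 2 / T ^ 2))) := by
    have h1 := integrable_exp_neg_mul_sq (b := 1 / T ^ 2) (by positivity)
    refine h1.congr (Filter.Eventually.of_forall fun t => ?_)
    simp only
    congr 1
    ring
  have hint : MeasureTheory.Integrable (fun t : ℝ =>
      ‖∑ n ∈ s, b n * (n : ℂ) ^ (-(t * I) : ℂ)‖ ^ 2 * Real.exp (-(t ^ 2 / T ^ 2))) := by
    apply MeasureTheory.Integrable.mono' (hgi.const_mul ((∑ n ∈ s, ‖b n‖) ^ 2))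
    · exact (hcont.mul (by fun_prop)).aestronglyMeasurable
    · refine Filter.Eventually.of_forall fun t => ?_
      rw [Real.norm_of_nonneg (by positivity)]
      exact mul_le_mul_of_nonneg_right (hbd t) (Real.exp_pos _).le
  rw [intervalIntegral.integral_of_le (by linarith)]
  have h1 : ∫ t in Set.Ioc (-T) T, ‖∑ n ∈ s, b n * (n : ℂ) ^ (-(t * I) : ℂ)‖ ^ 2 ≤
      ∫ t in Set.Ioc (-T) T, Real.exp 1 * (‖∑ n ∈ s, b n * (n : ℂ) ^ (-(t * I) : ℂ)‖ ^ 2 *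
        Real.exp (-(t ^ 2 / T ^ 2))) := by
    apply MeasureTheory.setIntegral_mono_on
    · exact (hcont.integrableOn_Icc (a := -T) (b := T)).mono_set Set.Ioc_subset_Icc_self
    · exact (hint.const_mul (Real.exp 1)).integrableOn
    · exact measurableSet_Ioc
    · intro t ht
      have h2 : 1 ≤ Real.exp 1 * Real.exp (-(t ^ 2 / T ^ 2)) := by
        rw [← Real.exp_add]
        apply Real.one_le_exp
        have h3 : t ^ 2 ≤ T ^ 2 := by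
          have := abs_le.2 ⟨ht.1.le, ht.2⟩
          rw [← sq_abs]
          exact pow_le_pow_left₀ (abs_nonneg _) this 2
        have h4 : t ^ 2 / T ^ 2 ≤ 1 := by rw [div_le_one (by positivity)]; exact h3
        linarith
      have h5 : 0 ≤ ‖∑ n ∈ s, b n * (n : ℂ) ^ (-(t * I) : ℂ)‖ ^ 2 := by positivity
      nlinarith
  refine h1.trans ?_
  rw [MeasureTheory.integral_const_mul]
  apply mul_le_mul_of_nonneg_left _ (Real.exp_pos 1).le
  apply MeasureTheory.setIntegral_le_integral hint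
  exact Filter.Eventually.of_forall fun t => by positivity

theorem large_sieve_hybrid : ∃ C : ℝ, 1 ≤ C ∧ ∀ D : ℕ, 2 ≤ D → ∀ T : ℝ, 1 ≤ T →
    ∀ s : Finset ℕ, (∀ n ∈ s, 1 ≤ n ∧ ∀ p, p.Prime → p ∣ n → D < p) → ∀ a : ℕ → ℂ,
    Real.log D * ∑ q ∈ Icc 1 D, ∑ χ ∈ Prp q,
        ∫ t in (-T)..T, ‖∑ n ∈ s, a n * χ (n : ZMod q) * (n : ℂ) ^ (-(t * I) : ℂ)‖ ^ 2 ≤
      C * ∑ n ∈ s, (n + (D : ℝ) ^ 4 * T) * ‖a n‖ ^ 2 := by
  obtain ⟨C, hC, hpt⟩ := lsh_point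
  have hpi : 1 ≤ Real.sqrt (2 * Real.pi) := by
    rw [Real.one_le_sqrt]
    linarith [Real.pi_gt_three]
  have he1 : 1 ≤ Real.exp 1 := Real.one_le_exp (by norm_num)
  refine ⟨Real.exp 1 * C * Real.sqrt (2 * Real.pi) * 2, ?_, ?_⟩
  · have h1 : 1 ≤ Real.exp 1 * C := by nlinarith
    have h2 : 1 ≤ Real.exp 1 * C * Real.sqrt (2 * Real.pi) := by nlinarith
    linarith
  intro D hD T hT s hs a
  have hT0 : 0 < T := by linarith
  have hlogD : 0 ≤ Real.log D := Real.log_nonneg (by exact_mod_cast (by omega : 1 ≤ D))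
  have hs1 : ∀ n ∈ s, 1 ≤ n := fun n hn => (hs n hn).1
  have hA : ∀ q ∈ Icc 1 D, ∀ χ ∈ Prp q,
      ∫ t in (-T)..T, ‖∑ n ∈ s, a n * χ (n : ZMod q) * (n : ℂ) ^ (-(t * I) : ℂ)‖ ^ 2 ≤
      (Real.exp 1 * T ^ 2) * ∫ x : ℝ, ‖∑ n ∈ s, a n * χ (n : ZMod q) *
        ((Real.exp (-(T ^ 2 * (x - Real.log n) ^ 2 / 2)) : ℝ) : ℂ)‖ ^ 2 := by
    intro q _ χ _
    have h1 := lsh_trunc s hs1 (fun n => a n * χ (n : ZMod q)) hT0
    have h2 := gauss_plancherel s hs1 (fun n => a n * χ (n : ZMod q)) hT0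
    rw [h2] at h1
    refine h1.trans (le_of_eq ?_)
    ring
  have hB : ∑ q ∈ Icc 1 D, ∑ χ ∈ Prp q,
        ∫ t in (-T)..T, ‖∑ n ∈ s, a n * χ (n : ZMod q) * (n : ℂ) ^ (-(t * I) : ℂ)‖ ^ 2 ≤
      (Real.exp 1 * T ^ 2) * ∫ x : ℝ, ∑ q ∈ Icc 1 D, ∑ χ ∈ Prp q, ‖∑ n ∈ s, a n *
        χ (n : ZMod q) * ((Real.exp (-(T ^ 2 * (x - Real.log n) ^ 2 / 2)) : ℝ) : ℂ)‖ ^ 2 := by
    rw [MeasureTheory.integral_finset_sum, Finset.mul_sum]
    · apply Finset.sum_le_sum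
      intro q hq
      rw [MeasureTheory.integral_finset_sum, Finset.mul_sum]
      · apply Finset.sum_le_sum
        intro χ hχ
        exact hA q hq χ hχ
      · intro χ _
        exact gauss_integrable s (fun n => a n * χ (n : ZMod q)) hT0
    · intro q _
      apply MeasureTheory.integrable_finset_sum
      intro χ _
      exact gauss_integrable s (fun n => a n * χ (n : ZMod q)) hT0
  have hint1 : MeasureTheory.Integrable (fun x : ℝ => Real.log D * ∑ q ∈ Icc 1 D, ∑ χ ∈ Prp q,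
      ‖∑ n ∈ s, a n * χ (n : ZMod q) *
        ((Real.exp (-(T ^ 2 * (x - Real.log n) ^ 2 / 2)) : ℝ) : ℂ)‖ ^ 2) := by
    apply MeasureTheory.Integrable.const_mul
    apply MeasureTheory.integrable_finset_sum
    intro q _
    apply MeasureTheory.integrable_finset_sum
    intro χ _
    exact gauss_integrable s (fun n => a n * χ (n : ZMod q)) hT0
  have hint2 : MeasureTheory.Integrable (fun x : ℝ => C * ∑ n ∈ s,
      (2 * n / T + 1 + (D : ℝ) ^ 4) * ‖a n‖ ^ 2 *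
        Real.exp (-(T ^ 2 * (x - Real.log n) ^ 2 / 2))) := by
    apply MeasureTheory.Integrable.const_mul
    apply MeasureTheory.integrable_finset_sum
    intro n _
    exact (lsh_int_gauss hT0 (Real.log n)).1.const_mul _
  have hCle := MeasureTheory.integral_mono hint1 hint2 (fun x => hpt D hD T hT s hs a x)
  rw [MeasureTheory.integral_const_mul, MeasureTheory.integral_const_mul,
    MeasureTheory.integral_finset_sum (s := s)
      (f := fun n (x : ℝ) => (2 * n / T + 1 + (D : ℝ) ^ 4) * ‖a n‖ ^ 2 *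
        Real.exp (-(T ^ 2 * (x - Real.log n) ^ 2 / 2)))
      (fun n _ => (lsh_int_gauss hT0 (Real.log n)).1.const_mul _)] at hCle
  have hval : ∑ n ∈ s, ∫ x : ℝ, (2 * n / T + 1 + (D : ℝ) ^ 4) * ‖a n‖ ^ 2 *
        Real.exp (-(T ^ 2 * (x - Real.log n) ^ 2 / 2)) =
      ∑ n ∈ s, (2 * n / T + 1 + (D : ℝ) ^ 4) * ‖a n‖ ^ 2 * (Real.sqrt (2 * Real.pi) / T) := by
    apply Finset.sum_congr rfl
    intro n _
    rw [MeasureTheory.integral_const_mul, (lsh_int_gauss hT0 (Real.log n)).2]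
  rw [hval] at hCle
  calc Real.log D * ∑ q ∈ Icc 1 D, ∑ χ ∈ Prp q,
        ∫ t in (-T)..T, ‖∑ n ∈ s, a n * χ (n : ZMod q) * (n : ℂ) ^ (-(t * I) : ℂ)‖ ^ 2
      ≤ Real.log D * ((Real.exp 1 * T ^ 2) * ∫ x : ℝ, ∑ q ∈ Icc 1 D, ∑ χ ∈ Prp q, ‖∑ n ∈ s, a n *
        χ (n : ZMod q) * ((Real.exp (-(T ^ 2 * (x - Real.log n) ^ 2 / 2)) : ℝ) : ℂ)‖ ^ 2) :=
        mul_le_mul_of_nonneg_left hB hlogD
    _ = (Real.exp 1 * T ^ 2) * (Real.log D * ∫ x : ℝ, ∑ q ∈ Icc 1 D, ∑ χ ∈ Prp q, ‖∑ n ∈ s, a n *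
        χ (n : ZMod q) * ((Real.exp (-(T ^ 2 * (x - Real.log n) ^ 2 / 2)) : ℝ) : ℂ)‖ ^ 2) := by
        ring
    _ ≤ (Real.exp 1 * T ^ 2) * (C * ∑ n ∈ s, (2 * n / T + 1 + (D : ℝ) ^ 4) * ‖a n‖ ^ 2 *
        (Real.sqrt (2 * Real.pi) / T)) := mul_le_mul_of_nonneg_left hCle (by positivity)
    _ = Real.exp 1 * C * Real.sqrt (2 * Real.pi) * ∑ n ∈ s, (2 * n + T + (D : ℝ) ^ 4 * T) *
        ‖a n‖ ^ 2 := by
        rw [Finset.mul_sum, Finset.mul_sum, Finset.mul_sum]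
        apply Finset.sum_congr rfl
        intro n _
        field_simp
    _ ≤ Real.exp 1 * C * Real.sqrt (2 * Real.pi) * ∑ n ∈ s, 2 * ((n + (D : ℝ) ^ 4 * T) *
        ‖a n‖ ^ 2) := by
        apply mul_le_mul_of_nonneg_left _ (by positivity)
        apply Finset.sum_le_sum
        intro n _
        have hD4 : (1 : ℝ) ≤ (D : ℝ) ^ 4 := by
          have : (1 : ℝ) ≤ D := by exact_mod_cast (by omega : 1 ≤ D)
          exact one_le_pow₀ this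
        have h0 : 0 ≤ ‖a n‖ ^ 2 := by positivity
        have h1 : 2 * (n : ℝ) + T + (D : ℝ) ^ 4 * T ≤ 2 * (n + (D : ℝ) ^ 4 * T) := by nlinarith
        calc (2 * (n : ℝ) + T + (D : ℝ) ^ 4 * T) * ‖a n‖ ^ 2
            ≤ (2 * (n + (D : ℝ) ^ 4 * T)) * ‖a n‖ ^ 2 := mul_le_mul_of_nonneg_right h1 h0
          _ = _ := by ring
    _ = _ := by rw [← Finset.mul_sum]; ring

end Pool.Agent.GAT
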