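import Pool.Agent.Lib_helper98.GAF.Abs

/-! # Local data for zeta -/

set_option autoImplicit false

namespace Pool.Agent.GA

open Finset Complex Metric
open scoped ArithmeticFunction.vonMangoldt Classical

/-! ## General versions -/

theorem log_exp_three {A ℒ : ℝ} (hA : 1 ≤ A) :
    Real.log (A * Real.exp (3 * ℒ)) = Real.log A + 3 * ℒ := by
  rw [Real.log_mul (by positivity) (by positivity), Real.log_exp]

theorem cnt_gen {f : ℂ → ℂ} (hf : Differentiable ℂ f) {c : ℂ} (hc : f c ≠ 0) {A ℒ : ℝ}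
    (hA : 1 ≤ A) (hℒ : 1 ≤ ℒ)
    (hb : ∀ z ∈ closedBall c (3 / 4), ‖f z‖ ≤ A * Real.exp (3 * ℒ) * ‖f c‖) :
    ∑ ρ ∈ zb f c (1 / 4), mlt f ρ ≤ (Real.log A + 3) * ℒ := by
  have h1 := zero_count hf hc (R₁ := 1 / 4) (R₃ := 3 / 4) (by norm_num) (by norm_num) hb
  rw [log_exp_three hA] at h1
  have h3 : (1 : ℝ) ≤ Real.log (3 / 4 / (1 / 4)) := by
    rw [Real.le_log_iff_exp_le (by norm_num)]
    have := Real.exp_one_lt_d9
    norm_num
    linarith
  set S := ∑ ρ ∈ zb f c (1 / 4), mlt f ρ with hS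
  have hS0 : 0 ≤ S := sum_nonneg fun ρ _ => mlt_nonneg _ ρ
  have hlogA := Real.log_nonneg hA
  calc S = S * 1 := (mul_one _).symm
    _ ≤ S * Real.log (3 / 4 / (1 / 4)) := by gcongr
    _ ≤ Real.log A + 3 * ℒ := h1
    _ ≤ (Real.log A + 3) * ℒ := by nlinarith

theorem expa_gen {f : ℂ → ℂ} (hf : Differentiable ℂ f) {c : ℂ} (hc : f c ≠ 0) {A ℒ : ℝ}
    (hA : 1 ≤ A) (hℒ : 1 ≤ ℒ)
    (hb : ∀ z ∈ closedBall c (3 / 4), ‖f z‖ ≤ A * Real.exp (3 * ℒ) * ‖f c‖) (j : ℕ) :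
    ‖iteratedDeriv j (logDeriv f) c / (j.factorial : ℂ) -
      (-1) ^ j * ∑ ρ ∈ zb f c (1 / 4), (mlt f ρ : ℂ) / (c - ρ) ^ (j + 1)‖ ≤
      18 * (Real.log A + 3) * ℒ * 16 ^ j := by
  have hlogA := Real.log_nonneg hA
  have hB1 : 1 ≤ A * Real.exp (3 * ℒ) := by
    have : 1 ≤ Real.exp (3 * ℒ) := Real.one_le_exp (by linarith)
    nlinarith
  have h1 := logDeriv_coeff hf hc (r := 1 / 8) (R₁ := 1 / 4)
    (R₃ := 3 / 4) (by norm_num) (by norm_num) (by norm_num) hB1 hb j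
  rw [log_exp_three hA] at h1
  have hcn := cnt_gen hf hc hA hℒ hb
  refine h1.trans ?_
  set S := ∑ ρ ∈ zb f c (1 / 4), mlt f ρ with hS
  have hS0 : 0 ≤ S := sum_nonneg fun ρ _ => mlt_nonneg _ ρ
  have h4 : 2 * ((j : ℝ) + 1) * (Real.log A + 3 * ℒ) / ((1 / 4 - 1 / 8) * (1 / 8) ^ j) ≤
      16 * (Real.log A + 3) * ℒ * 16 ^ j := by
    have e1 : 2 * ((j : ℝ) + 1) * (Real.log A + 3 * ℒ) / ((1 / 4 - 1 / 8) * (1 / 8) ^ j) =
        16 * (Real.log A + 3 * ℒ) * (((j : ℝ) + 1) * 8 ^ j) := by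
      rw [one_div_pow]
      field_simp
      ring
    rw [e1]
    have hj : ((j : ℝ) + 1) ≤ 2 ^ j := by
      have : j + 1 ≤ 2 ^ j := Nat.lt_two_pow_self
      exact_mod_cast this
    have e2 : ((j : ℝ) + 1) * 8 ^ j ≤ 16 ^ j := by
      calc ((j : ℝ) + 1) * 8 ^ j ≤ 2 ^ j * 8 ^ j := by gcongr
        _ = 16 ^ j := by rw [← mul_pow]; norm_num
    have e3 : Real.log A + 3 * ℒ ≤ (Real.log A + 3) * ℒ := by nlinarith
    calc 16 * (Real.log A + 3 * ℒ) * (((j : ℝ) + 1) * 8 ^ j)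
        ≤ 16 * ((Real.log A + 3) * ℒ) * 16 ^ j := by gcongr
      _ = _ := by ring
  have h5 : S / (3 / 4) ^ (j + 1) ≤ 2 * (Real.log A + 3) * ℒ * 16 ^ j := by
    have e4 : S / (3 / 4) ^ (j + 1) = S * (4 / 3) ^ (j + 1) := by
      rw [div_eq_mul_inv, ← inv_pow]
      norm_num
    rw [e4]
    have e5 : ((4 : ℝ) / 3) ^ (j + 1) ≤ 2 * 16 ^ j := by
      rw [pow_succ, mul_comm]
      have : ((4 : ℝ) / 3) ^ j ≤ 16 ^ j := pow_le_pow_left₀ (by norm_num) (by norm_num) j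
      nlinarith [pow_pos (show (0 : ℝ) < 16 by norm_num) j]
    calc S * (4 / 3) ^ (j + 1) ≤ ((Real.log A + 3) * ℒ) * (2 * 16 ^ j) := by gcongr
      _ = _ := by ring
  calc _ ≤ 16 * (Real.log A + 3) * ℒ * 16 ^ j + 2 * (Real.log A + 3) * ℒ * 16 ^ j :=
        add_le_add h4 h5
    _ = _ := by ring

theorem near_gen {f : ℂ → ℂ} (hf : Differentiable ℂ f) (hne : ∀ s : ℂ, 1 ≤ s.re → f s ≠ 0)
    {t r N : ℝ} (hr0 : 0 < r) (hr1 : r ≤ 1 / 16)
    (h4' : ‖∑ ρ ∈ zb f (1 + r + t * I) (1 / 4), (mlt f ρ : ℂ) / (1 + r + t * I - ρ)‖ ≤ N) :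
    ∑ ρ ∈ zb f (1 + t * I) r, mlt f ρ ≤ 4 * r * N := by
  have hrelt : ∀ {ρ : ℂ}, f ρ = 0 → ρ.re < 1 := fun {ρ} h => by
    by_contra h1
    exact hne _ (not_lt.1 h1) h
  have hc0 : f (1 + r + t * I) ≠ 0 := hne _ (by rw [c_re]; linarith)
  set c : ℂ := 1 + r + t * I with hc
  have hcre : c.re = 1 + r := c_re r t
  have h4 : (∑ ρ ∈ zb f c (1 / 4), (mlt f ρ : ℂ) / (c - ρ)).re ≤ N :=
    (re_le_norm _).trans h4'
  have hterm : ∀ ρ : ℂ, ((mlt f ρ : ℂ) / (c - ρ)).re = mlt f ρ * (1 / (c - ρ)).re := by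
    intro ρ
    rw [div_eq_mul_one_div, Complex.re_ofReal_mul]
  have h5 : (∑ ρ ∈ zb f (1 + t * I) r, mlt f ρ) * (1 / (4 * r)) ≤
      (∑ ρ ∈ zb f c (1 / 4), (mlt f ρ : ℂ) / (c - ρ)).re := by
    rw [Complex.re_sum, Finset.sum_mul]
    have hsub : zb f (1 + t * I) r ⊆ zb f c (1 / 4) := by
      intro ρ hρ
      rw [mem_zb hf hc0] at hρ ⊢
      refine ⟨hρ.1, ?_⟩
      have h6 := hρ.2
      rw [mem_closedBall, dist_eq_norm] at h6 ⊢
      have e3 : ρ - c = (ρ - (1 + t * I)) - r := by rw [hc]; ring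
      rw [e3]
      refine (norm_sub_le _ _).trans ?_
      rw [Complex.norm_real, Real.norm_eq_abs, abs_of_pos hr0]
      linarith
    refine (Finset.sum_le_sum fun ρ hρ => ?_).trans
      (Finset.sum_le_sum_of_subset_of_nonneg hsub fun ρ hρ _ => ?_)
    · rw [hterm]
      refine mul_le_mul_of_nonneg_left ?_ (mlt_nonneg _ ρ)
      rw [mem_zb hf hc0] at hρ
      have h6 := hρ.2
      have h7 := hrelt hρ.1
      rw [mem_closedBall, dist_eq_norm] at h6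
      have h8 : r ≤ (c - ρ).re := by rw [sub_re, hcre]; linarith
      have h9 : ‖c - ρ‖ ≤ 2 * r := by
        have e3 : c - ρ = r - (ρ - (1 + t * I)) := by rw [hc]; ring
        rw [e3]
        refine (norm_sub_le _ _).trans ?_
        rw [Complex.norm_real, Real.norm_eq_abs, abs_of_pos hr0]
        linarith
      have h10 : 0 < ‖c - ρ‖ := by
        have := (le_abs_self (c - ρ).re).trans (abs_re_le_norm (c - ρ))
        linarith
      rw [one_div (c - ρ), Complex.inv_re, Complex.normSq_eq_norm_sq]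
      rw [div_le_div_iff₀ (by positivity) (by positivity)]
      have h11 : ‖c - ρ‖ ^ 2 ≤ (2 * r) ^ 2 := pow_le_pow_left₀ h10.le h9 2
      nlinarith
    · rw [hterm]
      refine mul_nonneg (mlt_nonneg _ ρ) (re_inv_nonneg ?_)
      rw [mem_zb hf hc0] at hρ
      have h7 := hrelt hρ.1
      rw [sub_re, hcre]
      linarith
  have h6 := h5.trans h4
  rw [mul_one_div, div_le_iff₀ (by positivity)] at h6
  linarith

/-! ## Zeta -/

theorem LF_one (s : ℂ) : LF (1 : DirichletCharacter ℂ 1) s = riemannZeta s := by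
  rw [LF_eq, DirichletCharacter.LFunction_modOne_eq]

theorem Z1_eq {s : ℂ} (hs : s ≠ 1) : riemannZeta₁ s = (s - 1) * riemannZeta s := by
  rw [riemannZeta_eq_inv_sub_mul hs, ← mul_assoc, mul_inv_cancel₀ (sub_ne_zero.2 hs), one_mul]

theorem Z1_ne {s : ℂ} (hs : 1 ≤ s.re) : riemannZeta₁ s ≠ 0 := by
  by_cases h : s = 1
  · rw [h, riemannZeta₁_one]; exact one_ne_zero
  · rw [Z1_eq h]
    exact mul_ne_zero (sub_ne_zero.2 h) (riemannZeta_ne_zero_of_one_le_re hs)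

/-- growth of `(s - 1) ζ(s)` -/
def Z1G (C : ℝ) : Prop :=
  ∀ s : ℂ, 1 / 4 ≤ s.re → s.re ≤ 4 → ‖riemannZeta₁ s‖ ≤ C * (|s.im| + 2) ^ 2

theorem z1_lower {σ t : ℝ} (hσ : 0 < σ) (hσ1 : σ ≤ 1) (ht : 1 / 2 ≤ |t|) :
    σ / 6 ≤ ‖riemannZeta₁ (1 + σ + t * I)‖ := by
  set c : ℂ := 1 + σ + t * I with hc
  have hcre : c.re = 1 + σ := c_re σ t
  have hcim : c.im = t := c_im σ t
  have hc1 : c ≠ 1 := by
    intro h
    have := congrArg Complex.re h
    rw [hcre, Complex.one_re] at this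
    linarith
  have h1 := LF_lower (1 : DirichletCharacter ℂ 1) (s := c) (by rw [hcre]; linarith)
  rw [LF_one, hcre, add_sub_cancel_left, min_eq_right hσ1] at h1
  rw [Z1_eq hc1, norm_mul]
  have h2 : 1 / 2 ≤ ‖c - 1‖ := by
    refine ht.trans ?_
    have := abs_im_le_norm (c - 1)
    rwa [sub_im, hcim, Complex.one_im, sub_zero] at this
  have h3 : 0 ≤ σ / 3 := by positivity
  calc σ / 6 = 1 / 2 * (σ / 3) := by ring
    _ ≤ _ := mul_le_mul h2 h1 h3 (norm_nonneg _)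

theorem z1_bound {C : ℝ} (hC : 1 ≤ C) (hg : Z1G C) {t σ ℒ : ℝ} (ht : 1 / 2 ≤ |t|)
    (hℒ : lt 1 t ≤ ℒ) (hσ : Real.exp (-ℒ) ≤ σ) (hσ1 : σ ≤ 1 / 16) :
    ∀ z ∈ closedBall (1 + σ + t * I : ℂ) (3 / 4),
      ‖riemannZeta₁ z‖ ≤ (24 * C) * Real.exp (3 * ℒ) * ‖riemannZeta₁ (1 + σ + t * I)‖ := by
  intro z hz
  have hσ0 : 0 < σ := lt_of_lt_of_le (Real.exp_pos _) hσ
  rw [mem_closedBall, dist_eq_norm] at hz
  have h1 : |z.re - (1 + σ)| ≤ 3 / 4 := by
    have := (abs_re_le_norm (z - (1 + σ + t * I))).trans hz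
    rwa [sub_re, c_re] at this
  have h2 : |z.im - t| ≤ 3 / 4 := by
    have := (abs_im_le_norm (z - (1 + σ + t * I))).trans hz
    rwa [sub_im, c_im] at this
  rw [abs_le] at h1
  have h4 : |z.im| ≤ |t| + 1 := by
    have : |z.im| ≤ |z.im - t| + |t| := by
      calc |z.im| = |(z.im - t) + t| := by ring_nf
        _ ≤ _ := abs_add_le _ _
    linarith
  have h5 := hg z (by linarith [h1.1]) (by linarith [h1.2])
  have h0 := abs_nonneg t
  have h6 : |t| + 2 ≤ Real.exp ℒ := by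
    have h7 : (0 : ℝ) < |t| + 2 := by positivity
    calc |t| + 2 = Real.exp (lt 1 t) := by
          unfold lt; rw [Nat.cast_one, one_mul, Real.exp_log h7]
      _ ≤ _ := Real.exp_le_exp.2 hℒ
  have h8 : ‖riemannZeta₁ z‖ ≤ 4 * C * Real.exp (2 * ℒ) := by
    calc ‖riemannZeta₁ z‖ ≤ C * (|z.im| + 2) ^ 2 := h5
      _ ≤ C * (2 * (|t| + 2)) ^ 2 := by
          have := abs_nonneg z.im
          gcongr
          linarith
      _ = 4 * C * (|t| + 2) ^ 2 := by ring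
      _ ≤ 4 * C * (Real.exp ℒ) ^ 2 := by gcongr
      _ = _ := by rw [← Real.exp_nat_mul]; norm_num
  have h9 : Real.exp (-ℒ) / 6 ≤ ‖riemannZeta₁ (1 + σ + t * I)‖ :=
    le_trans (by linarith) (z1_lower hσ0 (by linarith) ht)
  calc ‖riemannZeta₁ z‖ ≤ 4 * C * Real.exp (2 * ℒ) := h8
    _ = (24 * C) * Real.exp (3 * ℒ) * (Real.exp (-ℒ) / 6) := by
        have : Real.exp (3 * ℒ) * Real.exp (-ℒ) = Real.exp (2 * ℒ) := by
          rw [← Real.exp_add]; ring_nf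
        calc 4 * C * Real.exp (2 * ℒ) = 4 * C * (Real.exp (3 * ℒ) * Real.exp (-ℒ)) := by
              rw [this]
          _ = _ := by ring
    _ ≤ _ := by gcongr

theorem z1_deriv (j : ℕ) {c : ℂ} (hc : 1 < c.re) :
    iteratedDeriv j (logDeriv riemannZeta₁) c =
      (-1) ^ j * j.factorial / (c - 1) ^ (j + 1) -
        (-1) ^ j * Gj (1 : DirichletCharacter ℂ 1) j c := by
  have hc1 : c ≠ 1 := by
    intro h
    rw [h, Complex.one_re] at hc
    linarith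
  have hopen : IsOpen {s : ℂ | 1 < s.re} := isOpen_lt continuous_const Complex.continuous_re
  have hev : logDeriv riemannZeta₁ =ᶠ[nhds c]
      fun s => (s - 1)⁻¹ + logDeriv (LF (1 : DirichletCharacter ℂ 1)) s := by
    filter_upwards [hopen.mem_nhds hc] with s hs
    have hs' : 1 < s.re := hs
    have hs1 : s ≠ 1 := by
      intro h
      rw [h, Complex.one_re] at hs'
      linarith
    have h1 : riemannZeta₁ =ᶠ[nhds s] fun w => (w - 1) * riemannZeta w := by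
      filter_upwards [isOpen_ne.mem_nhds hs1] with w hw
      exact Z1_eq hw
    have h2 : LF (1 : DirichletCharacter ℂ 1) = riemannZeta := funext LF_one
    rw [h2]
    have h3 : logDeriv riemannZeta₁ s = logDeriv (fun w => (w - 1) * riemannZeta w) s := by
      rw [logDeriv_apply, logDeriv_apply, h1.deriv_eq, h1.eq_of_nhds]
    rw [h3, logDeriv_mul (f := fun w => w - 1) (g := riemannZeta) s (sub_ne_zero.2 hs1)
      (riemannZeta_ne_zero_of_one_le_re hs'.le) (by fun_prop) (differentiableAt_riemannZeta hs1)]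
    congr 1
    rw [logDeriv_apply]
    simp
  rw [hev.iteratedDeriv_eq j]
  have han : ContDiffAt ℂ j (fun s : ℂ => (s - 1)⁻¹) c := by
    refine ContDiffAt.inv ?_ (sub_ne_zero.2 hc1)
    fun_prop
  have han2 : ContDiffAt ℂ j (logDeriv (LF (1 : DirichletCharacter ℂ 1))) c := by
    have h2 : LF (1 : DirichletCharacter ℂ 1) = riemannZeta := funext LF_one
    rw [h2]
    have hA : AnalyticAt ℂ riemannZeta c := by
      refine DifferentiableOn.analyticAt (s := {s : ℂ | 1 < s.re}) (fun s hs => ?_)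
        (hopen.mem_nhds hc)
      have hs' : 1 < s.re := hs
      refine (differentiableAt_riemannZeta ?_).differentiableWithinAt
      intro h
      rw [h, Complex.one_re] at hs'
      linarith
    have : AnalyticAt ℂ (logDeriv riemannZeta) c := by
      unfold logDeriv
      exact hA.deriv.div hA (riemannZeta_ne_zero_of_one_le_re hc.le)
    exact this.contDiffAt
  rw [iteratedDeriv_fun_add han han2, iterD_inv_sub, LF_deriv _ j hc]
  ring

theorem LD_zeta {C : ℝ} (hC : 1 ≤ C) (hg : Z1G C) : ∃ C' : ℝ, 1 ≤ C' ∧ ∀ t ℒ : ℝ,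
    1 / 2 ≤ |t| → 1 ≤ ℒ → lt 1 t ≤ ℒ →
    LD riemannZeta₁ (Gj (1 : DirichletCharacter ℂ 1)) C' ℒ t := by
  obtain ⟨C₂, hC₂, hlam⟩ := sum_Lam_rpow
  have hA : 1 ≤ 24 * C := by linarith
  have hlogA := Real.log_nonneg hA
  set E : ℝ := 18 * (Real.log (24 * C) + 3) + 2 with hE
  refine ⟨4 * (E + C₂), by linarith, fun t ℒ ht hℒ1 hℒ => ?_⟩
  have hf : Differentiable ℂ riemannZeta₁ := differentiable_riemannZeta₁
  have hne : ∀ s : ℂ, 1 ≤ s.re → riemannZeta₁ s ≠ 0 := fun s hs => Z1_ne hs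
  have hcne : ∀ {σ : ℝ}, 0 < σ → riemannZeta₁ (1 + σ + t * I) ≠ 0 := fun {σ} hσ =>
    hne _ (by rw [c_re]; linarith)
  have hexpa : ∀ σ : ℝ, Real.exp (-ℒ) ≤ σ → σ ≤ 1 / 16 → ∀ j : ℕ,
      ‖Gj (1 : DirichletCharacter ℂ 1) j (1 + σ + t * I) / (j.factorial : ℂ) +
        ∑ ρ ∈ zb riemannZeta₁ (1 + σ + t * I) (1 / 4),
          (mlt riemannZeta₁ ρ : ℂ) / (1 + σ + t * I - ρ) ^ (j + 1)‖ ≤ E * ℒ * 16 ^ j := by
    intro σ hσ hσ1 j
    have hσ0 : 0 < σ := lt_of_lt_of_le (Real.exp_pos _) hσ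
    have h1 := expa_gen hf (hcne hσ0) hA hℒ1 (z1_bound hC hg ht hℒ hσ hσ1) j
    rw [z1_deriv j (by rw [c_re]; linarith)] at h1
    set c : ℂ := 1 + σ + t * I with hc
    have hcim : c.im = t := c_im σ t
    set T := ∑ ρ ∈ zb riemannZeta₁ c (1 / 4), (mlt riemannZeta₁ ρ : ℂ) / (c - ρ) ^ (j + 1)
      with hT
    set G := Gj (1 : DirichletCharacter ℂ 1) j c with hG
    have hjf : (j.factorial : ℂ) ≠ 0 := by exact_mod_cast j.factorial_ne_zero
    have h2 : ((-1) ^ j * (j.factorial : ℂ) / (c - 1) ^ (j + 1) - (-1) ^ j * G) /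
        (j.factorial : ℂ) - (-1) ^ j * T =
        (-1) ^ j * (1 / (c - 1) ^ (j + 1) - (G / (j.factorial : ℂ) + T)) := by
      have : (-1) ^ j * (j.factorial : ℂ) / (c - 1) ^ (j + 1) / (j.factorial : ℂ) =
          (-1) ^ j * (1 / (c - 1) ^ (j + 1)) := by
        field_simp
      rw [sub_div, this]
      ring
    rw [h2, norm_mul, norm_pow, norm_neg, norm_one, one_pow, one_mul] at h1
    have h3 : 1 / 2 ≤ ‖c - 1‖ := by
      refine ht.trans ?_
      have := abs_im_le_norm (c - 1)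
      rwa [sub_im, hcim, Complex.one_im, sub_zero] at this
    have h4 : ‖1 / (c - 1) ^ (j + 1)‖ ≤ 2 * 16 ^ j := by
      rw [norm_div, norm_one, norm_pow, one_div, ← inv_pow]
      have h5 : ‖c - 1‖⁻¹ ≤ 2 := by
        rw [inv_le_comm₀ (by linarith) (by norm_num)]
        linarith
      calc (‖c - 1‖⁻¹) ^ (j + 1) ≤ 2 ^ (j + 1) := by gcongr
        _ = 2 * 2 ^ j := by ring
        _ ≤ 2 * 16 ^ j := by
            have : (2 : ℝ) ^ j ≤ 16 ^ j := pow_le_pow_left₀ (by norm_num) (by norm_num) j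
            linarith
    have h6 : ‖G / (j.factorial : ℂ) + T‖ ≤ ‖1 / (c - 1) ^ (j + 1)‖ +
        ‖1 / (c - 1) ^ (j + 1) - (G / (j.factorial : ℂ) + T)‖ := by
      calc ‖G / (j.factorial : ℂ) + T‖ = ‖1 / (c - 1) ^ (j + 1) -
            (1 / (c - 1) ^ (j + 1) - (G / (j.factorial : ℂ) + T))‖ := by ring_nf
        _ ≤ _ := norm_sub_le _ _
    have h7 : (0 : ℝ) < 16 ^ j := by positivity
    calc ‖G / (j.factorial : ℂ) + T‖ ≤ 2 * 16 ^ j +
          18 * (Real.log (24 * C) + 3) * ℒ * 16 ^ j := by linarith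
      _ ≤ 2 * ℒ * 16 ^ j + 18 * (Real.log (24 * C) + 3) * ℒ * 16 ^ j := by nlinarith
      _ = E * ℒ * 16 ^ j := by rw [hE]; ring
  refine ⟨hf, hne, hℒ1, fun σ hσ hσ1 j => (hexpa σ hσ hσ1 j).trans ?_, fun σ hσ hσ1 => ?_,
    fun r hr hr1 => ?_⟩
  · have h7 : (0 : ℝ) ≤ ℒ * 16 ^ j := by positivity
    have h8 : 0 ≤ (3 * E + 4 * C₂) * (ℒ * 16 ^ j) := by positivity
    nlinarith
  · have hσ0 : 0 < σ := lt_of_lt_of_le (Real.exp_pos _) hσ
    refine (cnt_gen hf (hcne hσ0) hA hℒ1 (z1_bound hC hg ht hℒ hσ hσ1)).trans ?_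
    have h8 : 0 ≤ (72 * (Real.log (24 * C) + 3) + 8 + 4 * C₂ - (Real.log (24 * C) + 3)) * ℒ := by
      have : 0 ≤ 72 * (Real.log (24 * C) + 3) + 8 + 4 * C₂ - (Real.log (24 * C) + 3) := by
        linarith
      positivity
    rw [hE]
    nlinarith
  · have hℒ0 : 0 < ℒ := by linarith
    have hr0 : 0 < r := lt_of_lt_of_le (by positivity) hr
    have hrexp : Real.exp (-ℒ) ≤ r := (exp_neg_le_inv hℒ0).trans hr
    have h1 := hexpa r hrexp hr1 0
    simp only [Nat.factorial_zero, Nat.cast_one, div_one, zero_add, pow_one, pow_zero,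
      mul_one] at h1
    have h2 := Gj_zero_norm (1 : DirichletCharacter ℂ 1) hlam hr0 (by linarith) t
    have h3 : ‖∑ ρ ∈ zb riemannZeta₁ (1 + r + t * I) (1 / 4),
        (mlt riemannZeta₁ ρ : ℂ) / (1 + r + t * I - ρ)‖ ≤ (E + C₂) * ℒ := by
      have e1 : ∑ ρ ∈ zb riemannZeta₁ (1 + r + t * I) (1 / 4),
          (mlt riemannZeta₁ ρ : ℂ) / (1 + r + t * I - ρ) =
          (Gj (1 : DirichletCharacter ℂ 1) 0 (1 + r + t * I) +
            ∑ ρ ∈ zb riemannZeta₁ (1 + r + t * I) (1 / 4),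
              (mlt riemannZeta₁ ρ : ℂ) / (1 + r + t * I - ρ)) -
            Gj (1 : DirichletCharacter ℂ 1) 0 (1 + r + t * I) := by
        ring
      rw [e1]
      refine (norm_sub_le _ _).trans ?_
      have e2 : C₂ / r ≤ C₂ * ℒ := by
        rw [div_le_iff₀ hr0]
        rw [div_le_iff₀ hℒ0] at hr
        nlinarith
      calc _ ≤ E * ℒ + C₂ / r := add_le_add h1 h2
        _ ≤ E * ℒ + C₂ * ℒ := by linarith
        _ = _ := by ring
    refine (near_gen hf hne hr0 hr1 h3).trans (le_of_eq ?_)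
    ring

end Pool.Agent.GA
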