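import Pool.Agent.Lib_helper98.GAF.X7

/-!
# GA part X, file 8: the weights, asymptotic form
-/

set_option autoImplicit false
set_option linter.unusedSectionVars false

namespace Pool.Agent.GA

open Finset Complex Metric Filter
open scoped ArithmeticFunction.vonMangoldt Classical Topology

/-- the conditions on `X`, for fixed `κ` -/
theorem x8_eventually {κ ε C : ℝ} (hκ : 0 < κ) (hε : 0 < ε) :
    ∀ᶠ X : ℕ in atTop, (8 : ℝ) ≤ X ∧ 32 ≤ (X : ℝ) ^ κ ∧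
      4 * Real.exp 3 * (Real.log (2 * X) + 1) ≤ ((X : ℝ) ^ κ) ^ (1 / 2 : ℝ) ∧
      4 * C * (((X : ℝ) ^ κ) ^ (282 + 2 / κ) * Real.exp (-(1 / 32) * (X : ℝ) ^ κ)) ≤ ε := by
  have hX : Tendsto (fun X : ℕ => (X : ℝ)) atTop atTop := tendsto_natCast_atTop_atTop
  have hY : Tendsto (fun X : ℕ => (X : ℝ) ^ κ) atTop atTop := (tendsto_rpow_atTop hκ).comp hX
  have h1 : ∀ᶠ X : ℕ in atTop, (8 : ℝ) ≤ X := hX.eventually_ge_atTop 8
  have h2 : ∀ᶠ X : ℕ in atTop, (32 : ℝ) ≤ (X : ℝ) ^ κ := hY.eventually_ge_atTop 32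
  have h3 : ∀ᶠ X : ℕ in atTop, 4 * Real.exp 3 * (Real.log (2 * X) + 1) ≤
      ((X : ℝ) ^ κ) ^ (1 / 2 : ℝ) := by
    have h4 : ∀ᶠ x : ℝ in atTop, Real.log x ≤ (8 * Real.exp 3)⁻¹ * x ^ (κ / 2) := by
      have h5 := (isLittleO_log_rpow_atTop (r := κ / 2) (by positivity)).bound
        (c := (8 * Real.exp 3)⁻¹) (by positivity)
      filter_upwards [h5, eventually_ge_atTop (1 : ℝ)] with x hx hx1
      rw [Real.norm_eq_abs, Real.norm_eq_abs, abs_of_nonneg (Real.log_nonneg hx1),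
        abs_of_nonneg (by positivity)] at hx
      exact hx
    have h6 : ∀ᶠ x : ℝ in atTop, 4 * Real.exp 3 * (Real.log 2 + 1) ≤ 1 / 2 * x ^ (κ / 2) := by
      have h7 := (tendsto_rpow_atTop (y := κ / 2) (by positivity)).const_mul_atTop
        (show (0 : ℝ) < 1 / 2 by norm_num)
      exact h7.eventually_ge_atTop _
    filter_upwards [hX.eventually h4, hX.eventually h6, h1] with X hX4 hX6 hX1
    have hX0 : (0 : ℝ) < X := by linarith
    rw [← Real.rpow_mul hX0.le, Real.log_mul (by norm_num) hX0.ne']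
    have e1 : κ * (1 / 2) = κ / 2 := by ring
    rw [e1]
    have he : 0 < Real.exp 3 := Real.exp_pos _
    have h8 : 4 * Real.exp 3 * Real.log X ≤ 1 / 2 * (X : ℝ) ^ (κ / 2) := by
      calc 4 * Real.exp 3 * Real.log X ≤
          4 * Real.exp 3 * ((8 * Real.exp 3)⁻¹ * (X : ℝ) ^ (κ / 2)) := by gcongr
        _ = _ := by field_simp; norm_num
    nlinarith
  have h4 : ∀ᶠ X : ℕ in atTop,
      4 * C * (((X : ℝ) ^ κ) ^ (282 + 2 / κ) * Real.exp (-(1 / 32) * (X : ℝ) ^ κ)) ≤ ε := by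
    have h5 := ((tendsto_rpow_mul_exp_neg_mul_atTop_nhds_zero (282 + 2 / κ) (1 / 32)
      (by norm_num)).const_mul (4 * C)).comp hY
    rw [mul_zero] at h5
    exact (h5.eventually (ge_mem_nhds hε)).mono fun X hX => hX
  filter_upwards [h1, h2, h3, h4] with X a b c d
  exact ⟨a, b, c, d⟩

/-- **Gallagher's theorem in the form of weights on the primes of a short interval.** -/
theorem gal_weights_exp (hden : ∃ C : ℝ, 1 ≤ C ∧ ∀ D : ℕ, 2 ≤ D → ∀ δ : ℝ, 0 ≤ δ → δ ≤ 1 / 16 →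
      nz riemannZeta₁ δ D ≤ Real.exp (C * (1 + δ * Real.log D))) {c₁ : ℝ} (hc₁ : 0 < c₁) :
    ∃ C : ℝ, 1 ≤ C ∧ ∃ c : ℝ, 0 < c ∧ ∃ κ₀ : ℝ, 0 < κ₀ ∧ ∀ κ : ℝ, 0 < κ → κ ≤ κ₀ →
    ∃ X₀ : ℕ, ∀ X : ℕ, X₀ ≤ X → Good c₁ ⌊(X : ℝ) ^ (124 * κ)⌋₊ →
    ∀ X' : ℝ, (X : ℝ) ≤ X' → X' ≤ 2 * X → ∃ (P : Finset ℕ) (u : ℕ → ℝ),
      (∀ p ∈ P, p.Prime ∧ |Real.log ((p : ℝ) / X')| ≤ ((X : ℝ) ^ κ) ^ (-33 : ℝ) ∧ 0 < u p ∧
        u p ≤ ((X : ℝ) ^ κ) ^ (34 : ℝ) / X) ∧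
      ∑ p ∈ P, u p = 1 ∧
      ∑ q ∈ Icc 1 ⌊(X : ℝ) ^ (124 * κ)⌋₊, ∑ χ ∈ Prm q,
        ‖∑ p ∈ P, ((u p : ℝ) : ℂ) * χ (p : ZMod q)‖ ≤ C * Real.exp (-(c / κ)) := by
  obtain ⟨C, hC, c, hc, A, hA, hcore⟩ := x7_core hden hc₁
  have hC0 : 0 < C := by linarith
  have hl16 : 0 < Real.log (16 * C) := Real.log_pos (by linarith)
  refine ⟨4 * C, by linarith, c / 124, by positivity,
    min (1 / (124 * A)) (c / (124 * Real.log (16 * C))), by positivity, fun κ hκ hκ₀ => ?_⟩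
  have hκ1 : 124 * κ * A ≤ 1 := by
    have h1 := hκ₀.trans (min_le_left _ _)
    rw [le_div_iff₀ (by positivity)] at h1
    linarith
  have hκ2 : 124 * κ * Real.log (16 * C) ≤ c := by
    have h1 := hκ₀.trans (min_le_right _ _)
    rw [le_div_iff₀ (by positivity)] at h1
    linarith
  set ε : ℝ := C * Real.exp (-(c / (124 * κ))) with hε
  have hε0 : 0 < ε := by positivity
  have hε16 : ε ≤ 1 / 16 := by
    have h1 : Real.log (16 * C) ≤ c / (124 * κ) := by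
      rw [le_div_iff₀ (by positivity)]; linarith
    have h2 : Real.exp (-(c / (124 * κ))) ≤ (16 * C)⁻¹ := by
      rw [← Real.exp_log (show (0 : ℝ) < 16 * C by positivity), ← Real.exp_neg]
      exact Real.exp_le_exp.2 (by linarith)
    calc ε ≤ C * (16 * C)⁻¹ := mul_le_mul_of_nonneg_left h2 hC0.le
      _ = 1 / 16 := by field_simp
  obtain ⟨X₀, hX₀⟩ := eventually_atTop.1 (x8_eventually (C := C) hκ hε0)
  refine ⟨X₀, fun X hX hgood X' hX1 hX2 => ?_⟩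
  obtain ⟨hX8, hY32, hlogY, htail⟩ := hX₀ X hX
  have hX0 : (0 : ℝ) < X := by linarith
  have hX'0 : 0 < X' := by linarith
  set Y : ℝ := (X : ℝ) ^ κ with hY
  have hY0 : 0 < Y := by linarith
  have hY1 : 1 ≤ Y := by linarith
  set M : ℝ := Real.log X' with hM
  have hMX : Real.log X ≤ M := Real.log_le_log hX0 hX1
  have hM2X : M ≤ Real.log (2 * X) := Real.log_le_log hX'0 hX2
  have hM2 : 2 ≤ M := by
    have h1 : Real.exp 2 ≤ 8 := by
      have := Real.exp_one_lt_d9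
      have h2 : Real.exp 2 = Real.exp 1 ^ 2 := by
        rw [← Real.exp_nat_mul]; norm_num
      rw [h2]
      nlinarith [Real.exp_pos 1]
    rw [hM, Real.le_log_iff_exp_le hX'0]
    linarith
  have hM0 : 0 < M := by linarith
  set D : ℕ := ⌊(X : ℝ) ^ (124 * κ)⌋₊ with hD
  have hY124 : (X : ℝ) ^ (124 * κ) = Y ^ (124 : ℕ) := by
    rw [hY, ← Real.rpow_natCast, ← Real.rpow_mul hX0.le]
    norm_num
    ring_nf
  have hYY : ∀ n : ℕ, 1 ≤ n → 32 ≤ Y ^ n := by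
    intro n hn
    calc (32 : ℝ) ≤ Y := hY32
      _ = Y ^ 1 := (pow_one Y).symm
      _ ≤ Y ^ n := pow_le_pow_right₀ hY1 hn
  have hD1 : (D : ℝ) ≤ Y ^ (124 : ℕ) := by
    rw [← hY124]
    exact Nat.floor_le (by positivity)
  have hD2 : Y ^ (124 : ℕ) / 2 ≤ D := by
    have h1 : (X : ℝ) ^ (124 * κ) < D + 1 := Nat.lt_floor_add_one _
    rw [hY124] at h1
    have := hYY 124 (by norm_num)
    linarith
  have hD4 : 4 ≤ D := by
    have := hYY 124 (by norm_num)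
    have h1 : (4 : ℝ) ≤ D := by linarith
    exact_mod_cast h1
  have hDR : (4 : ℝ) ≤ D := by exact_mod_cast hD4
  have hLD : Real.log D ≤ 124 * κ * M := by
    have h1 : Real.log D ≤ Real.log ((X : ℝ) ^ (124 * κ)) := by
      apply Real.log_le_log (by linarith)
      rw [hY124]; exact hD1
    rw [Real.log_rpow hX0] at h1
    exact h1.trans (mul_le_mul_of_nonneg_left hMX (by positivity))
  have hLD0 : 0 < Real.log D := Real.log_pos (by linarith)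
  -- the parameter k
  set k : ℕ := ⌈M ^ 2 * Y ^ (67 : ℕ)⌉₊ with hk
  have hMY : 4 ≤ M ^ 2 * Y ^ (67 : ℕ) := by
    have := hYY 67 (by norm_num)
    nlinarith
  have hk1 : M ^ 2 * Y ^ (67 : ℕ) ≤ k := Nat.le_ceil _
  have hk2 : (k : ℝ) ≤ 4 * (M ^ 2 * Y ^ (67 : ℕ)) := by
    have h1 : (k : ℝ) < M ^ 2 * Y ^ (67 : ℕ) + 1 := Nat.ceil_lt_add_one (by positivity)
    linarith
  have hk0 : (0 : ℝ) < k := by linarith
  have hMk : M ^ 2 ≤ k := by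
    refine le_trans ?_ hk1
    have := hYY 67 (by norm_num)
    nlinarith [sq_nonneg M]
  have hYhalf : Y ^ (1 / 2 : ℝ) ≤ Y := by
    calc Y ^ (1 / 2 : ℝ) ≤ Y ^ (1 : ℝ) := Real.rpow_le_rpow_of_exponent_le hY1 (by norm_num)
      _ = Y := Real.rpow_one Y
  have he3 : 8 ≤ Real.exp 3 := by
    have h1 := Real.add_one_le_exp (1 : ℝ)
    have h2 : Real.exp 3 = Real.exp 1 ^ 3 := by
      rw [← Real.exp_nat_mul]; norm_num
    rw [h2]
    have h3 : (2 : ℝ) ≤ Real.exp 1 := by linarith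
    calc (8 : ℝ) = 2 ^ 3 := by norm_num
      _ ≤ Real.exp 1 ^ 3 := pow_le_pow_left₀ (by norm_num) h3 3
  have hMle : 32 * M ≤ Y := by
    have h1 : 4 * Real.exp 3 * (M + 1) ≤ Y := by
      refine le_trans ?_ (hlogY.trans hYhalf)
      gcongr
    nlinarith
  have hk4 : 4 * (k : ℝ) ≤ D ^ 2 * M := by
    have h1 : Y ^ (248 : ℕ) / 4 ≤ (D : ℝ) ^ 2 := by
      have h2 : (Y ^ (124 : ℕ) / 2) ^ 2 ≤ (D : ℝ) ^ 2 := pow_le_pow_left₀ (by positivity) hD2 2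
      calc Y ^ (248 : ℕ) / 4 = (Y ^ (124 : ℕ) / 2) ^ 2 := by ring
        _ ≤ _ := h2
    have h3 : 64 * M * Y ^ (67 : ℕ) ≤ Y ^ (248 : ℕ) := by
      have h4 : Y ^ (248 : ℕ) = Y * Y * Y ^ (67 : ℕ) * Y ^ (179 : ℕ) := by ring
      have h5 : 1 ≤ Y ^ (179 : ℕ) := one_le_pow₀ hY1
      have h6 : 64 * M ≤ Y * Y := by nlinarith
      rw [h4]
      calc 64 * M * Y ^ (67 : ℕ) ≤ Y * Y * Y ^ (67 : ℕ) := by gcongr
        _ ≤ Y * Y * Y ^ (67 : ℕ) * Y ^ (179 : ℕ) := le_mul_of_one_le_right (by positivity) h5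
    calc 4 * (k : ℝ) ≤ 16 * (M ^ 2 * Y ^ (67 : ℕ)) := by linarith
      _ = (64 * M * Y ^ (67 : ℕ)) / 4 * M := by ring
      _ ≤ (Y ^ (248 : ℕ)) / 4 * M := by gcongr
      _ ≤ D ^ 2 * M := by gcongr
  -- the width
  set Δ : ℝ := Y ^ (-33 : ℝ) with hΔ
  have hΔ' : Δ = (Y ^ (33 : ℕ))⁻¹ := by
    rw [hΔ, Real.rpow_neg hY0.le, ← Real.rpow_natCast]
    norm_num
  have hΔ0 : 0 < Δ := by rw [hΔ']; positivity
  have hΔ1 : Δ ≤ 1 := by
    rw [hΔ']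
    exact inv_le_one_of_one_le₀ (one_le_pow₀ hY1)
  have hΔk : 32 * M ^ 2 ≤ Δ * k := by
    calc 32 * M ^ 2 ≤ Y ^ (34 : ℕ) * M ^ 2 := by
          have := hYY 34 (by norm_num)
          gcongr
      _ = Δ * (M ^ 2 * Y ^ (67 : ℕ)) := by
          rw [hΔ']; field_simp
      _ ≤ Δ * k := by gcongr
  have hs : Real.sqrt k = Real.sqrt k := rfl
  have hσs : (k : ℝ) / M / Real.sqrt k = Real.sqrt k / M := by
    have h1 : 0 < Real.sqrt k := Real.sqrt_pos.2 hk0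
    rw [div_div, div_eq_div_iff (by positivity) hM0.ne']
    nth_rewrite 1 [← Real.mul_self_sqrt hk0.le]
    ring
  have hσs2 : Real.sqrt k / M ≤ 2 * (Y ^ (33 : ℝ) * Y ^ (1 / 2 : ℝ)) := by
    rw [div_le_iff₀ hM0]
    apply Real.sqrt_le_iff.2
    refine ⟨by positivity, hk2.trans (le_of_eq ?_)⟩
    have h1 : Y ^ (67 : ℕ) = (Y ^ (33 : ℝ) * Y ^ (1 / 2 : ℝ)) ^ 2 := by
      rw [← Real.rpow_add hY0, ← Real.rpow_natCast, ← Real.rpow_natCast, ← Real.rpow_mul hY0.le]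
      norm_num
    rw [h1]; ring
  have hσs3 : Real.sqrt k / M ≤ Y ^ (34 : ℕ) := by
    refine hσs2.trans ?_
    have h1 : 2 * Y ^ (1 / 2 : ℝ) ≤ Y := by
      have h2 : Y = Y ^ (1 / 2 : ℝ) * Y ^ (1 / 2 : ℝ) := by
        rw [← Real.rpow_add hY0]; norm_num
      have h3 : 2 ≤ Y ^ (1 / 2 : ℝ) := by
        refine le_trans ?_ hlogY
        have : 0 ≤ Real.log (2 * X) := Real.log_nonneg (by linarith)
        nlinarith
      nlinarith
    have h4 : Y ^ (33 : ℝ) = Y ^ (33 : ℕ) := by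
      rw [← Real.rpow_natCast]; norm_num
    rw [h4]
    calc 2 * (Y ^ (33 : ℕ) * Y ^ (1 / 2 : ℝ)) = Y ^ (33 : ℕ) * (2 * Y ^ (1 / 2 : ℝ)) := by ring
      _ ≤ Y ^ (33 : ℕ) * Y := by gcongr
      _ = Y ^ (34 : ℕ) := by ring
  -- the two errors
  have hE1 : C * Real.exp (-(c * M / Real.log D)) ≤ ε := by
    rw [hε]
    apply mul_le_mul_of_nonneg_left _ hC0.le
    apply Real.exp_le_exp.2
    have : c / (124 * κ) ≤ c * M / Real.log D := by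
      rw [div_le_div_iff₀ (by positivity) hLD0]
      calc c * Real.log D ≤ c * (124 * κ * M) := by gcongr
        _ = _ := by ring
    linarith
  have hE2 : (D : ℝ) ^ 2 * (C * (k / M / Real.sqrt k) *
      Real.exp (2 * M - Δ ^ 2 * k / (32 * M ^ 2))) ≤ ε := by
    refine le_trans ?_ htail
    have h1 : (D : ℝ) ^ 2 ≤ Y ^ (248 : ℕ) := by
      calc (D : ℝ) ^ 2 ≤ (Y ^ (124 : ℕ)) ^ 2 := pow_le_pow_left₀ (by positivity) hD1 2
        _ = _ := by ring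
    have h2 : Y / 32 ≤ Δ ^ 2 * k / (32 * M ^ 2) := by
      rw [div_le_div_iff₀ (by norm_num) (by positivity)]
      calc Y * (32 * M ^ 2) = Δ ^ 2 * (M ^ 2 * Y ^ (67 : ℕ)) * 32 := by
            rw [hΔ']; field_simp
        _ ≤ Δ ^ 2 * k * 32 := by gcongr
    have h3 : Real.exp (2 * M - Δ ^ 2 * k / (32 * M ^ 2)) ≤
        4 * Y ^ (2 / κ) * Real.exp (-(1 / 32) * Y) := by
      have h4 : Real.exp (2 * M) ≤ 4 * Y ^ (2 / κ) := by
        have h5 : Real.exp (2 * M) = X' ^ 2 := by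
          rw [two_mul, Real.exp_add, hM, Real.exp_log hX'0]; ring
        have h6 : Y ^ (2 / κ) = (X : ℝ) ^ 2 := by
          rw [hY, ← Real.rpow_mul hX0.le, ← Real.rpow_natCast]
          congr 1
          field_simp
          norm_num
        rw [h5, h6]
        nlinarith
      calc Real.exp (2 * M - Δ ^ 2 * k / (32 * M ^ 2)) ≤ Real.exp (2 * M + -(1 / 32) * Y) :=
            Real.exp_le_exp.2 (by linarith)
        _ = Real.exp (2 * M) * Real.exp (-(1 / 32) * Y) := Real.exp_add _ _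
        _ ≤ _ := mul_le_mul_of_nonneg_right h4 (Real.exp_pos _).le
    rw [hσs]
    calc (D : ℝ) ^ 2 * (C * (Real.sqrt k / M) *
          Real.exp (2 * M - Δ ^ 2 * k / (32 * M ^ 2))) ≤
        Y ^ (248 : ℕ) * (C * Y ^ (34 : ℕ) * (4 * Y ^ (2 / κ) * Real.exp (-(1 / 32) * Y))) := by
          gcongr
      _ = 4 * C * ((Y ^ (282 : ℕ) * Y ^ (2 / κ)) * Real.exp (-(1 / 32) * Y)) := by ring
      _ = _ := by
          rw [Real.rpow_add hY0, ← Real.rpow_natCast]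
          norm_num
  obtain ⟨u, hu1, hu2, hu3⟩ := hcore D hD4 hgood k M Δ hM2 (by
      calc A * Real.log D ≤ A * (124 * κ * M) := by gcongr
        _ = (124 * κ * A) * M := by ring
        _ ≤ 1 * M := by gcongr
        _ = M := one_mul M) hMk hk4 hΔ0 hΔ1 hΔk (hE1.trans hε16) (hE2.trans hε16)
  refine ⟨PW M Δ, u, fun p hp => ?_, hu2, ?_⟩
  · obtain ⟨hpp, hpM⟩ := mem_PW.1 hp
    obtain ⟨hup, hup2⟩ := hu1 p hp
    have hp0 : (0 : ℝ) < p := by exact_mod_cast hpp.pos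
    refine ⟨hpp, ?_, hup, ?_⟩
    · rw [Real.log_div hp0.ne' hX'0.ne']
      exact hpM
    · refine hup2.trans ?_
      rw [hσs]
      have h1 := abs_le.1 hpM
      have h2 : Real.log p ≤ M + 1 := by linarith [h1.2]
      have h3 : (1 : ℝ) / p ≤ Real.exp 1 / X := by
        rw [div_le_div_iff₀ hp0 hX0, one_mul]
        have h4 : (X : ℝ) ≤ Real.exp (1 + Real.log p) := by
          rw [← Real.log_le_iff_le_exp hX0]
          linarith [h1.1]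
        rwa [Real.exp_add, Real.exp_log hp0] at h4
      have h5 : 0 ≤ Real.log p := Real.log_natCast_nonneg p
      have h6 : Real.exp 3 = Real.exp 2 * Real.exp 1 := by
        rw [← Real.exp_add]; norm_num
      have h7 : Y ^ (34 : ℝ) = Y ^ (33 : ℝ) * (Y ^ (1 / 2 : ℝ) * Y ^ (1 / 2 : ℝ)) := by
        rw [← Real.rpow_add hY0, ← Real.rpow_add hY0]; norm_num
      calc 2 * Real.log p * (Real.exp 2 * (Real.sqrt k / M) * (1 / p)) ≤
          2 * (M + 1) * (Real.exp 2 * (2 * (Y ^ (33 : ℝ) * Y ^ (1 / 2 : ℝ))) *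
            (Real.exp 1 / X)) := by gcongr
        _ = (Y ^ (33 : ℝ) * Y ^ (1 / 2 : ℝ)) * (4 * Real.exp 3 * (M + 1)) / X := by
            rw [h6]; ring
        _ ≤ (Y ^ (33 : ℝ) * Y ^ (1 / 2 : ℝ)) * Y ^ (1 / 2 : ℝ) / X := by
            gcongr
            refine le_trans ?_ hlogY
            gcongr
        _ = _ := by rw [h7]; ring
  · refine hu3.trans ?_
    have h1 : c / 124 / κ = c / (124 * κ) := by rw [div_div]
    rw [h1]
    calc 2 * (C * Real.exp (-(c * M / Real.log D)) + (D : ℝ) ^ 2 * (C * (k / M / Real.sqrt k) *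
          Real.exp (2 * M - Δ ^ 2 * k / (32 * M ^ 2)))) ≤ 2 * (ε + ε) := by gcongr
      _ = 4 * C * Real.exp (-(c / (124 * κ))) := by rw [hε]; ring

/-- with the constant `1/4` -/
theorem gal_weights (hden : ∃ C : ℝ, 1 ≤ C ∧ ∀ D : ℕ, 2 ≤ D → ∀ δ : ℝ, 0 ≤ δ → δ ≤ 1 / 16 →
      nz riemannZeta₁ δ D ≤ Real.exp (C * (1 + δ * Real.log D))) {c₁ : ℝ} (hc₁ : 0 < c₁) :
    ∃ κ₀ : ℝ, 0 < κ₀ ∧ ∀ κ : ℝ, 0 < κ → κ ≤ κ₀ →
    ∃ X₀ : ℕ, ∀ X : ℕ, X₀ ≤ X → Good c₁ ⌊(X : ℝ) ^ (124 * κ)⌋₊ →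
    ∀ X' : ℝ, (X : ℝ) ≤ X' → X' ≤ 2 * X → ∃ (P : Finset ℕ) (u : ℕ → ℝ),
      (∀ p ∈ P, p.Prime ∧ |Real.log ((p : ℝ) / X')| ≤ ((X : ℝ) ^ κ) ^ (-33 : ℝ) ∧ 0 < u p ∧
        u p ≤ ((X : ℝ) ^ κ) ^ (34 : ℝ) / X) ∧
      ∑ p ∈ P, u p = 1 ∧
      ∑ q ∈ Icc 1 ⌊(X : ℝ) ^ (124 * κ)⌋₊, ∑ χ ∈ Prm q,
        ‖∑ p ∈ P, ((u p : ℝ) : ℂ) * χ (p : ZMod q)‖ ≤ 1 / 4 := by
  obtain ⟨C, hC, c, hc, κ₀, hκ₀, h⟩ := gal_weights_exp hden hc₁
  have hl : 0 < Real.log (4 * C) := Real.log_pos (by linarith)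
  refine ⟨min κ₀ (c / Real.log (4 * C)), by positivity, fun κ hκ hκ' => ?_⟩
  obtain ⟨X₀, hX⟩ := h κ hκ (hκ'.trans (min_le_left _ _))
  refine ⟨X₀, fun X hXX hg X' h1 h2 => ?_⟩
  obtain ⟨P, u, hu1, hu2, hu3⟩ := hX X hXX hg X' h1 h2
  refine ⟨P, u, hu1, hu2, hu3.trans ?_⟩
  have h3 : Real.log (4 * C) ≤ c / κ := by
    have h4 := hκ'.trans (min_le_right _ _)
    rw [le_div_iff₀ hl] at h4
    rw [le_div_iff₀ hκ]
    linarith
  have h4 : Real.exp (-(c / κ)) ≤ (4 * C)⁻¹ := by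
    rw [← Real.exp_log (show (0 : ℝ) < 4 * C by positivity), ← Real.exp_neg]
    exact Real.exp_le_exp.2 (by linarith)
  calc C * Real.exp (-(c / κ)) ≤ C * (4 * C)⁻¹ := mul_le_mul_of_nonneg_left h4 (by linarith)
    _ = 1 / 4 := by
      have : C ≠ 0 := by positivity
      field_simp

end Pool.Agent.GA
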