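import Pool.Agent.Lib_helper98.GAF.Den3
import Pool.Agent.Lib_helper98.GAF.Z4
import Pool.Agent.Lib_helper98.GAF.X8

/-! # Summary of the library -/

set_option autoImplicit false

namespace Pool.Agent.GA

open Finset Complex Metric
open scoped ArithmeticFunction.vonMangoldt Classical

theorem Good.mono {c c' : ℝ} (h : c' ≤ c) {D : ℕ} (hg : Good c D) : Good c' D := by
  intro q hq χ hχ h2 β hβ
  refine (hg q hq χ hχ h2 β hβ).trans ?_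
  have hlog : 0 ≤ Real.log D := Real.log_natCast_nonneg D
  have : c' / Real.log D ≤ c / Real.log D := div_le_div_of_nonneg_right h hlog
  linarith

theorem density_zeta : ∃ C : ℝ, 1 ≤ C ∧ ∀ D : ℕ, 2 ≤ D → ∀ δ : ℝ, 0 ≤ δ → δ ≤ 1 / 16 →
    nz riemannZeta₁ δ D ≤ Real.exp (C * (1 + δ * Real.log D)) := by
  obtain ⟨C, hC, hg⟩ := Z1_growth
  exact GAT.density_zeta hC hg

theorem gal_zeta' : ∃ C : ℝ, 1 ≤ C ∧ ∃ c : ℝ, 0 < c ∧ ∃ A : ℝ, 1 ≤ A ∧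
    ∀ D : ℕ, 4 ≤ D → ∀ (k : ℕ) (M : ℝ), 2 ≤ M → A * Real.log D ≤ M →
    M ^ 2 ≤ k → 4 * k ≤ D ^ 2 * M → ∀ t : ℝ, |t| ≤ D / 2 →
    ‖SKP (1 : DirichletCharacter ℂ 1) k M t -
        ((k / M : ℝ) / ((k / M : ℝ) + t * I) : ℂ) ^ (k + 1)‖ ≤
      C * Real.exp (-(c * M / Real.log D)) := gal_zeta density_zeta

/-- weights on the primes of a short window around `X'`, almost orthogonal to all nontrivial
characters of conductor at most `X^(124 κ)`, for a good range -/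
theorem gal_weights_final {c₁ : ℝ} (hc₁ : 0 < c₁) : ∃ κ₀ : ℝ, 0 < κ₀ ∧ ∀ κ : ℝ, 0 < κ → κ ≤ κ₀ →
    ∃ X₀ : ℕ, ∀ X : ℕ, X₀ ≤ X → Good c₁ ⌊(X : ℝ) ^ (124 * κ)⌋₊ → ∀ X' : ℝ, (X : ℝ) ≤ X' →
    X' ≤ 2 * X → ∃ (P : Finset ℕ) (u : ℕ → ℝ),
      (∀ p ∈ P, p.Prime ∧ |Real.log ((p : ℝ) / X')| ≤ ((X : ℝ) ^ κ) ^ (-33 : ℝ) ∧ 0 < u p ∧
        u p ≤ ((X : ℝ) ^ κ) ^ (34 : ℝ) / X) ∧ ∑ p ∈ P, u p = 1 ∧
      ∑ q ∈ Icc 1 ⌊(X : ℝ) ^ (124 * κ)⌋₊, ∑ χ ∈ Prm q,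
        ‖∑ p ∈ P, ((u p : ℝ) : ℂ) * χ (p : ZMod q)‖ ≤ 1 / 4 :=
  gal_weights density_zeta hc₁

end Pool.Agent.GA
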