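import Pool.Agent.Lib_helper98.GAF.T0
import Pool.Agent.Lib_helper98.GAF.LSH

/-!
# GA, block WMS: mean squares of prime windows
-/

set_option autoImplicit false

namespace Pool.Agent.GAT

open Pool.Agent.GA

open Finset Complex Metric
open Pool.Agent.Var35 (e)
open Pool.Agent.Var73 (Cd)
open scoped ArithmeticFunction.vonMangoldt ArithmeticFunction.Moebius Classical

theorem wms_Pw {q : ℕ} (χ : DirichletCharacter ℂ q) (j : ℕ) (δ v : ℝ) (a b : ℕ) :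
    Pw χ j δ v a b = ∑ p ∈ (Ioc a b).filter Nat.Prime,
      ((Real.log p ^ (j + 1) / (j.factorial : ℝ) * (p : ℝ) ^ (-(1 + δ)) : ℝ) : ℂ) *
        χ (p : ZMod q) * (p : ℂ) ^ (-(v * I) : ℂ) := by
  unfold Pw
  apply Finset.sum_congr rfl
  intro p hp
  have hpp : p.Prime := (Finset.mem_filter.mp hp).2
  have hp0 : (p : ℂ) ≠ 0 := by exact_mod_cast hpp.ne_zero
  have h1 : (p : ℂ) ^ (-(1 + δ + v * I) : ℂ) =
      (((p : ℝ) ^ (-(1 + δ)) : ℝ) : ℂ) * (p : ℂ) ^ (-(v * I) : ℂ) := by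
    rw [show (-(1 + δ + v * I) : ℂ) = (-(1 + δ) : ℂ) + (-(v * I) : ℂ) by ring,
      Complex.cpow_add _ _ hp0, Complex.ofReal_cpow (Nat.cast_nonneg p)]
    push_cast
    rfl
  rw [h1]
  push_cast
  ring

theorem wms_cont {q : ℕ} (χ : DirichletCharacter ℂ q) (j : ℕ) (δ : ℝ) (a b : ℕ) :
    Continuous (fun v : ℝ => Pw χ j δ v a b) := by
  simp only [wms_Pw]
  apply continuous_finsetSum
  intro p hp
  have hpp : p.Prime := (Finset.mem_filter.mp hp).2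
  have hp0 : (p : ℂ) ≠ 0 := by exact_mod_cast hpp.ne_zero
  apply Continuous.mul continuous_const
  apply Continuous.const_cpow _ (Or.inl hp0)
  fun_prop

/-- `x^k e^(-x) ≤ k!` -/
theorem wms_pow_exp {x : ℝ} (hx : 0 ≤ x) (k : ℕ) : x ^ k * Real.exp (-x) ≤ k.factorial := by
  have h := Real.pow_div_factorial_le_exp x hx k
  have hk : (0 : ℝ) < k.factorial := by exact_mod_cast Nat.factorial_pos k
  rw [div_le_iff₀ hk] at h
  rw [Real.exp_neg, ← div_eq_mul_inv, div_le_iff₀ (Real.exp_pos x)]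
  linarith

theorem wms_fact (j : ℕ) :
    ((2 * j + 1).factorial : ℝ) ≤ (2 * j + 1) * 4 ^ j * (j.factorial : ℝ) ^ 2 := by
  have h1 : ((2 * j).factorial : ℝ) = (Nat.centralBinom j : ℝ) * (j.factorial : ℝ) ^ 2 := by
    have h2 : Nat.centralBinom j * j.factorial * j.factorial = (2 * j).factorial := by
      rw [Nat.centralBinom_eq_two_mul_choose]
      have := Nat.choose_mul_factorial_mul_factorial (n := 2 * j) (k := j) (by omega)
      rw [show 2 * j - j = j by omega] at this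
      exact this
    rw [← h2]
    push_cast
    ring
  have h3 : (Nat.centralBinom j : ℝ) ≤ 4 ^ j := by
    have h4 : Nat.centralBinom j ≤ 4 ^ j := by
      rw [Nat.centralBinom_eq_two_mul_choose]
      calc (2 * j).choose j ≤ ∑ m ∈ Finset.range (2 * j + 1), (2 * j).choose m :=
            Finset.single_le_sum (f := fun m => (2 * j).choose m) (fun _ _ => Nat.zero_le _)
              (Finset.mem_range.mpr (by omega))
        _ = 2 ^ (2 * j) := Nat.sum_range_choose (2 * j)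
        _ = 4 ^ j := by rw [pow_mul]; norm_num
    exact_mod_cast h4
  rw [Nat.factorial_succ]
  push_cast
  rw [h1, mul_assoc]
  apply mul_le_mul_of_nonneg_left _ (by positivity)
  exact mul_le_mul_of_nonneg_right h3 (by positivity)

/-- the contribution of one prime -/
theorem wms_term {δ : ℝ} (hδ : 0 < δ) (j : ℕ) {D p : ℕ} (hp : 2 ≤ p) (hD : D ^ 5 ≤ p) :
    δ ^ (2 * j + 2) * ((p + (D : ℝ) ^ 4 * (2 * D)) *
      (Real.log p ^ (j + 1) / (j.factorial : ℝ) * (p : ℝ) ^ (-(1 + δ))) ^ 2) ≤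
    3 * ((2 * j + 1) * 4 ^ j) * δ * (Real.log p * (p : ℝ) ^ (-(1 + δ))) := by
  have hp0 : (0 : ℝ) < p := by exact_mod_cast (by omega : 0 < p)
  have hlog : 0 ≤ Real.log p := Real.log_nonneg (by exact_mod_cast (by omega : 1 ≤ p))
  have hDp : (D : ℝ) ^ 5 ≤ p := by exact_mod_cast hD
  have h1 : (p : ℝ) + (D : ℝ) ^ 4 * (2 * D) ≤ 3 * p := by nlinarith
  have hj : (0 : ℝ) < j.factorial := by exact_mod_cast Nat.factorial_pos j
  obtain ⟨x, hx⟩ : ∃ x : ℝ, x = δ * Real.log p := ⟨_, rfl⟩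
  have hx0 : 0 ≤ x := by rw [hx]; positivity
  have h2 := wms_pow_exp hx0 (2 * j + 1)
  have h3 := wms_fact j
  have hpd : (p : ℝ) ^ (-(1 + δ)) = (p : ℝ)⁻¹ * Real.exp (-x) := by
    rw [show -(1 + δ) = -1 + -δ by ring, Real.rpow_add hp0, Real.rpow_neg_one,
      Real.rpow_def_of_pos hp0, hx]
    congr 2
    ring
  have h4 : δ ^ (2 * j + 2) * ((3 * p) *
      (Real.log p ^ (j + 1) / (j.factorial : ℝ) * (p : ℝ) ^ (-(1 + δ))) ^ 2) =
      3 * (x ^ (2 * j + 1) * Real.exp (-x)) / (j.factorial : ℝ) ^ 2 * δ *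
        (Real.log p * (p : ℝ) ^ (-(1 + δ))) := by
    rw [hpd]
    have h5 : δ ^ (2 * j + 2) * (Real.log p ^ (j + 1)) ^ 2 = x ^ (2 * j + 1) * (δ * Real.log p) := by
      rw [hx]
      ring
    calc δ ^ (2 * j + 2) * ((3 * p) *
      (Real.log p ^ (j + 1) / (j.factorial : ℝ) * ((p : ℝ)⁻¹ * Real.exp (-x))) ^ 2)
        = (δ ^ (2 * j + 2) * (Real.log p ^ (j + 1)) ^ 2) * (3 * p * (p : ℝ)⁻¹ ^ 2 *
            Real.exp (-x) ^ 2) / (j.factorial : ℝ) ^ 2 := by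
          field_simp
      _ = _ := by
          rw [h5]
          field_simp
  calc δ ^ (2 * j + 2) * ((p + (D : ℝ) ^ 4 * (2 * D)) *
      (Real.log p ^ (j + 1) / (j.factorial : ℝ) * (p : ℝ) ^ (-(1 + δ))) ^ 2)
      ≤ δ ^ (2 * j + 2) * ((3 * p) *
      (Real.log p ^ (j + 1) / (j.factorial : ℝ) * (p : ℝ) ^ (-(1 + δ))) ^ 2) := by
        apply mul_le_mul_of_nonneg_left _ (by positivity)
        exact mul_le_mul_of_nonneg_right h1 (by positivity)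
    _ = 3 * (x ^ (2 * j + 1) * Real.exp (-x)) / (j.factorial : ℝ) ^ 2 * δ *
        (Real.log p * (p : ℝ) ^ (-(1 + δ))) := h4
    _ ≤ 3 * ((2 * j + 1) * 4 ^ j) * δ * (Real.log p * (p : ℝ) ^ (-(1 + δ))) := by
        apply mul_le_mul_of_nonneg_right _ (by positivity)
        apply mul_le_mul_of_nonneg_right _ hδ.le
        rw [div_le_iff₀ (by positivity)]
        nlinarith [h2.trans h3]

theorem wms_sum : ∃ C : ℝ, 1 ≤ C ∧ ∀ δ : ℝ, 0 < δ → δ ≤ 1 → ∀ a b : ℕ,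
    ∑ p ∈ (Ioc a b).filter Nat.Prime, (Real.log p * (p : ℝ) ^ (-(1 + δ))) ≤ C / δ := by
  obtain ⟨C, hC, h⟩ := sum_Lam_rpow
  refine ⟨C, hC, ?_⟩
  intro δ hδ hδ1 a b
  obtain ⟨hs, hle⟩ := h δ hδ hδ1
  refine le_trans ?_ hle
  calc ∑ p ∈ (Ioc a b).filter Nat.Prime, (Real.log p * (p : ℝ) ^ (-(1 + δ)))
      = ∑ p ∈ (Ioc a b).filter Nat.Prime, (Λ p * (p : ℝ) ^ (-(1 + δ))) := by
        apply Finset.sum_congr rfl
        intro p hp
        rw [ArithmeticFunction.vonMangoldt_apply_prime (Finset.mem_filter.mp hp).2]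
    _ ≤ ∑' n : ℕ, Λ n * (n : ℝ) ^ (-(1 + δ)) := by
        apply hs.sum_le_tsum
        intro n _
        exact mul_nonneg ArithmeticFunction.vonMangoldt_nonneg
          (Real.rpow_nonneg (Nat.cast_nonneg n) _)

theorem wms_one : ∃ C : ℝ, 1 ≤ C ∧ ∀ D : ℕ, 2 ≤ D → ∀ δ : ℝ,
    0 < δ → δ ≤ 1 → ∀ a b : ℕ, D ^ 5 ≤ a → ∀ j : ℕ,
    Real.log D * ∑ q ∈ Icc 1 D, ∑ χ ∈ Prp q, ∫ v in (-(2 * D : ℝ))..(2 * D : ℝ),
        (δ ^ (j + 1) * ‖Pw χ j δ v a b‖) ^ 2 ≤ C * ((2 * j + 1) * 4 ^ j) := by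
  obtain ⟨C, hC, hls⟩ := large_sieve_hybrid
  obtain ⟨C', hC', hsum⟩ := wms_sum
  refine ⟨3 * C * C', by nlinarith, ?_⟩
  intro D hD δ hδ hδ1 a b hab j
  have hDr : (2 : ℝ) ≤ D := by exact_mod_cast hD
  obtain ⟨s, hs⟩ : ∃ s : Finset ℕ, s = (Ioc a b).filter Nat.Prime := ⟨_, rfl⟩
  have hsD : ∀ p ∈ s, p.Prime ∧ D ^ 5 < p := by
    intro p hp
    rw [hs, Finset.mem_filter, Finset.mem_Ioc] at hp
    exact ⟨hp.2, lt_of_le_of_lt hab hp.1.1⟩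
  obtain ⟨A, hA⟩ : ∃ A : ℕ → ℝ, A = fun (p : ℕ) =>
    Real.log p ^ (j + 1) / (j.factorial : ℝ) * (p : ℝ) ^ (-(1 + δ)) := ⟨_, rfl⟩
  have hPw : ∀ (q : ℕ) (χ : DirichletCharacter ℂ q) (v : ℝ), Pw χ j δ v a b =
      ∑ p ∈ s, ((A p : ℝ) : ℂ) * χ (p : ZMod q) * (p : ℂ) ^ (-(v * I) : ℂ) := by
    intro q χ v
    rw [wms_Pw, hs, hA]
  have hint : ∀ (q : ℕ) (χ : DirichletCharacter ℂ q), ∫ v in (-(2 * D : ℝ))..(2 * D : ℝ),
        (δ ^ (j + 1) * ‖Pw χ j δ v a b‖) ^ 2 =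
      δ ^ (2 * j + 2) * ∫ v in (-(2 * D : ℝ))..(2 * D : ℝ),
        ‖∑ p ∈ s, ((A p : ℝ) : ℂ) * χ (p : ZMod q) * (p : ℂ) ^ (-(v * I) : ℂ)‖ ^ 2 := by
    intro q χ
    rw [← intervalIntegral.integral_const_mul]
    congr 1
    ext v
    rw [hPw, mul_pow]
    congr 1
    ring
  have hrough : ∀ n ∈ s, 1 ≤ n ∧ ∀ p, p.Prime → p ∣ n → D < p := by
    intro n hn
    obtain ⟨h1, h2⟩ := hsD n hn
    refine ⟨h1.one_lt.le, ?_⟩
    intro p hp hpn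
    have : p = n := (Nat.prime_dvd_prime_iff_eq hp h1).mp hpn
    rw [this]
    have h3 : D ≤ D ^ 5 := Nat.le_self_pow (by norm_num) D
    omega
  have hmain := hls D hD (2 * D) (by linarith) s hrough (fun p => ((A p : ℝ) : ℂ))
  have heq : Real.log D * ∑ q ∈ Icc 1 D, ∑ χ ∈ Prp q, ∫ v in (-(2 * D : ℝ))..(2 * D : ℝ),
        (δ ^ (j + 1) * ‖Pw χ j δ v a b‖) ^ 2 =
      δ ^ (2 * j + 2) * (Real.log D * ∑ q ∈ Icc 1 D, ∑ χ ∈ Prp q,
        ∫ v in (-(2 * D : ℝ))..(2 * D : ℝ),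
        ‖∑ p ∈ s, ((A p : ℝ) : ℂ) * χ (p : ZMod q) * (p : ℂ) ^ (-(v * I) : ℂ)‖ ^ 2) := by
    simp only [hint]
    rw [show δ ^ (2 * j + 2) * (Real.log D * ∑ q ∈ Icc 1 D, ∑ χ ∈ Prp q,
        ∫ v in (-(2 * D : ℝ))..(2 * D : ℝ),
        ‖∑ p ∈ s, ((A p : ℝ) : ℂ) * χ (p : ZMod q) * (p : ℂ) ^ (-(v * I) : ℂ)‖ ^ 2) =
      Real.log D * (δ ^ (2 * j + 2) * ∑ q ∈ Icc 1 D, ∑ χ ∈ Prp q,
        ∫ v in (-(2 * D : ℝ))..(2 * D : ℝ),
        ‖∑ p ∈ s, ((A p : ℝ) : ℂ) * χ (p : ZMod q) * (p : ℂ) ^ (-(v * I) : ℂ)‖ ^ 2) by ring]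
    congr 1
    rw [Finset.mul_sum]
    apply Finset.sum_congr rfl
    intro q _
    rw [Finset.mul_sum]
  rw [heq]
  have hterm : ∀ p ∈ s, δ ^ (2 * j + 2) * ((p + (D : ℝ) ^ 4 * (2 * D)) * ‖((A p : ℝ) : ℂ)‖ ^ 2) ≤
      3 * ((2 * j + 1) * 4 ^ j) * δ * (Real.log p * (p : ℝ) ^ (-(1 + δ))) := by
    intro p hp
    obtain ⟨h1, h2⟩ := hsD p hp
    have h3 := wms_term hδ j h1.two_le h2.le
    rw [Complex.norm_real, Real.norm_eq_abs, sq_abs, hA]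
    exact h3
  calc δ ^ (2 * j + 2) * (Real.log D * ∑ q ∈ Icc 1 D, ∑ χ ∈ Prp q,
        ∫ v in (-(2 * D : ℝ))..(2 * D : ℝ),
        ‖∑ p ∈ s, ((A p : ℝ) : ℂ) * χ (p : ZMod q) * (p : ℂ) ^ (-(v * I) : ℂ)‖ ^ 2)
      ≤ δ ^ (2 * j + 2) * (C * ∑ p ∈ s, (p + (D : ℝ) ^ 4 * (2 * D)) * ‖((A p : ℝ) : ℂ)‖ ^ 2) :=
        mul_le_mul_of_nonneg_left hmain (by positivity)
    _ = C * ∑ p ∈ s, δ ^ (2 * j + 2) * ((p + (D : ℝ) ^ 4 * (2 * D)) * ‖((A p : ℝ) : ℂ)‖ ^ 2) := by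
        rw [← Finset.mul_sum]
        ring
    _ ≤ C * ∑ p ∈ s, 3 * ((2 * j + 1) * 4 ^ j) * δ * (Real.log p * (p : ℝ) ^ (-(1 + δ))) :=
        mul_le_mul_of_nonneg_left (Finset.sum_le_sum hterm) (by linarith)
    _ = C * (3 * ((2 * j + 1) * 4 ^ j) * δ * ∑ p ∈ s, (Real.log p * (p : ℝ) ^ (-(1 + δ)))) := by
        rw [← Finset.mul_sum]
    _ ≤ C * (3 * ((2 * j + 1) * 4 ^ j) * δ * (C' / δ)) := by
        apply mul_le_mul_of_nonneg_left _ (by linarith)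
        apply mul_le_mul_of_nonneg_left _ (by positivity)
        rw [hs]
        exact hsum δ hδ hδ1 a b
    _ = 3 * C * C' * ((2 * j + 1) * 4 ^ j) := by
        field_simp

theorem window_mean_square : ∃ C : ℝ, 1 ≤ C ∧ ∀ D : ℕ, 2 ≤ D → ∀ K : ℕ, 1 ≤ K → ∀ δ : ℝ,
    0 < δ → δ ≤ 1 → ∀ a b : ℕ, D ^ 5 ≤ a →
    Real.log D * ∑ q ∈ Icc 1 D, ∑ χ ∈ Prp q, ∫ v in (-(2 * D : ℝ))..(2 * D : ℝ),
        ∑ j ∈ Icc K (2 * K), (δ ^ (j + 1) * ‖Pw χ j δ v a b‖) ^ 2 ≤ C ^ K := by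
  obtain ⟨C, hC, hone⟩ := wms_one
  refine ⟨C * 160, by linarith, ?_⟩
  intro D hD K hK δ hδ hδ1 a b hab
  have hexch : ∀ (q : ℕ) (χ : DirichletCharacter ℂ q), ∫ v in (-(2 * D : ℝ))..(2 * D : ℝ),
        ∑ j ∈ Icc K (2 * K), (δ ^ (j + 1) * ‖Pw χ j δ v a b‖) ^ 2 =
      ∑ j ∈ Icc K (2 * K), ∫ v in (-(2 * D : ℝ))..(2 * D : ℝ),
        (δ ^ (j + 1) * ‖Pw χ j δ v a b‖) ^ 2 := by
    intro q χ
    apply intervalIntegral.integral_finsetSum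
    intro j _
    apply Continuous.intervalIntegrable
    exact (continuous_const.mul (wms_cont χ j δ a b).norm).pow 2
  simp only [hexch]
  have hswap : ∑ q ∈ Icc 1 D, ∑ χ ∈ Prp q, ∑ j ∈ Icc K (2 * K),
        ∫ v in (-(2 * D : ℝ))..(2 * D : ℝ), (δ ^ (j + 1) * ‖Pw χ j δ v a b‖) ^ 2 =
      ∑ j ∈ Icc K (2 * K), ∑ q ∈ Icc 1 D, ∑ χ ∈ Prp q,
        ∫ v in (-(2 * D : ℝ))..(2 * D : ℝ), (δ ^ (j + 1) * ‖Pw χ j δ v a b‖) ^ 2 := by
    rw [Finset.sum_comm]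
    apply Finset.sum_congr rfl
    intro q _
    rw [Finset.sum_comm]
  rw [hswap, Finset.mul_sum]
  calc ∑ j ∈ Icc K (2 * K), Real.log D * ∑ q ∈ Icc 1 D, ∑ χ ∈ Prp q,
        ∫ v in (-(2 * D : ℝ))..(2 * D : ℝ), (δ ^ (j + 1) * ‖Pw χ j δ v a b‖) ^ 2
      ≤ ∑ j ∈ Icc K (2 * K), C * ((4 * K + 1) * 16 ^ K) := by
        apply Finset.sum_le_sum
        intro j hj
        refine (hone D hD δ hδ hδ1 a b hab j).trans ?_
        apply mul_le_mul_of_nonneg_left _ (by linarith)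
        rw [Finset.mem_Icc] at hj
        have h1 : (j : ℝ) ≤ 2 * K := by exact_mod_cast hj.2
        have h2 : (4 : ℝ) ^ j ≤ 16 ^ K := by
          calc (4 : ℝ) ^ j ≤ 4 ^ (2 * K) := pow_le_pow_right₀ (by norm_num) hj.2
            _ = 16 ^ K := by rw [pow_mul]; norm_num
        apply mul_le_mul _ h2 (by positivity) (by positivity)
        linarith
    _ = (K + 1) * (C * ((4 * K + 1) * 16 ^ K)) := by
        rw [Finset.sum_const, Nat.card_Icc, nsmul_eq_mul, show 2 * K + 1 - K = K + 1 by omega]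
        push_cast
        ring
    _ ≤ 2 ^ K * (C ^ K * (5 ^ K * 16 ^ K)) := by
        have h1 : (K : ℝ) + 1 ≤ 2 ^ K := by
          have := one_add_mul_le_pow (a := (1 : ℝ)) (by norm_num) K
          norm_num at this
          linarith
        have h2 : 4 * (K : ℝ) + 1 ≤ 5 ^ K := by
          have := one_add_mul_le_pow (a := (4 : ℝ)) (by norm_num) K
          norm_num at this
          linarith
        have h3 : C ≤ C ^ K := le_self_pow₀ hC (by omega)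
        apply mul_le_mul h1 _ (by positivity) (by positivity)
        apply mul_le_mul h3 _ (by positivity) (by positivity)
        exact mul_le_mul_of_nonneg_right h2 (by positivity)
    _ = (C * 160) ^ K := by
        rw [mul_pow, show (160 : ℝ) = 2 * 5 * 16 by norm_num, mul_pow, mul_pow]
        ring

end Pool.Agent.GAT
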