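import Pool.Agent.Lib_helper98.GAF.X4
import Pool.Agent.Lib_helper98.GAF.Lbd

/-!
# GA part X, file 5: the zeta function: zero-free region and primes in the windows
-/

set_option autoImplicit false
set_option linter.unusedSectionVars false

namespace Pool.Agent.GA

open Finset Complex Metric Filter
open scoped ArithmeticFunction.vonMangoldt Classical Topology

theorem x5_ne : riemannZeta₁ 1 ≠ 0 := by
  rw [riemannZeta₁_one]; exact one_ne_zero

/-- no zeros close to the line with a bounded imaginary part -/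
theorem x5_low : ∃ c : ℝ, 0 < c ∧ ∀ ρ : ℂ, riemannZeta₁ ρ = 0 → |ρ.im| ≤ 1 → ρ.re ≤ 1 - c := by
  have hf := differentiable_riemannZeta₁
  set S := zr riemannZeta₁ (1 / 16) 1 with hS
  have hmem := fun ρ => mem_zr hf x5_ne (1 / 16) 1 ρ
  have hkey : ∃ c : ℝ, 0 < c ∧ ∀ ρ ∈ S, c ≤ 1 - ρ.re := by
    by_cases h : S.Nonempty
    · obtain ⟨ρ₀, h0, hmin⟩ := S.exists_min_image (fun ρ => 1 - ρ.re) h
      refine ⟨1 - ρ₀.re, ?_, hmin⟩
      have := z2_zero ((hmem ρ₀).1 h0).1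
      linarith
    · refine ⟨1, one_pos, fun ρ hρ => absurd ⟨ρ, hρ⟩ h⟩
  obtain ⟨c, hc, h⟩ := hkey
  refine ⟨min c (1 / 16), by positivity, fun ρ hρ him => ?_⟩
  by_cases h1 : 1 - 1 / 16 ≤ ρ.re
  · have h2 := h ρ ((hmem ρ).2 ⟨hρ, h1, (z2_zero hρ).le, him⟩)
    have := min_le_left c (1 / 16)
    linarith
  · push Not at h1
    have := min_le_right c (1 / 16)
    linarith

/-- the zero-free region of the zeta function -/
theorem zero_free_zeta : ∃ c : ℝ, 0 < c ∧ ∀ D : ℕ, 2 ≤ D → ∀ ρ : ℂ, riemannZeta₁ ρ = 0 →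
    |ρ.im| ≤ D → ρ.re ≤ 1 - c / Real.log D := by
  obtain ⟨C, hC, hP⟩ := z2_zeta_upper
  obtain ⟨c₂, hc₂, hlow⟩ := x5_low
  set a : ℝ := 1 / (64 * C) with ha
  have ha0 : 0 < a := by positivity
  have haC : a * C = 1 / 64 := by rw [ha]; field_simp
  have ha1 : a ≤ 1 / 64 := by nlinarith
  obtain ⟨A, hA, hpar⟩ := z3_par ha0
  refine ⟨min (min ((1 / 14) * a / A) (1 / 32)) (c₂ / 2), by positivity, fun D hD ρ hρ him => ?_⟩
  have hDR : (2 : ℝ) ≤ D := by exact_mod_cast hD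
  have hl2 : (1 : ℝ) / 2 ≤ Real.log 2 := by
    have := Real.log_two_gt_d9; linarith
  have hlD : Real.log 2 ≤ Real.log D := Real.log_le_log (by norm_num) hDR
  have hlD0 : 0 < Real.log D := by linarith
  by_cases hγ : |ρ.im| ≤ 1
  · have h1 := hlow ρ hρ hγ
    have h2 : min (min ((1 / 14) * a / A) (1 / 32)) (c₂ / 2) / Real.log D ≤ c₂ := by
      rw [div_le_iff₀ hlD0]
      have := min_le_right (min ((1 / 14) * a / A) (1 / 32)) (c₂ / 2)
      nlinarith
    linarith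
  push Not at hγ
  have hmain : ρ.re ≤ 1 - min ((1 / 14) * a / A) (1 / 32) / Real.log D := by
    obtain ⟨hℒ1, hexp, hσa, hlt, -⟩ := hpar D hD
    apply z3_final ha0 hA (by norm_num) hD
    by_cases hcase : 1 / 16 ≤ 1 - ρ.re
    · left; exact hcase
    right
    push Not at hcase
    set ℒ : ℝ := A * Real.log D with hℒ
    set σ : ℝ := a / ℒ with hσ
    have hσ0 : 0 < σ := by positivity
    have hσ1 : σ ≤ 1 / 16 := by linarith
    have h1D : 1 ∈ Icc 1 D := Finset.mem_Icc.2 ⟨le_rfl, by omega⟩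
    have hre := z2_zero hρ
    set x : ℝ := 1 - ρ.re with hx
    have hx0 : 0 < x := by linarith
    have hy : ∀ y : ℝ, |y| ≤ 2 * D → |y| + 2 ≤ Real.exp ℒ := fun y hy =>
      (z2_L (hlt 1 h1D y hy)).1
    have h0 := pos_341 (1 : DirichletCharacter ℂ 1) ρ.im hσ0
    have h1 := hP 0 σ ℒ (hy 0 (by rw [abs_zero]; positivity)) hℒ1 hexp hσ1 ∅ (by simp)
    have h2 := hP ρ.im σ ℒ (hy ρ.im (by linarith)) hℒ1 hexp hσ1 {ρ} (by
      intro ρ' hρ'
      rw [Finset.mem_singleton] at hρ'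
      subst hρ'
      refine ⟨hρ, ?_⟩
      have e : (1 + σ + ρ'.im * I - ρ' : ℂ) = ((σ + x : ℝ) : ℂ) := by
        apply Complex.ext <;> simp [hx]; ring
      rw [e, Complex.norm_real, Real.norm_of_nonneg (by positivity)]
      linarith)
    have h3 := hP (2 * ρ.im) σ ℒ (hy (2 * ρ.im) (by
      rw [abs_mul, abs_of_pos (by norm_num : (0 : ℝ) < 2)]; linarith)) hℒ1 hexp hσ1 ∅ (by simp)
    rw [one_pow] at h0
    rw [Finset.sum_singleton] at h2
    rw [Finset.sum_empty, sub_zero] at h1 h3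
    have e : (1 + σ + ρ.im * I - ρ : ℂ) = ((σ + x : ℝ) : ℂ) := by
      apply Complex.ext <;> simp [hx]; ring
    rw [e, z3_inv hσ0 hx0] at h2
    rw [z1_c0] at h1
    have e2 : σ / (σ ^ 2 + 0 ^ 2) = 1 / σ := by field_simp; ring
    rw [e2] at h1
    have hγ2 : 1 ≤ ρ.im ^ 2 := by
      rw [← sq_abs]; nlinarith [abs_nonneg ρ.im]
    have e3 : ∀ y : ℝ, 1 ≤ y ^ 2 → σ / (σ ^ 2 + y ^ 2) ≤ 1 := by
      intro y hy
      rw [div_le_one (by positivity)]
      nlinarith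
    have hCL : C * ℒ = 1 / (64 * σ) := by
      have : C * ℒ * σ = 1 / 64 := by
        rw [hσ, ← haC]; field_simp
      field_simp
      linarith
    have hCL1 : 1 ≤ C * ℒ := by nlinarith
    have h4 : 4 * (1 / (σ + x)) ≤ 3 * (1 / σ) + 13 * (1 / (64 * σ)) := by
      have h5 := e3 ρ.im hγ2
      have h6 := e3 (2 * ρ.im) (by nlinarith)
      rw [← hCL]
      linarith
    have h5 : 4 * σ ≤ (3 + 13 / 64) * (σ + x) := by
      have h6 : 3 * (1 / σ) + 13 * (1 / (64 * σ)) = (3 + 13 / 64) / σ := by field_simp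
      rw [h6, mul_one_div, div_le_div_iff₀ (by positivity) hσ0] at h4
      linarith
    linarith
  have h2 : min (min ((1 / 14) * a / A) (1 / 32)) (c₂ / 2) / Real.log D ≤
      min ((1 / 14) * a / A) (1 / 32) / Real.log D :=
    div_le_div_of_nonneg_right (min_le_left _ _) hlD0.le
  linarith

/-! ## The explicit formula -/

theorem x5_LF : LF (1 : DirichletCharacter ℂ 1) = riemannZeta := by
  rw [LF_eq, DirichletCharacter.LFunction_modOne_eq]

theorem x5_logDeriv {c : ℂ} (hc : 1 < c.re) (k : ℕ) :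
    iteratedDeriv k (logDeriv riemannZeta₁) c = (-1) ^ k * k.factorial / (c - 1) ^ (k + 1) +
      iteratedDeriv k (logDeriv riemannZeta) c := by
  have hU : IsOpen {s : ℂ | 1 < s.re} := isOpen_lt continuous_const Complex.continuous_re
  have hne : ∀ s : ℂ, 1 < s.re → s ≠ 1 := by
    rintro s hs rfl
    simp at hs
  have h1 : logDeriv riemannZeta₁ =ᶠ[𝓝 c] fun s => (s - 1)⁻¹ + logDeriv riemannZeta s := by
    filter_upwards [hU.mem_nhds hc] with s hs
    have hs1 := hne s hs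
    have h1 : riemannZeta₁ =ᶠ[𝓝 s] fun s => (s - 1) * riemannZeta s := by
      filter_upwards [isOpen_ne.mem_nhds hs1] with z hz
      exact z2_f1 hz
    have h2 : logDeriv riemannZeta₁ s = logDeriv (fun s => (s - 1) * riemannZeta s) s := by
      rw [logDeriv_apply, logDeriv_apply, h1.deriv_eq, h1.eq_of_nhds]
    have hζ : riemannZeta s ≠ 0 := riemannZeta_ne_zero_of_one_le_re (le_of_lt hs)
    have h5 := logDeriv_mul (f := fun s : ℂ => s - 1) (g := riemannZeta) s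
      (sub_ne_zero.2 hs1) hζ (by fun_prop) (differentiableAt_riemannZeta hs1)
    rw [h2, h5]
    congr 1
    rw [logDeriv_apply]
    simp
  have hanζ : AnalyticOnNhd ℂ riemannZeta {s : ℂ | 1 < s.re} :=
    DifferentiableOn.analyticOnNhd (fun s hs =>
      (differentiableAt_riemannZeta (hne s hs)).differentiableWithinAt) hU
  have han : AnalyticOnNhd ℂ (logDeriv riemannZeta) {s : ℂ | 1 < s.re} := by
    intro s hs
    have h2 := (hanζ.deriv s hs).div (hanζ s hs) (riemannZeta_ne_zero_of_one_le_re (le_of_lt hs))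
    exact h2
  have hc1 : c - 1 ≠ 0 := sub_ne_zero.2 (hne c hc)
  have h2 : AnalyticAt ℂ (fun s : ℂ => (s - 1)⁻¹) c :=
    (analyticAt_id.sub analyticAt_const).inv hc1
  rw [h1.iteratedDeriv_eq]
  have h3 : (fun s : ℂ => (s - 1)⁻¹ + logDeriv riemannZeta s) =
      (fun s : ℂ => (s - 1)⁻¹) + logDeriv riemannZeta := rfl
  rw [h3, iteratedDeriv_add h2.contDiffAt (han c hc).contDiffAt, iterD_inv_sub]

theorem x5_alg (s f e G Z w : ℂ) (hf : f ≠ 0) :
    s * ((e * f / w + -(e * G)) / f) - e * Z = -e * ((s / f * G - s / w) + Z) := by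
  by_cases hw : w = 0
  · subst hw
    simp only [div_zero, zero_add, sub_zero]
    field_simp
    ring
  · field_simp
    ring

/-- the sum over prime powers is bounded by the zeros -/
theorem x5_one : ∀ (k : ℕ) (M t D : ℝ), 1 ≤ M → M ^ 2 ≤ k → |t| + Real.sqrt (k / M) ≤ D →
    ‖SK (1 : DirichletCharacter ℂ 1) k M t -
        ((k / M : ℝ) / ((k / M : ℝ) + t * I) : ℂ) ^ (k + 1)‖ ≤
      ∑ ρ ∈ zr riemannZeta₁ (1 / 16) D, mlt riemannZeta₁ ρ *
        Real.exp (-(M * (1 - ρ.re) / 4)) +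
      72 * (k + 1) * (k / M) * Real.log (3 * (5 * 1) * (2 * (k / M) + |t| + 4) ^ 2) *
        Real.exp (-(M / 33)) := by
  intro k M t D hM hk hD
  have hd := differentiable_riemannZeta₁
  have hk0 : (0 : ℝ) < k := by nlinarith
  set σ : ℝ := k / M with hσd
  have hσ : 1 ≤ σ := by rw [hσd, le_div_iff₀ (by linarith)]; nlinarith
  have hkσ : k / σ = M := by rw [hσd]; field_simp
  have hcre' : (1 + (σ : ℂ) + t * I : ℂ).re = 1 + σ := by simp
  have hcre : 1 < (1 + (σ : ℂ) + t * I : ℂ).re := by rw [hcre']; linarith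
  have hc1 : (1 + (σ : ℂ) + t * I : ℂ) ≠ 1 := by
    intro h
    have := congrArg Complex.re h
    rw [hcre', Complex.one_re] at this
    linarith
  have hlow : 1 / 3 ≤ ‖riemannZeta₁ (1 + σ + t * I)‖ := by
    have h1 := LF_lower (1 : DirichletCharacter ℂ 1) hcre
    rw [x5_LF, hcre'] at h1
    have h2 : min 1 (1 + σ - 1) = 1 := min_eq_left (by linarith)
    rw [h2] at h1
    rw [z2_f1 hc1, norm_mul]
    have h3 : 1 ≤ ‖(1 + σ + t * I : ℂ) - 1‖ := by
      have h4 := Complex.re_le_norm ((1 + σ + t * I : ℂ) - 1)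
      rw [Complex.sub_re, hcre', Complex.one_re] at h4
      linarith
    nlinarith [norm_nonneg (riemannZeta (1 + σ + t * I))]
  have h1 := x2_explicit hd (B₀ := 5 * 1) (by norm_num) (fun s hs => by
    have := z2_growth hs
    rwa [mul_one]) hσ hlow k
  rw [x5_logDeriv hcre, hkσ] at h1
  have hG := LF_deriv (1 : DirichletCharacter ℂ 1) k hcre
  rw [x5_LF] at hG
  rw [hG] at h1
  obtain ⟨-, hSK⟩ := SK_eq (1 : DirichletCharacter ℂ 1) (k := k) (M := M) (by positivity) t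
  rw [← hσd] at hSK
  set c : ℂ := 1 + σ + t * I with hc
  set Z : ℂ := ∑ ρ ∈ zb riemannZeta₁ c (σ + 1 / 16),
    (mlt riemannZeta₁ ρ : ℂ) * ((σ : ℂ) / (c - ρ)) ^ (k + 1) with hZ
  have hcs : c - 1 = (σ : ℂ) + t * I := by rw [hc]; ring
  have hcs0 : c - 1 ≠ 0 := sub_ne_zero.2 hc1
  have hkf : (k.factorial : ℂ) ≠ 0 := by exact_mod_cast k.factorial_ne_zero
  have h2 : ((σ ^ (k + 1) : ℝ) : ℂ) * (((-1) ^ k * k.factorial / (c - 1) ^ (k + 1) +
      -((-1) ^ k * Gj (1 : DirichletCharacter ℂ 1) k c)) / (k.factorial : ℂ)) - (-1) ^ k * Z =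
      -((-1) ^ k) * ((SK (1 : DirichletCharacter ℂ 1) k M t -
        ((σ : ℂ) / ((σ : ℂ) + t * I)) ^ (k + 1)) + Z) := by
    have e1 : (((σ ^ (k + 1) / k.factorial : ℝ)) : ℂ) =
        ((σ ^ (k + 1) : ℝ) : ℂ) / (k.factorial : ℂ) := by
      rw [Complex.ofReal_div, Complex.ofReal_natCast]
    have e2 : ((σ : ℂ) / (c - 1)) ^ (k + 1) = ((σ ^ (k + 1) : ℝ) : ℂ) / (c - 1) ^ (k + 1) := by
      rw [div_pow, Complex.ofReal_pow]
    rw [hSK, ← hcs, e1, e2]
    exact x5_alg _ _ _ _ _ _ hkf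
  rw [h2, norm_mul, norm_neg, norm_pow, norm_neg, norm_one, one_pow, one_mul] at h1
  have h3 : ‖Z‖ ≤ ∑ ρ ∈ zr riemannZeta₁ (1 / 16) D, mlt riemannZeta₁ ρ *
      Real.exp (-(M * (1 - ρ.re) / 4)) := by
    have hzc : riemannZeta₁ 1 ≠ 0 := x5_ne
    have hsub : ∀ ρ ∈ zb riemannZeta₁ c (σ + 1 / 16), ρ ∈ zr riemannZeta₁ (1 / 16) D ∧
        ‖((σ : ℂ) / (c - ρ)) ^ (k + 1)‖ ≤ Real.exp (-(M * (1 - ρ.re) / 4)) := by
      intro ρ hρ
      obtain ⟨hz, hb⟩ := (mem_zb hd hzc c _ ρ).1 hρ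
      have hre := z2_zero hz
      rw [mem_closedBall, dist_comm, dist_eq_norm] at hb
      obtain ⟨h4, h5, h6⟩ := x2_term hσ hre.le hb k
      rw [hkσ] at h6
      refine ⟨?_, h6⟩
      rw [mem_zr hd hzc]
      refine ⟨hz, h4, hre.le, ?_⟩
      have h7 : |ρ.im| ≤ |ρ.im - t| + |t| := by
        have := abs_add_le (ρ.im - t) t
        simpa using this
      linarith
    have hm : ∀ ρ, 0 ≤ mlt riemannZeta₁ ρ := fun ρ => by unfold mlt; positivity
    calc ‖Z‖ ≤ ∑ ρ ∈ zb riemannZeta₁ c (σ + 1 / 16), ‖(mlt riemannZeta₁ ρ : ℂ) *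
          ((σ : ℂ) / (c - ρ)) ^ (k + 1)‖ := norm_sum_le _ _
      _ ≤ ∑ ρ ∈ zb riemannZeta₁ c (σ + 1 / 16), mlt riemannZeta₁ ρ *
          Real.exp (-(M * (1 - ρ.re) / 4)) := by
          apply Finset.sum_le_sum
          intro ρ hρ
          rw [norm_mul, Complex.norm_real, Real.norm_of_nonneg (hm ρ)]
          exact mul_le_mul_of_nonneg_left (hsub ρ hρ).2 (hm ρ)
      _ ≤ _ := Finset.sum_le_sum_of_subset_of_nonneg (fun ρ hρ => (hsub ρ hρ).1)
          fun ρ _ _ => mul_nonneg (hm ρ) (Real.exp_pos _).le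
  set W : ℂ := SK (1 : DirichletCharacter ℂ 1) k M t -
        ((σ : ℂ) / ((σ : ℂ) + t * I)) ^ (k + 1) with hW
  have h4 : ‖W‖ ≤ ‖W + Z‖ + ‖Z‖ := by
    have := norm_sub_le (W + Z) Z
    simpa using this
  linarith

/-- primes in the windows: prime number theorem with the zero density estimate for the zeta
function as a hypothesis -/
theorem gal_zeta (hden : ∃ C : ℝ, 1 ≤ C ∧ ∀ D : ℕ, 2 ≤ D → ∀ δ : ℝ, 0 ≤ δ → δ ≤ 1 / 16 →
      nz riemannZeta₁ δ D ≤ Real.exp (C * (1 + δ * Real.log D))) :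
    ∃ C : ℝ, 1 ≤ C ∧ ∃ c : ℝ, 0 < c ∧ ∃ A : ℝ, 1 ≤ A ∧
    ∀ D : ℕ, 4 ≤ D → ∀ (k : ℕ) (M : ℝ), 2 ≤ M → A * Real.log D ≤ M →
    M ^ 2 ≤ k → 4 * k ≤ D ^ 2 * M → ∀ t : ℝ, |t| ≤ D / 2 →
    ‖SKP (1 : DirichletCharacter ℂ 1) k M t -
        ((k / M : ℝ) / ((k / M : ℝ) + t * I) : ℂ) ^ (k + 1)‖ ≤
      C * Real.exp (-(c * M / Real.log D)) := by
  obtain ⟨Cd, hCd, hden⟩ := hden
  obtain ⟨c₀, hc₀, hzf⟩ := zero_free_zeta
  obtain ⟨C₂, hC₂, hpp⟩ := x3_SK_sub_SKP
  refine ⟨2 * Real.exp (2 * Cd) + 5000000 + C₂, by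
      have := Real.exp_pos (2 * Cd)
      nlinarith, min (c₀ / 8) (1 / 264), by positivity,
    max (8 * Cd + 8) 1500, le_trans (by norm_num) (le_max_right _ _),
    fun D hD k M hM2 hMA hk hk4 t ht => ?_⟩
  have hD2 : 2 ≤ D := by omega
  have hDR : (4 : ℝ) ≤ D := by exact_mod_cast hD
  set L : ℝ := Real.log D with hL
  have hL0 : 0 < L := Real.log_pos (by linarith)
  set K : ℝ := M / L with hK
  have hKL : K * L = M := by rw [hK]; field_simp
  have hM1500 : 1500 * L ≤ M := by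
    have := mul_le_mul_of_nonneg_right (le_max_right (8 * Cd + 8) 1500) hL0.le
    linarith
  have hMCd : 8 * Cd + 8 ≤ K := by
    rw [hK, le_div_iff₀ hL0]
    have := mul_le_mul_of_nonneg_right (le_max_left (8 * Cd + 8) 1500) hL0.le
    linarith
  have hk0 : (0 : ℝ) < k := by nlinarith
  have hσ1 : k / M ≤ (D / 2 : ℝ) ^ 2 := by
    rw [div_le_iff₀ (by linarith)]; nlinarith
  have hsq : Real.sqrt (k / M) ≤ D / 2 := by
    rw [Real.sqrt_le_left (by linarith)]; exact hσ1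
  have hDsq : (1 : ℝ) ≤ (D : ℝ) ^ 2 := by nlinarith
  have h2 := x5_one k M t D (by linarith) hk (by linarith)
  have h3 := x3_err (C := 5) (by norm_num) hD2 (by linarith) hM1500 hk hk4 ht (q := 1) le_rfl
    (by linarith)
  have h3' : 72 * (k + 1) * (k / M) * Real.log (3 * (5 * 1) * (2 * (k / M) + |t| + 4) ^ 2) *
        Real.exp (-(M / 33)) ≤ 5000000 * Real.exp (-(M / 132)) := by
    have h4 : 0 ≤ 72 * (k + 1) * (k / M) * Real.log (3 * (5 * 1) * (2 * (k / M) + |t| + 4) ^ 2) *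
        Real.exp (-(M / 33)) := by
      have h5 : 0 ≤ Real.log (3 * (5 * 1) * (2 * (k / M) + |t| + 4) ^ 2) := by
        apply Real.log_nonneg
        have h6 : 0 ≤ k / M := by positivity
        nlinarith [abs_nonneg t, sq_nonneg (2 * (k / M) + |t| + 4)]
      positivity
    have h5 := mul_le_mul_of_nonneg_right hDsq h4
    linarith
  have hzeros : ∑ ρ ∈ zr riemannZeta₁ (1 / 16) D, mlt riemannZeta₁ ρ *
      Real.exp (-(K * L * (1 - ρ.re) / 4)) ≤
      2 * Real.exp (2 * Cd) * Real.exp (-(c₀ * K / 8)) := by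
    have h2 := x2_zero_sum ({()} : Finset Unit) (fun _ => riemannZeta₁) (fun _ => 1)
      (D := D) (L := L) (K := K) (c₀ := c₀) (Cd := Cd)
      (fun _ _ => differentiable_riemannZeta₁) (fun _ _ => x5_ne) hL0 (by linarith) hMCd
      (fun _ _ ρ hρ him => hzf D hD2 ρ hρ him)
      (fun δ hδ hδ1 => by
        rw [Finset.sum_singleton]
        exact hden D hD2 δ hδ hδ1)
    rw [Finset.sum_singleton] at h2
    exact h2
  rw [hKL] at hzeros
  have h4 := hpp 1 (1 : DirichletCharacter ℂ 1) k M t hM2 hk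
  have h5 : C₂ * (k / M / Real.sqrt k) * Real.exp (-(M / 4)) ≤ C₂ * Real.exp (-(M / 8)) := by
    have h1 : k / M / Real.sqrt k ≤ (D : ℝ) ^ 2 := by
      have h2 : k / M ≤ (D : ℝ) ^ 2 / 4 := by
        rw [div_le_iff₀ (by linarith)]; linarith
      have h3 : 1 ≤ Real.sqrt k := by
        rw [Real.one_le_sqrt]; nlinarith
      refine (div_le_self (by positivity) h3).trans ?_
      linarith
    have h2 : (D : ℝ) ^ 2 * Real.exp (-((1 / 8) * M)) ≤ 1 :=
      x3_pow hD2 rfl (by norm_num) (by push_cast; linarith)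
    have h3 : Real.exp (-(M / 4)) = Real.exp (-((1 / 8) * M)) * Real.exp (-(M / 8)) := by
      rw [← Real.exp_add]; congr 1; ring
    calc C₂ * (k / M / Real.sqrt k) * Real.exp (-(M / 4)) ≤
        C₂ * (D : ℝ) ^ 2 * Real.exp (-(M / 4)) := by gcongr
      _ = C₂ * ((D : ℝ) ^ 2 * Real.exp (-((1 / 8) * M))) * Real.exp (-(M / 8)) := by
          rw [h3]; ring
      _ ≤ C₂ * 1 * Real.exp (-(M / 8)) := by gcongr
      _ = _ := by ring
  set m : ℝ := min (c₀ / 8) (1 / 264) with hm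
  have hm0 : 0 < m := by positivity
  have e1 : Real.exp (-(c₀ * K / 8)) ≤ Real.exp (-(m * M / L)) := by
    apply Real.exp_le_exp.2
    have h6 : m * M / L = m * K := by
      rw [hK]; ring
    rw [h6]
    have h7 : 0 ≤ K := by positivity
    have := mul_le_mul_of_nonneg_right (min_le_left (c₀ / 8) (1 / 264)) h7
    linarith
  have hmle : m ≤ 1 / 264 := min_le_right _ _
  have e2 : Real.exp (-(M / 132)) ≤ Real.exp (-(m * M / L)) := by
    have h7 := x4_exp hD2 (a := 1 / 132) (c := m) (M := M) (by linarith) (by linarith) hm0.le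
    have e : (1 / 132 : ℝ) * M = M / 132 := by ring
    rw [e] at h7
    exact h7
  have e3 : Real.exp (-(M / 8)) ≤ Real.exp (-(m * M / L)) := by
    have h7 := x4_exp hD2 (a := 1 / 8) (c := m) (M := M) (by linarith) (by linarith) hm0.le
    have e : (1 / 8 : ℝ) * M = M / 8 := by ring
    rw [e] at h7
    exact h7
  set P : ℂ := ((k / M : ℝ) / ((k / M : ℝ) + t * I) : ℂ) ^ (k + 1) with hP
  have h6 : ‖SKP (1 : DirichletCharacter ℂ 1) k M t - P‖ ≤
      ‖SK (1 : DirichletCharacter ℂ 1) k M t - P‖ +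
        ‖SK (1 : DirichletCharacter ℂ 1) k M t - SKP (1 : DirichletCharacter ℂ 1) k M t‖ := by
    have := norm_sub_le (SK (1 : DirichletCharacter ℂ 1) k M t - P)
      (SK (1 : DirichletCharacter ℂ 1) k M t - SKP (1 : DirichletCharacter ℂ 1) k M t)
    simpa using this
  have hexp2 : 0 < Real.exp (2 * Cd) := Real.exp_pos _
  have f1 := mul_le_mul_of_nonneg_left e1 (by positivity : 0 ≤ 2 * Real.exp (2 * Cd))
  nlinarith

end Pool.Agent.GA
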