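import Pool.Agent.Lib_helper98.GAF.X5

/-!
# GA part X, file 6: truncation of the windows
-/

set_option autoImplicit false
set_option linter.unusedSectionVars false

namespace Pool.Agent.GA

open Finset Complex Metric Filter
open scoped ArithmeticFunction.vonMangoldt Classical Topology

/-- tilting with a free parameter -/
theorem x6_tilt {k : ℕ} {M : ℝ} (hM : 1 ≤ M) (hk : M ^ 2 ≤ k) {lam : ℝ} (hl0 : 0 ≤ lam)
    (hl : lam ≤ k / M / 2) {n : ℕ} (hn : 1 ≤ n) :
    wK k M n ≤ (k / M / Real.sqrt k) * (1 / n) *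
        Real.exp (-(lam * |Real.log n - M|) + 2 * lam ^ 2 * M ^ 2 / k) := by
  have hk0 : (0 : ℝ) < k := by nlinarith
  have hk1 : 1 ≤ k := by
    have : (0 : ℝ) < k := hk0
    exact_mod_cast this
  have hn0 : (0 : ℝ) < n := by exact_mod_cast hn
  set σ : ℝ := k / M with hσ
  have hσM : M ≤ σ := by
    rw [hσ, le_div_iff₀ (by linarith)]; nlinarith
  have hσ0 : 0 < σ := by linarith
  set y : ℝ := Real.log n with hy
  have hy0 : 0 ≤ y := Real.log_natCast_nonneg n
  have hs : 0 < Real.sqrt k := Real.sqrt_pos.2 hk0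
  have hkσ : k / σ = M := by
    rw [hσ]; field_simp
  have hkσ2 : k / σ ^ 2 = M ^ 2 / k := by rw [hσ]; field_simp
  have key : ∀ ε : ℝ, (ε = 1 ∨ ε = -1) → wK k M n ≤
      (σ / Real.sqrt k) * (1 / n) *
        Real.exp (ε * lam * (y - M) + 2 * lam ^ 2 * M ^ 2 / k) := by
    intro ε hε
    have hε2 : ε ^ 2 = 1 := by rcases hε with rfl | rfl <;> norm_num
    have hu : -1 / 2 ≤ ε * lam / σ := by
      rw [le_div_iff₀ hσ0]
      rcases hε with rfl | rfl <;> linarith
    have h0 : (0 : ℝ) < 1 + ε * lam / σ := by linarith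
    rw [wK_eq hn, ← hσ]
    have h1 := x1_tilt hk1 (x := σ * y) (θ := 1 + ε * lam / σ) (by positivity) h0
    have h2 := x1_pow (k := k) hu
    have h3 : (σ * y) ^ k / k.factorial * Real.exp (-(σ * y)) ≤
        Real.exp (ε * lam * (y - M) + 2 * lam ^ 2 * M ^ 2 / k) / Real.sqrt k := by
      refine (mul_le_mul_of_nonneg_right h1 (Real.exp_pos _).le).trans ?_
      have h4 : ((1 + ε * lam / σ)⁻¹) ^ k * Real.exp ((1 + ε * lam / σ) * (σ * y)) / Real.sqrt k *
          Real.exp (-(σ * y)) = ((1 + ε * lam / σ)⁻¹) ^ k *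
            (Real.exp ((1 + ε * lam / σ) * (σ * y)) *
            Real.exp (-(σ * y))) / Real.sqrt k := by ring
      rw [h4, ← Real.exp_add]
      apply div_le_div_of_nonneg_right _ hs.le
      refine (mul_le_mul_of_nonneg_right h2 (Real.exp_pos _).le).trans ?_
      rw [← Real.exp_add]
      apply Real.exp_le_exp.2
      have e1 : k * (ε * lam / σ) = ε * lam * M := by rw [← hkσ]; ring
      have e2 : 2 * k * (ε * lam / σ) ^ 2 = 2 * lam ^ 2 * (k / σ ^ 2) := by
        rw [div_pow, mul_pow, hε2]; ring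
      have e3 : (1 + ε * lam / σ) * (σ * y) + -(σ * y) = ε * lam * y := by field_simp; ring
      rw [e1, e2, e3, hkσ2]
      apply le_of_eq
      ring
    calc σ * ((σ * y) ^ k / k.factorial * Real.exp (-(σ * y))) / n ≤
        σ * (Real.exp (ε * lam * (y - M) + 2 * lam ^ 2 * M ^ 2 / k) / Real.sqrt k) / n := by
          apply div_le_div_of_nonneg_right _ hn0.le
          exact mul_le_mul_of_nonneg_left h3 hσ0.le
      _ = _ := by ring
  rcases le_total y M with h | h
  · have h1 := key 1 (Or.inl rfl)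
    have h2 : -(lam * |y - M|) = 1 * lam * (y - M) := by rw [abs_of_nonpos (by linarith)]; ring
    rw [h2]; exact h1
  · have h1 := key (-1) (Or.inr rfl)
    have h2 : -(lam * |y - M|) = -1 * lam * (y - M) := by rw [abs_of_nonneg (by linarith)]; ring
    rw [h2]; exact h1

/-- outside the window -/
theorem x6_out {k : ℕ} {M Δ : ℝ} (hM : 1 ≤ M) (hΔ : 0 < Δ) (hΔ1 : Δ ≤ 1)
    (hk : 32 * M ^ 2 ≤ Δ * k) {n : ℕ} (hn : 1 ≤ n) (hout : Δ ≤ |Real.log n - M|) :
    wK k M n ≤ (k / M / Real.sqrt k) * Real.exp (2 * M - Δ ^ 2 * k / (32 * M ^ 2)) *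
      (n : ℝ) ^ (-2 : ℝ) := by
  have hn0 : (0 : ℝ) < n := by exact_mod_cast hn
  have hk0 : (0 : ℝ) < k := by
    by_contra h
    push Not at h
    nlinarith
  have hkM : M ^ 2 ≤ k := by nlinarith
  set lam : ℝ := Δ * k / (8 * M ^ 2) with hlam
  have hM0 : 0 < M := by linarith
  have hl4 : 4 ≤ lam := by
    rw [hlam, le_div_iff₀ (by positivity)]; linarith
  have hl : lam ≤ k / M / 2 := by
    rw [hlam, div_div, div_le_div_iff₀ (by positivity) (by positivity)]
    nlinarith [mul_pos hk0 hM0, mul_le_mul_of_nonneg_right hΔ1 (mul_pos hk0 hM0).le]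
  refine (x6_tilt hM hkM (by linarith) hl hn).trans ?_
  have h1 : 2 * lam ^ 2 * M ^ 2 / k = lam * Δ / 4 := by
    rw [hlam]; field_simp; ring
  have h2 : lam * Δ / 4 = Δ ^ 2 * k / (32 * M ^ 2) := by
    rw [hlam]; field_simp; ring
  have h3 : Real.exp (-(lam * |Real.log n - M|) + 2 * lam ^ 2 * M ^ 2 / k) ≤
      Real.exp (2 * M - Δ ^ 2 * k / (32 * M ^ 2)) * (n : ℝ) ^ (-1 : ℝ) := by
    rw [Real.rpow_def_of_pos hn0, ← Real.exp_add]
    apply Real.exp_le_exp.2
    rw [h1, ← h2]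
    have h4 : lam / 2 * Δ ≤ lam / 2 * |Real.log n - M| :=
      mul_le_mul_of_nonneg_left hout (by linarith)
    have h5 : 2 * |Real.log n - M| ≤ lam / 2 * |Real.log n - M| :=
      mul_le_mul_of_nonneg_right (by linarith) (abs_nonneg _)
    have h6 : Real.log n - M ≤ |Real.log n - M| := le_abs_self _
    have h7 : 0 ≤ Real.log n := Real.log_natCast_nonneg n
    nlinarith
  calc (k / M / Real.sqrt k) * (1 / n) *
        Real.exp (-(lam * |Real.log n - M|) + 2 * lam ^ 2 * M ^ 2 / k) ≤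
      (k / M / Real.sqrt k) * (1 / n) *
        (Real.exp (2 * M - Δ ^ 2 * k / (32 * M ^ 2)) * (n : ℝ) ^ (-1 : ℝ)) := by gcongr
    _ = _ := by
        have : (n : ℝ) ^ (-2 : ℝ) = (1 / n) * (n : ℝ) ^ (-1 : ℝ) := by
          rw [one_div, ← Real.rpow_neg_one, ← Real.rpow_add hn0]
          norm_num
        rw [this]
        ring

/-- the primes of the window -/
noncomputable def PW (M Δ : ℝ) : Finset ℕ :=
  (Finset.range (⌊Real.exp (M + Δ)⌋₊ + 1)).filter (fun p => p.Prime ∧ |Real.log p - M| ≤ Δ)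

theorem mem_PW {M Δ : ℝ} {p : ℕ} : p ∈ PW M Δ ↔ p.Prime ∧ |Real.log p - M| ≤ Δ := by
  unfold PW
  rw [Finset.mem_filter, Finset.mem_range, Nat.lt_succ_iff]
  constructor
  · exact fun h => h.2
  · intro h
    refine ⟨?_, h⟩
    have hp : (0 : ℝ) < p := by exact_mod_cast h.1.pos
    apply Nat.le_floor
    have h1 := (abs_le.1 h.2).2
    rw [← Real.exp_log hp]
    exact Real.exp_le_exp.2 (by linarith)

/-- truncation of the sum over primes -/
theorem x6_trunc : ∃ C : ℝ, 1 ≤ C ∧ ∀ (q : ℕ) [NeZero q] (χ : DirichletCharacter ℂ q) (k : ℕ)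
    (M Δ : ℝ), 2 ≤ M → 0 < Δ → Δ ≤ 1 → 32 * M ^ 2 ≤ Δ * k →
    ‖SKP χ k M 0 - ∑ p ∈ PW M Δ, ((Real.log p * wK k M p : ℝ) : ℂ) * χ (p : ZMod q)‖ ≤
      C * (k / M / Real.sqrt k) * Real.exp (2 * M - Δ ^ 2 * k / (32 * M ^ 2)) := by
  obtain ⟨C, hC, hL⟩ := sum_Lam_rpow
  obtain ⟨hL1, hL2⟩ := hL 1 one_pos le_rfl
  refine ⟨C, hC, fun q _ χ k M Δ hM hΔ hΔ1 hk => ?_⟩
  have hk0 : (0 : ℝ) < k := by
    by_contra h
    push Not at h
    nlinarith
  have hkM : M ^ 2 ≤ k := by nlinarith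
  set B : ℝ := (k / M / Real.sqrt k) * Real.exp (2 * M - Δ ^ 2 * k / (32 * M ^ 2)) with hB
  have hB0 : 0 ≤ B := by positivity
  set g : ℕ → ℂ := fun n => if n.Prime then ((Real.log n * wK k M n : ℝ) : ℂ) *
    χ (n : ZMod q) * (n : ℂ) ^ (-(((0 : ℝ) : ℂ) * I) : ℂ) else 0 with hg
  have hgv : ∀ n, g n = if n.Prime then ((Real.log n * wK k M n : ℝ) : ℂ) *
    χ (n : ZMod q) else 0 := by
    intro n
    simp only [hg]
    by_cases hp : n.Prime
    · rw [if_pos hp, if_pos hp]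
      simp
    · rw [if_neg hp, if_neg hp]
  have hsum1 : Summable (fun n : ℕ => Λ n * (n : ℝ) ^ (-2 : ℝ)) := by
    refine hL1.congr fun n => ?_
    norm_num
  have hval1 : ∑' n : ℕ, Λ n * (n : ℝ) ^ (-2 : ℝ) ≤ C := by
    have : ∀ n : ℕ, Λ n * (n : ℝ) ^ (-2 : ℝ) = Λ n * (n : ℝ) ^ (-(1 + 1) : ℝ) := by
      intro n; norm_num
    rw [tsum_congr this]
    simpa using hL2
  set h : ℕ → ℂ := fun n => if n ∈ PW M Δ then 0 else g n with hh
  have hbound : ∀ n, ‖h n‖ ≤ B * (Λ n * (n : ℝ) ^ (-2 : ℝ)) := by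
    intro n
    simp only [hh]
    have hnn : 0 ≤ B * (Λ n * (n : ℝ) ^ (-2 : ℝ)) :=
      mul_nonneg hB0 (mul_nonneg ArithmeticFunction.vonMangoldt_nonneg (by positivity))
    by_cases hm : n ∈ PW M Δ
    · rw [if_pos hm, norm_zero]; exact hnn
    · rw [if_neg hm, hgv]
      by_cases hp : n.Prime
      · rw [if_pos hp]
        have h1 : Δ ≤ |Real.log n - M| := by
          by_contra h2
          push Not at h2
          exact hm (mem_PW.2 ⟨hp, h2.le⟩)
        have h2 := x6_out (by linarith) hΔ hΔ1 hk hp.pos h1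
        rw [norm_mul, Complex.norm_real, Real.norm_of_nonneg (mul_nonneg
          (Real.log_natCast_nonneg n) (wK_nonneg (by linarith) n)),
          ArithmeticFunction.vonMangoldt_apply_prime hp]
        have h3 := χ.norm_le_one (n : ZMod q)
        have h4 : 0 ≤ Real.log n * wK k M n :=
          mul_nonneg (Real.log_natCast_nonneg n) (wK_nonneg (by linarith) n)
        calc Real.log n * wK k M n * ‖χ (n : ZMod q)‖ ≤ Real.log n * wK k M n * 1 :=
              mul_le_mul_of_nonneg_left h3 h4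
          _ ≤ Real.log n * (B * (n : ℝ) ^ (-2 : ℝ)) := by
              rw [mul_one]
              exact mul_le_mul_of_nonneg_left h2 (Real.log_natCast_nonneg n)
          _ = _ := by ring
      · rw [if_neg hp, norm_zero]; exact hnn
  have hsumh : Summable h := Summable.of_norm_bounded (hsum1.mul_left B) hbound
  have hfin : Summable (fun n => if n ∈ PW M Δ then g n else 0) :=
    summable_of_ne_finset_zero (s := PW M Δ) (fun n hn => if_neg hn)
  have h1 : SKP χ k M 0 = (∑' n, if n ∈ PW M Δ then g n else 0) + ∑' n, h n := by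
    unfold SKP
    rw [← hfin.tsum_add hsumh]
    refine tsum_congr fun n => ?_
    show g n = (if n ∈ PW M Δ then g n else 0) + h n
    simp only [hh]
    by_cases hm : n ∈ PW M Δ
    · rw [if_pos hm, if_pos hm, add_zero]
    · rw [if_neg hm, if_neg hm, zero_add]
  have h2 : (∑' n, if n ∈ PW M Δ then g n else 0) =
      ∑ p ∈ PW M Δ, ((Real.log p * wK k M p : ℝ) : ℂ) * χ (p : ZMod q) := by
    rw [tsum_eq_sum (s := PW M Δ) (fun n hn => if_neg hn)]
    refine Finset.sum_congr rfl fun p hp => ?_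
    rw [if_pos hp, hgv, if_pos (mem_PW.1 hp).1]
  rw [h1, h2, add_sub_cancel_left]
  refine (tsum_of_norm_bounded (hsum1.mul_left B).hasSum hbound).trans ?_
  rw [tsum_mul_left]
  calc B * ∑' n : ℕ, Λ n * (n : ℝ) ^ (-2 : ℝ) ≤ B * C := mul_le_mul_of_nonneg_left hval1 hB0
    _ = _ := by rw [hB]; ring

end Pool.Agent.GA
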