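import Pool.Agent.Lib_helper98.GAF.Dlw

/-! # Abstract local data: one function instead of `LF χ` (also for zeta) -/

set_option autoImplicit false

namespace Pool.Agent.GA

open Finset Complex Metric
open scoped ArithmeticFunction.vonMangoldt Classical

/-- local data of `f` at height `t`; `G j` plays the role of `(-1)^(j+1)` times the `j`-th
derivative of `f'/f` -/
structure LD (f : ℂ → ℂ) (G : ℕ → ℂ → ℂ) (C ℒ t : ℝ) : Prop where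
  diff : Differentiable ℂ f
  ne : ∀ s : ℂ, 1 ≤ s.re → f s ≠ 0
  one_le : 1 ≤ ℒ
  expa : ∀ σ : ℝ, Real.exp (-ℒ) ≤ σ → σ ≤ 1 / 16 → ∀ j : ℕ,
    ‖G j (1 + σ + t * I) / (j.factorial : ℂ) + ∑ ρ ∈ zb f (1 + σ + t * I) (1 / 4),
      (mlt f ρ : ℂ) / (1 + σ + t * I - ρ) ^ (j + 1)‖ ≤ C * ℒ * 16 ^ j
  cnt : ∀ σ : ℝ, Real.exp (-ℒ) ≤ σ → σ ≤ 1 / 16 →
    ∑ ρ ∈ zb f (1 + σ + t * I) (1 / 4), mlt f ρ ≤ C * ℒ
  near : ∀ r : ℝ, 1 / ℒ ≤ r → r ≤ 1 / 16 → ∑ ρ ∈ zb f (1 + t * I) r, mlt f ρ ≤ C * (r * ℒ)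

theorem LD.c_ne {f : ℂ → ℂ} {G : ℕ → ℂ → ℂ} {C ℒ t : ℝ} (h : LD f G C ℒ t) {σ : ℝ}
    (hσ : 0 ≤ σ) (v : ℝ) : f (1 + σ + v * I) ≠ 0 :=
  h.ne _ (by rw [c_re]; linarith)

theorem LD.re_lt {f : ℂ → ℂ} {G : ℕ → ℂ → ℂ} {C ℒ t : ℝ} (h : LD f G C ℒ t) {ρ : ℂ}
    (h1 : f ρ = 0) : ρ.re < 1 := by
  by_contra h2
  exact h.ne ρ (not_lt.1 h2) h1

/-- nontrivial characters have local data at every height -/
theorem LD_char : ∃ C : ℝ, 1 ≤ C ∧ ∀ (q : ℕ) [NeZero q] (χ : DirichletCharacter ℂ q), χ ≠ 1 →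
    ∀ t ℒ : ℝ, lt q t ≤ ℒ → LD (LF χ) (Gj χ) C ℒ t := by
  obtain ⟨C₁, hC₁, h1⟩ := local_expansion
  obtain ⟨C₂, hC₂, h2⟩ := local_count
  obtain ⟨C₃, hC₃, h3⟩ := near_count
  refine ⟨C₁ + C₂ + C₃, by linarith, fun q _ χ hχ t ℒ hℒ => ?_⟩
  have hℒ1 : 1 ≤ ℒ := (one_le_lt (three_le hχ) t).trans hℒ
  refine ⟨LF_diff hχ, fun s hs => LF_ne_zero hχ hs, hℒ1, fun σ hσ hσ1 j => ?_,
    fun σ hσ hσ1 => ?_, fun r hr hr1 => ?_⟩
  · refine (h1 q χ hχ t σ ℒ hℒ hσ hσ1 j).trans ?_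
    have : (0 : ℝ) ≤ ℒ * 16 ^ j := by positivity
    nlinarith
  · refine (h2 q χ hχ t σ ℒ hℒ hσ hσ1).trans ?_
    nlinarith
  · refine (h3 q χ hχ t r ℒ hℒ hr hr1).trans ?_
    have : 0 ≤ r * ℒ := by
      have : 0 ≤ r := le_trans (by positivity) hr
      positivity
    nlinarith

/-- the number of zeros at distance at most `R` from `c` -/
theorem LD.cnt_R {f : ℂ → ℂ} {G : ℕ → ℂ → ℂ} {C ℒ t : ℝ} (hC : 1 ≤ C) (hld : LD f G C ℒ t)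
    {σ : ℝ} (hσ : Real.exp (-ℒ) ≤ σ) (hσ1 : σ ≤ 1 / 16) {R : ℝ} (hR : σ ≤ R)
    (hR' : 1 / ℒ ≤ R) :
      ∑ ρ ∈ (zb f (1 + σ + t * I) (1 / 4)).filter (fun ρ => ‖1 + σ + t * I - ρ‖ ≤ R),
        mlt f ρ ≤ 34 * C * ℒ * R := by
  have hσ0 : 0 < σ := lt_of_lt_of_le (Real.exp_pos _) hσ
  have hℒ1 : 1 ≤ ℒ := hld.one_le
  have hR0 : 0 < R := hσ0.trans_le hR
  have hf := hld.diff
  have hc0 : f (1 + σ + t * I) ≠ 0 := hld.c_ne hσ0.le t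
  rcases le_or_gt (2 * R) (1 / 16) with h | h
  · have h3 := hld.near (2 * R) (by linarith) h
    have hsub : (zb f (1 + σ + t * I) (1 / 4)).filter
        (fun ρ => ‖1 + σ + t * I - ρ‖ ≤ R) ⊆ zb f (1 + t * I) (2 * R) := by
      intro ρ hρ
      rw [mem_filter, mem_zb hf hc0] at hρ
      rw [mem_zb hf hc0]
      refine ⟨hρ.1.1, ?_⟩
      rw [mem_closedBall, dist_eq_norm]
      have e1 : ρ - (1 + t * I) = σ - (1 + σ + t * I - ρ) := by ring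
      rw [e1]
      refine (norm_sub_le _ _).trans ?_
      rw [Complex.norm_real, Real.norm_eq_abs, abs_of_pos hσ0]
      linarith [hρ.2]
    calc _ ≤ ∑ ρ ∈ zb f (1 + t * I) (2 * R), mlt f ρ :=
          Finset.sum_le_sum_of_subset_of_nonneg hsub fun ρ _ _ => mlt_nonneg _ ρ
      _ ≤ C * (2 * R * ℒ) := h3
      _ ≤ 34 * C * ℒ * R := by
          have : 0 ≤ C * ℒ * R := by positivity
          nlinarith
  · have h3 := hld.cnt σ hσ hσ1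
    calc _ ≤ ∑ ρ ∈ zb f (1 + σ + t * I) (1 / 4), mlt f ρ :=
          Finset.sum_le_sum_of_subset_of_nonneg (Finset.filter_subset _ _)
            fun ρ _ _ => mlt_nonneg _ ρ
      _ ≤ C * ℒ := h3
      _ ≤ C * ℒ * (32 * R) := by
          have : 0 ≤ C * ℒ := by positivity
          nlinarith
      _ ≤ 34 * C * ℒ * R := by
          have : 0 ≤ C * ℒ * R := by positivity
          nlinarith

theorem LD.deriv_lower {f : ℂ → ℂ} {G : ℕ → ℂ → ℂ} {C ℒ v : ℝ} (hC : 1 ≤ C)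
    (hld : LD f G C ℒ v) {δ : ℝ} (hδ : 1 / ℒ ≤ δ) (hδ1 : δ ≤ 1 / 600) {ρ₀ : ℂ}
    (hρ₀ : f ρ₀ = 0) (hre : 1 - δ ≤ ρ₀.re) (him : |v - ρ₀.im| ≤ δ) {K : ℕ}
    (hK : 80000 * C * (δ * ℒ) ≤ K) :
      ∃ j ∈ Icc K (2 * K - 1), (2 / 9 : ℝ) * (2 / 5) ^ j ≤
        δ ^ (j + 1) * ‖G j (1 + δ + v * I) / (j.factorial : ℂ)‖ := by
  obtain ⟨C₁, hC₁, hC₁'⟩ : ∃ C₁ : ℝ, 1 ≤ C₁ ∧ C₁ = C := ⟨C, hC, rfl⟩
  obtain ⟨C₂, hC₂, hC₂'⟩ : ∃ C₂ : ℝ, 1 ≤ C₂ ∧ C₂ = 34 * C := ⟨34 * C, by linarith, rfl⟩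
  have hℒ1 : 1 ≤ ℒ := hld.one_le
  have hℒ0 : 0 < ℒ := by linarith
  have hδ0 : 0 < δ := lt_of_lt_of_le (by positivity) hδ
  have hδℒ : 1 ≤ δ * ℒ := by rwa [div_le_iff₀ hℒ0] at hδ
  have hexpδ : Real.exp (-ℒ) ≤ δ := (exp_neg_le_inv hℒ0).trans hδ
  have hδ16 : δ ≤ 1 / 16 := by linarith
  have hδℒ0 : 0 ≤ C * (δ * ℒ) := by positivity
  replace hK : (500 + 2000 * C₂ + 5 * (4 * C₂ + C₁)) * (δ * ℒ) ≤ K := by
    refine le_trans ?_ hK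
    have e0 : δ * ℒ ≤ C * (δ * ℒ) := by nlinarith
    have e1 : C₁ * (δ * ℒ) = C * (δ * ℒ) := by rw [hC₁']
    have e2 : C₂ * (δ * ℒ) = 34 * (C * (δ * ℒ)) := by rw [hC₂']; ring
    calc (500 + 2000 * C₂ + 5 * (4 * C₂ + C₁)) * (δ * ℒ)
        = 500 * (δ * ℒ) + 2020 * (C₂ * (δ * ℒ)) + 5 * (C₁ * (δ * ℒ)) := by ring
      _ ≤ 80000 * C * (δ * ℒ) := by rw [e1, e2]; nlinarith
  have hf := hld.diff
  have hc0 : f (1 + δ + v * I) ≠ 0 := hld.c_ne hδ0.le v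
  set c : ℂ := 1 + δ + v * I with hc
  have hcre : c.re = 1 + δ := c_re δ v
  have hcim : c.im = v := c_im δ v
  set S := zb f c (1 / 4) with hS
  set In := S.filter (fun ρ => ‖c - ρ‖ ≤ 10 * δ) with hIn
  -- the distance of the zero
  have hρ1 : ρ₀.re < 1 := hld.re_lt hρ₀
  have hdist : ‖c - ρ₀‖ ≤ 9 / 4 * δ := by
    have e1 : ‖c - ρ₀‖ ^ 2 = (c - ρ₀).re ^ 2 + (c - ρ₀).im ^ 2 := by
      rw [← Complex.normSq_eq_norm_sq, Complex.normSq_apply]; ring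
    have e2 : 0 ≤ (c - ρ₀).re ∧ (c - ρ₀).re ≤ 2 * δ := by
      rw [sub_re, hcre]; constructor <;> linarith
    have e3 : |(c - ρ₀).im| ≤ δ := by rwa [sub_im, hcim]
    have e4 : (c - ρ₀).im ^ 2 ≤ δ ^ 2 := by
      rw [← sq_abs]; exact pow_le_pow_left₀ (abs_nonneg _) e3 2
    have e5 : ‖c - ρ₀‖ ^ 2 ≤ (9 / 4 * δ) ^ 2 := by
      rw [e1]; nlinarith [e2.1, e2.2]
    exact (pow_le_pow_iff_left₀ (norm_nonneg _) (by positivity) (by norm_num)).1 e5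
  have hρS : ρ₀ ∈ S := by
    rw [hS, mem_zb hf hc0]
    refine ⟨hρ₀, ?_⟩
    rw [mem_closedBall, dist_eq_norm, norm_sub_rev]
    linarith
  have hρIn : ρ₀ ∈ In := by
    rw [hIn, Finset.mem_filter]
    exact ⟨hρS, by linarith⟩
  have hν : 1 ≤ analyticOrderNatAt f ρ₀ := one_le_order hf hc0 hρ₀
  have hcIn : c ∉ In := by
    intro h
    rw [hIn, Finset.mem_filter, hS, mem_zb hf hc0] at h
    exact hc0 h.1.1
  -- the count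
  have hcount := hld.cnt_R hC hexpδ hδ16 (R := 10 * δ) (by linarith) (by linarith)
  rw [← hC₂'] at hcount
  have hcount' : ((∑ ρ ∈ In, analyticOrderNatAt f ρ : ℕ) : ℝ) ≤ C₂ * ℒ * (10 * δ) := by
    push_cast
    exact hcount
  have hK0 : (0 : ℝ) < K := lt_of_lt_of_le (by positivity) hK
  set N := K / 200 with hN
  have hcN : ∑ ρ ∈ In, analyticOrderNatAt f ρ ≤ N := by
    rw [hN, Nat.le_div_iff_mul_le (by norm_num)]
    have : ((∑ ρ ∈ In, analyticOrderNatAt f ρ : ℕ) : ℝ) * 200 ≤ K := by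
      have e1 : 0 ≤ (500 + 5 * (4 * C₂ + C₁)) * (δ * ℒ) := by positivity
      nlinarith
    exact_mod_cast this
  have hN1 : 1 ≤ N := by
    have := Finset.single_le_sum (f := fun ρ => analyticOrderNatAt f ρ)
      (fun _ _ => Nat.zero_le _) hρIn
    omega
  have hNK : N ≤ K := Nat.div_le_self _ _
  obtain ⟨k, hk, hle⟩ := turan_zeros (ν := analyticOrderNatAt f) hcIn hρIn hν hdist
    hcN hNK
  rw [mem_Icc] at hk
  obtain ⟨j, rfl⟩ : ∃ j, k = j + 1 := ⟨k - 1, by omega⟩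
  have hjK : K ≤ j := by omega
  refine ⟨j, mem_Icc.2 ⟨hjK, by omega⟩, ?_⟩
  have hj1 : 1 ≤ j := by omega
  -- the three parts
  have hexp' := hld.expa δ hexpδ hδ16 j
  rw [← hC₁'] at hexp'
  have hfar := dyadic S (mlt f) (fun ρ => ‖c - ρ‖) (fun ρ _ => mlt_nonneg _ ρ)
    (R₀ := 10 * δ) (by positivity)
    (A := C₂ * ℒ) (fun R hR => by
      have := hld.cnt_R hC hexpδ hδ16 (R := R) (by linarith) (by linarith)
      rwa [← hC₂'] at this) hj1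
  set In' : ℂ := ∑ ρ ∈ In, ((analyticOrderNatAt f ρ : ℕ) : ℂ) / (c - ρ) ^ (j + 1) with hIn'
  set Out' : ℂ := ∑ ρ ∈ S.filter (fun ρ => 10 * δ < ‖c - ρ‖),
    (mlt f ρ : ℂ) / (c - ρ) ^ (j + 1) with hOut'
  have hsplit : ∑ ρ ∈ S, (mlt f ρ : ℂ) / (c - ρ) ^ (j + 1) = In' + Out' := by
    have e1 := Finset.sum_filter_add_sum_filter_not S (fun ρ => ‖c - ρ‖ ≤ 10 * δ)
      (fun ρ => (mlt f ρ : ℂ) / (c - ρ) ^ (j + 1))
    simp only [not_le] at e1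
    rw [← e1, hIn', hOut']
    congr 1
  have hOut : ‖Out'‖ ≤ 4 * (C₂ * ℒ) / (10 * δ) ^ j := by
    refine le_trans ?_ hfar
    rw [hOut']
    refine (norm_sum_le _ _).trans (Finset.sum_le_sum fun ρ _ => ?_)
    rw [norm_div, norm_pow, Complex.norm_real, Real.norm_eq_abs, abs_of_nonneg (mlt_nonneg _ ρ)]
  rw [hsplit] at hexp'
  have htri : ‖In'‖ ≤ ‖G j c / (j.factorial : ℂ)‖ + ‖Out'‖ + C₁ * ℒ * 16 ^ j := by
    have e1 : In' = (G j c / (j.factorial : ℂ) + (In' + Out')) -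
        G j c / (j.factorial : ℂ) - Out' := by ring
    calc ‖In'‖ = ‖(G j c / (j.factorial : ℂ) + (In' + Out')) -
        G j c / (j.factorial : ℂ) - Out'‖ := by rw [← e1]
      _ ≤ ‖(G j c / (j.factorial : ℂ) + (In' + Out')) - G j c / (j.factorial : ℂ)‖ +
          ‖Out'‖ := norm_sub_le _ _
      _ ≤ ‖G j c / (j.factorial : ℂ) + (In' + Out')‖ + ‖G j c / (j.factorial : ℂ)‖ +
          ‖Out'‖ := by gcongr; exact norm_sub_le _ _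
      _ ≤ _ := by linarith
  -- the main term
  have hmain : (4 / 9 : ℝ) * (2 / 5) ^ j ≤ δ ^ (j + 1) * ‖In'‖ := by
    have e1 := pow_bound hN1 (by omega) (by omega : K < 200 * (N + 1))
    calc (4 / 9 : ℝ) * (2 / 5) ^ j ≤ (4 / 9) * (40 / 99) ^ j :=
          mul_le_mul_of_nonneg_left (pow_le_pow_left₀ (by norm_num) (by norm_num) j) (by norm_num)
      _ = (10 / 11) ^ j * (4 / 9) ^ (j + 1) := by
          rw [pow_succ, show (40 / 99 : ℝ) = 10 / 11 * (4 / 9) by norm_num, mul_pow]; ring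
      _ ≤ (10 / 11) ^ K * (4 / 9) ^ (j + 1) := by
          have : (10 / 11 : ℝ) ^ j ≤ (10 / 11) ^ K :=
            pow_le_pow_of_le_one (by norm_num) (by norm_num) hjK
          gcongr
      _ ≤ ((N : ℝ) / (200 * K)) ^ N * (4 / 9) ^ (j + 1) := by gcongr
      _ = δ ^ (j + 1) * (((N : ℝ) / (200 * K)) ^ N * ((9 / 4 * δ)⁻¹) ^ (j + 1)) := by
          have e2 : (δ : ℝ) ^ (j + 1) * ((9 / 4 * δ)⁻¹) ^ (j + 1) = (4 / 9) ^ (j + 1) := by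
            rw [← mul_pow]
            congr 1
            field_simp
          calc ((N : ℝ) / (200 * K)) ^ N * (4 / 9) ^ (j + 1)
              = ((N : ℝ) / (200 * K)) ^ N * (δ ^ (j + 1) * ((9 / 4 * δ)⁻¹) ^ (j + 1)) := by
                rw [e2]
            _ = _ := by ring
      _ ≤ δ ^ (j + 1) * ‖In'‖ := by gcongr
  -- the errors
  have herr : δ ^ (j + 1) * (‖Out'‖ + C₁ * ℒ * 16 ^ j) ≤ (2 / 9 : ℝ) * (2 / 5) ^ j := by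
    have e1 : δ ^ (j + 1) * (‖Out'‖ + C₁ * ℒ * 16 ^ j) ≤
        (4 * C₂ + C₁) * (δ * ℒ) * (1 / 10) ^ j := by
      have e2 : δ ^ (j + 1) * (4 * (C₂ * ℒ) / (10 * δ) ^ j) =
          4 * C₂ * (δ * ℒ) * (1 / 10) ^ j := by
        rw [mul_pow, pow_succ, one_div_pow]
        field_simp
      have e3 : δ ^ (j + 1) * (C₁ * ℒ * 16 ^ j) ≤ C₁ * (δ * ℒ) * (1 / 10) ^ j := by
        calc δ ^ (j + 1) * (C₁ * ℒ * 16 ^ j) = C₁ * (δ * ℒ) * (16 * δ) ^ j := by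
              rw [mul_pow, pow_succ]; ring
          _ ≤ C₁ * (δ * ℒ) * (1 / 10) ^ j := by
              gcongr
              linarith
      calc δ ^ (j + 1) * (‖Out'‖ + C₁ * ℒ * 16 ^ j)
          = δ ^ (j + 1) * ‖Out'‖ + δ ^ (j + 1) * (C₁ * ℒ * 16 ^ j) := by ring
        _ ≤ δ ^ (j + 1) * (4 * (C₂ * ℒ) / (10 * δ) ^ j) + C₁ * (δ * ℒ) * (1 / 10) ^ j := by
            gcongr
        _ = _ := by rw [e2]; ring
    refine e1.trans ?_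
    have e4 : (2 / 9 : ℝ) * (2 / 5) ^ j = (2 / 9) * 4 ^ j * (1 / 10) ^ j := by
      rw [mul_assoc, ← mul_pow]; norm_num
    rw [e4]
    have e5 : (4 * C₂ + C₁) * (δ * ℒ) ≤ 2 / 9 * (K : ℝ) := by
      have : 0 ≤ (500 + 2000 * C₂) * (δ * ℒ) := by positivity
      have e6 : 5 * ((4 * C₂ + C₁) * (δ * ℒ)) ≤ K := by nlinarith
      linarith
    have e7 : (K : ℝ) ≤ 4 ^ j := by
      have e8 : (K : ℝ) ≤ 2 ^ K := by exact_mod_cast (Nat.lt_two_pow_self (n := K)).le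
      calc (K : ℝ) ≤ 2 ^ K := e8
        _ ≤ 2 ^ j := pow_le_pow_right₀ (by norm_num) hjK
        _ ≤ 4 ^ j := pow_le_pow_left₀ (by norm_num) (by norm_num) j
    have e9 : (4 * C₂ + C₁) * (δ * ℒ) ≤ 2 / 9 * 4 ^ j := by linarith
    gcongr
  have hδj : (0 : ℝ) < δ ^ (j + 1) := by positivity
  have hfin : δ ^ (j + 1) * ‖In'‖ ≤ δ ^ (j + 1) * ‖G j c / (j.factorial : ℂ)‖ +
      δ ^ (j + 1) * (‖Out'‖ + C₁ * ℒ * 16 ^ j) := by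
    calc δ ^ (j + 1) * ‖In'‖ ≤ δ ^ (j + 1) *
        (‖G j c / (j.factorial : ℂ)‖ + ‖Out'‖ + C₁ * ℒ * 16 ^ j) := by gcongr
      _ = _ := by ring
  linarith

theorem LD.window_lower {C : ℝ} (hC : 1 ≤ C) : ∃ B : ℝ, 500 ≤ B ∧
    ∀ (q : ℕ) [NeZero q] (χ : DirichletCharacter ℂ q) (f : ℂ → ℂ) (v δ ℒ : ℝ),
    LD f (Gj χ) C ℒ v → 1 / ℒ ≤ δ → δ ≤ 1 / 600 →
    ∀ ρ : ℂ, f ρ = 0 → 1 - δ ≤ ρ.re → |v - ρ.im| ≤ δ →
    ∀ K : ℕ, B * (δ * ℒ) ≤ K →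
      ∃ j ∈ Icc K (2 * K), (1 / 100 : ℝ) ^ K ≤ δ ^ (j + 1) *
        ‖Pw χ j δ v ⌊Real.exp (K / (100 * δ))⌋₊ ⌊Real.exp (40 * K / δ)⌋₊‖ := by
  obtain ⟨B, hBe⟩ : ∃ B : ℝ, B = 80000 * C := ⟨_, rfl⟩
  have hB : 500 ≤ B := by rw [hBe]; linarith
  obtain ⟨C', hC', hwin⟩ := window_error
  refine ⟨B + 9 * C', by linarith, fun q _ χ f v δ ℒ hld hδ hδ1 ρ hρ hre him K hK => ?_⟩
  have hℒ1 : 1 ≤ ℒ := hld.one_le
  have hℒ0 : 0 < ℒ := by linarith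
  have hδ0 : 0 < δ := lt_of_lt_of_le (by positivity) hδ
  have hδℒ : 1 ≤ δ * ℒ := by rwa [div_le_iff₀ hℒ0] at hδ
  have hKB : B * (δ * ℒ) ≤ K := by nlinarith
  have hKC : 9 * C' ≤ K := by nlinarith
  have hK0 : (0 : ℝ) < K := by linarith
  have hK1 : 1 ≤ K := by
    have : (0 : ℝ) < K := hK0
    have : 0 < K := by exact_mod_cast this
    omega
  obtain ⟨j, hj, hjle⟩ := hld.deriv_lower hC hδ hδ1 hρ hre him (by rw [← hBe]; exact hKB)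
  rw [mem_Icc] at hj
  refine ⟨j, mem_Icc.2 ⟨hj.1, by omega⟩, ?_⟩
  have hw := hwin q χ K j δ v (NeZero.pos q) hK1 hj.1 (by omega) hδ0 (by linarith)
  set P := Pw χ j δ v ⌊Real.exp (K / (100 * δ))⌋₊ ⌊Real.exp (40 * K / δ)⌋₊ with hP
  set G := Gj χ j (1 + δ + v * I) / (j.factorial : ℂ) with hG
  have hδj : (0 : ℝ) < δ ^ (j + 1) := by positivity
  have h1 : δ ^ (j + 1) * ‖G‖ ≤ δ ^ (j + 1) * ‖P‖ + C' * K / 36 ^ j := by
    have e1 : ‖G‖ ≤ ‖P‖ + ‖G - P‖ := by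
      calc ‖G‖ = ‖P + (G - P)‖ := by ring_nf
        _ ≤ _ := norm_add_le _ _
    calc δ ^ (j + 1) * ‖G‖ ≤ δ ^ (j + 1) * (‖P‖ + ‖G - P‖) := by gcongr
      _ = δ ^ (j + 1) * ‖P‖ + δ ^ (j + 1) * ‖G - P‖ := by ring
      _ ≤ _ := by linarith
  have h2 : C' * K / 36 ^ j ≤ 1 / 9 * (2 / 5) ^ j := by
    rw [div_le_iff₀ (by positivity)]
    have e1 : (1 / 9 : ℝ) * (2 / 5) ^ j * 36 ^ j = 1 / 9 * (72 / 5) ^ j := by
      rw [mul_assoc, ← mul_pow]; norm_num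
    rw [e1]
    have e2 : (K : ℝ) ≤ 2 ^ K := by exact_mod_cast (Nat.lt_two_pow_self (n := K)).le
    have e3 : (K : ℝ) * K ≤ (72 / 5) ^ j := by
      calc (K : ℝ) * K ≤ 2 ^ K * 2 ^ K := by gcongr
        _ = 4 ^ K := by rw [← mul_pow]; norm_num
        _ ≤ 4 ^ j := pow_le_pow_right₀ (by norm_num) hj.1
        _ ≤ (72 / 5) ^ j := pow_le_pow_left₀ (by norm_num) (by norm_num) j
    nlinarith
  have h3 : (1 / 100 : ℝ) ^ K ≤ 1 / 9 * (2 / 5) ^ j := by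
    have e1 : (2 / 5 : ℝ) ^ (2 * K) ≤ (2 / 5) ^ j :=
      pow_le_pow_of_le_one (by norm_num) (by norm_num) (by omega)
    have e2 : (2 / 5 : ℝ) ^ (2 * K) = 16 ^ K * (1 / 100) ^ K := by
      rw [pow_mul, ← mul_pow]; norm_num
    have e3 : (16 : ℝ) ≤ 16 ^ K := by
      calc (16 : ℝ) = 16 ^ 1 := by norm_num
        _ ≤ 16 ^ K := pow_le_pow_right₀ (by norm_num) hK1
    have e4 : (0 : ℝ) < (1 / 100) ^ K := by positivity
    have e5 : (9 : ℝ) * (1 / 100) ^ K ≤ (2 / 5) ^ j := by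
      refine le_trans ?_ e1
      rw [e2]
      nlinarith
    linarith
  have h4 : (2 / 9 : ℝ) * (2 / 5) ^ j = 1 / 9 * (2 / 5) ^ j + 1 / 9 * (2 / 5) ^ j := by ring
  linarith

end Pool.Agent.GA
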