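import Pool.Agent.Lib_helper98.GAF.Fin

/-! # BLA: factorisation with Blaschke factors -/

set_option autoImplicit false

namespace Pool.Agent.GA

open Finset Complex Metric
open scoped ComplexConjugate Classical Topology

/-- divide out one zero -/
theorem div_one_zero {f : ℂ → ℂ} (hf : Differentiable ℂ f) {c0 : ℂ} (h0 : f c0 ≠ 0) (ρ : ℂ) :
    ∃ g : ℂ → ℂ, Differentiable ℂ g ∧ g ρ ≠ 0 ∧
      ∀ z, f z = (z - ρ) ^ analyticOrderNatAt f ρ * g z := by
  set n := analyticOrderNatAt f ρ with hn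
  have hord : analyticOrderAt f ρ = n := (Nat.cast_analyticOrderNatAt (order_ne_top hf h0 ρ)).symm
  obtain ⟨g0, hg0, hg0ρ, hev⟩ := ((hf.analyticAt ρ).analyticOrderAt_eq_natCast).1 hord
  set g : ℂ → ℂ := fun z => if z = ρ then g0 ρ else f z / (z - ρ) ^ n with hg
  have hgev : g =ᶠ[𝓝 ρ] g0 := by
    filter_upwards [hev] with z hz
    by_cases h : z = ρ
    · simp [hg, h]
    · have : (z - ρ) ^ n ≠ 0 := pow_ne_zero _ (sub_ne_zero.2 h)
      simp only [hg, h, if_false]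
      rw [hz, smul_eq_mul]
      field_simp
  have hgd : Differentiable ℂ g := by
    intro z
    by_cases h : z = ρ
    · subst h
      exact (hg0.congr hgev.symm).differentiableAt
    · have h1 : g =ᶠ[𝓝 z] fun w => f w / (w - ρ) ^ n := by
        filter_upwards [isOpen_ne.mem_nhds h] with w hw
        simp only [Set.mem_setOf_eq, ne_eq] at hw
        simp [hg, hw]
      refine DifferentiableAt.congr_of_eventuallyEq ?_ h1
      exact (hf z).div ((differentiableAt_id.sub_const ρ).pow n)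
        (pow_ne_zero _ (sub_ne_zero.2 h))
  refine ⟨g, hgd, ?_, ?_⟩
  · simp [hg, hg0ρ]
  · intro z
    by_cases h : z = ρ
    · subst h
      have := hev.self_of_nhds
      rw [smul_eq_mul] at this
      rw [this]
      simp [hg]
    · have : (z - ρ) ^ n ≠ 0 := pow_ne_zero _ (sub_ne_zero.2 h)
      simp only [hg, h, if_false]
      field_simp

/-- divide out finitely many zeros -/
theorem div_zeros {f : ℂ → ℂ} (hf : Differentiable ℂ f) {c0 : ℂ} (h0 : f c0 ≠ 0)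
    (S : Finset ℂ) :
    ∃ g : ℂ → ℂ, Differentiable ℂ g ∧ (∀ ρ ∈ S, g ρ ≠ 0) ∧
      ∀ z, f z = (∏ ρ ∈ S, (z - ρ) ^ analyticOrderNatAt f ρ) * g z := by
  induction S using Finset.induction_on with
  | empty => exact ⟨f, hf, by simp, by simp⟩
  | insert ρ S hρ ih =>
    obtain ⟨g, hg, hgS, hfg⟩ := ih
    have hg0 : g c0 ≠ 0 := by
      intro h
      apply h0
      rw [hfg, h, mul_zero]
    have hPan : AnalyticAt ℂ (fun z => ∏ ρ' ∈ S, (z - ρ') ^ analyticOrderNatAt f ρ') ρ := by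
      fun_prop
    have hPne : (∏ ρ' ∈ S, (ρ - ρ') ^ analyticOrderNatAt f ρ') ≠ 0 := by
      refine Finset.prod_ne_zero_iff.2 fun ρ' hρ' => pow_ne_zero _ (sub_ne_zero.2 ?_)
      rintro rfl
      exact hρ hρ'
    have hord : analyticOrderAt f ρ = analyticOrderAt g ρ := by
      have h1 : f = (fun z => ∏ ρ' ∈ S, (z - ρ') ^ analyticOrderNatAt f ρ') * g := by
        funext z
        exact hfg z
      conv_lhs => rw [h1]
      rw [analyticOrderAt_mul hPan (hg.analyticAt ρ), hPan.analyticOrderAt_eq_zero.2 hPne, zero_add]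
    have hnat : analyticOrderNatAt g ρ = analyticOrderNatAt f ρ := by
      unfold analyticOrderNatAt
      rw [hord]
    obtain ⟨g', hg', hg'ρ, hgg'⟩ := div_one_zero hg hg0 ρ
    rw [hnat] at hgg'
    refine ⟨g', hg', ?_, ?_⟩
    · intro ρ' hρ'
      rcases Finset.mem_insert.1 hρ' with rfl | h
      · exact hg'ρ
      · intro h1
        apply hgS ρ' h
        rw [hgg', h1, mul_zero]
    · intro z
      rw [Finset.prod_insert hρ, hfg z, hgg' z]
      ring

theorem bla_den {c : ℂ} {R₁ R₃ : ℝ} (h1 : 0 < R₁) (h13 : R₁ < R₃) {ρ z : ℂ}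
    (hρ : ρ ∈ closedBall c R₁) (hz : z ∈ closedBall c R₃) :
    (R₃ : ℂ) ^ 2 - conj (ρ - c) * (z - c) ≠ 0 := by
  intro h
  have h2 : (R₃ : ℂ) ^ 2 = conj (ρ - c) * (z - c) := sub_eq_zero.1 h
  have h3 : R₃ ^ 2 = ‖ρ - c‖ * ‖z - c‖ := by
    have := congrArg norm h2
    rw [norm_mul, RCLike.norm_conj, norm_pow, Complex.norm_real, Real.norm_eq_abs,
      sq_abs] at this
    exact this
  rw [mem_closedBall, dist_eq_norm] at hρ hz
  have h4 : ‖ρ - c‖ * ‖z - c‖ ≤ R₁ * R₃ := by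
    apply mul_le_mul hρ hz (norm_nonneg _) h1.le
  nlinarith

theorem blaschke {f : ℂ → ℂ} (hf : Differentiable ℂ f) {c : ℂ} (h0 : f c ≠ 0) {R₁ R₃ : ℝ}
    (h1 : 0 < R₁) (h13 : R₁ < R₃) :
    ∃ g : ℂ → ℂ, AnalyticOnNhd ℂ g (closedBall c R₃) ∧ (∀ z ∈ closedBall c R₁, g z ≠ 0) ∧
      ∀ z ∈ closedBall c R₃, f z = g z * ∏ ρ ∈ zb f c R₁,
        ((R₃ * (z - ρ)) / (R₃ ^ 2 - conj (ρ - c) * (z - c))) ^ analyticOrderNatAt f ρ := by
  have h3 : 0 < R₃ := h1.trans h13
  have h3c : (R₃ : ℂ) ≠ 0 := by exact_mod_cast h3.ne'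
  obtain ⟨g, hg, hgS, hfg⟩ := div_zeros hf h0 (zb f c R₁)
  set P : ℂ → ℂ := fun z => ∏ ρ ∈ zb f c R₁,
    (((R₃ : ℂ) ^ 2 - conj (ρ - c) * (z - c)) / R₃) ^ analyticOrderNatAt f ρ with hP
  have hPd : Differentiable ℂ P := by
    rw [hP]
    fun_prop
  refine ⟨fun z => g z * P z, fun z _ => (hg.mul hPd).analyticAt z, ?_, ?_⟩
  · intro z hz
    refine mul_ne_zero ?_ ?_
    · intro hgz
      have hfz : f z = 0 := by rw [hfg, hgz, mul_zero]
      exact hgS z ((mem_zb hf h0 c R₁ z).2 ⟨hfz, hz⟩) hgz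
    · refine Finset.prod_ne_zero_iff.2 fun ρ hρ => pow_ne_zero _ (div_ne_zero ?_ h3c)
      exact bla_den h1 h13 ((mem_zb hf h0 c R₁ ρ).1 hρ).2
        (closedBall_subset_closedBall h13.le hz)
  · intro z hz
    have h4 : P z * ∏ ρ ∈ zb f c R₁,
        (((R₃ : ℂ) * (z - ρ)) / ((R₃ : ℂ) ^ 2 - conj (ρ - c) * (z - c))) ^ analyticOrderNatAt f ρ
        = ∏ ρ ∈ zb f c R₁, (z - ρ) ^ analyticOrderNatAt f ρ := by
      rw [hP, ← Finset.prod_mul_distrib]
      refine Finset.prod_congr rfl fun ρ hρ => ?_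
      rw [← mul_pow]
      congr 1
      have := bla_den h1 h13 ((mem_zb hf h0 c R₁ ρ).1 hρ).2 hz
      field_simp
    show f z = g z * P z * _
    rw [mul_assoc, h4, hfg z, mul_comm]

end Pool.Agent.GA
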