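import Pool.Agent.Lib_helper98.GAF.T0

set_option autoImplicit false

namespace Pool.Agent.GAT

open Pool.Agent.GA

open Finset Complex Metric
open Pool.Agent.Var35 (e)
open Pool.Agent.Var73 (Cd)
open scoped ArithmeticFunction.vonMangoldt ArithmeticFunction.Moebius Classical

theorem cov_one {P : ℝ → ℝ} (hP : Continuous P) {T δ κ c : ℝ} (hT : 2 ≤ T)
    (hδ : 0 < δ) (hδ1 : δ ≤ 1 / 16) (hc : |c| ≤ T) (h : ∀ v : ℝ, |v - c| ≤ δ → κ ≤ P v) :
    2 * δ * κ ≤ ∫ v in (-(2 * T))..(2 * T), (Set.Icc (c - δ) (c + δ)).indicator P v := by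
  have hc' := abs_le.mp hc
  have hsub : Set.Icc (c - δ) (c + δ) ⊆ Set.Ioc (-(2 * T)) (2 * T) := by
    intro v hv
    exact ⟨by linarith [hv.1, hc'.1], by linarith [hv.2, hc'.2]⟩
  rw [intervalIntegral.integral_of_le (by linarith),
    MeasureTheory.setIntegral_indicator measurableSet_Icc, Set.inter_eq_right.mpr hsub]
  have h1 : ∫ _ in Set.Icc (c - δ) (c + δ), κ = 2 * δ * κ := by
    rw [MeasureTheory.setIntegral_const, MeasureTheory.measureReal_def, Real.volume_Icc,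
      ENNReal.toReal_ofReal (by linarith), smul_eq_mul]
    ring
  rw [← h1]
  refine MeasureTheory.setIntegral_mono_on ?_ ?_ measurableSet_Icc ?_
  · exact MeasureTheory.integrableOn_const (by simp)
  · exact hP.continuousOn.integrableOn_Icc
  · intro v hv
    apply h
    rw [abs_le]
    constructor <;> linarith [hv.1, hv.2]

theorem cov_int {P : ℝ → ℝ} (hP : Continuous P) (c δ T : ℝ) :
    IntervalIntegrable (fun v => (Set.Icc (c - δ) (c + δ)).indicator P v)
      MeasureTheory.volume (-(2 * T)) (2 * T) := by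
  have h1 : IntervalIntegrable P MeasureTheory.volume (-(2 * T)) (2 * T) :=
    hP.intervalIntegrable _ _
  constructor
  · exact h1.1.indicator measurableSet_Icc
  · exact h1.2.indicator measurableSet_Icc

theorem cover {f : ℂ → ℂ} (hf : Differentiable ℂ f) (hne : ∀ s : ℂ, 1 ≤ s.re → f s ≠ 0)
    {P : ℝ → ℝ} (hP : Continuous P) (hP0 : ∀ v, 0 ≤ P v) {T δ M κ : ℝ} (hT : 2 ≤ T)
    (hδ : 0 < δ) (hδ1 : δ ≤ 1 / 16) (hM : 0 ≤ M)
    (h1 : ∀ ρ ∈ zr f δ T, ∀ v : ℝ, |v - ρ.im| ≤ δ → κ ≤ P v)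
    (h2 : ∀ ρ ∈ zr f δ T, ∀ v : ℝ, |v - ρ.im| ≤ δ →
      ∑ ρ' ∈ zb f (1 + v * I) (2 * δ), mlt f ρ' ≤ M) :
    nz f δ T * (2 * δ) * κ ≤ M * ∫ v in (-(2 * T))..(2 * T), P v := by
  have h0 : f 1 ≠ 0 := hne 1 (by simp)
  have hle : -(2 * T) ≤ 2 * T := by linarith
  have s1 : nz f δ T * (2 * δ) * κ ≤
      ∑ ρ ∈ zr f δ T, mlt f ρ *
        ∫ v in (-(2 * T))..(2 * T), (Set.Icc (ρ.im - δ) (ρ.im + δ)).indicator P v := by
    unfold nz
    rw [sum_mul, sum_mul]
    refine sum_le_sum fun ρ hρ => ?_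
    have h3 := (mem_zr hf h0 δ T ρ).mp hρ
    have h4 := cov_one hP hT hδ hδ1 h3.2.2.2 (h1 ρ hρ)
    calc mlt f ρ * (2 * δ) * κ = mlt f ρ * (2 * δ * κ) := by ring
      _ ≤ _ := mul_le_mul_of_nonneg_left h4 (mlt_nonneg f ρ)
  refine s1.trans ?_
  have s2 : ∑ ρ ∈ zr f δ T, mlt f ρ *
        ∫ v in (-(2 * T))..(2 * T), (Set.Icc (ρ.im - δ) (ρ.im + δ)).indicator P v =
      ∫ v in (-(2 * T))..(2 * T), ∑ ρ ∈ zr f δ T, mlt f ρ *
        (Set.Icc (ρ.im - δ) (ρ.im + δ)).indicator P v := by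
    rw [intervalIntegral.integral_finsetSum
      (fun ρ _ => (cov_int hP ρ.im δ T).const_mul (mlt f ρ))]
    refine sum_congr rfl fun ρ _ => ?_
    rw [intervalIntegral.integral_const_mul]
  rw [s2, ← intervalIntegral.integral_const_mul]
  refine intervalIntegral.integral_mono_on hle ?_ ?_ ?_
  · have h6 := IntervalIntegrable.sum (zr f δ T)
      (f := fun ρ v => mlt f ρ * (Set.Icc (ρ.im - δ) (ρ.im + δ)).indicator P v)
      (fun ρ _ => (cov_int hP ρ.im δ T).const_mul (mlt f ρ))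
    refine h6.congr ?_
    intro v _
    simp
  · exact (hP.intervalIntegrable _ _).const_mul M
  · intro v _
    have hind : ∀ ρ : ℂ, mlt f ρ * (Set.Icc (ρ.im - δ) (ρ.im + δ)).indicator P v =
        (if |v - ρ.im| ≤ δ then mlt f ρ else 0) * P v := by
      intro ρ
      by_cases hv : |v - ρ.im| ≤ δ
      · have hmem : v ∈ Set.Icc (ρ.im - δ) (ρ.im + δ) := by
          rw [abs_le] at hv
          exact ⟨by linarith [hv.1], by linarith [hv.2]⟩
        rw [Set.indicator_of_mem hmem, if_pos hv]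
      · have hmem : v ∉ Set.Icc (ρ.im - δ) (ρ.im + δ) := by
          intro hm
          apply hv
          rw [abs_le]
          exact ⟨by linarith [hm.1], by linarith [hm.2]⟩
        rw [Set.indicator_of_notMem hmem, if_neg hv]
        ring
    simp_rw [hind]
    rw [← sum_mul]
    refine mul_le_mul_of_nonneg_right ?_ (hP0 v)
    rw [← sum_filter]
    by_cases hemp : ((zr f δ T).filter (fun ρ => |v - ρ.im| ≤ δ)).Nonempty
    · obtain ⟨ρ₀, hρ₀⟩ := hemp
      rw [mem_filter] at hρ₀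
      refine le_trans ?_ (h2 ρ₀ hρ₀.1 v hρ₀.2)
      refine sum_le_sum_of_subset_of_nonneg ?_ fun ρ _ _ => mlt_nonneg f ρ
      intro ρ hρ
      rw [mem_filter] at hρ
      have h5 := (mem_zr hf h0 δ T ρ).mp hρ.1
      rw [mem_zb hf h0]
      refine ⟨h5.1, ?_⟩
      rw [mem_closedBall, dist_eq_norm]
      refine (Complex.norm_le_abs_re_add_abs_im _).trans ?_
      have e1 : (ρ - (1 + v * I)).re = ρ.re - 1 := by simp
      have e2 : (ρ - (1 + v * I)).im = ρ.im - v := by simp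
      rw [e1, e2, abs_sub_comm ρ.im v]
      have e3 : |ρ.re - 1| ≤ δ := by
        rw [abs_le]
        constructor <;> linarith [h5.2.1, h5.2.2.1]
      linarith [hρ.2]
    · rw [not_nonempty_iff_eq_empty] at hemp
      rw [hemp, sum_empty]
      exact hM

end Pool.Agent.GAT
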