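import Pool.Agent.Lib_helper98.GAF.T0

/-! # GA, block ZNL: no zeros of zeta near the line at small height -/

set_option autoImplicit false

namespace Pool.Agent.GAT

open Pool.Agent.GA

open Finset Complex Metric
open Pool.Agent.Var35 (e)
open Pool.Agent.Var73 (Cd)
open scoped ArithmeticFunction.vonMangoldt ArithmeticFunction.Moebius Classical

theorem znl_ne {s : ℂ} (hs : 1 ≤ s.re) : riemannZeta₁ s ≠ 0 := by
  by_cases h : s = 1
  · rw [h, riemannZeta₁_one]
    exact one_ne_zero
  · intro h0
    have h1 := riemannZeta_ne_zero_of_one_le_re hs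
    have h2 : riemannZeta s = (s - 1)⁻¹ * riemannZeta₁ s := riemannZeta_eq_inv_sub_mul h
    rw [h2, h0, mul_zero] at h1
    exact h1 rfl

theorem zeta_near : ∃ δ₀ : ℝ, 0 < δ₀ ∧ ∀ s : ℂ, 1 - δ₀ ≤ s.re → |s.im| ≤ 1 →
    riemannZeta₁ s ≠ 0 := by
  have hc : Continuous riemannZeta₁ := differentiable_riemannZeta₁.continuous
  obtain ⟨K, hK⟩ : ∃ K : Set ℂ, K = {s : ℂ | riemannZeta₁ s = 0 ∧ 0 ≤ s.re ∧ s.re ≤ 1 ∧
      |s.im| ≤ 1} := ⟨_, rfl⟩
  have hcl : IsClosed K := by
    rw [hK]
    refine (isClosed_eq hc continuous_const).inter ((isClosed_le continuous_const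
      Complex.continuous_re).inter ((isClosed_le Complex.continuous_re continuous_const).inter
      (isClosed_le Complex.continuous_im.abs continuous_const)))
  have hcomp : IsCompact K := by
    refine (isCompact_closedBall (0 : ℂ) 2).of_isClosed_subset hcl ?_
    rw [hK]
    rintro s ⟨-, h1, h2, h3⟩
    rw [mem_closedBall_zero_iff]
    refine (Complex.norm_le_abs_re_add_abs_im s).trans ?_
    rw [abs_of_nonneg h1]
    linarith
  rcases K.eq_empty_or_nonempty with he | hne
  · refine ⟨1, one_pos, fun s h1 h2 h0 => ?_⟩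
    rcases le_or_gt 1 s.re with h3 | h3
    · exact znl_ne h3 h0
    · have : s ∈ K := by
        rw [hK]
        exact ⟨h0, by linarith, h3.le, h2⟩
      rw [he] at this
      exact this
  · obtain ⟨s₀, hs₀, hmax⟩ := hcomp.exists_isMaxOn hne Complex.continuous_re.continuousOn
    have h3 : s₀.re < 1 := by
      by_contra h
      rw [hK] at hs₀
      exact znl_ne (not_lt.1 h) hs₀.1
    refine ⟨min 1 ((1 - s₀.re) / 2), lt_min one_pos (by linarith), fun s h1 h2 h0 => ?_⟩
    have h4 := min_le_left 1 ((1 - s₀.re) / 2)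
    have h5 := min_le_right 1 ((1 - s₀.re) / 2)
    rcases le_or_gt 1 s.re with h6 | h6
    · exact znl_ne h6 h0
    · have h7 : s ∈ K := by
        rw [hK]
        exact ⟨h0, by linarith, h6.le, h2⟩
      have h8 : s.re ≤ s₀.re := hmax h7
      linarith

end Pool.Agent.GAT
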