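import Pool.Agent.Lib_helper98.GAF.T0

/-! # GA, block ZTR: the trivial count -/

set_option autoImplicit false

namespace Pool.Agent.GAT

open Pool.Agent.GA

open Finset Complex Metric
open Pool.Agent.Var35 (e)
open Pool.Agent.Var73 (Cd)
open scoped ArithmeticFunction.vonMangoldt ArithmeticFunction.Moebius Classical

/-- the centres -/
noncomputable def ztrC (k : ℤ) : ℂ := 1 + ((1 / 16 : ℝ) : ℂ) + ((k : ℝ) / 4 : ℝ) * I

theorem ztr_mem {ρ : ℂ} (h1 : 1 - 1 / 16 ≤ ρ.re) (h2 : ρ.re ≤ 1) :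
    ρ ∈ closedBall (ztrC (round (4 * ρ.im))) (1 / 4) := by
  rw [mem_closedBall, dist_eq_norm]
  refine (Complex.norm_le_abs_re_add_abs_im _).trans ?_
  have e1 : (ρ - ztrC (round (4 * ρ.im))).re = ρ.re - (1 + 1 / 16) := by
    simp [ztrC]
  have e2 : (ρ - ztrC (round (4 * ρ.im))).im = ρ.im - (round (4 * ρ.im) : ℝ) / 4 := by
    simp [ztrC]
  have e3 := abs_sub_round (4 * ρ.im)
  rw [e1, e2]
  have e4 : |ρ.re - (1 + 1 / 16)| ≤ 1 / 8 := by
    rw [abs_le]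
    constructor <;> linarith
  have e5 : |ρ.im - (round (4 * ρ.im) : ℝ) / 4| ≤ 1 / 8 := by
    rw [abs_le] at e3 ⊢
    constructor <;> linarith [e3.1, e3.2]
  linarith

theorem zeros_trivial {f : ℂ → ℂ} (hf : Differentiable ℂ f)
    (hne : ∀ s : ℂ, 1 ≤ s.re → f s ≠ 0) {T M : ℝ} (hT : 1 ≤ T) (hM : 0 ≤ M)
    (h : ∀ t : ℝ, |t| ≤ T + 1 →
      ∑ ρ ∈ zb f (1 + ((1 / 16 : ℝ) : ℂ) + t * I) (1 / 4), mlt f ρ ≤ M) :
    nz f (1 / 16) T ≤ 32 * T * M := by
  have h0 : f 1 ≠ 0 := hne 1 (by simp)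
  obtain ⟨N, hN⟩ : ∃ N : ℤ, N = ⌊4 * T⌋ + 1 := ⟨_, rfl⟩
  have hN1 : (N : ℝ) ≤ 4 * T + 1 := by
    rw [hN]
    push_cast
    linarith [Int.floor_le (4 * T)]
  have hN2 : 4 * T < (N : ℝ) := by
    rw [hN]
    push_cast
    exact Int.lt_floor_add_one _
  have hN0 : 0 ≤ N := by
    have : (0 : ℝ) < N := by linarith
    exact_mod_cast this.le
  have hsum : ∀ k ∈ Icc (-N) N, ∑ ρ ∈ zb f (ztrC k) (1 / 4), mlt f ρ ≤ M := by
    intro k hk
    rw [mem_Icc] at hk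
    refine h ((k : ℝ) / 4) ?_
    have a1 : -(N : ℝ) ≤ k := by exact_mod_cast hk.1
    have a2 : (k : ℝ) ≤ N := by exact_mod_cast hk.2
    rw [abs_le]
    constructor <;> linarith
  have hcov : ∀ ρ ∈ zr f (1 / 16) T, mlt f ρ ≤
      ∑ k ∈ Icc (-N) N, if ρ ∈ zb f (ztrC k) (1 / 4) then mlt f ρ else 0 := by
    intro ρ hρ
    rw [mem_zr hf h0] at hρ
    obtain ⟨b0, b1, b2, b3⟩ := hρ
    rw [abs_le] at b3
    have c3 := abs_sub_round (4 * ρ.im)
    rw [abs_le] at c3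
    have hk : round (4 * ρ.im) ∈ Icc (-N) N := by
      rw [mem_Icc]
      constructor
      · have : (-N : ℝ) < (round (4 * ρ.im) : ℝ) + 1 := by linarith [c3.2, b3.1]
        have h6 : -N < round (4 * ρ.im) + 1 := by exact_mod_cast this
        omega
      · have : (round (4 * ρ.im) : ℝ) < N + 1 := by linarith [c3.1, b3.2]
        have h6 : round (4 * ρ.im) < N + 1 := by exact_mod_cast this
        omega
    have h7 : ρ ∈ zb f (ztrC (round (4 * ρ.im))) (1 / 4) :=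
      (mem_zb hf h0 _ _ _).2 ⟨b0, ztr_mem b1 b2⟩
    have h8 := single_le_sum (f := fun k => if ρ ∈ zb f (ztrC k) (1 / 4) then mlt f ρ else 0)
      (fun k _ => by
        split_ifs
        · exact mlt_nonneg f ρ
        · exact le_rfl) hk
    rwa [if_pos h7] at h8
  have hcard : ((Icc (-N) N).card : ℝ) ≤ 32 * T := by
    rw [Int.card_Icc]
    have h9 : (((N + 1 - -N).toNat : ℕ) : ℝ) = 2 * N + 1 := by
      have h10 : (((N + 1 - -N).toNat : ℕ) : ℤ) = 2 * N + 1 := by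
        rw [Int.toNat_of_nonneg (by omega)]
        ring
      exact_mod_cast h10
    rw [h9]
    linarith
  rw [nz]
  calc ∑ ρ ∈ zr f (1 / 16) T, mlt f ρ
      ≤ ∑ ρ ∈ zr f (1 / 16) T, ∑ k ∈ Icc (-N) N,
          if ρ ∈ zb f (ztrC k) (1 / 4) then mlt f ρ else 0 := sum_le_sum hcov
    _ = ∑ k ∈ Icc (-N) N, ∑ ρ ∈ zr f (1 / 16) T,
          if ρ ∈ zb f (ztrC k) (1 / 4) then mlt f ρ else 0 := sum_comm
    _ ≤ ∑ k ∈ Icc (-N) N, M := by
        refine sum_le_sum fun k hk => ?_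
        rw [← sum_filter]
        refine le_trans ?_ (hsum k hk)
        refine sum_le_sum_of_subset_of_nonneg ?_ fun ρ _ _ => mlt_nonneg f ρ
        intro ρ hρ
        exact (mem_filter.1 hρ).2
    _ = ((Icc (-N) N).card : ℝ) * M := by rw [sum_const, nsmul_eq_mul]
    _ ≤ 32 * T * M := mul_le_mul_of_nonneg_right hcard hM

end Pool.Agent.GAT
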