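import Pool.Agent.Lib_helper98.GAF.Ldz
import Pool.Agent.Lib_helper98.GAF.WMS
import Pool.Agent.Lib_helper98.GAF.COV
import Pool.Agent.Lib_helper98.GAF.ZTR
import Pool.Agent.Lib_helper98.GAF.ZNL

/-! # DEN: log-free zero density, characters and zeta -/

set_option autoImplicit false

namespace Pool.Agent.GAT

open Pool.Agent.GA

open Finset Complex Metric
open scoped ArithmeticFunction.vonMangoldt Classical

theorem Pw_cont {q : ℕ} (χ : DirichletCharacter ℂ q) (j : ℕ) (δ : ℝ) (a b : ℕ) :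
    Continuous (fun v : ℝ => Pw χ j δ v a b) := by
  unfold Pw
  refine continuous_finsetSum _ fun p hp => ?_
  rw [mem_filter] at hp
  have hp0 : (p : ℂ) ≠ 0 := by exact_mod_cast hp.2.ne_zero
  refine continuous_const.mul (Continuous.const_cpow ?_ (Or.inl hp0))
  fun_prop

theorem PP_cont {q : ℕ} (χ : DirichletCharacter ℂ q) (K : ℕ) (δ : ℝ) (a b : ℕ) :
    Continuous (fun v : ℝ => ∑ j ∈ Icc K (2 * K), (δ ^ (j + 1) * ‖Pw χ j δ v a b‖) ^ 2) :=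
  continuous_finsetSum _ fun j _ => (continuous_const.mul (Pw_cont χ j δ a b).norm).pow 2

/-- one function -/
theorem zeros_one {C : ℝ} (hC : 1 ≤ C) : ∃ B : ℝ, 500 ≤ B ∧ ∀ D : ℕ, 2 ≤ D →
    ∀ (q : ℕ) [NeZero q] (χ : DirichletCharacter ℂ q) (f : ℂ → ℂ) (δ : ℝ),
    1 / (4 * Real.log D) ≤ δ → δ ≤ 1 / 600 → Differentiable ℂ f →
    (∀ s : ℂ, 1 ≤ s.re → f s ≠ 0) →
    (∀ ρ : ℂ, f ρ = 0 → 1 - δ ≤ ρ.re → |ρ.im| ≤ D → ∀ v : ℝ, |v - ρ.im| ≤ δ →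
      LD f (Gj χ) C (4 * Real.log D) v) →
    ∀ K : ℕ, B * (δ * (4 * Real.log D)) ≤ K →
      nz f δ D * (1 / 100 : ℝ) ^ (2 * K) ≤ 4 * C * Real.log D *
        ∫ v in (-(2 * D : ℝ))..(2 * D : ℝ), ∑ j ∈ Icc K (2 * K), (δ ^ (j + 1) *
          ‖Pw χ j δ v ⌊Real.exp (K / (100 * δ))⌋₊ ⌊Real.exp (40 * K / δ)⌋₊‖) ^ 2 := by
  obtain ⟨B, hB, hlow⟩ := LD.window_lower hC
  refine ⟨B, hB, fun D hD q _ χ f δ hδ hδ1 hf hne hld K hK => ?_⟩
  have hDr : (2 : ℝ) ≤ D := by exact_mod_cast hD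
  have hlD : 0 < Real.log D := Real.log_pos (by linarith)
  have hδ0 : 0 < δ := lt_of_lt_of_le (by positivity) hδ
  set a := ⌊Real.exp (K / (100 * δ))⌋₊ with ha
  set b := ⌊Real.exp (40 * K / δ)⌋₊ with hb
  set P : ℝ → ℝ := fun v => ∑ j ∈ Icc K (2 * K), (δ ^ (j + 1) * ‖Pw χ j δ v a b‖) ^ 2 with hP
  have hf1 : f 1 ≠ 0 := hne 1 (by simp)
  have hM0 : 0 ≤ C * (2 * δ * (4 * Real.log D)) := by positivity
  have h := cover hf hne (P := P) (PP_cont χ K δ a b)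
    (fun v => sum_nonneg fun j _ => by positivity) (T := D) (δ := δ)
    (M := C * (2 * δ * (4 * Real.log D))) (κ := (1 / 100) ^ (2 * K)) hDr hδ0 (by linarith)
    hM0 ?_ ?_
  · have h2 : nz f δ D * (1 / 100) ^ (2 * K) * (2 * δ) ≤
        (4 * C * Real.log D * ∫ v in (-(2 * D : ℝ))..(2 * D : ℝ), P v) * (2 * δ) := by
      calc _ = nz f δ D * (2 * δ) * (1 / 100) ^ (2 * K) := by ring
        _ ≤ _ := h
        _ = _ := by ring
    exact le_of_mul_le_mul_right h2 (by positivity)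
  · intro ρ hρ v hv
    rw [mem_zr hf hf1] at hρ
    obtain ⟨h1, h2, h3, h4⟩ := hρ
    obtain ⟨j, hj, hjle⟩ := hlow q χ f v δ (4 * Real.log D) (hld ρ h1 h2 h4 v hv) hδ hδ1 ρ h1 h2
      hv K hK
    calc (1 / 100 : ℝ) ^ (2 * K) = ((1 / 100 : ℝ) ^ K) ^ 2 := by rw [mul_comm, pow_mul]
      _ ≤ (δ ^ (j + 1) * ‖Pw χ j δ v a b‖) ^ 2 := pow_le_pow_left₀ (by positivity) hjle 2
      _ ≤ P v := Finset.single_le_sum
          (f := fun j => (δ ^ (j + 1) * ‖Pw χ j δ v a b‖) ^ 2) (fun j _ => by positivity) hj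
  · intro ρ hρ v hv
    rw [mem_zr hf hf1] at hρ
    obtain ⟨h1, h2, h3, h4⟩ := hρ
    refine (hld ρ h1 h2 h4 v hv).near (2 * δ) (by linarith) (by linarith)

/-- the common part: `ι` indexes functions with characters -/
theorem dens_core {C : ℝ} (hC : 1 ≤ C) : ∃ C' : ℝ, 1 ≤ C' ∧ ∀ D : ℕ, 2 ≤ D → ∀ δ : ℝ,
    1 / (4 * Real.log D) ≤ δ → δ ≤ 1 / 600 →
    ∀ (F : (q : ℕ) → DirichletCharacter ℂ q → ℂ → ℂ)
      (S : (q : ℕ) → Finset (DirichletCharacter ℂ q)), (∀ q, S q ⊆ Prp q) →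
    (∀ q ∈ Icc 1 D, ∀ χ ∈ S q, Differentiable ℂ (F q χ) ∧
      (∀ s : ℂ, 1 ≤ s.re → F q χ s ≠ 0) ∧
      (∀ ρ : ℂ, F q χ ρ = 0 → 1 - δ ≤ ρ.re → |ρ.im| ≤ D → ∀ v : ℝ, |v - ρ.im| ≤ δ →
        LD (F q χ) (Gj χ) C (4 * Real.log D) v)) →
    ∑ q ∈ Icc 1 D, ∑ χ ∈ S q, nz (F q χ) δ D ≤ Real.exp (C' * (1 + δ * Real.log D)) := by
  obtain ⟨B, hB, hone⟩ := zeros_one hC
  obtain ⟨E, hE, hms⟩ := window_mean_square
  set L0 : ℝ := Real.log (10000 * E) with hL0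
  have hL0' : 0 ≤ L0 := Real.log_nonneg (by linarith)
  have hlC : 0 ≤ Real.log (4 * C) := Real.log_nonneg (by linarith)
  refine ⟨1 + Real.log (4 * C) + L0 + L0 * (4 * B), by
    have : 0 ≤ L0 * (4 * B) := by positivity
    linarith, fun D hD δ hδ hδ1 F S hS hF => ?_⟩
  have hDr : (2 : ℝ) ≤ D := by exact_mod_cast hD
  have hD0 : (0 : ℝ) < D := by linarith
  have hlD : 0 < Real.log D := Real.log_pos (by linarith)
  have hδ0 : 0 < δ := lt_of_lt_of_le (by positivity) hδ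
  have hδ4 : 1 ≤ δ * (4 * Real.log D) := by rwa [div_le_iff₀ (by positivity)] at hδ
  set K : ℕ := ⌈B * (δ * (4 * Real.log D))⌉₊ with hK
  have hK1 : B * (δ * (4 * Real.log D)) ≤ K := Nat.le_ceil _
  have hK2 : (K : ℝ) ≤ B * (δ * (4 * Real.log D)) + 1 :=
    (Nat.ceil_lt_add_one (by positivity)).le
  have hK3 : (500 : ℝ) ≤ K := by nlinarith
  have hK4 : 1 ≤ K := by
    have : (0 : ℝ) < K := by linarith
    have : 0 < K := by exact_mod_cast this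
    omega
  set a := ⌊Real.exp (K / (100 * δ))⌋₊ with ha
  set b := ⌊Real.exp (40 * K / δ)⌋₊ with hb
  have haD : D ^ 5 ≤ a := by
    rw [ha, Nat.le_floor_iff (Real.exp_pos _).le]
    push_cast
    have e1 : (D : ℝ) ^ 5 = Real.exp (5 * Real.log D) := by
      rw [mul_comm, Real.exp_mul, Real.exp_log hD0]
      norm_cast
    rw [e1]
    refine Real.exp_le_exp.2 ?_
    rw [le_div_iff₀ (by positivity)]
    nlinarith
  have hms' := hms D hD K hK4 δ hδ0 (by linarith) a b haD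
  have hpt : ∀ q ∈ Icc 1 D, ∀ χ ∈ S q, nz (F q χ) δ D * (1 / 100 : ℝ) ^ (2 * K) ≤
      4 * C * Real.log D * ∫ v in (-(2 * D : ℝ))..(2 * D : ℝ), ∑ j ∈ Icc K (2 * K),
        (δ ^ (j + 1) * ‖Pw χ j δ v a b‖) ^ 2 := by
    intro q hq χ hχ
    have hq0 : NeZero q := ⟨by rw [mem_Icc] at hq; omega⟩
    obtain ⟨h1, h2, h3⟩ := hF q hq χ hχ
    exact hone D hD q χ (F q χ) δ hδ hδ1 h1 h2 h3 K hK1
  have hnn : ∀ (q : ℕ) (χ : DirichletCharacter ℂ q), 0 ≤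
      ∫ v in (-(2 * D : ℝ))..(2 * D : ℝ), ∑ j ∈ Icc K (2 * K),
        (δ ^ (j + 1) * ‖Pw χ j δ v a b‖) ^ 2 := by
    intro q χ
    refine intervalIntegral.integral_nonneg (by linarith) fun v _ => ?_
    exact sum_nonneg fun j _ => by positivity
  have hsum : (∑ q ∈ Icc 1 D, ∑ χ ∈ S q, nz (F q χ) δ D) * (1 / 100 : ℝ) ^ (2 * K) ≤
      4 * C * E ^ K := by
    calc (∑ q ∈ Icc 1 D, ∑ χ ∈ S q, nz (F q χ) δ D) * (1 / 100 : ℝ) ^ (2 * K)
        = ∑ q ∈ Icc 1 D, ∑ χ ∈ S q, nz (F q χ) δ D * (1 / 100 : ℝ) ^ (2 * K) := by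
          rw [Finset.sum_mul]
          exact Finset.sum_congr rfl fun q _ => Finset.sum_mul _ _ _
      _ ≤ ∑ q ∈ Icc 1 D, ∑ χ ∈ S q, 4 * C * Real.log D *
            ∫ v in (-(2 * D : ℝ))..(2 * D : ℝ), ∑ j ∈ Icc K (2 * K),
              (δ ^ (j + 1) * ‖Pw χ j δ v a b‖) ^ 2 :=
          Finset.sum_le_sum fun q hq => Finset.sum_le_sum fun χ hχ => hpt q hq χ hχ
      _ ≤ ∑ q ∈ Icc 1 D, ∑ χ ∈ Prp q, 4 * C * Real.log D *
            ∫ v in (-(2 * D : ℝ))..(2 * D : ℝ), ∑ j ∈ Icc K (2 * K),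
              (δ ^ (j + 1) * ‖Pw χ j δ v a b‖) ^ 2 := by
          refine Finset.sum_le_sum fun q hq => Finset.sum_le_sum_of_subset_of_nonneg (hS q)
            fun χ _ _ => ?_
          have := hnn q χ
          positivity
      _ = 4 * C * (Real.log D * ∑ q ∈ Icc 1 D, ∑ χ ∈ Prp q,
            ∫ v in (-(2 * D : ℝ))..(2 * D : ℝ), ∑ j ∈ Icc K (2 * K),
              (δ ^ (j + 1) * ‖Pw χ j δ v a b‖) ^ 2) := by
          simp only [Finset.mul_sum]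
          refine Finset.sum_congr rfl fun q _ => Finset.sum_congr rfl fun χ _ => ?_
          ring
      _ ≤ 4 * C * E ^ K := by gcongr
  have h100 : (1 / 100 : ℝ) ^ (2 * K) * 10000 ^ K = 1 := by
    rw [pow_mul, ← mul_pow]; norm_num
  set W := ∑ q ∈ Icc 1 D, ∑ χ ∈ S q, nz (F q χ) δ D with hW
  have hfin : W ≤ 4 * C * (10000 * E) ^ K := by
    calc W = W * (1 / 100 : ℝ) ^ (2 * K) * 10000 ^ K := by rw [mul_assoc, h100, mul_one]
      _ ≤ 4 * C * E ^ K * 10000 ^ K := by gcongr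
      _ = 4 * C * (10000 * E) ^ K := by rw [mul_pow]; ring
  refine hfin.trans ?_
  have e1 : (10000 * E) ^ K = Real.exp (L0 * K) := by
    rw [hL0, Real.exp_mul, Real.exp_log (by positivity)]
    norm_cast
  have e2 : 4 * C = Real.exp (Real.log (4 * C)) := (Real.exp_log (by positivity)).symm
  rw [e1]
  conv_lhs => rw [e2]
  rw [← Real.exp_add]
  refine Real.exp_le_exp.2 ?_
  have e3 : L0 * K ≤ L0 * (B * (δ * (4 * Real.log D)) + 1) := by gcongr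
  have e4 : 0 ≤ δ * Real.log D := by positivity
  nlinarith [mul_nonneg hlC e4, mul_nonneg hL0' e4, mul_nonneg (mul_nonneg hL0' (by linarith : (0 : ℝ) ≤ B)) e4]

end Pool.Agent.GAT
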