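import Pool.Agent.Lib_helper98.GAF.Den

/-! # DEN: log-free zero density, final statements -/

set_option autoImplicit false

namespace Pool.Agent.GAT

open Pool.Agent.GA

open Finset Complex Metric
open scoped ArithmeticFunction.vonMangoldt Classical

theorem glue {C₁ C₂ δ₁ : ℝ} (hC₁ : 1 ≤ C₁) (hC₂ : 1 ≤ C₂) (hδ₁ : 0 < δ₁) (hδ₁' : δ₁ ≤ 1 / 16) :
    ∃ C : ℝ, 1 ≤ C ∧ ∀ (D : ℕ), 2 ≤ D → ∀ W : ℝ → ℝ,
    (∀ a b : ℝ, a ≤ b → W a ≤ W b) →
    (∀ δ : ℝ, 1 / (4 * Real.log D) ≤ δ → δ ≤ δ₁ → W δ ≤ Real.exp (C₁ * (1 + δ * Real.log D))) →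
    W (1 / 16) ≤ C₂ * D ^ 4 →
    ∀ δ : ℝ, 0 ≤ δ → δ ≤ 1 / 16 → W δ ≤ Real.exp (C * (1 + δ * Real.log D)) := by
  have hlC₂ : 0 ≤ Real.log C₂ := Real.log_nonneg hC₂
  have h4 : 0 < 4 / δ₁ := by positivity
  refine ⟨2 * C₁ + Real.log C₂ + 4 / δ₁, by linarith, fun D hD W hmono h1 h2 δ hδ hδ16 => ?_⟩
  have hDr : (2 : ℝ) ≤ D := by exact_mod_cast hD
  have hD0 : (0 : ℝ) < D := by linarith
  have hlD : 0 < Real.log D := Real.log_pos (by linarith)
  have hx : 0 ≤ δ * Real.log D := by positivity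
  have hC₂e : C₂ * (D : ℝ) ^ 4 = Real.exp (Real.log C₂ + 4 * Real.log D) := by
    rw [Real.exp_add, Real.exp_log (by positivity), mul_comm 4, Real.exp_mul, Real.exp_log hD0]
    norm_cast
  have hm1 := mul_nonneg (by linarith : 0 ≤ C₁) hx
  have hm2 := mul_nonneg hlC₂ hx
  have hm3 := mul_nonneg h4.le hx
  by_cases hA : δ ≤ δ₁ ∧ 1 / (4 * Real.log D) ≤ δ₁
  · obtain ⟨hA1, hA2⟩ := hA
    set δ' := max δ (1 / (4 * Real.log D)) with hδ'
    have e1 : δ' ≤ δ + 1 / (4 * Real.log D) := by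
      have : 0 < 1 / (4 * Real.log D) := by positivity
      rw [hδ']
      exact max_le (by linarith) (by linarith)
    have e2 : δ' * Real.log D ≤ δ * Real.log D + 1 / 4 := by
      calc δ' * Real.log D ≤ (δ + 1 / (4 * Real.log D)) * Real.log D := by gcongr
        _ = _ := by field_simp
    refine (hmono δ δ' (le_max_left _ _)).trans
      ((h1 δ' (le_max_right _ _) (max_le hA1 hA2)).trans (Real.exp_le_exp.2 ?_))
    have e3 : C₁ * (1 + δ' * Real.log D) ≤ C₁ * (1 + (δ * Real.log D + 1 / 4)) := by gcongr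
    nlinarith
  · refine (hmono δ (1 / 16) hδ16).trans (h2.trans ?_)
    rw [hC₂e]
    refine Real.exp_le_exp.2 ?_
    rw [not_and_or, not_le, not_le] at hA
    rcases hA with hA | hA
    · have e1 : 4 * Real.log D ≤ 4 / δ₁ * (δ * Real.log D) := by
        calc 4 * Real.log D = 4 / δ₁ * (δ₁ * Real.log D) := by field_simp
          _ ≤ _ := by gcongr
      nlinarith
    · have e1 : 4 * Real.log D ≤ 4 / δ₁ := by
        rw [lt_div_iff₀ (by positivity)] at hA
        rw [le_div_iff₀ hδ₁]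
        nlinarith
      nlinarith

theorem lt_le_four {D : ℕ} (hD : 2 ≤ D) {q : ℕ} (hq : q ∈ Icc 1 D) {v : ℝ}
    (hv : |v| ≤ D + 1) : lt q v ≤ 4 * Real.log D := by
  rw [mem_Icc] at hq
  have hDr : (2 : ℝ) ≤ D := by exact_mod_cast hD
  have hq1 : (1 : ℝ) ≤ q := by exact_mod_cast hq.1
  have hqD : (q : ℝ) ≤ D := by exact_mod_cast hq.2
  have h1 : 4 * Real.log D = Real.log ((D : ℝ) ^ 4) := by rw [Real.log_pow]; norm_num
  rw [h1]
  unfold lt
  have := abs_nonneg v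
  refine Real.log_le_log (by positivity) ?_
  have h2 : (D : ℝ) + 3 ≤ (D : ℝ) ^ 3 := by nlinarith [mul_self_nonneg ((D : ℝ) - 2)]
  calc (q : ℝ) * (|v| + 2) ≤ D * (D ^ 3) := by
        gcongr
        linarith
    _ = D ^ 4 := by ring

theorem four_log_ge {D : ℕ} (hD : 2 ≤ D) : 1 ≤ 4 * Real.log D ∧
    Real.exp (-(4 * Real.log D)) ≤ 1 / 16 := by
  have hDr : (2 : ℝ) ≤ D := by exact_mod_cast hD
  have h2 := Real.log_two_gt_d9
  have h3 : Real.log 2 ≤ Real.log D := Real.log_le_log (by norm_num) hDr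
  refine ⟨by linarith, ?_⟩
  have h4 : Real.exp (-(4 * Real.log D)) = ((D : ℝ) ^ 4)⁻¹ := by
    rw [Real.exp_neg, mul_comm 4, Real.exp_mul, Real.exp_log (by linarith)]
    norm_cast
  rw [h4, one_div]
  refine inv_anti₀ (by norm_num) ?_
  calc (16 : ℝ) = 2 ^ 4 := by norm_num
    _ ≤ (D : ℝ) ^ 4 := pow_le_pow_left₀ (by norm_num) hDr 4

theorem card_Prm {q : ℕ} [NeZero q] : ((Prm q).card : ℝ) ≤ q := by
  have h1 : (Prm q).card ≤ q := by
    calc (Prm q).card ≤ Fintype.card (DirichletCharacter ℂ q) := Finset.card_le_univ _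
      _ = Nat.card (DirichletCharacter ℂ q) := Nat.card_eq_fintype_card.symm
      _ = q.totient := DirichletCharacter.card_eq_totient_of_hasEnoughRootsOfUnity ℂ q
      _ ≤ q := Nat.totient_le q
  exact_mod_cast h1

/-- log-free zero density for all nontrivial primitive characters of conductor at most `D` -/
theorem density : ∃ C : ℝ, 1 ≤ C ∧ ∀ D : ℕ, 2 ≤ D → ∀ δ : ℝ, 0 ≤ δ → δ ≤ 1 / 16 →
    ∑ q ∈ Icc 1 D, ∑ χ ∈ Prm q, nz (LF χ) δ D ≤ Real.exp (C * (1 + δ * Real.log D)) := by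
  obtain ⟨C₀, hC₀, hld⟩ := LD_char
  obtain ⟨C₁, hC₁, hcore⟩ := dens_core hC₀
  obtain ⟨C, hC, hglue⟩ := glue (C₁ := C₁) (C₂ := 128 * C₀) (δ₁ := 1 / 600) hC₁ (by linarith)
    (by norm_num) (by norm_num)
  refine ⟨C, hC, fun D hD => ?_⟩
  have hDr : (2 : ℝ) ≤ D := by exact_mod_cast hD
  have hD0 : (0 : ℝ) < D := by linarith
  have hlD : 0 < Real.log D := Real.log_pos (by linarith)
  obtain ⟨h41, h4e⟩ := four_log_ge hD
  have hNZ : ∀ q ∈ Icc 1 D, NeZero q := fun q hq => ⟨by rw [mem_Icc] at hq; omega⟩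
  have hdiff : ∀ q ∈ Icc 1 D, ∀ χ ∈ Prm q, Differentiable ℂ (LF χ) ∧
      (∀ s : ℂ, 1 ≤ s.re → LF χ s ≠ 0) := by
    intro q hq χ hχ
    have := hNZ q hq
    exact ⟨LF_diff (mem_Prm.1 hχ).2, fun s hs => LF_ne_zero (mem_Prm.1 hχ).2 hs⟩
  refine hglue D hD (fun δ => ∑ q ∈ Icc 1 D, ∑ χ ∈ Prm q, nz (LF χ) δ D) ?_ ?_ ?_
  · intro a b hab
    refine Finset.sum_le_sum fun q hq => Finset.sum_le_sum fun χ hχ => ?_
    obtain ⟨h1, h2⟩ := hdiff q hq χ hχ
    exact nz_mono h1 (h2 1 (by simp)) hab le_rfl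
  · intro δ hδ hδ1
    refine hcore D hD δ hδ hδ1 (fun q χ => LF χ) Prm (fun q χ hχ => ?_) ?_
    · unfold Prp
      rw [mem_filter]
      exact ⟨mem_univ _, (mem_Prm.1 hχ).1⟩
    · intro q hq χ hχ
      obtain ⟨h1, h2⟩ := hdiff q hq χ hχ
      refine ⟨h1, h2, fun ρ _ _ h5 v hv => ?_⟩
      have := hNZ q hq
      refine hld q χ (mem_Prm.1 hχ).2 v _ (lt_le_four hD hq ?_)
      have : |v| ≤ |v - ρ.im| + |ρ.im| := by
        calc |v| = |(v - ρ.im) + ρ.im| := by ring_nf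
          _ ≤ _ := abs_add_le _ _
      linarith
  · have hpt : ∀ q ∈ Icc 1 D, ∀ χ ∈ Prm q, nz (LF χ) (1 / 16) D ≤
        32 * D * (C₀ * (4 * Real.log D)) := by
      intro q hq χ hχ
      obtain ⟨h1, h2⟩ := hdiff q hq χ hχ
      refine zeros_trivial h1 h2 (by linarith) (by positivity) fun t ht => ?_
      have := hNZ q hq
      exact (hld q χ (mem_Prm.1 hχ).2 t _ (lt_le_four hD hq ht)).cnt (1 / 16) h4e le_rfl
    have hlogD : Real.log D ≤ D := (Real.log_le_sub_one_of_pos hD0).trans (by linarith)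
    calc ∑ q ∈ Icc 1 D, ∑ χ ∈ Prm q, nz (LF χ) (1 / 16) D
        ≤ ∑ q ∈ Icc 1 D, ∑ χ ∈ Prm q, 32 * D * (C₀ * (4 * Real.log D)) :=
          Finset.sum_le_sum fun q hq => Finset.sum_le_sum fun χ hχ => hpt q hq χ hχ
      _ = ∑ q ∈ Icc 1 D, ((Prm q).card : ℝ) * (32 * D * (C₀ * (4 * Real.log D))) := by
          refine Finset.sum_congr rfl fun q _ => ?_
          rw [Finset.sum_const, nsmul_eq_mul]
      _ ≤ ∑ q ∈ Icc 1 D, (D : ℝ) * (32 * D * (C₀ * (4 * Real.log D))) := by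
          refine Finset.sum_le_sum fun q hq => ?_
          have := hNZ q hq
          have h3 := card_Prm (q := q)
          have h4 : (q : ℝ) ≤ D := by exact_mod_cast (mem_Icc.1 hq).2
          exact mul_le_mul_of_nonneg_right (h3.trans h4) (by positivity)
      _ = D * (D * (32 * D * (C₀ * (4 * Real.log D)))) := by
          rw [Finset.sum_const, nsmul_eq_mul, Nat.card_Icc, Nat.add_sub_cancel]
      _ ≤ D * (D * (32 * D * (C₀ * (4 * D)))) := by gcongr
      _ = 128 * C₀ * D ^ 4 := by ring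

/-- log-free zero density for zeta -/
theorem density_zeta {Cg : ℝ} (hCg : 1 ≤ Cg) (hg : Z1G Cg) :
    ∃ C : ℝ, 1 ≤ C ∧ ∀ D : ℕ, 2 ≤ D → ∀ δ : ℝ, 0 ≤ δ → δ ≤ 1 / 16 →
    nz riemannZeta₁ δ D ≤ Real.exp (C * (1 + δ * Real.log D)) := by
  obtain ⟨C₀, hC₀, hld⟩ := LD_zeta hCg hg
  obtain ⟨C₁, hC₁, hcore⟩ := dens_core hC₀
  obtain ⟨δ₀, hδ₀, hnear⟩ := zeta_near
  set M₀ : ℝ := ∑ ρ ∈ zb riemannZeta₁ 1 2, mlt riemannZeta₁ ρ with hM₀
  have hM₀' : 0 ≤ M₀ := sum_nonneg fun ρ _ => mlt_nonneg _ ρ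
  have hf : Differentiable ℂ riemannZeta₁ := differentiable_riemannZeta₁
  have hne : ∀ s : ℂ, 1 ≤ s.re → riemannZeta₁ s ≠ 0 := fun s hs => Z1_ne hs
  have hf1 : riemannZeta₁ 1 ≠ 0 := hne 1 (by simp)
  obtain ⟨C, hC, hglue⟩ := glue (C₁ := C₁) (C₂ := 128 * (C₀ + M₀)) (δ₁ := min δ₀ (1 / 600)) hC₁
    (by linarith) (lt_min hδ₀ (by norm_num)) ((min_le_right _ _).trans (by norm_num))
  refine ⟨C, hC, fun D hD => ?_⟩
  have hDr : (2 : ℝ) ≤ D := by exact_mod_cast hD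
  have hD0 : (0 : ℝ) < D := by linarith
  have hlD : 0 < Real.log D := Real.log_pos (by linarith)
  obtain ⟨h41, h4e⟩ := four_log_ge hD
  have h1mem : 1 ∈ Icc 1 D := mem_Icc.2 ⟨le_rfl, by omega⟩
  refine hglue D hD (fun δ => nz riemannZeta₁ δ D) ?_ ?_ ?_
  · intro a b hab
    exact nz_mono hf hf1 hab le_rfl
  · intro δ hδ hδ1
    have hδa : δ ≤ δ₀ := hδ1.trans (min_le_left _ _)
    have hδb : δ ≤ 1 / 600 := hδ1.trans (min_le_right _ _)
    have h := hcore D hD δ hδ hδb (fun _ _ => riemannZeta₁)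
      (fun q => if q = 1 then Prp q else ∅) (fun q => ?_) ?_
    · rw [Finset.sum_eq_single_of_mem 1 h1mem (fun q _ hq => by rw [if_neg hq]; rfl)] at h
      rw [if_pos rfl] at h
      have h3 : Prp 1 = {1} := by
        ext χ
        rw [mem_singleton]
        refine ⟨fun _ => DirichletCharacter.level_one _, fun hχ => ?_⟩
        unfold Prp
        rw [mem_filter, hχ]
        exact ⟨mem_univ _, DirichletCharacter.isPrimitive_one_level_one⟩
      rw [h3, Finset.sum_singleton] at h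
      exact h
    · by_cases hq : q = 1
      · simp [hq]
      · simp [hq]
    · intro q hq χ hχ
      have hq1 : q = 1 := by
        by_contra hq1
        rw [if_neg hq1] at hχ
        exact absurd hχ (Finset.notMem_empty _)
      subst hq1
      refine ⟨hf, hne, fun ρ h5 h6 h7 v hv => ?_⟩
      have hχ1 : χ = 1 := DirichletCharacter.level_one _
      rw [hχ1]
      have him : 1 < |ρ.im| := by
        by_contra h8
        exact hnear ρ (by linarith) (not_lt.1 h8) h5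
      have h9 : |ρ.im| ≤ |v| + |v - ρ.im| := by
        calc |ρ.im| = |v - (v - ρ.im)| := by ring_nf
          _ ≤ _ := abs_sub _ _
      have h10 : |v| ≤ |v - ρ.im| + |ρ.im| := by
        calc |v| = |(v - ρ.im) + ρ.im| := by ring_nf
          _ ≤ _ := abs_add_le _ _
      exact hld v _ (by linarith) h41 (lt_le_four hD hq (by linarith))
  · have hpt : nz riemannZeta₁ (1 / 16) D ≤ 32 * D * ((C₀ + M₀) * (4 * Real.log D)) := by
      refine zeros_trivial hf hne (by linarith) (by positivity) fun t ht => ?_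
      by_cases ht' : 1 / 2 ≤ |t|
      · refine ((hld t _ ht' h41 (lt_le_four hD h1mem ht)).cnt (1 / 16) h4e le_rfl).trans ?_
        nlinarith
      · rw [not_le] at ht'
        have h11 : ∑ ρ ∈ zb riemannZeta₁ (1 + ((1 / 16 : ℝ) : ℂ) + t * I) (1 / 4),
            mlt riemannZeta₁ ρ ≤ M₀ := by
          refine Finset.sum_le_sum_of_subset_of_nonneg ?_ fun ρ _ _ => mlt_nonneg _ ρ
          intro ρ hρ
          rw [mem_zb hf hf1] at hρ ⊢
          refine ⟨hρ.1, ?_⟩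
          have h12 := hρ.2
          rw [mem_closedBall, dist_eq_norm] at h12 ⊢
          have e1 : ρ - 1 = (ρ - (1 + ((1 / 16 : ℝ) : ℂ) + t * I)) +
              (((1 / 16 : ℝ) : ℂ) + t * I) := by ring
          rw [e1]
          refine (norm_add_le _ _).trans ?_
          have e2 : ‖((1 / 16 : ℝ) : ℂ) + t * I‖ ≤ 1 / 16 + 1 / 2 := by
            refine (norm_add_le _ _).trans (add_le_add ?_ ?_)
            · rw [Complex.norm_real]; norm_num
            · rw [norm_mul, Complex.norm_I, mul_one, Complex.norm_real, Real.norm_eq_abs]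
              exact ht'.le
          linarith
        refine h11.trans ?_
        nlinarith
    have hlogD : Real.log D ≤ D := (Real.log_le_sub_one_of_pos hD0).trans (by linarith)
    calc nz riemannZeta₁ (1 / 16) D ≤ 32 * D * ((C₀ + M₀) * (4 * Real.log D)) := hpt
      _ ≤ 32 * D * ((C₀ + M₀) * (4 * D)) := by gcongr
      _ = 128 * (C₀ + M₀) * D ^ 2 := by ring
      _ ≤ 128 * (C₀ + M₀) * D ^ 4 := by
          gcongr
          · linarith
          · norm_num

end Pool.Agent.GAT
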