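import Pool.Agent.Lib_helper98.GAF.Loc

/-! # DTL: only the primes in the window matter -/

set_option autoImplicit false

namespace Pool.Agent.GA

open Finset Complex Metric
open scoped ArithmeticFunction.vonMangoldt Classical

/-! ## prime powers that are not primes -/

/-- the terms on non-primes -/
noncomputable def npF (n : ℕ) : ℝ := if n.Prime then 0 else Λ n * (n : ℝ) ^ (-(3 / 4) : ℝ)

theorem npF_nonneg (n : ℕ) : 0 ≤ npF n := by
  unfold npF
  split_ifs
  · exact le_rfl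
  · exact mul_nonneg ArithmeticFunction.vonMangoldt_nonneg (by positivity)

theorem np_maj1 : Summable (fun p : Nat.Primes => 4 * ((p : ℕ) : ℝ) ^ (-(5 / 4) : ℝ)) := by
  refine Summable.mul_left _ ?_
  have : Summable (fun n : ℕ => (n : ℝ) ^ (-(5 / 4) : ℝ)) :=
    Real.summable_nat_rpow.2 (by norm_num)
  exact this.comp_injective (i := fun p : Nat.Primes => (p : ℕ)) Subtype.val_injective

theorem np_maj2 : Summable (fun k : ℕ => ((2 : ℝ) ^ (-(3 / 4) : ℝ)) ^ (k - 1)) := by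
  have h : Summable (fun k : ℕ => ((2 : ℝ) ^ (-(3 / 4) : ℝ)) ^ k) := by
    refine summable_geometric_of_lt_one (Real.rpow_nonneg (by norm_num) _) ?_
    exact Real.rpow_lt_one_of_one_lt_of_neg (by norm_num) (by norm_num)
  refine (summable_nat_add_iff 1).1 ?_
  exact h

theorem np_nn1 : (0 : Nat.Primes → ℝ) ≤
    (fun p : Nat.Primes => 4 * ((p : ℕ) : ℝ) ^ (-(5 / 4) : ℝ)) := by
  intro p
  exact mul_nonneg (by norm_num) (Real.rpow_nonneg (Nat.cast_nonneg _) _)

theorem np_nn2 : (0 : ℕ → ℝ) ≤ (fun k : ℕ => ((2 : ℝ) ^ (-(3 / 4) : ℝ)) ^ (k - 1)) := by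
  intro k
  exact pow_nonneg (Real.rpow_nonneg (by norm_num) _) _

theorem np_maj : Summable (fun x : Nat.Primes × ℕ =>
    (4 * ((x.1 : ℕ) : ℝ) ^ (-(5 / 4) : ℝ)) * ((2 : ℝ) ^ (-(3 / 4) : ℝ)) ^ (x.2 - 1)) := by
  have := Summable.mul_of_nonneg np_maj1 np_maj2 np_nn1 np_nn2
  exact this

theorem np_term {p k : ℕ} (hp : p.Prime) :
    npF (p ^ (k + 1)) ≤ (4 * (p : ℝ) ^ (-(5 / 4) : ℝ)) * ((2 : ℝ) ^ (-(3 / 4) : ℝ)) ^ (k - 1) := by
  have hp2 : (2 : ℝ) ≤ (p : ℝ) := by exact_mod_cast hp.two_le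
  have hp0 : (0 : ℝ) < (p : ℝ) := by linarith
  have hrp : (0 : ℝ) ≤ (2 : ℝ) ^ (-(3 / 4) : ℝ) := Real.rpow_nonneg (by norm_num) _
  unfold npF
  split_ifs with h
  · exact mul_nonneg (mul_nonneg (by norm_num) (Real.rpow_nonneg hp0.le _)) (pow_nonneg hrp _)
  · have hk : 1 ≤ k := by
      by_contra hk
      have : k = 0 := by omega
      rw [this, zero_add, pow_one] at h
      exact h hp
    rw [ArithmeticFunction.vonMangoldt_apply_pow (by omega),
      ArithmeticFunction.vonMangoldt_apply_prime hp]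
    push_cast
    have e3 : Real.log (p : ℝ) ≤ 4 * (p : ℝ) ^ (1 / 4 : ℝ) := by
      have := Real.log_le_rpow_div hp0.le (ε := 1 / 4) (by norm_num)
      linarith
    have e4 : ((p : ℝ) ^ (k + 1)) ^ (-(3 / 4) : ℝ) ≤
        (p : ℝ) ^ (-(3 / 2) : ℝ) * ((2 : ℝ) ^ (-(3 / 4) : ℝ)) ^ (k - 1) := by
      have e5 : (p : ℝ) ^ (k + 1) = (p : ℝ) ^ 2 * (p : ℝ) ^ (k - 1) := by
        rw [← pow_add]; congr 1; omega
      rw [e5, Real.mul_rpow (by positivity) (by positivity)]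
      have e6 : ((p : ℝ) ^ 2) ^ (-(3 / 4) : ℝ) = (p : ℝ) ^ (-(3 / 2) : ℝ) := by
        rw [← Real.rpow_natCast (p : ℝ) 2, ← Real.rpow_mul hp0.le]
        norm_num
      have e7 : ((p : ℝ) ^ (k - 1)) ^ (-(3 / 4) : ℝ) = ((p : ℝ) ^ (-(3 / 4) : ℝ)) ^ (k - 1) := by
        rw [← Real.rpow_natCast, ← Real.rpow_mul hp0.le, mul_comm, Real.rpow_mul hp0.le,
          Real.rpow_natCast]
      rw [e6, e7]
      refine mul_le_mul_of_nonneg_left ?_ (Real.rpow_nonneg hp0.le _)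
      refine pow_le_pow_left₀ (Real.rpow_nonneg hp0.le _) ?_ _
      exact Real.rpow_le_rpow_of_nonpos (by norm_num) hp2 (by norm_num)
    calc Real.log (p : ℝ) * ((p : ℝ) ^ (k + 1)) ^ (-(3 / 4) : ℝ)
        ≤ (4 * (p : ℝ) ^ (1 / 4 : ℝ)) *
          ((p : ℝ) ^ (-(3 / 2) : ℝ) * ((2 : ℝ) ^ (-(3 / 4) : ℝ)) ^ (k - 1)) :=
          mul_le_mul e3 e4 (Real.rpow_nonneg (by positivity) _)
            (mul_nonneg (by norm_num) (Real.rpow_nonneg hp0.le _))
      _ = (4 * ((p : ℝ) ^ (1 / 4 : ℝ) * (p : ℝ) ^ (-(3 / 2) : ℝ))) *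
          ((2 : ℝ) ^ (-(3 / 4) : ℝ)) ^ (k - 1) := by ring
      _ = _ := by
          rw [← Real.rpow_add hp0]
          norm_num

theorem np_summable : Summable npF := by
  have h1 : Summable (npF ∘ (Subtype.val : {n : ℕ // IsPrimePow n} → ℕ)) := by
    rw [← Nat.Primes.prodNatEquiv.summable_iff]
    have hval : ∀ x : Nat.Primes × ℕ,
        ((npF ∘ Subtype.val) ∘ Nat.Primes.prodNatEquiv) x = npF ((x.1 : ℕ) ^ (x.2 + 1)) := by
      rintro ⟨p, k⟩
      simp only [Function.comp_apply, Nat.Primes.prodNatEquiv_apply]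
    refine Summable.of_nonneg_of_le (fun x => ?_) (fun x => ?_) np_maj
    · rw [hval]; exact npF_nonneg _
    · rw [hval]; exact np_term x.1.2
  refine (summable_subtype_iff_indicator (s := {n : ℕ | IsPrimePow n}).1 h1).congr fun n => ?_
  by_cases hn : IsPrimePow n
  · exact Set.indicator_of_mem (s := {n : ℕ | IsPrimePow n}) hn npF
  · rw [Set.indicator_of_notMem (s := {n : ℕ | IsPrimePow n}) hn npF]
    unfold npF
    split_ifs
    · rfl
    · rw [ArithmeticFunction.vonMangoldt_eq_zero_iff.2 hn, zero_mul]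

/-- the basic inequality -/
theorem pj {x s : ℝ} (hx : 0 ≤ x) (hs : 0 < s) (j : ℕ) :
    x ^ j / j.factorial ≤ Real.exp (s * x) / s ^ j := by
  have h1 := Real.pow_div_factorial_le_exp (s * x) (by positivity) j
  rw [mul_pow] at h1
  rw [le_div_iff₀ (by positivity)]
  calc x ^ j / j.factorial * s ^ j = s ^ j * x ^ j / j.factorial := by ring
    _ ≤ _ := h1

/-- the size of a term -/
noncomputable def tj (δ : ℝ) (j n : ℕ) : ℝ :=
  δ ^ (j + 1) * (Λ n * Real.log n ^ j / j.factorial * (n : ℝ) ^ (-(1 + δ)))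

theorem tj_le {δ s : ℝ} (hδ : 0 < δ) (hs : 0 < s) (j : ℕ) {n : ℕ} (hn : 1 ≤ n) :
    tj δ j n ≤ δ * Λ n * (n : ℝ) ^ (-(1 + δ)) * (Real.exp (s * (δ * Real.log n)) / s ^ j) := by
  have hl : 0 ≤ Real.log n := Real.log_natCast_nonneg n
  have h1 := pj (x := δ * Real.log n) (by positivity) hs j
  have hΛ : 0 ≤ Λ n := ArithmeticFunction.vonMangoldt_nonneg
  unfold tj
  calc δ ^ (j + 1) * (Λ n * Real.log n ^ j / j.factorial * (n : ℝ) ^ (-(1 + δ)))
      = δ * Λ n * (n : ℝ) ^ (-(1 + δ)) * ((δ * Real.log n) ^ j / j.factorial) := by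
        rw [mul_pow, pow_succ]; ring
    _ ≤ _ := by gcongr

theorem exp_log_nat {n : ℕ} (hn : 1 ≤ n) (y : ℝ) : Real.exp (y * Real.log n) = (n : ℝ) ^ y := by
  rw [Real.rpow_def_of_pos (by exact_mod_cast hn), mul_comm]

theorem tj_small {δ : ℝ} {j n : ℕ} (hδ : 0 < δ) (hn : 1 ≤ n) (h : δ * Real.log n ≤ j / 100) :
    tj δ j n ≤ δ * (Λ n * (n : ℝ) ^ (-(1 + δ))) / 36 ^ j := by
  have hΛ : 0 ≤ Λ n := ArithmeticFunction.vonMangoldt_nonneg
  refine (tj_le hδ (s := 100) (by norm_num) j hn).trans ?_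
  have h1 : Real.exp (100 * (δ * Real.log n)) ≤ Real.exp 1 ^ j := by
    rw [Real.exp_one_pow]
    exact Real.exp_le_exp.2 (by linarith)
  have h2 : Real.exp (100 * (δ * Real.log n)) / 100 ^ j ≤ 1 / 36 ^ j := by
    rw [div_le_div_iff₀ (by positivity) (by positivity), one_mul]
    calc Real.exp (100 * (δ * Real.log n)) * 36 ^ j ≤ Real.exp 1 ^ j * 36 ^ j := by gcongr
      _ = (Real.exp 1 * 36) ^ j := by rw [mul_pow]
      _ ≤ 100 ^ j := by
          refine pow_le_pow_left₀ (by positivity) ?_ j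
          have := Real.exp_one_lt_d9
          linarith
  calc δ * Λ n * (n : ℝ) ^ (-(1 + δ)) * (Real.exp (100 * (δ * Real.log n)) / 100 ^ j)
      ≤ δ * Λ n * (n : ℝ) ^ (-(1 + δ)) * (1 / 36 ^ j) := by gcongr
    _ = _ := by ring

theorem tj_large {δ : ℝ} {j n : ℕ} (hδ : 0 < δ) (hn : 1 ≤ n) (h : 20 * j ≤ δ * Real.log n) :
    tj δ j n ≤ δ * (Λ n * (n : ℝ) ^ (-(1 + δ / 2))) / 36 ^ j := by
  have hΛ : 0 ≤ Λ n := ArithmeticFunction.vonMangoldt_nonneg
  have hn0 : (0 : ℝ) < n := by exact_mod_cast hn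
  refine (tj_le hδ (s := 1 / 20) (by norm_num) j hn).trans ?_
  have h1 : (n : ℝ) ^ (-(1 + δ)) * Real.exp (1 / 20 * (δ * Real.log n)) ≤
      (n : ℝ) ^ (-(1 + δ / 2)) * Real.exp (-9) ^ j := by
    have e1 : Real.exp (1 / 20 * (δ * Real.log n)) = (n : ℝ) ^ (δ / 20) := by
      rw [← exp_log_nat hn]; ring_nf
    have e2 : (n : ℝ) ^ (-(1 + δ)) * (n : ℝ) ^ (δ / 20) =
        (n : ℝ) ^ (-(1 + δ / 2)) * (n : ℝ) ^ (-(9 / 20 * δ)) := by
      rw [← Real.rpow_add hn0, ← Real.rpow_add hn0]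
      congr 1
      ring
    rw [e1, e2]
    have e3 : (n : ℝ) ^ (-(9 / 20 * δ)) ≤ Real.exp (-9) ^ j := by
      rw [← exp_log_nat hn, ← Real.exp_nat_mul]
      refine Real.exp_le_exp.2 ?_
      linarith
    gcongr
  have h2 : Real.exp (-9) ^ j / (1 / 20 : ℝ) ^ j ≤ 1 / 36 ^ j := by
    rw [← div_pow, ← one_div_pow]
    refine pow_le_pow_left₀ (by positivity) ?_ j
    rw [Real.exp_neg]
    have h3 : (720 : ℝ) ≤ Real.exp 9 := by
      have h4 := Real.exp_one_gt_d9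
      have h5 : Real.exp 9 = Real.exp 1 ^ 9 := by rw [Real.exp_one_pow]; norm_num
      rw [h5]
      calc (720 : ℝ) ≤ 2.7 ^ 9 := by norm_num
        _ ≤ Real.exp 1 ^ 9 := by
            refine pow_le_pow_left₀ (by norm_num) ?_ 9
            linarith
    have h6 : 0 < Real.exp 9 := Real.exp_pos _
    rw [div_le_div_iff₀ (by norm_num) (by norm_num), one_mul, inv_mul_le_iff₀ h6]
    linarith
  calc δ * Λ n * (n : ℝ) ^ (-(1 + δ)) * (Real.exp (1 / 20 * (δ * Real.log n)) / (1 / 20) ^ j)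
      = δ * Λ n * ((n : ℝ) ^ (-(1 + δ)) * Real.exp (1 / 20 * (δ * Real.log n))) /
        (1 / 20) ^ j := by ring
    _ ≤ δ * Λ n * ((n : ℝ) ^ (-(1 + δ / 2)) * Real.exp (-9) ^ j) / (1 / 20) ^ j := by gcongr
    _ = δ * Λ n * (n : ℝ) ^ (-(1 + δ / 2)) * (Real.exp (-9) ^ j / (1 / 20) ^ j) := by ring
    _ ≤ δ * Λ n * (n : ℝ) ^ (-(1 + δ / 2)) * (1 / 36 ^ j) := by gcongr
    _ = _ := by ring

theorem tj_powers {δ : ℝ} {j n : ℕ} (hδ : 0 < δ) (hδ1 : δ ≤ 1 / 144) (hn : 1 ≤ n) :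
    tj δ j n ≤ δ * (Λ n * (n : ℝ) ^ (-(3 / 4) : ℝ)) / 36 ^ j := by
  have hΛ : 0 ≤ Λ n := ArithmeticFunction.vonMangoldt_nonneg
  have hn1 : (1 : ℝ) ≤ n := by exact_mod_cast hn
  have hn0 : (0 : ℝ) < n := by linarith
  refine (tj_le hδ (s := 1 / (4 * δ)) (by positivity) j hn).trans ?_
  have e1 : Real.exp (1 / (4 * δ) * (δ * Real.log n)) = (n : ℝ) ^ (1 / 4 : ℝ) := by
    rw [← exp_log_nat hn]
    congr 1
    field_simp
  have e2 : (n : ℝ) ^ (-(1 + δ)) * (n : ℝ) ^ (1 / 4 : ℝ) ≤ (n : ℝ) ^ (-(3 / 4) : ℝ) := by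
    rw [← Real.rpow_add hn0]
    exact Real.rpow_le_rpow_of_exponent_le hn1 (by linarith)
  have e3 : 1 / (1 / (4 * δ)) ^ j ≤ 1 / 36 ^ j := by
    refine one_div_le_one_div_of_le (by positivity) ?_
    refine pow_le_pow_left₀ (by norm_num) ?_ j
    rw [le_div_iff₀ (by positivity)]
    linarith
  rw [e1]
  calc δ * Λ n * (n : ℝ) ^ (-(1 + δ)) * ((n : ℝ) ^ (1 / 4 : ℝ) / (1 / (4 * δ)) ^ j)
      = δ * Λ n * ((n : ℝ) ^ (-(1 + δ)) * (n : ℝ) ^ (1 / 4 : ℝ)) * (1 / (1 / (4 * δ)) ^ j) := by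
        ring
    _ ≤ δ * Λ n * (n : ℝ) ^ (-(3 / 4) : ℝ) * (1 / 36 ^ j) := by gcongr
    _ = _ := by ring

/-- the term of `Gj` -/
theorem Gj_term {q : ℕ} (χ : DirichletCharacter ℂ q) (j : ℕ) (s : ℂ) {n : ℕ} (hn : 1 ≤ n) :
    LSeries.term (fun n => ((Λ n : ℝ) : ℂ) * χ (n : ZMod q) * (((Real.log n) ^ j : ℝ) : ℂ)) s n =
      ((Λ n : ℝ) : ℂ) * χ (n : ZMod q) * (((Real.log n) ^ j : ℝ) : ℂ) * (n : ℂ) ^ (-s) := by
  rw [LSeries.term_of_ne_zero (by omega), Complex.cpow_neg, div_eq_mul_inv]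

theorem window_error : ∃ C : ℝ, 1 ≤ C ∧ ∀ (q : ℕ) (χ : DirichletCharacter ℂ q) (K j : ℕ)
    (δ v : ℝ), 1 ≤ q → 1 ≤ K → K ≤ j → j ≤ 2 * K → 0 < δ → δ ≤ 1 / 144 →
    δ ^ (j + 1) * ‖Gj χ j (1 + δ + v * I) / (j.factorial : ℂ) -
      Pw χ j δ v ⌊Real.exp (K / (100 * δ))⌋₊ ⌊Real.exp (40 * K / δ)⌋₊‖ ≤ C * K / 36 ^ j := by
  obtain ⟨C₁, hC₁, hlam⟩ := sum_Lam_rpow
  set C₂ : ℝ := ∑' n : ℕ, npF n with hC₂
  have hnp0 := npF_nonneg
  have hC₂0 : 0 ≤ C₂ := tsum_nonneg hnp0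
  refine ⟨3 * C₁ + C₂, by linarith, fun q χ K j δ v hq hK hKj hjK hδ hδ1 => ?_⟩
  have : NeZero q := ⟨by omega⟩
  set a := ⌊Real.exp (K / (100 * δ))⌋₊ with ha
  set b := ⌊Real.exp (40 * K / δ)⌋₊ with hb
  set c : ℂ := 1 + δ + v * I with hc
  have hcre : c.re = 1 + δ := c_re δ v
  set W : Finset ℕ := (Ioc a b).filter Nat.Prime with hW
  have hK0 : (0 : ℝ) < K := by exact_mod_cast hK
  have hKj' : (K : ℝ) ≤ j := by exact_mod_cast hKj
  have hjK' : (j : ℝ) ≤ 2 * K := by exact_mod_cast hjK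
  have hfac : (j.factorial : ℂ) ≠ 0 := by exact_mod_cast j.factorial_ne_zero
  -- the function on ℕ
  set g : ℕ → ℂ := fun n => LSeries.term
    (fun n => ((Λ n : ℝ) : ℂ) * χ (n : ZMod q) * (((Real.log n) ^ j : ℝ) : ℂ)) c n /
      (j.factorial : ℂ) with hg
  have hgs : Summable g := (Gj_summable χ j (by rw [hcre]; linarith)).div_const _
  have hG : Gj χ j c / (j.factorial : ℂ) = ∑' n, g n := by
    rw [hg, tsum_div_const]; rfl
  have hP : Pw χ j δ v a b = ∑ n ∈ W, g n := by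
    unfold Pw
    refine Finset.sum_congr rfl fun p hp => ?_
    have hpp : p.Prime := (Finset.mem_filter.1 hp).2
    rw [hg]
    simp only
    rw [Gj_term χ j c hpp.one_lt.le, ArithmeticFunction.vonMangoldt_apply_prime hpp]
    push_cast
    rw [pow_succ]
    ring
  have hdiff : Gj χ j c / (j.factorial : ℂ) - Pw χ j δ v a b =
      ∑' n, (if n ∈ W then 0 else g n) := by
    rw [hG, hP, ← hgs.sum_add_tsum_compl (s := W), add_sub_cancel_left]
    rw [_root_.tsum_subtype (s := ((W : Set ℕ))ᶜ) (f := g)]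
    refine tsum_congr fun n => ?_
    by_cases hn : n ∈ W
    · rw [if_pos hn, Set.indicator_of_notMem]
      simpa using hn
    · rw [if_neg hn, Set.indicator_of_mem]
      simpa using hn
  -- the majorant
  set A : ℕ → ℝ := fun n => Λ n * (n : ℝ) ^ (-(1 + δ)) with hA
  set A' : ℕ → ℝ := fun n => Λ n * (n : ℝ) ^ (-(1 + δ / 2)) with hA'
  set N' : ℕ → ℝ := npF with hN'
  obtain ⟨hAs, hAle⟩ := hlam δ hδ (by linarith)
  obtain ⟨hAs', hAle'⟩ := hlam (δ / 2) (by positivity) (by linarith)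
  have hA0 : ∀ n, 0 ≤ A n := fun n => mul_nonneg ArithmeticFunction.vonMangoldt_nonneg
    (by positivity)
  have hA0' : ∀ n, 0 ≤ A' n := fun n => mul_nonneg ArithmeticFunction.vonMangoldt_nonneg
    (by positivity)
  have hgn : ∀ n, 1 ≤ n → δ ^ (j + 1) * ‖g n‖ ≤ tj δ j n := by
    intro n hn
    rw [hg]
    simp only
    rw [Gj_term χ j c hn, norm_div, norm_mul, norm_mul, norm_mul, Complex.norm_real,
      Complex.norm_real, Complex.norm_natCast_cpow_of_pos hn, neg_re, hcre, Real.norm_eq_abs,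
      Real.norm_eq_abs, abs_of_nonneg ArithmeticFunction.vonMangoldt_nonneg,
      abs_of_nonneg (pow_nonneg (Real.log_natCast_nonneg n) j)]
    have e1 : ‖(j.factorial : ℂ)‖ = j.factorial := by simp
    rw [e1]
    unfold tj
    have e2 := DirichletCharacter.norm_le_one χ (n : ZMod q)
    have e3 : Λ n * ‖χ (n : ZMod q)‖ ≤ Λ n :=
      mul_le_of_le_one_right ArithmeticFunction.vonMangoldt_nonneg e2
    have e4 : 0 ≤ Real.log n := Real.log_natCast_nonneg n
    calc δ ^ (j + 1) * (Λ n * ‖χ (n : ZMod q)‖ * Real.log n ^ j * (n : ℝ) ^ (-(1 + δ)) /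
          j.factorial)
        = δ ^ (j + 1) * ((Λ n * ‖χ (n : ZMod q)‖) * Real.log n ^ j / j.factorial *
          (n : ℝ) ^ (-(1 + δ))) := by ring
      _ ≤ _ := by gcongr
  have hbound : ∀ n, δ ^ (j + 1) * ‖(if n ∈ W then 0 else g n : ℂ)‖ ≤
      δ * (A n + A' n + N' n) / 36 ^ j := by
    intro n
    have hpos : 0 ≤ δ * (A n + A' n + N' n) / 36 ^ j := by
      have := hA0 n; have := hA0' n; have := hnp0 n
      have : 0 ≤ N' n := hnp0 n
      positivity
    rcases Nat.eq_zero_or_pos n with rfl | hn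
    · have : g 0 = 0 := by simp [hg, LSeries.term]
      rw [this]
      simpa using hpos
    · by_cases hnW : n ∈ W
      · rw [if_pos hnW]; simpa using hpos
      · rw [if_neg hnW]
        refine (hgn n hn).trans ?_
        have hn1 : (1 : ℝ) ≤ n := by exact_mod_cast hn
        have hn0 : (0 : ℝ) < n := by linarith
        have hor : (n : ℝ) ≤ Real.exp (K / (100 * δ)) ∨ Real.exp (40 * K / δ) < n ∨ ¬ n.Prime := by
          by_contra hcon
          push Not at hcon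
          apply hnW
          rw [hW, Finset.mem_filter, Finset.mem_Ioc, ha, hb]
          refine ⟨⟨?_, Nat.le_floor hcon.2.1⟩, hcon.2.2⟩
          exact (Nat.floor_lt (Real.exp_pos _).le).2 hcon.1
        have hxle : ∀ y : ℝ, 0 ≤ y → δ * y / 36 ^ j ≤ δ * y / 36 ^ j := fun _ _ => le_rfl
        rcases hor with h | h | h
        · have h2 : δ * Real.log n ≤ j / 100 := by
            have h3 : Real.log n ≤ K / (100 * δ) := by
              rw [← Real.log_exp (K / (100 * δ))]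
              exact Real.log_le_log hn0 h
            calc δ * Real.log n ≤ δ * (K / (100 * δ)) := by gcongr
              _ = K / 100 := by field_simp
              _ ≤ j / 100 := by gcongr
          refine (tj_small hδ hn h2).trans ?_
          have e1 : A n ≤ A n + A' n + N' n := by
            have := hA0' n
            have : 0 ≤ N' n := hnp0 n
            linarith
          gcongr
        · have h2 : 20 * j ≤ δ * Real.log n := by
            have h3 : 40 * K / δ ≤ Real.log n := by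
              rw [← Real.log_exp (40 * K / δ)]
              exact Real.log_le_log (Real.exp_pos _) h.le
            calc (20 * j : ℝ) ≤ 40 * K := by linarith
              _ = δ * (40 * K / δ) := by field_simp
              _ ≤ _ := by gcongr
          refine (tj_large hδ hn h2).trans ?_
          have e1 : A' n ≤ A n + A' n + N' n := by
            have := hA0 n
            have : 0 ≤ N' n := hnp0 n
            linarith
          gcongr
        · refine (tj_powers hδ hδ1 hn).trans ?_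
          have e1 : Λ n * (n : ℝ) ^ (-(3 / 4) : ℝ) ≤ A n + A' n + N' n := by
            have := hA0 n
            have := hA0' n
            have e2 : N' n = Λ n * (n : ℝ) ^ (-(3 / 4) : ℝ) := by
              rw [hN']
              unfold npF
              rw [if_neg h]
            linarith
          gcongr
  have hmajs : Summable (fun n => δ * (A n + A' n + N' n) / 36 ^ j) :=
    (((hAs.add hAs').add np_summable).mul_left δ).div_const _
  have hδj : (0 : ℝ) < δ ^ (j + 1) := by positivity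
  have hs2 : Summable (fun n => ‖(if n ∈ W then 0 else g n : ℂ)‖) := by
    have h3 : Summable (fun n => δ ^ (j + 1) * ‖(if n ∈ W then 0 else g n : ℂ)‖) :=
      Summable.of_nonneg_of_le (fun n => by positivity) hbound hmajs
    exact (summable_mul_left_iff hδj.ne').1 h3
  rw [hdiff]
  calc δ ^ (j + 1) * ‖∑' n, (if n ∈ W then 0 else g n : ℂ)‖
      ≤ δ ^ (j + 1) * ∑' n, ‖(if n ∈ W then 0 else g n : ℂ)‖ := by
        gcongr
        exact norm_tsum_le_tsum_norm hs2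
    _ = ∑' n, δ ^ (j + 1) * ‖(if n ∈ W then 0 else g n : ℂ)‖ := tsum_mul_left.symm
    _ ≤ ∑' n, δ * (A n + A' n + N' n) / 36 ^ j :=
        Summable.tsum_le_tsum hbound (hs2.mul_left _) hmajs
    _ = δ * (∑' n, A n + ∑' n, A' n + ∑' n, N' n) / 36 ^ j := by
        rw [tsum_div_const, tsum_mul_left, Summable.tsum_add (hAs.add hAs') np_summable,
          Summable.tsum_add hAs hAs']
    _ ≤ δ * (C₁ / δ + C₁ / (δ / 2) + C₂) / 36 ^ j := by
        gcongr
    _ = (3 * C₁ + δ * C₂) / 36 ^ j := by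
        congr 1
        field_simp
        ring
    _ ≤ (3 * C₁ + C₂) * K / 36 ^ j := by
        gcongr
        have hK1 : (1 : ℝ) ≤ K := by exact_mod_cast hK
        have e5 : δ * C₂ ≤ C₂ := by nlinarith
        nlinarith

end Pool.Agent.GA
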