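import Pool.Agent.Lib_helper98.GAF.Lcs
import Pool.Agent.Lib_helper98.GAF.Lbd

/-! # LOC, NCT: local expansion and the number of zeros near a point -/

set_option autoImplicit false

namespace Pool.Agent.GA

open Finset Complex Metric
open scoped ArithmeticFunction.vonMangoldt Classical

theorem c_re (σ t : ℝ) : (1 + σ + t * I : ℂ).re = 1 + σ := by simp

theorem c_im (σ t : ℝ) : (1 + σ + t * I : ℂ).im = t := by simp

theorem LF_c_ne {q : ℕ} [NeZero q] {χ : DirichletCharacter ℂ q} (hχ : χ ≠ 1) {σ : ℝ}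
    (hσ : 0 ≤ σ) (t : ℝ) : LF χ (1 + σ + t * I) ≠ 0 :=
  LF_ne_zero hχ (by rw [c_re]; linarith)

/-- the bound in the disc of radius `3/4` -/
theorem loc_bound : ∃ C : ℝ, 1 ≤ C ∧ ∀ (q : ℕ) [NeZero q] (χ : DirichletCharacter ℂ q),
    χ ≠ 1 → ∀ t σ ℒ : ℝ, lt q t ≤ ℒ → Real.exp (-ℒ) ≤ σ → σ ≤ 1 / 16 →
      (∀ z ∈ closedBall (1 + σ + t * I : ℂ) (3 / 4),
        ‖LF χ z‖ ≤ C * Real.exp (2 * ℒ) * ‖LF χ (1 + σ + t * I)‖) := by
  obtain ⟨C, hC, hgr⟩ := LF_growth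
  refine ⟨6 * C, by linarith, fun q _ χ hχ t σ ℒ hℒ hσ hσ1 z hz => ?_⟩
  have hσ0 : 0 < σ := lt_of_lt_of_le (Real.exp_pos _) hσ
  have hq3 := three_le hχ
  have hqr : (3 : ℝ) ≤ q := by exact_mod_cast hq3
  rw [mem_closedBall, dist_eq_norm] at hz
  have h1 : |z.re - (1 + σ)| ≤ 3 / 4 := by
    have := (abs_re_le_norm (z - (1 + σ + t * I))).trans hz
    rwa [sub_re, c_re] at this
  have h2 : |z.im - t| ≤ 3 / 4 := by
    have := (abs_im_le_norm (z - (1 + σ + t * I))).trans hz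
    rwa [sub_im, c_im] at this
  have h3 : 1 / 4 ≤ z.re := by
    rw [abs_le] at h1
    linarith [h1.1]
  have h4 : |z.im| ≤ |t| + 1 := by
    have : |z.im| ≤ |z.im - t| + |t| := by
      calc |z.im| = |(z.im - t) + t| := by ring_nf
        _ ≤ _ := abs_add_le _ _
    linarith
  have h5 := hgr q χ hχ z h3
  have h6 : (q : ℝ) * (|t| + 2) ≤ Real.exp ℒ := by
    have h7 : (0 : ℝ) < q * (|t| + 2) := by positivity
    calc (q : ℝ) * (|t| + 2) = Real.exp (lt q t) := by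
          unfold lt; rw [Real.exp_log h7]
      _ ≤ _ := Real.exp_le_exp.2 hℒ
  have h8 : ‖LF χ z‖ ≤ 2 * C * Real.exp ℒ := by
    calc ‖LF χ z‖ ≤ C * q * (|z.im| + 2) := h5
      _ ≤ C * q * (2 * (|t| + 2)) := by
          gcongr
          have := abs_nonneg t
          linarith
      _ = 2 * C * (q * (|t| + 2)) := by ring
      _ ≤ _ := by gcongr
  have h9 : Real.exp (-ℒ) / 3 ≤ ‖LF χ (1 + σ + t * I)‖ := by
    have h10 := LF_lower χ (s := (1 + σ + t * I : ℂ)) (by rw [c_re]; linarith)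
    rw [c_re] at h10
    have h11 : min 1 (1 + σ - 1) = σ := by
      rw [add_sub_cancel_left]; exact min_eq_right (by linarith)
    rw [h11] at h10
    linarith
  calc ‖LF χ z‖ ≤ 2 * C * Real.exp ℒ := h8
    _ = 6 * C * Real.exp (2 * ℒ) * (Real.exp (-ℒ) / 3) := by
        have : Real.exp (2 * ℒ) * Real.exp (-ℒ) = Real.exp ℒ := by
          rw [← Real.exp_add]; ring_nf
        calc 2 * C * Real.exp ℒ = 2 * C * (Real.exp (2 * ℒ) * Real.exp (-ℒ)) := by rw [this]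
          _ = _ := by ring
    _ ≤ _ := by gcongr

theorem local_count : ∃ C : ℝ, 1 ≤ C ∧ ∀ (q : ℕ) [NeZero q] (χ : DirichletCharacter ℂ q),
    χ ≠ 1 → ∀ t σ ℒ : ℝ, lt q t ≤ ℒ → Real.exp (-ℒ) ≤ σ → σ ≤ 1 / 16 →
      ∑ ρ ∈ zb (LF χ) (1 + σ + t * I) (1 / 4), mlt (LF χ) ρ ≤ C * ℒ := by
  obtain ⟨C, hC, hb⟩ := loc_bound
  refine ⟨Real.log C + 2, by have := Real.log_nonneg hC; linarith,
    fun q _ χ hχ t σ ℒ hℒ hσ hσ1 => ?_⟩
  have hσ0 : 0 < σ := lt_of_lt_of_le (Real.exp_pos _) hσ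
  have hℒ1 : 1 ≤ ℒ := (one_le_lt (three_le hχ) t).trans hℒ
  have h1 := zero_count (LF_diff hχ) (LF_c_ne hχ hσ0.le t) (R₁ := 1 / 4) (R₃ := 3 / 4)
    (by norm_num) (by norm_num) (hb q χ hχ t σ ℒ hℒ hσ hσ1)
  have h2 : Real.log (C * Real.exp (2 * ℒ)) = Real.log C + 2 * ℒ := by
    rw [Real.log_mul (by positivity) (by positivity), Real.log_exp]
  rw [h2] at h1
  have h3 : (1 : ℝ) ≤ Real.log (3 / 4 / (1 / 4)) := by
    rw [Real.le_log_iff_exp_le (by norm_num)]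
    have := Real.exp_one_lt_d9
    norm_num
    linarith
  set S := ∑ ρ ∈ zb (LF χ) (1 + σ + t * I) (1 / 4), mlt (LF χ) ρ with hS
  have hS0 : 0 ≤ S := sum_nonneg fun ρ _ => mlt_nonneg _ ρ
  have hlogC := Real.log_nonneg hC
  calc S = S * 1 := (mul_one _).symm
    _ ≤ S * Real.log (3 / 4 / (1 / 4)) := by gcongr
    _ ≤ Real.log C + 2 * ℒ := h1
    _ ≤ (Real.log C + 2) * ℒ := by nlinarith

theorem local_expansion : ∃ C : ℝ, 1 ≤ C ∧ ∀ (q : ℕ) [NeZero q] (χ : DirichletCharacter ℂ q),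
    χ ≠ 1 → ∀ t σ ℒ : ℝ, lt q t ≤ ℒ → Real.exp (-ℒ) ≤ σ → σ ≤ 1 / 16 → ∀ j : ℕ,
      ‖Gj χ j (1 + σ + t * I) / (j.factorial : ℂ) +
          ∑ ρ ∈ zb (LF χ) (1 + σ + t * I) (1 / 4),
            (mlt (LF χ) ρ : ℂ) / (1 + σ + t * I - ρ) ^ (j + 1)‖ ≤ C * ℒ * 16 ^ j := by
  obtain ⟨C, hC, hb⟩ := loc_bound
  obtain ⟨C', hC', hcnt⟩ := local_count
  refine ⟨16 * (Real.log C + 2) + 2 * C', by have := Real.log_nonneg hC; linarith,
    fun q _ χ hχ t σ ℒ hℒ hσ hσ1 j => ?_⟩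
  have hσ0 : 0 < σ := lt_of_lt_of_le (Real.exp_pos _) hσ
  have hℒ1 : 1 ≤ ℒ := (one_le_lt (three_le hχ) t).trans hℒ
  have hB1 : 1 ≤ C * Real.exp (2 * ℒ) := by
    have : 1 ≤ Real.exp (2 * ℒ) := Real.one_le_exp (by linarith)
    nlinarith
  have h1 := logDeriv_coeff (LF_diff hχ) (LF_c_ne hχ hσ0.le t) (r := 1 / 8) (R₁ := 1 / 4)
    (R₃ := 3 / 4) (by norm_num) (by norm_num) (by norm_num) hB1
    (hb q χ hχ t σ ℒ hℒ hσ hσ1) j
  have h2 : Real.log (C * Real.exp (2 * ℒ)) = Real.log C + 2 * ℒ := by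
    rw [Real.log_mul (by positivity) (by positivity), Real.log_exp]
  rw [h2, LF_deriv χ j (by rw [c_re]; linarith)] at h1
  have hcn := hcnt q χ hχ t σ ℒ hℒ hσ hσ1
  set S := ∑ ρ ∈ zb (LF χ) (1 + σ + t * I) (1 / 4), mlt (LF χ) ρ with hS
  set T := ∑ ρ ∈ zb (LF χ) (1 + σ + t * I) (1 / 4),
            (mlt (LF χ) ρ : ℂ) / (1 + σ + t * I - ρ) ^ (j + 1) with hT
  have hS0 : 0 ≤ S := sum_nonneg fun ρ _ => mlt_nonneg _ ρ
  have hlogC := Real.log_nonneg hC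
  have h3 : -((-1) ^ j * Gj χ j (1 + σ + t * I)) / (j.factorial : ℂ) - (-1) ^ j * T =
      -((-1) ^ j * (Gj χ j (1 + σ + t * I) / (j.factorial : ℂ) + T)) := by ring
  rw [h3, norm_neg, norm_mul, norm_pow, norm_neg, norm_one, one_pow, one_mul] at h1
  refine h1.trans ?_
  have hj : ((j : ℝ) + 1) ≤ 2 ^ j := by
    have : j + 1 ≤ 2 ^ j := Nat.lt_two_pow_self
    exact_mod_cast this
  have h4 : 2 * ((j : ℝ) + 1) * (Real.log C + 2 * ℒ) / ((1 / 4 - 1 / 8) * (1 / 8) ^ j) ≤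
      16 * (Real.log C + 2) * ℒ * 16 ^ j := by
    have e1 : 2 * ((j : ℝ) + 1) * (Real.log C + 2 * ℒ) / ((1 / 4 - 1 / 8) * (1 / 8) ^ j) =
        16 * (Real.log C + 2 * ℒ) * (((j : ℝ) + 1) * 8 ^ j) := by
      rw [one_div_pow]
      field_simp
      ring
    rw [e1]
    have e2 : ((j : ℝ) + 1) * 8 ^ j ≤ 16 ^ j := by
      calc ((j : ℝ) + 1) * 8 ^ j ≤ 2 ^ j * 8 ^ j := by gcongr
        _ = 16 ^ j := by rw [← mul_pow]; norm_num
    have e3 : Real.log C + 2 * ℒ ≤ (Real.log C + 2) * ℒ := by nlinarith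
    calc 16 * (Real.log C + 2 * ℒ) * (((j : ℝ) + 1) * 8 ^ j)
        ≤ 16 * ((Real.log C + 2) * ℒ) * 16 ^ j := by gcongr
      _ = _ := by ring
  have h5 : S / (3 / 4) ^ (j + 1) ≤ 2 * C' * ℒ * 16 ^ j := by
    have e4 : S / (3 / 4) ^ (j + 1) = S * (4 / 3) ^ (j + 1) := by
      rw [div_eq_mul_inv, ← inv_pow]
      norm_num
    rw [e4]
    have e5 : ((4 : ℝ) / 3) ^ (j + 1) ≤ 2 * 16 ^ j := by
      rw [pow_succ, mul_comm]
      have : ((4 : ℝ) / 3) ^ j ≤ 16 ^ j := pow_le_pow_left₀ (by norm_num) (by norm_num) j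
      nlinarith [pow_pos (show (0 : ℝ) < 16 by norm_num) j]
    calc S * (4 / 3) ^ (j + 1) ≤ (C' * ℒ) * (2 * 16 ^ j) := by
          gcongr
      _ = _ := by ring
  calc _ ≤ 16 * (Real.log C + 2) * ℒ * 16 ^ j + 2 * C' * ℒ * 16 ^ j := add_le_add h4 h5
    _ = _ := by ring

/-! ## NCT -/

theorem zero_re_lt {q : ℕ} [NeZero q] {χ : DirichletCharacter ℂ q} (hχ : χ ≠ 1) {ρ : ℂ}
    (h : LF χ ρ = 0) : ρ.re < 1 := by
  by_contra h1
  exact LF_ne_zero hχ (not_lt.1 h1) h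

theorem Gj_zero_norm {q : ℕ} [NeZero q] (χ : DirichletCharacter ℂ q) {C : ℝ}
    (hC : ∀ r : ℝ, 0 < r → r ≤ 1 → Summable (fun n : ℕ => Λ n * (n : ℝ) ^ (-(1 + r))) ∧
      ∑' n : ℕ, Λ n * (n : ℝ) ^ (-(1 + r)) ≤ C / r) {σ : ℝ} (h0 : 0 < σ) (h1 : σ ≤ 1) (t : ℝ) :
    ‖Gj χ 0 (1 + σ + t * I)‖ ≤ C / σ := by
  obtain ⟨hs, hle⟩ := hC σ h0 h1
  unfold Gj LSeries
  have hb : ∀ n : ℕ, ‖LSeries.term (fun n => ((Λ n : ℝ) : ℂ) * χ (n : ZMod q) *
      (((Real.log n) ^ 0 : ℝ) : ℂ)) (1 + σ + t * I) n‖ ≤ Λ n * (n : ℝ) ^ (-(1 + σ)) := by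
    intro n
    rcases Nat.eq_zero_or_pos n with rfl | hn
    · simp [LSeries.term]
    · rw [LSeries.term_of_ne_zero hn.ne', norm_div, Complex.norm_natCast_cpow_of_pos hn, c_re,
        Real.rpow_neg (Nat.cast_nonneg n), div_eq_mul_inv, pow_zero, Complex.ofReal_one, mul_one,
        norm_mul, Complex.norm_real, Real.norm_eq_abs,
        abs_of_nonneg ArithmeticFunction.vonMangoldt_nonneg]
      have h2 := DirichletCharacter.norm_le_one χ (n : ZMod q)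
      have h3 : Λ n * ‖χ (n : ZMod q)‖ ≤ Λ n :=
        mul_le_of_le_one_right ArithmeticFunction.vonMangoldt_nonneg h2
      gcongr
  refine (norm_tsum_le_tsum_norm (Summable.of_nonneg_of_le (fun _ => norm_nonneg _) hb hs)).trans ?_
  exact (Summable.tsum_le_tsum hb (Summable.of_nonneg_of_le (fun _ => norm_nonneg _) hb hs)
    hs).trans hle

theorem re_inv_nonneg {w : ℂ} (h : 0 ≤ w.re) : 0 ≤ (1 / w).re := by
  rw [one_div, Complex.inv_re]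
  exact div_nonneg h (normSq_nonneg _)

theorem near_count : ∃ C : ℝ, 1 ≤ C ∧ ∀ (q : ℕ) [NeZero q] (χ : DirichletCharacter ℂ q),
    χ ≠ 1 → ∀ t r ℒ : ℝ, lt q t ≤ ℒ → 1 / ℒ ≤ r → r ≤ 1 / 16 →
      ∑ ρ ∈ zb (LF χ) (1 + t * I) r, mlt (LF χ) ρ ≤ C * (r * ℒ) := by
  obtain ⟨C₁, hC₁, hexp⟩ := local_expansion
  obtain ⟨C₂, hC₂, hlam⟩ := sum_Lam_rpow
  refine ⟨4 * (C₁ + C₂), by linarith, fun q _ χ hχ t r ℒ hℒ hr hr1 => ?_⟩
  have hℒ1 : 1 ≤ ℒ := (one_le_lt (three_le hχ) t).trans hℒ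
  have hℒ0 : 0 < ℒ := by linarith
  have hr0 : 0 < r := lt_of_lt_of_le (by positivity) hr
  have hrexp : Real.exp (-ℒ) ≤ r := by
    refine le_trans ?_ hr
    rw [Real.exp_neg, one_div]
    refine inv_anti₀ hℒ0 ?_
    have := Real.add_one_le_exp ℒ
    linarith
  have h1 := hexp q χ hχ t r ℒ hℒ hrexp hr1 0
  simp only [Nat.factorial_zero, Nat.cast_one, div_one, zero_add, pow_one, pow_zero,
    mul_one] at h1
  have h2 := Gj_zero_norm χ hlam hr0 (by linarith) t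
  set c : ℂ := 1 + r + t * I with hc
  have hcre : c.re = 1 + r := c_re r t
  have h3 : ‖∑ ρ ∈ zb (LF χ) c (1 / 4), (mlt (LF χ) ρ : ℂ) / (c - ρ)‖ ≤ (C₁ + C₂) * ℒ := by
    have e1 : ∑ ρ ∈ zb (LF χ) c (1 / 4), (mlt (LF χ) ρ : ℂ) / (c - ρ) =
        (Gj χ 0 c + ∑ ρ ∈ zb (LF χ) c (1 / 4), (mlt (LF χ) ρ : ℂ) / (c - ρ)) - Gj χ 0 c := by
      ring
    rw [e1]
    refine (norm_sub_le _ _).trans ?_
    have e2 : C₂ / r ≤ C₂ * ℒ := by
      rw [div_le_iff₀ hr0]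
      rw [div_le_iff₀ hℒ0] at hr
      nlinarith
    calc _ ≤ C₁ * ℒ + C₂ / r := add_le_add h1 h2
      _ ≤ C₁ * ℒ + C₂ * ℒ := by linarith
      _ = _ := by ring
  have h4 : (∑ ρ ∈ zb (LF χ) c (1 / 4), (mlt (LF χ) ρ : ℂ) / (c - ρ)).re ≤ (C₁ + C₂) * ℒ :=
    (re_le_norm _).trans h3
  have hf := LF_diff hχ
  have hc0 : LF χ c ≠ 0 := LF_c_ne hχ hr0.le t
  have hterm : ∀ ρ : ℂ, ((mlt (LF χ) ρ : ℂ) / (c - ρ)).re = mlt (LF χ) ρ * (1 / (c - ρ)).re := by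
    intro ρ
    rw [div_eq_mul_one_div, Complex.re_ofReal_mul]
  have h5 : (∑ ρ ∈ zb (LF χ) (1 + t * I) r, mlt (LF χ) ρ) * (1 / (4 * r)) ≤
      (∑ ρ ∈ zb (LF χ) c (1 / 4), (mlt (LF χ) ρ : ℂ) / (c - ρ)).re := by
    rw [Complex.re_sum, Finset.sum_mul]
    have hsub : zb (LF χ) (1 + t * I) r ⊆ zb (LF χ) c (1 / 4) := by
      intro ρ hρ
      rw [mem_zb hf hc0] at hρ ⊢
      refine ⟨hρ.1, ?_⟩
      have h6 := hρ.2
      rw [mem_closedBall, dist_eq_norm] at h6 ⊢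
      have e3 : ρ - c = (ρ - (1 + t * I)) - r := by rw [hc]; ring
      rw [e3]
      refine (norm_sub_le _ _).trans ?_
      rw [Complex.norm_real, Real.norm_eq_abs, abs_of_pos hr0]
      linarith
    refine (Finset.sum_le_sum fun ρ hρ => ?_).trans
      (Finset.sum_le_sum_of_subset_of_nonneg hsub fun ρ hρ _ => ?_)
    · rw [hterm]
      refine mul_le_mul_of_nonneg_left ?_ (mlt_nonneg _ ρ)
      rw [mem_zb hf hc0] at hρ
      have h6 := hρ.2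
      have h7 := zero_re_lt hχ hρ.1
      rw [mem_closedBall, dist_eq_norm] at h6
      have h8 : r ≤ (c - ρ).re := by rw [sub_re, hcre]; linarith
      have h9 : ‖c - ρ‖ ≤ 2 * r := by
        have e3 : c - ρ = r - (ρ - (1 + t * I)) := by rw [hc]; ring
        rw [e3]
        refine (norm_sub_le _ _).trans ?_
        rw [Complex.norm_real, Real.norm_eq_abs, abs_of_pos hr0]
        linarith
      have h10 : 0 < ‖c - ρ‖ := by
        have := (le_abs_self (c - ρ).re).trans (abs_re_le_norm (c - ρ))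
        linarith
      rw [one_div (c - ρ), Complex.inv_re, Complex.normSq_eq_norm_sq]
      rw [div_le_div_iff₀ (by positivity) (by positivity)]
      have h11 : ‖c - ρ‖ ^ 2 ≤ (2 * r) ^ 2 := pow_le_pow_left₀ h10.le h9 2
      nlinarith
    · rw [hterm]
      refine mul_nonneg (mlt_nonneg _ ρ) (re_inv_nonneg ?_)
      rw [mem_zb hf hc0] at hρ
      have h7 := zero_re_lt hχ hρ.1
      rw [sub_re, hcre]
      linarith
  have h6 := h5.trans h4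
  rw [mul_one_div, div_le_iff₀ (by positivity)] at h6
  linarith

end Pool.Agent.GA
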