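import Pool.Agent.Lib_helper98.GAF.Fin
import Pool.Agent.Lib_helper98.GAF.Lcs
import Pool.Agent.Lib_helper73.Var.LS

/-! # All primitive characters -/

set_option autoImplicit false

namespace Pool.Agent.GAT

open Pool.Agent.GA

open Finset Complex Metric
open scoped ArithmeticFunction.vonMangoldt ArithmeticFunction.Moebius Classical

/-- all primitive characters modulo `q` (for `q = 1` the trivial one) -/
noncomputable def Prp (q : ℕ) : Finset (DirichletCharacter ℂ q) :=
  univ.filter (fun χ => χ.IsPrimitive)


end Pool.Agent.GAT
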