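import Pool.Agent.Lib_helper98.GA.Defs

/-! # TNR: a radius far from all moduli -/

set_option autoImplicit false

namespace Pool.Agent.GA

open Finset Polynomial

theorem tnr_poly {n : ℕ} (a h : ℝ) (hh : h ≠ 0) (x : Fin n → ℝ) :
    (∏ i, (C h * X + C (a - x i)) : ℝ[X]).natDegree = n ∧
      (∏ i, (C h * X + C (a - x i)) : ℝ[X]).leadingCoeff = h ^ n := by
  have h1 : ∀ i ∈ (univ : Finset (Fin n)), (C h * X + C (a - x i) : ℝ[X]) ≠ 0 := by
    intro i _
    have : (C h * X + C (a - x i) : ℝ[X]).natDegree = 1 := natDegree_linear hh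
    intro h0
    rw [h0] at this
    simp at this
  constructor
  · rw [natDegree_prod _ _ h1, Finset.sum_congr rfl (fun i _ => natDegree_linear hh)]
    simp
  · rw [leadingCoeff_prod, Finset.prod_congr rfl (fun i _ => leadingCoeff_linear hh)]
    simp

theorem turan_radius {n m : ℕ} (hn : 1 ≤ n) (hm : 1 ≤ m) (x : Fin n → ℝ) :
    ∃ r : ℝ, (m : ℝ) / (m + n) ≤ r ∧ r ≤ 1 ∧
      ((n : ℝ) / (m + n) / (2 * Real.exp 1)) ^ n ≤ ∏ i, |r - x i| := by
  have hn0 : (0 : ℝ) < n := by exact_mod_cast hn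
  have hm0 : (0 : ℝ) < m := by exact_mod_cast hm
  set a : ℝ := m / (m + n) with ha
  set h : ℝ := 1 / (m + n) with hh
  have hh0 : 0 < h := by positivity
  set P : ℝ[X] := ∏ i, (C h * X + C (a - x i)) with hP
  obtain ⟨hdeg, hlead⟩ := tnr_poly a h hh0.ne' x
  rw [← hP] at hdeg hlead
  have heval : ∀ y : ℝ, P.eval y = ∏ i, ((a + h * y) - x i) := by
    intro y
    rw [hP, eval_prod]
    refine Finset.prod_congr rfl fun i _ => ?_
    simp only [eval_add, eval_mul, eval_C, eval_X]
    ring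
  have hfd := P.fwdDiff_iter_degree_eq_factorial
  rw [hdeg, hlead] at hfd
  have h1 := fwdDiff_iter_eq_sum_shift (1 : ℝ) P.eval n 0
  rw [hfd] at h1
  by_contra hcon
  push Not at hcon
  set τ : ℝ := ((n : ℝ) / (m + n) / (2 * Real.exp 1)) ^ n with hτ
  have hnode : ∀ k ∈ range (n + 1), |P.eval (0 + k • (1 : ℝ))| < τ := by
    intro k hk
    rw [heval, abs_prod]
    rw [mem_range] at hk
    have hk' : (k : ℝ) ≤ n := by exact_mod_cast (by omega : k ≤ n)
    have e1 : a + h * (0 + k • (1 : ℝ)) = (m + k) / (m + n) := by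
      rw [ha, hh]
      simp only [nsmul_eq_mul, mul_one, zero_add]
      ring
    rw [e1]
    refine hcon _ ?_ ?_
    · rw [ha]
      gcongr
      linarith [(Nat.cast_nonneg k : (0 : ℝ) ≤ k)]
    · rw [div_le_one (by positivity)]
      linarith
  have h2 : (h ^ n * (n.factorial : ℝ)) < 2 ^ n * τ := by
    have e2 : |h ^ n * (n.factorial : ℝ)| ≤
        ∑ k ∈ range (n + 1), (n.choose k : ℝ) * |P.eval (0 + k • (1 : ℝ))| := by
      have e3 : (h ^ n * (n.factorial : ℝ)) = ∑ k ∈ range (n + 1),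
          (((-1 : ℤ) ^ (n - k) * n.choose k) • P.eval (0 + k • (1 : ℝ))) := by
        rw [← h1]
        simp [smul_eq_mul]
      rw [e3]
      refine (Finset.abs_sum_le_sum_abs _ _).trans (Finset.sum_le_sum fun k _ => ?_)
      rw [zsmul_eq_mul, abs_mul]
      push_cast
      rw [abs_mul, abs_pow, abs_neg, abs_one, one_pow, one_mul, Nat.abs_cast]
    have e4 : ∑ k ∈ range (n + 1), (n.choose k : ℝ) * |P.eval (0 + k • (1 : ℝ))| <
        ∑ k ∈ range (n + 1), (n.choose k : ℝ) * τ := by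
      refine Finset.sum_lt_sum_of_nonempty ⟨0, by simp⟩ fun k hk => ?_
      have hk' : k ≤ n := by rw [mem_range] at hk; omega
      have : (0 : ℝ) < n.choose k := by exact_mod_cast Nat.choose_pos hk'
      exact mul_lt_mul_of_pos_left (hnode k hk) this
    have e5 : ∑ k ∈ range (n + 1), (n.choose k : ℝ) * τ = 2 ^ n * τ := by
      rw [← Finset.sum_mul]
      congr 1
      exact_mod_cast Nat.sum_range_choose n
    rw [e5] at e4
    have e6 : 0 < h ^ n * (n.factorial : ℝ) := by positivity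
    rw [abs_of_pos e6] at e2
    exact e2.trans_lt e4
  have h3 : (n : ℝ) ^ n ≤ Real.exp n * n.factorial := by
    have := Real.pow_div_factorial_le_exp n (Nat.cast_nonneg n) n
    rwa [div_le_iff₀ (by exact_mod_cast n.factorial_pos)] at this
  have h4 : 2 ^ n * τ = h ^ n * ((n : ℝ) ^ n / Real.exp n) := by
    rw [hτ, hh, div_pow, div_pow, mul_pow, one_div_pow, ← Real.exp_one_pow n]
    field_simp
  rw [h4] at h2
  have h5 : (n : ℝ) ^ n / Real.exp n ≤ n.factorial := by
    rw [div_le_iff₀ (Real.exp_pos _)]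
    linarith
  have h6 : h ^ n * ((n : ℝ) ^ n / Real.exp n) ≤ h ^ n * n.factorial := by gcongr
  linarith

end Pool.Agent.GA
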