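import Pool.Agent.Lib_helper98.GAF.Loc
import Pool.Agent.Lib_helper98.GAF.Z1

/-!
# GA part X, file 1: the windows

`σ = k / M`, `M = log X`, `wK k M n = (log n)^k σ^(k+1) / (k! n^(1+σ))`.
-/

set_option autoImplicit false
set_option linter.unusedSectionVars false

namespace Pool.Agent.GA

open Finset Complex Metric
open scoped ArithmeticFunction.vonMangoldt Classical

/-- the window of log-width `M / √k` around `e^M` -/
noncomputable def wK (k : ℕ) (M : ℝ) (n : ℕ) : ℝ :=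
  Real.log n ^ k * (k / M) ^ (k + 1) / (k.factorial * (n : ℝ) ^ (1 + k / M))

theorem wK_nonneg {k : ℕ} {M : ℝ} (hM : 0 < M) (n : ℕ) : 0 ≤ wK k M n := by
  unfold wK
  have := Real.log_natCast_nonneg n
  positivity

/-- in terms of `y = log n`: `wK = σ (σ y)^k e^(-σ y) / k! / n` -/
theorem wK_eq {k : ℕ} {M : ℝ} {n : ℕ} (hn : 1 ≤ n) :
    wK k M n = (k / M) * ((k / M * Real.log n) ^ k / k.factorial *
      Real.exp (-(k / M * Real.log n))) / n := by
  unfold wK
  have hn0 : (0 : ℝ) < n := by exact_mod_cast hn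
  rw [Real.rpow_add hn0, Real.rpow_one, Real.rpow_def_of_pos hn0 (k / M)]
  have e : Real.exp (-(k / M * Real.log n)) = (Real.exp (Real.log n * (k / M)))⁻¹ := by
    rw [← Real.exp_neg]
    congr 1
    ring
  rw [e, mul_pow, pow_succ]
  have := Real.exp_pos (Real.log n * (k / M))
  field_simp

/-- Stirling's lower bound -/
theorem x1_stirling {k : ℕ} (hk : 1 ≤ k) :
    Real.sqrt k * (k / Real.exp 1) ^ k ≤ (k.factorial : ℝ) := by
  refine le_trans ?_ (Stirling.le_factorial_stirling k)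
  apply mul_le_mul_of_nonneg_right _ (by positivity)
  apply Real.sqrt_le_sqrt
  have hk0 : (0 : ℝ) ≤ k := Nat.cast_nonneg k
  nlinarith [Real.pi_gt_three]

/-- Stirling's upper bound -/
theorem x1_stirling_up {k : ℕ} (hk : 1 ≤ k) :
    (k.factorial : ℝ) ≤ Real.exp 1 * Real.sqrt k * (k / Real.exp 1) ^ k := by
  obtain ⟨m, rfl⟩ : ∃ m, k = m + 1 := ⟨k - 1, by omega⟩
  have h1 := Stirling.stirlingSeq'_antitone (Nat.zero_le m)
  simp only [Function.comp, Nat.succ_eq_add_one, zero_add] at h1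
  rw [Stirling.stirlingSeq_one] at h1
  unfold Stirling.stirlingSeq at h1
  have hm : (0 : ℝ) < ((m + 1 : ℕ) : ℝ) := by positivity
  rw [div_le_iff₀ (by positivity)] at h1
  refine h1.trans (le_of_eq ?_)
  rw [Real.sqrt_mul (by norm_num)]
  field_simp

/-- tilting: `x^k/k! ≤ θ^(-k) e^(θ x) / √k` -/
theorem x1_tilt {k : ℕ} (hk : 1 ≤ k) {x θ : ℝ} (hx : 0 ≤ x) (hθ : 0 < θ) :
    x ^ k / k.factorial ≤ (θ⁻¹) ^ k * Real.exp (θ * x) / Real.sqrt k := by
  have hk0 : (0 : ℝ) < k := by exact_mod_cast hk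
  have hs : 0 < Real.sqrt k := Real.sqrt_pos.2 hk0
  have h1 : x ^ k / k.factorial ≤ x ^ k / (Real.sqrt k * (k / Real.exp 1) ^ k) :=
    div_le_div_of_nonneg_left (by positivity) (by positivity) (x1_stirling hk)
  refine h1.trans ?_
  rw [div_le_div_iff₀ (by positivity) hs]
  have h2 : θ * x / k ≤ Real.exp (θ * x / k - 1) := by
    have := Real.add_one_le_exp (θ * x / k - 1)
    linarith
  have h3 : (θ * x / k) ^ k ≤ Real.exp (θ * x - k) := by
    have h4 := pow_le_pow_left₀ (by positivity) h2 k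
    rw [← Real.exp_nat_mul] at h4
    refine h4.trans (le_of_eq ?_)
    congr 1
    field_simp
  have h5 : Real.exp (θ * x - k) * Real.exp 1 ^ k = Real.exp (θ * x) := by
    rw [← Real.exp_nat_mul, ← Real.exp_add]
    congr 1
    ring
  have h6 : x ^ k = (θ⁻¹) ^ k * (θ * x / k) ^ k * k ^ k := by
    rw [← mul_pow, ← mul_pow]
    congr 1
    field_simp
  have h7 : (θ⁻¹) ^ k * Real.exp (θ * x) * (Real.sqrt k * (k / Real.exp 1) ^ k) =
      (θ⁻¹) ^ k * Real.exp (θ * x - k) * k ^ k * Real.sqrt k := by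
    rw [← h5, div_pow]
    have := Real.exp_pos 1
    field_simp
  rw [h7, h6]
  apply mul_le_mul_of_nonneg_right _ hs.le
  apply mul_le_mul_of_nonneg_right _ (by positivity)
  exact mul_le_mul_of_nonneg_left h3 (by positivity)

theorem x1_log {u : ℝ} (h1 : -1 / 2 ≤ u) : u - 2 * u ^ 2 ≤ Real.log (1 + u) := by
  have h3 := Real.one_sub_inv_le_log_of_pos (x := 1 + u) (by linarith)
  have h4 : u - 2 * u ^ 2 ≤ 1 - (1 + u)⁻¹ := by
    have h0 : (0 : ℝ) < 1 + u := by linarith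
    have h5 : 1 - (1 + u)⁻¹ = u / (1 + u) := by field_simp; ring
    rw [h5, le_div_iff₀ h0]
    nlinarith [mul_nonneg (sq_nonneg u) (by linarith : (0 : ℝ) ≤ 1 + 2 * u)]
  linarith

theorem x1_pow {k : ℕ} {u : ℝ} (h1 : -1 / 2 ≤ u) :
    ((1 + u)⁻¹) ^ k ≤ Real.exp (-(k * u) + 2 * k * u ^ 2) := by
  have h0 : (0 : ℝ) < 1 + u := by linarith
  have h2 := x1_log h1
  have h3 : ((1 + u)⁻¹) ^ k = Real.exp (-(k * Real.log (1 + u))) := by
    rw [Real.exp_neg, Real.exp_nat_mul, Real.exp_log h0, inv_pow]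
  rw [h3]
  apply Real.exp_le_exp.2
  have hk : (0 : ℝ) ≤ k := Nat.cast_nonneg k
  nlinarith [mul_le_mul_of_nonneg_left h2 hk]

/-- the window is at most `e² (σ/√k) (1/n) (n/X)^{±1}` -/
theorem wK_le {k : ℕ} {M : ℝ} (hM : 2 ≤ M) (hk : M ^ 2 ≤ k) {n : ℕ} (hn : 1 ≤ n) :
    wK k M n ≤ Real.exp 2 * (k / M / Real.sqrt k) * (1 / n) *
        Real.exp (-|Real.log n - M|) := by
  have hk0 : (0 : ℝ) < k := by nlinarith
  have hk1 : 1 ≤ k := by
    have : (0 : ℝ) < k := hk0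
    exact_mod_cast this
  have hn0 : (0 : ℝ) < n := by exact_mod_cast hn
  set σ : ℝ := k / M with hσ
  have hσM : M ≤ σ := by
    rw [hσ, le_div_iff₀ (by linarith)]; nlinarith
  have hσ0 : 0 < σ := by linarith
  set y : ℝ := Real.log n with hy
  have hy0 : 0 ≤ y := Real.log_natCast_nonneg n
  have hs : 0 < Real.sqrt k := Real.sqrt_pos.2 hk0
  have hkσ : k / σ = M := by
    rw [hσ]; field_simp
  have hkσ2 : k / σ ^ 2 ≤ 1 := by
    have h1 : k / σ ^ 2 = M ^ 2 / k := by rw [hσ]; field_simp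
    rw [h1, div_le_one hk0]; exact hk
  -- both signs
  have key : ∀ ε : ℝ, (ε = 1 ∨ ε = -1) → wK k M n ≤
      Real.exp 2 * (σ / Real.sqrt k) * (1 / n) * Real.exp (ε * (y - M)) := by
    intro ε hε
    have hε2 : ε ^ 2 = 1 := by rcases hε with rfl | rfl <;> norm_num
    have hu : -1 / 2 ≤ ε / σ := by
      rw [le_div_iff₀ hσ0]
      rcases hε with rfl | rfl <;> linarith
    have h0 : (0 : ℝ) < 1 + ε / σ := by linarith
    rw [wK_eq hn, ← hσ]
    have h1 := x1_tilt hk1 (x := σ * y) (θ := 1 + ε / σ) (by positivity) h0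
    have h2 := x1_pow (k := k) hu
    have h3 : (σ * y) ^ k / k.factorial * Real.exp (-(σ * y)) ≤
        Real.exp 2 * Real.exp (ε * (y - M)) / Real.sqrt k := by
      refine (mul_le_mul_of_nonneg_right h1 (Real.exp_pos _).le).trans ?_
      have h4 : ((1 + ε / σ)⁻¹) ^ k * Real.exp ((1 + ε / σ) * (σ * y)) / Real.sqrt k *
          Real.exp (-(σ * y)) = ((1 + ε / σ)⁻¹) ^ k * (Real.exp ((1 + ε / σ) * (σ * y)) *
            Real.exp (-(σ * y))) / Real.sqrt k := by ring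
      rw [h4, ← Real.exp_add]
      apply div_le_div_of_nonneg_right _ hs.le
      refine (mul_le_mul_of_nonneg_right h2 (Real.exp_pos _).le).trans ?_
      rw [← Real.exp_add, ← Real.exp_add]
      apply Real.exp_le_exp.2
      have e1 : k * (ε / σ) = ε * M := by rw [← hkσ]; ring
      have e2 : 2 * k * (ε / σ) ^ 2 = 2 * (k / σ ^ 2) := by
        rw [div_pow, hε2]; ring
      have e3 : (1 + ε / σ) * (σ * y) + -(σ * y) = ε * y := by field_simp; ring
      rw [e1, e2, e3]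
      nlinarith
    calc σ * ((σ * y) ^ k / k.factorial * Real.exp (-(σ * y))) / n ≤
        σ * (Real.exp 2 * Real.exp (ε * (y - M)) / Real.sqrt k) / n := by
          apply div_le_div_of_nonneg_right _ hn0.le
          exact mul_le_mul_of_nonneg_left h3 hσ0.le
      _ = _ := by field_simp
  rcases le_total y M with h | h
  · have h1 := key 1 (Or.inl rfl)
    have h2 : -|y - M| = 1 * (y - M) := by rw [abs_of_nonpos (by linarith)]; ring
    rw [h2]; exact h1
  · have h1 := key (-1) (Or.inr rfl)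
    have h2 : -|y - M| = -1 * (y - M) := by rw [abs_of_nonneg (by linarith)]; ring
    rw [h2]; exact h1

/-- the sum over the prime powers which are not primes -/
theorem x1_powers : Summable (fun n : ℕ => if n.Prime then 0 else
      Λ n * (n : ℝ) ^ (-(3 / 4 : ℝ))) := by
  obtain ⟨C, hC, hL⟩ := sum_Lam_rpow
  have hL1 := (hL (1 / 2) (by norm_num) (by norm_num)).1
  let e : Nat.Primes × ℕ → ℕ := fun x => (x.1 : ℕ) ^ (x.2 + 2)
  have he : Function.Injective e := by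
    rintro ⟨⟨p, hp⟩, k⟩ ⟨⟨p', hp'⟩, k'⟩ h
    have h1 : p ^ (k + 2) = p' ^ (k' + 2) := h
    have h2 : p = p' := by
      have h3 : p ∣ p' ^ (k' + 2) := by
        rw [← h1]; exact dvd_pow_self p (by omega)
      exact (Nat.prime_dvd_prime_iff_eq hp hp').1 (hp.dvd_of_dvd_pow h3)
    subst h2
    have h3 : k + 2 = k' + 2 := Nat.pow_right_injective hp.two_le h1
    have h4 : k = k' := by omega
    subst h4
    rfl
  set f : ℕ → ℝ := fun n => if n.Prime then 0 else Λ n * (n : ℝ) ^ (-(3 / 4 : ℝ)) with hf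
  have hsupp : ∀ n, n ∉ Set.range e → f n = 0 := by
    intro n hn
    by_contra h0
    apply hn
    simp only [hf] at h0
    by_cases hp : n.Prime
    · rw [if_pos hp] at h0; exact absurd rfl h0
    · rw [if_neg hp] at h0
      have hΛ : Λ n ≠ 0 := left_ne_zero_of_mul h0
      have hpp : IsPrimePow n := ArithmeticFunction.vonMangoldt_ne_zero_iff.1 hΛ
      obtain ⟨p, k, hp', hk, rfl⟩ := (isPrimePow_nat_iff n).1 hpp
      have hk1 : k ≠ 1 := by
        rintro rfl
        rw [pow_one] at hp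
        exact hp hp'
      refine ⟨(⟨p, hp'⟩, k - 2), ?_⟩
      show p ^ (k - 2 + 2) = p ^ k
      congr 1
      omega
  rw [← he.summable_iff hsupp]
  have hval : ∀ x : Nat.Primes × ℕ, (f ∘ e) x =
      Real.log (x.1 : ℕ) * (((x.1 : ℕ) : ℝ) ^ (-(3 / 4 : ℝ))) ^ (x.2 + 2) := by
    rintro ⟨⟨p, hp⟩, k⟩
    have h1 : ¬ (e (⟨p, hp⟩, k)).Prime := Nat.Prime.not_prime_pow (by omega)
    show f (e (⟨p, hp⟩, k)) = _
    simp only [hf]
    rw [if_neg h1]
    show Λ (p ^ (k + 2)) * ((p ^ (k + 2) : ℕ) : ℝ) ^ (-(3 / 4 : ℝ)) = _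
    rw [ArithmeticFunction.vonMangoldt_apply_pow (by omega),
      ArithmeticFunction.vonMangoldt_apply_prime hp]
    congr 1
    rw [Nat.cast_pow, ← Real.rpow_natCast, ← Real.rpow_natCast, ← Real.rpow_mul (Nat.cast_nonneg p),
      ← Real.rpow_mul (Nat.cast_nonneg p), mul_comm]
  have h34 : ((2 : ℝ) ^ (-(3 / 4 : ℝ))) ≤ 2 / 3 := by
    rw [Real.rpow_neg (by norm_num)]
    have h1 : (3 / 2 : ℝ) ≤ 2 ^ (3 / 4 : ℝ) := by
      have h2 : ((3 / 2 : ℝ)) ^ (4 : ℕ) ≤ (2 ^ (3 / 4 : ℝ)) ^ (4 : ℕ) := by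
        rw [← Real.rpow_natCast (2 ^ (3 / 4 : ℝ)), ← Real.rpow_mul (by norm_num)]
        norm_num
      exact le_of_pow_le_pow_left₀ (by norm_num) (by positivity) h2
    rw [inv_le_comm₀ (by positivity) (by norm_num)]
    linarith
  have hx : ∀ p : Nat.Primes, 0 ≤ (((p : ℕ) : ℝ) ^ (-(3 / 4 : ℝ))) ∧
      (((p : ℕ) : ℝ) ^ (-(3 / 4 : ℝ))) ≤ 2 / 3 := by
    rintro ⟨p, hp⟩
    have h2 : (2 : ℝ) ≤ p := by exact_mod_cast hp.two_le
    refine ⟨Real.rpow_nonneg (by positivity) _, ?_⟩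
    exact (Real.rpow_le_rpow_of_nonpos (by norm_num) h2 (by norm_num)).trans h34
  have hgeo : ∀ p : Nat.Primes, HasSum (fun k : ℕ => Real.log (p : ℕ) *
      (((p : ℕ) : ℝ) ^ (-(3 / 4 : ℝ))) ^ (k + 2))
      (Real.log (p : ℕ) * ((((p : ℕ) : ℝ) ^ (-(3 / 4 : ℝ))) ^ 2 *
        (1 - (((p : ℕ) : ℝ) ^ (-(3 / 4 : ℝ))))⁻¹)) := by
    intro p
    have h1 := hasSum_geometric_of_lt_one (hx p).1 (by linarith [(hx p).2])
    have h2 := (h1.mul_left ((((p : ℕ) : ℝ) ^ (-(3 / 4 : ℝ))) ^ 2)).mul_left (Real.log (p : ℕ))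
    refine h2.congr_fun ?_
    intro k
    ring
  have hsum : Summable (fun x : Nat.Primes × ℕ => Real.log (x.1 : ℕ) *
      (((x.1 : ℕ) : ℝ) ^ (-(3 / 4 : ℝ))) ^ (x.2 + 2)) := by
    rw [summable_prod_of_nonneg]
    · refine ⟨fun p => (hgeo p).summable, ?_⟩
      simp only [(hgeo _).tsum_eq]
      have h1 : Summable (fun p : Nat.Primes => Λ (p : ℕ) * ((p : ℕ) : ℝ) ^ (-(1 + 1 / 2 : ℝ))) :=
        hL1.comp_injective Subtype.coe_injective
      refine Summable.of_nonneg_of_le (fun p => ?_) (fun p => ?_) (h1.mul_left 3)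
      · have := hx p
        have h2 : 0 ≤ Real.log (p : ℕ) := Real.log_natCast_nonneg _
        have h3 : 0 ≤ (1 - (((p : ℕ) : ℝ) ^ (-(3 / 4 : ℝ))))⁻¹ := inv_nonneg.2 (by linarith)
        positivity
      · have h2 : 0 ≤ Real.log (p : ℕ) := Real.log_natCast_nonneg _
        have h3 : (1 - (((p : ℕ) : ℝ) ^ (-(3 / 4 : ℝ))))⁻¹ ≤ 3 := by
          rw [inv_le_comm₀ (by linarith [(hx p).2]) (by norm_num)]
          linarith [(hx p).2]
        have hp0 : (0 : ℝ) < (p : ℕ) := by exact_mod_cast p.2.pos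
        have h4 : (((p : ℕ) : ℝ) ^ (-(3 / 4 : ℝ))) ^ 2 = ((p : ℕ) : ℝ) ^ (-(1 + 1 / 2 : ℝ)) := by
          rw [← Real.rpow_natCast, ← Real.rpow_mul hp0.le]
          norm_num
        rw [ArithmeticFunction.vonMangoldt_apply_prime p.2, h4]
        have h5 : 0 ≤ ((p : ℕ) : ℝ) ^ (-(1 + 1 / 2 : ℝ)) := by positivity
        calc Real.log (p : ℕ) * (((p : ℕ) : ℝ) ^ (-(1 + 1 / 2 : ℝ)) *
              (1 - (((p : ℕ) : ℝ) ^ (-(3 / 4 : ℝ))))⁻¹) ≤
            Real.log (p : ℕ) * (((p : ℕ) : ℝ) ^ (-(1 + 1 / 2 : ℝ)) * 3) := by gcongr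
          _ = _ := by ring
    · intro x
      have := (hx x.1).1
      have h2 : 0 ≤ Real.log (x.1 : ℕ) := Real.log_natCast_nonneg _
      positivity
  exact hsum.congr fun x => (hval x).symm

/-- prime powers which are not primes contribute at most `C (σ/√k) X^(-1/4)` -/
theorem x1_powers_wK : ∃ C : ℝ, 1 ≤ C ∧ ∀ (k : ℕ) (M : ℝ), 2 ≤ M → M ^ 2 ≤ k →
    Summable (fun n : ℕ => if n.Prime then 0 else Λ n * wK k M n) ∧
    ∑' n : ℕ, (if n.Prime then 0 else Λ n * wK k M n) ≤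
      C * (k / M / Real.sqrt k) * Real.exp (-(M / 4)) := by
  set S := ∑' n : ℕ, (if n.Prime then 0 else Λ n * (n : ℝ) ^ (-(3 / 4 : ℝ))) with hS
  have hS0 : 0 ≤ S := tsum_nonneg fun n => by
    split_ifs
    · exact le_rfl
    · exact mul_nonneg ArithmeticFunction.vonMangoldt_nonneg (by positivity)
  refine ⟨Real.exp 2 * (S + 1), ?_, fun k M hM hk => ?_⟩
  · have : 1 ≤ Real.exp 2 := Real.one_le_exp (by norm_num)
    nlinarith
  have hk0 : (0 : ℝ) < k := by nlinarith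
  set B : ℝ := Real.exp 2 * (k / M / Real.sqrt k) * Real.exp (-(M / 4)) with hB
  have hB0 : 0 ≤ B := by positivity
  have hle : ∀ n : ℕ, (if n.Prime then 0 else Λ n * wK k M n) ≤
      B * (if n.Prime then 0 else Λ n * (n : ℝ) ^ (-(3 / 4 : ℝ))) := by
    intro n
    by_cases hp : n.Prime
    · rw [if_pos hp, if_pos hp, mul_zero]
    · rw [if_neg hp, if_neg hp]
      rcases Nat.eq_zero_or_pos n with rfl | hn
      · simp
      · have h1 := wK_le hM hk hn
        have hn0 : (0 : ℝ) < n := by exact_mod_cast hn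
        have h2 : Real.exp (-|Real.log n - M|) ≤ Real.exp (-(M / 4)) * (n : ℝ) ^ (1 / 4 : ℝ) := by
          rw [Real.rpow_def_of_pos hn0, ← Real.exp_add]
          apply Real.exp_le_exp.2
          rcases abs_cases (Real.log n - M) with ⟨h, h'⟩ | ⟨h, h'⟩ <;> rw [h] <;>
            nlinarith [Real.log_natCast_nonneg n]
        have h3 : (1 / (n : ℝ)) * (n : ℝ) ^ (1 / 4 : ℝ) = (n : ℝ) ^ (-(3 / 4 : ℝ)) := by
          rw [one_div, ← Real.rpow_neg_one, ← Real.rpow_add hn0]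
          norm_num
        have h4 : wK k M n ≤ B * (n : ℝ) ^ (-(3 / 4 : ℝ)) := by
          refine h1.trans ?_
          rw [← h3, hB]
          calc Real.exp 2 * (k / M / Real.sqrt k) * (1 / n) * Real.exp (-|Real.log n - M|) ≤
              Real.exp 2 * (k / M / Real.sqrt k) * (1 / n) *
                (Real.exp (-(M / 4)) * (n : ℝ) ^ (1 / 4 : ℝ)) := by gcongr
            _ = _ := by ring
        calc Λ n * wK k M n ≤ Λ n * (B * (n : ℝ) ^ (-(3 / 4 : ℝ))) :=
              mul_le_mul_of_nonneg_left h4 ArithmeticFunction.vonMangoldt_nonneg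
          _ = _ := by ring
  have hnn : ∀ n : ℕ, 0 ≤ (if n.Prime then 0 else Λ n * wK k M n) := by
    intro n
    split_ifs
    · exact le_rfl
    · exact mul_nonneg ArithmeticFunction.vonMangoldt_nonneg (wK_nonneg (by linarith) n)
  have hsum : Summable (fun n : ℕ => if n.Prime then 0 else Λ n * wK k M n) :=
    Summable.of_nonneg_of_le hnn hle (x1_powers.mul_left B)
  refine ⟨hsum, ?_⟩
  have h1 := hsum.tsum_le_tsum hle (x1_powers.mul_left B)
  rw [tsum_mul_left, ← hS] at h1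
  refine h1.trans ?_
  have h2 : Real.exp 2 * (S + 1) * (k / M / Real.sqrt k) * Real.exp (-(M / 4)) = B * (S + 1) := by
    rw [hB]; ring
  rw [h2]
  nlinarith

end Pool.Agent.GA
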