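import Pool.Agent.Lib_helper98.GAF.Loc
import Pool.Agent.Lib_helper98.GAF.Lbd
import Pool.Agent.Lib_helper98.GAF.Tur
import Pool.Agent.Lib_helper98.GAF.Fin
import Pool.Agent.Lib_helper98.GAF.Z3

/-!
# GA part X, file 2: the explicit formula and the sum over the zeros, for a general function
-/

set_option autoImplicit false
set_option linter.unusedSectionVars false

namespace Pool.Agent.GA

open Finset Complex Metric
open scoped ArithmeticFunction.vonMangoldt Classical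

theorem x2_ratio {σ v : ℝ} (hσ : 1 ≤ σ) (hv : 0 ≤ v) (hv1 : v ≤ 1) (k : ℕ) :
    (σ / (σ + v)) ^ k ≤ Real.exp (-(k / σ * (v / (1 + v)))) := by
  have h0 : 0 < σ + v := by linarith
  have h1 : σ / (σ + v) ≤ Real.exp (-(v / (σ + v))) := by
    have h2 := Real.add_one_le_exp (-(v / (σ + v)))
    have h3 : -(v / (σ + v)) + 1 = σ / (σ + v) := by field_simp; ring
    linarith
  have h2 := pow_le_pow_left₀ (by positivity) h1 k
  refine h2.trans ?_
  rw [← Real.exp_nat_mul]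
  apply Real.exp_le_exp.2
  have hk : (0 : ℝ) ≤ k := Nat.cast_nonneg k
  have h3 : k / σ * (v / (1 + v)) ≤ k * (v / (σ + v)) := by
    have e1 : k / σ * (v / (1 + v)) = k * (v / (σ * (1 + v))) := by field_simp
    rw [e1]
    apply mul_le_mul_of_nonneg_left _ hk
    apply div_le_div_of_nonneg_left hv h0
    nlinarith
  linarith

theorem x2_logratio {σ : ℝ} (hσ : 1 ≤ σ) :
    1 / (8 * σ) ≤ Real.log ((σ + 1 / 4) / (σ + 1 / 16)) := by
  have h0 : 0 < (σ + 1 / 4) / (σ + 1 / 16) := by positivity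
  have h1 := Real.one_sub_inv_le_log_of_pos h0
  have h2 : 1 - ((σ + 1 / 4) / (σ + 1 / 16))⁻¹ = (3 / 16) / (σ + 1 / 4) := by
    field_simp; ring
  rw [h2] at h1
  refine le_trans ?_ h1
  rw [div_le_div_iff₀ (by positivity) (by positivity)]
  linarith

/-- the number of zeros in the big ball, and the explicit formula -/
theorem x2_explicit {f : ℂ → ℂ} (hf : Differentiable ℂ f) {B₀ : ℝ} (hB₀ : 1 ≤ B₀)
    (hgr : ∀ s : ℂ, 1 / 4 ≤ s.re → ‖f s‖ ≤ B₀ * (‖s‖ + 2) ^ 2) {σ t : ℝ} (hσ : 1 ≤ σ)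
    (hlow : 1 / 3 ≤ ‖f (1 + σ + t * I)‖) (k : ℕ) :
    ‖((σ ^ (k + 1) : ℝ) : ℂ) * (iteratedDeriv k (logDeriv f) (1 + σ + t * I) /
        (k.factorial : ℂ)) - (-1) ^ k *
      ∑ ρ ∈ zb f (1 + σ + t * I) (σ + 1 / 16),
        (mlt f ρ : ℂ) * ((σ : ℂ) / (1 + σ + t * I - ρ)) ^ (k + 1)‖ ≤
      72 * (k + 1) * σ * Real.log (3 * B₀ * (2 * σ + |t| + 4) ^ 2) *
        Real.exp (-(k / σ / 33)) := by
  set c : ℂ := 1 + σ + t * I with hc
  have hcre : c.re = 1 + σ := by simp [hc]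
  have hcn : ‖c‖ ≤ 1 + σ + |t| := by
    refine (Complex.norm_le_abs_re_add_abs_im c).trans ?_
    have h2 : c.im = t := by simp [hc]
    rw [hcre, h2, abs_of_pos (by linarith)]
  have h0 : f c ≠ 0 := by
    intro h
    rw [h, norm_zero] at hlow
    linarith
  have ht := abs_nonneg t
  set B : ℝ := 3 * B₀ * (2 * σ + |t| + 4) ^ 2 with hB
  have hB1 : 1 ≤ B := by
    rw [hB]
    nlinarith [sq_nonneg (2 * σ + |t| + 4 - 1)]
  have hbound : ∀ z ∈ closedBall c (σ + 1 / 4), ‖f z‖ ≤ B * ‖f c‖ := by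
    intro z hz
    rw [mem_closedBall, dist_eq_norm] at hz
    have h1 := (Complex.abs_re_le_norm (z - c)).trans hz
    rw [Complex.sub_re, hcre, abs_le] at h1
    have h2 : ‖z‖ ≤ (σ + 1 / 4) + (1 + σ + |t|) := by
      have : ‖z‖ ≤ ‖z - c‖ + ‖c‖ := by
        have := norm_add_le (z - c) c
        simpa using this
      linarith
    have h3 := hgr z (by linarith [h1.1])
    have h4 : (‖z‖ + 2) ^ 2 ≤ (2 * σ + |t| + 4) ^ 2 :=
      pow_le_pow_left₀ (by positivity) (by linarith) 2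
    calc ‖f z‖ ≤ B₀ * (‖z‖ + 2) ^ 2 := h3
      _ ≤ B₀ * (2 * σ + |t| + 4) ^ 2 := mul_le_mul_of_nonneg_left h4 (by linarith)
      _ = B * (1 / 3) := by rw [hB]; ring
      _ ≤ B * ‖f c‖ := mul_le_mul_of_nonneg_left hlow (by linarith)
  set Lb : ℝ := Real.log B with hLb
  have hLb0 : 0 ≤ Lb := Real.log_nonneg hB1
  have hcount := zero_count hf h0 (R₁ := σ + 1 / 16) (R₃ := σ + 1 / 4) (B := B) (by linarith)
    (by linarith) hbound
  have hco := logDeriv_coeff hf h0 (r := σ + 1 / 32) (R₁ := σ + 1 / 16) (R₃ := σ + 1 / 4) (B := B)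
    (by linarith) (by linarith) (by linarith) hB1 hbound k
  set m : ℝ := ∑ ρ ∈ zb f c (σ + 1 / 16), mlt f ρ with hm
  have hm0 : 0 ≤ m := Finset.sum_nonneg fun ρ _ => by unfold mlt; positivity
  have hm1 : m ≤ 8 * σ * Lb := by
    have h1 := x2_logratio hσ
    have h2 : m * (1 / (8 * σ)) ≤ Lb := (mul_le_mul_of_nonneg_left h1 hm0).trans hcount
    rw [mul_one_div, div_le_iff₀ (by positivity)] at h2
    linarith
  have hσ0 : 0 < σ := by linarith
  have hfac : ((σ ^ (k + 1) : ℝ) : ℂ) * (iteratedDeriv k (logDeriv f) c /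
        (k.factorial : ℂ)) - (-1) ^ k *
      ∑ ρ ∈ zb f c (σ + 1 / 16), (mlt f ρ : ℂ) * ((σ : ℂ) / (c - ρ)) ^ (k + 1) =
      ((σ ^ (k + 1) : ℝ) : ℂ) * (iteratedDeriv k (logDeriv f) c / (k.factorial : ℂ) -
        (-1) ^ k * ∑ ρ ∈ zb f c (σ + 1 / 16), (mlt f ρ : ℂ) / (c - ρ) ^ (k + 1)) := by
    rw [mul_sub]
    congr 1
    rw [Finset.mul_sum, Finset.mul_sum, Finset.mul_sum]
    refine Finset.sum_congr rfl fun ρ _ => ?_
    rw [div_pow]
    push_cast
    ring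
  rw [hfac, norm_mul, Complex.norm_real, Real.norm_of_nonneg (by positivity)]
  refine (mul_le_mul_of_nonneg_left hco (by positivity)).trans ?_
  have hr : 0 < σ + 1 / 32 := by linarith
  have hR : 0 < σ + 1 / 4 := by linarith
  set E : ℝ := Real.exp (-(k / σ / 33)) with hE
  have h1 : (σ / (σ + 1 / 32)) ^ k ≤ E := by
    have := x2_ratio hσ (v := 1 / 32) (by norm_num) (by norm_num) k
    refine this.trans (le_of_eq ?_)
    rw [hE]; congr 1; ring
  have h2 : (σ / (σ + 1 / 4)) ^ (k + 1) ≤ E := by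
    have h3 : σ / (σ + 1 / 4) ≤ σ / (σ + 1 / 32) :=
      div_le_div_of_nonneg_left hσ0.le hr (by linarith)
    have h4 : σ / (σ + 1 / 4) ≤ 1 := by
      rw [div_le_one hR]; linarith
    calc (σ / (σ + 1 / 4)) ^ (k + 1) = (σ / (σ + 1 / 4)) ^ k * (σ / (σ + 1 / 4)) := pow_succ _ _
      _ ≤ (σ / (σ + 1 / 4)) ^ k * 1 := mul_le_mul_of_nonneg_left h4 (by positivity)
      _ = (σ / (σ + 1 / 4)) ^ k := mul_one _
      _ ≤ (σ / (σ + 1 / 32)) ^ k := pow_le_pow_left₀ (by positivity) h3 k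
      _ ≤ E := h1
  have hE0 : 0 < E := Real.exp_pos _
  have hk0 : (0 : ℝ) ≤ k := Nat.cast_nonneg k
  have h3 : σ ^ (k + 1) * (2 * (k + 1) * Lb / ((σ + 1 / 16 - (σ + 1 / 32)) *
      (σ + 1 / 32) ^ k)) = 64 * (k + 1) * σ * Lb * (σ / (σ + 1 / 32)) ^ k := by
    rw [div_pow, pow_succ]
    have : σ + 1 / 16 - (σ + 1 / 32) = 1 / 32 := by ring
    rw [this]
    field_simp
    ring
  have h4 : σ ^ (k + 1) * (m / (σ + 1 / 4) ^ (k + 1)) = m * (σ / (σ + 1 / 4)) ^ (k + 1) := by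
    rw [div_pow]; ring
  rw [mul_add, h3, h4]
  have h5 : 64 * (k + 1) * σ * Lb * (σ / (σ + 1 / 32)) ^ k ≤ 64 * (k + 1) * σ * Lb * E :=
    mul_le_mul_of_nonneg_left h1 (by positivity)
  have h6 : m * (σ / (σ + 1 / 4)) ^ (k + 1) ≤ (8 * σ * Lb) * E :=
    mul_le_mul hm1 h2 (by positivity) (by positivity)
  have h7 : (8 * σ * Lb) * E ≤ 8 * (k + 1) * σ * Lb * E := by
    have : 0 ≤ σ * Lb * E := by positivity
    nlinarith
  linarith

/-- the zeros in the big ball -/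
theorem x2_term {σ t : ℝ} (hσ : 1 ≤ σ) {ρ : ℂ} (h1 : ρ.re ≤ 1)
    (h : ‖1 + σ + t * I - ρ‖ ≤ σ + 1 / 16) (k : ℕ) :
    1 - 1 / 16 ≤ ρ.re ∧ |ρ.im - t| ≤ Real.sqrt σ ∧
      ‖((σ : ℂ) / (1 + σ + t * I - ρ)) ^ (k + 1)‖ ≤
        Real.exp (-(k / σ * (1 - ρ.re) / 4)) := by
  set c : ℂ := 1 + σ + t * I with hc
  have hre : (c - ρ).re = σ + (1 - ρ.re) := by simp [hc]; ring
  have him : (c - ρ).im = t - ρ.im := by simp [hc]
  have h2 := (Complex.re_le_norm (c - ρ))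
  rw [hre] at h2
  have hu : 0 ≤ 1 - ρ.re := by linarith
  have hu1 : 1 - ρ.re ≤ 1 / 16 := by linarith
  refine ⟨by linarith, ?_, ?_⟩
  · apply Real.abs_le_sqrt
    have h3 := Complex.sq_norm (c - ρ)
    rw [Complex.normSq_apply, hre, him] at h3
    have h4 : ‖c - ρ‖ ^ 2 ≤ (σ + 1 / 16) ^ 2 := pow_le_pow_left₀ (norm_nonneg _) h 2
    nlinarith
  · rw [norm_pow, norm_div, Complex.norm_real, Real.norm_of_nonneg (by linarith)]
    have h3 : σ / ‖c - ρ‖ ≤ σ / (σ + (1 - ρ.re)) :=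
      div_le_div_of_nonneg_left (by linarith) (by linarith) h2
    have h4 : σ / ‖c - ρ‖ ≤ 1 := by
      rw [div_le_one (by linarith)]; linarith
    have h5 : 0 ≤ σ / ‖c - ρ‖ := by positivity
    calc (σ / ‖c - ρ‖) ^ (k + 1) = (σ / ‖c - ρ‖) ^ k * (σ / ‖c - ρ‖) := pow_succ _ _
      _ ≤ (σ / ‖c - ρ‖) ^ k * 1 := mul_le_mul_of_nonneg_left h4 (by positivity)
      _ = (σ / ‖c - ρ‖) ^ k := mul_one _
      _ ≤ (σ / (σ + (1 - ρ.re))) ^ k := pow_le_pow_left₀ h5 h3 k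
      _ ≤ Real.exp (-(k / σ * ((1 - ρ.re) / (1 + (1 - ρ.re))))) :=
          x2_ratio hσ hu (by linarith) k
      _ ≤ Real.exp (-(k / σ * (1 - ρ.re) / 4)) := by
          apply Real.exp_le_exp.2
          have hk : 0 ≤ k / σ := by positivity
          have h6 : (1 - ρ.re) / 4 ≤ (1 - ρ.re) / (1 + (1 - ρ.re)) :=
            div_le_div_of_nonneg_left hu (by linarith) (by linarith)
          have := mul_le_mul_of_nonneg_left h6 hk
          have e : k / σ * (1 - ρ.re) / 4 = k / σ * ((1 - ρ.re) / 4) := by ring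
          rw [e]
          linarith

/-- one function: cut the sum over the zeros -/
theorem x2_cut {f : ℂ → ℂ} (hf : Differentiable ℂ f) {c0 : ℂ} (h0 : f c0 ≠ 0) {D L K c₀ : ℝ}
    (hL : 0 < L) (hK : 0 ≤ K)
    (hzf : ∀ ρ, f ρ = 0 → |ρ.im| ≤ D → ρ.re ≤ 1 - c₀ / L) :
    ∑ ρ ∈ zr f (1 / 16) D, mlt f ρ * Real.exp (-(K * L * (1 - ρ.re) / 4)) ≤
      Real.exp (-(c₀ * K / 8)) * ∑ i ∈ range (⌊L / 16⌋₊ + 1),
        Real.exp (-(i * K / 8)) * nz f (min ((i + 1) / L) (1 / 16)) D := by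
  have hmem := fun a ρ => mem_zr hf h0 a D ρ
  rw [Finset.mul_sum]
  have h1 : ∀ ρ ∈ zr f (1 / 16) D, mlt f ρ * Real.exp (-(K * L * (1 - ρ.re) / 4)) ≤
      ∑ i ∈ range (⌊L / 16⌋₊ + 1), Real.exp (-(c₀ * K / 8)) * (Real.exp (-(i * K / 8)) *
        (if ρ ∈ zr f (min ((i + 1) / L) (1 / 16)) D then mlt f ρ else 0)) := by
    intro ρ hρ
    obtain ⟨hz, hre, hre1, him⟩ := (hmem _ ρ).1 hρ
    set u : ℝ := 1 - ρ.re with hu
    have hu0 : 0 ≤ u := by linarith
    have hu1 : u ≤ 1 / 16 := by linarith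
    have huc : c₀ / L ≤ u := by
      have := hzf ρ hz him
      linarith
    have huc' : c₀ ≤ u * L := by
      rwa [div_le_iff₀ hL] at huc
    set i₀ : ℕ := ⌊u * L⌋₊ with hi₀
    have hi1 : (i₀ : ℝ) ≤ u * L := Nat.floor_le (by positivity)
    have hi2 : u * L < i₀ + 1 := Nat.lt_floor_add_one _
    have hi3 : i₀ ∈ range (⌊L / 16⌋₊ + 1) := by
      rw [Finset.mem_range, Nat.lt_succ_iff]
      apply Nat.floor_le_floor
      nlinarith
    have hin : ρ ∈ zr f (min (((i₀ : ℕ) + 1) / L) (1 / 16)) D := by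
      rw [hmem]
      refine ⟨hz, ?_, hre1, him⟩
      have h2 : u ≤ min (((i₀ : ℕ) + 1) / L) (1 / 16) := by
        apply le_min _ hu1
        rw [le_div_iff₀ hL]; exact hi2.le
      linarith
    have hml : 0 ≤ mlt f ρ := by unfold mlt; positivity
    have h3 : mlt f ρ * Real.exp (-(K * L * u / 4)) ≤ Real.exp (-(c₀ * K / 8)) *
        (Real.exp (-(i₀ * K / 8)) *
        (if ρ ∈ zr f (min (((i₀ : ℕ) + 1) / L) (1 / 16)) D then mlt f ρ else 0)) := by
      rw [if_pos hin, ← mul_assoc, ← Real.exp_add, mul_comm (mlt f ρ)]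
      apply mul_le_mul_of_nonneg_right _ hml
      apply Real.exp_le_exp.2
      nlinarith [mul_le_mul_of_nonneg_right huc' hK, mul_le_mul_of_nonneg_right hi1 hK]
    refine h3.trans ?_
    exact Finset.single_le_sum (f := fun i : ℕ => Real.exp (-(c₀ * K / 8)) *
      (Real.exp (-(i * K / 8)) *
        (if ρ ∈ zr f (min ((i + 1) / L) (1 / 16)) D then mlt f ρ else 0)))
      (fun i _ => by
        have : 0 ≤ (if ρ ∈ zr f (min ((i + 1) / L) (1 / 16)) D then mlt f ρ else 0) := by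
          split_ifs
          · exact hml
          · exact le_rfl
        positivity) hi3
  refine (Finset.sum_le_sum h1).trans ?_
  rw [Finset.sum_comm]
  apply Finset.sum_le_sum
  intro i _
  rw [← Finset.mul_sum, ← Finset.mul_sum]
  apply mul_le_mul_of_nonneg_left _ (Real.exp_pos _).le
  apply mul_le_mul_of_nonneg_left _ (Real.exp_pos _).le
  rw [← Finset.sum_filter]
  unfold nz
  apply Finset.sum_le_sum_of_subset_of_nonneg
  · intro ρ hρ
    exact (Finset.mem_filter.1 hρ).2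
  · intro ρ _ _
    unfold mlt; positivity

/-- a family of functions with a log-free zero density estimate -/
theorem x2_zero_sum {ι : Type*} (s : Finset ι) (f : ι → ℂ → ℂ) (c0 : ι → ℂ)
    (hf : ∀ i ∈ s, Differentiable ℂ (f i)) (h0 : ∀ i ∈ s, f i (c0 i) ≠ 0) {D L K c₀ Cd : ℝ}
    (hL : 0 < L) (hCd : 0 ≤ Cd) (hK : 8 * Cd + 8 ≤ K)
    (hzf : ∀ i ∈ s, ∀ ρ, f i ρ = 0 → |ρ.im| ≤ D → ρ.re ≤ 1 - c₀ / L)
    (hden : ∀ δ : ℝ, 0 ≤ δ → δ ≤ 1 / 16 → ∑ i ∈ s, nz (f i) δ D ≤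
      Real.exp (Cd * (1 + δ * L))) :
    ∑ i ∈ s, ∑ ρ ∈ zr (f i) (1 / 16) D, mlt (f i) ρ * Real.exp (-(K * L * (1 - ρ.re) / 4)) ≤
      2 * Real.exp (2 * Cd) * Real.exp (-(c₀ * K / 8)) := by
  have h1 : ∀ i ∈ s, ∑ ρ ∈ zr (f i) (1 / 16) D,
      mlt (f i) ρ * Real.exp (-(K * L * (1 - ρ.re) / 4)) ≤
      Real.exp (-(c₀ * K / 8)) * ∑ j ∈ range (⌊L / 16⌋₊ + 1),
        Real.exp (-(j * K / 8)) * nz (f i) (min ((j + 1) / L) (1 / 16)) D := fun i hi =>
    x2_cut (hf i hi) (h0 i hi) hL (by linarith) (hzf i hi)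
  refine (Finset.sum_le_sum h1).trans ?_
  rw [← Finset.mul_sum, Finset.sum_comm, mul_comm]
  apply mul_le_mul_of_nonneg_right _ (Real.exp_pos _).le
  have h2 : ∀ j ∈ range (⌊L / 16⌋₊ + 1), ∑ i ∈ s, Real.exp (-(j * K / 8)) *
      nz (f i) (min ((j + 1) / L) (1 / 16)) D ≤ Real.exp (2 * Cd) * (Real.exp (-1)) ^ j := by
    intro j _
    rw [← Finset.mul_sum]
    have h3 : (0 : ℝ) ≤ min (((j : ℕ) + 1) / L) (1 / 16) := le_min (by positivity) (by norm_num)
    have h4 := hden _ h3 (min_le_right _ _)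
    have h5 : Cd * (1 + min (((j : ℕ) + 1) / L) (1 / 16) * L) ≤ Cd * (2 + j) := by
      apply mul_le_mul_of_nonneg_left _ hCd
      have h6 : min (((j : ℕ) + 1) / L) (1 / 16) * L ≤ j + 1 := by
        have := mul_le_mul_of_nonneg_right (min_le_left (((j : ℕ) + 1) / L) (1 / 16)) hL.le
        rwa [div_mul_cancel₀ _ hL.ne'] at this
      linarith
    calc Real.exp (-(j * K / 8)) * ∑ i ∈ s, nz (f i) (min ((j + 1) / L) (1 / 16)) D ≤
        Real.exp (-(j * K / 8)) * Real.exp (Cd * (2 + j)) := by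
          apply mul_le_mul_of_nonneg_left _ (Real.exp_pos _).le
          exact h4.trans (Real.exp_le_exp.2 h5)
      _ ≤ Real.exp (2 * Cd) * (Real.exp (-1)) ^ j := by
          rw [← Real.exp_nat_mul, ← Real.exp_add, ← Real.exp_add]
          apply Real.exp_le_exp.2
          have hj : (0 : ℝ) ≤ j := Nat.cast_nonneg j
          nlinarith [mul_le_mul_of_nonneg_left hK hj]
  refine (Finset.sum_le_sum h2).trans ?_
  rw [← Finset.mul_sum]
  have hex : Real.exp (-1) ≤ 1 / 2 := by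
    rw [Real.exp_neg, inv_le_comm₀ (Real.exp_pos _) (by norm_num)]
    have := Real.add_one_le_exp (1 : ℝ)
    norm_num at this ⊢
    linarith
  have hgeo : ∑ j ∈ range (⌊L / 16⌋₊ + 1), (Real.exp (-1)) ^ j ≤ 2 := by
    have h3 := Summable.sum_le_tsum (range (⌊L / 16⌋₊ + 1))
      (fun j _ => pow_nonneg (Real.exp_pos (-1)).le j)
      (summable_geometric_of_lt_one (Real.exp_pos (-1)).le (by linarith))
    rw [tsum_geometric_of_lt_one (Real.exp_pos (-1)).le (by linarith)] at h3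
    refine h3.trans ?_
    rw [inv_le_comm₀ (by linarith) (by norm_num)]
    linarith
  have := mul_le_mul_of_nonneg_left hgeo (Real.exp_pos (2 * Cd)).le
  linarith

end Pool.Agent.GA
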