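import Pool.Agent.Lib_helper98.GAF.Loc
import Pool.Agent.Lib_helper98.GAF.Lbd
import Pool.Agent.Lib_helper98.GAF.Tur
import Pool.Agent.Lib_helper98.GAF.Fin
import Pool.Agent.Lib_helper98.GAF.Den3
import Pool.Agent.Lib_helper98.GAF.X1
import Pool.Agent.Lib_helper98.GAF.X2
import Pool.Agent.Lib_helper98.GAF.Z4

/-!
# GA part X, file 3: Gallagher's theorem for windows of any width
-/

set_option autoImplicit false
set_option linter.unusedSectionVars false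

namespace Pool.Agent.GA

open Finset Complex Metric
open scoped ArithmeticFunction.vonMangoldt Classical

/-- the sum over prime powers in the window, twisted by `χ(n) n^(-i t)` -/
noncomputable def SK {q : ℕ} (χ : DirichletCharacter ℂ q) (k : ℕ) (M t : ℝ) : ℂ :=
  ∑' n : ℕ, ((Λ n * wK k M n : ℝ) : ℂ) * χ (n : ZMod q) * (n : ℂ) ^ (-(t * I) : ℂ)

/-- the sum over the primes in the window, twisted by `χ(n) n^(-i t)` -/
noncomputable def SKP {q : ℕ} (χ : DirichletCharacter ℂ q) (k : ℕ) (M t : ℝ) : ℂ :=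
  ∑' n : ℕ, if n.Prime then ((Real.log n * wK k M n : ℝ) : ℂ) * χ (n : ZMod q) *
    (n : ℂ) ^ (-(t * I) : ℂ) else 0

theorem x3_term {q : ℕ} (χ : DirichletCharacter ℂ q) (k : ℕ) (M t : ℝ) (n : ℕ) :
    ((((k / M) ^ (k + 1) / k.factorial : ℝ) : ℝ) : ℂ) * LSeries.term
      (fun n => ((Λ n : ℝ) : ℂ) * χ (n : ZMod q) * (((Real.log n) ^ k : ℝ) : ℂ))
      (1 + ((k / M : ℝ) : ℂ) + t * I) n =
    ((Λ n * wK k M n : ℝ) : ℂ) * χ (n : ZMod q) * (n : ℂ) ^ (-(t * I) : ℂ) := by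
  rcases Nat.eq_zero_or_pos n with rfl | hn
  · simp [LSeries.term]
  · have hn0 : n ≠ 0 := hn.ne'
    have hnR : (0 : ℝ) < n := by exact_mod_cast hn
    have hnC : (n : ℂ) ≠ 0 := by exact_mod_cast hn0
    rw [LSeries.term_of_ne_zero hn0]
    unfold wK
    have h1 : (n : ℂ) ^ (1 + ((k / M : ℝ) : ℂ) + t * I : ℂ) =
        ((n : ℝ) ^ (1 + k / M) : ℝ) * (n : ℂ) ^ (t * I : ℂ) := by
      rw [Complex.cpow_add _ _ hnC]
      congr 1
      rw [Complex.ofReal_cpow hnR.le]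
      push_cast
      rfl
    have h2 : (((n : ℝ) ^ (1 + k / M) : ℝ) : ℂ) ≠ 0 := by
      have := (Real.rpow_pos_of_pos hnR (1 + k / M)).ne'
      exact_mod_cast this
    have h3 : (n : ℂ) ^ (t * I : ℂ) ≠ 0 := by
      rw [Ne, Complex.cpow_eq_zero_iff]
      tauto
    rw [h1, Complex.cpow_neg]
    have hk : (k.factorial : ℂ) ≠ 0 := by exact_mod_cast k.factorial_ne_zero
    generalize hX : (n : ℂ) ^ (t * I : ℂ) = Xc at *
    have e1 : ((Λ n * (Real.log n ^ k * (k / M) ^ (k + 1) /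
        (k.factorial * (n : ℝ) ^ (1 + k / M))) : ℝ) : ℂ) =
        (Λ n : ℂ) * (((Real.log n ^ k : ℝ) : ℂ) * (((k / M) ^ (k + 1) : ℝ) : ℂ) /
          ((k.factorial : ℂ) * (((n : ℝ) ^ (1 + k / M) : ℝ) : ℂ))) := by
      push_cast
      ring
    have e2 : (((k / M) ^ (k + 1) / k.factorial : ℝ) : ℂ) =
        (((k / M) ^ (k + 1) : ℝ) : ℂ) / (k.factorial : ℂ) := by
      push_cast
      ring
    rw [e1, e2]
    generalize (((n : ℝ) ^ (1 + k / M) : ℝ) : ℂ) = Y at *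
    generalize (((k / M) ^ (k + 1) : ℝ) : ℂ) = Z at *
    generalize ((Real.log n ^ k : ℝ) : ℂ) = W at *
    field_simp

theorem SK_eq {q : ℕ} [NeZero q] (χ : DirichletCharacter ℂ q) {k : ℕ} {M : ℝ}
    (hσ : 0 < k / M) (t : ℝ) :
    Summable (fun n : ℕ => ((Λ n * wK k M n : ℝ) : ℂ) * χ (n : ZMod q) *
      (n : ℂ) ^ (-(t * I) : ℂ)) ∧
    SK χ k M t = (((k / M) ^ (k + 1) / k.factorial : ℝ) : ℂ) *
      Gj χ k (1 + ((k / M : ℝ) : ℂ) + t * I) := by
  have hs : 1 < (1 + ((k / M : ℝ) : ℂ) + t * I : ℂ).re := by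
    simp only [Complex.add_re, Complex.one_re, Complex.ofReal_re, Complex.mul_re, Complex.I_re,
      mul_zero, Complex.ofReal_im, Complex.I_im, mul_one, sub_self, add_zero]
    linarith
  have h1 := Gj_summable χ k hs
  unfold LSeriesSummable at h1
  have h2 := h1.mul_left ((((k / M) ^ (k + 1) / k.factorial : ℝ) : ℝ) : ℂ)
  have h3 := h2.congr (fun n => x3_term χ k M t n)
  refine ⟨h3, ?_⟩
  unfold SK Gj LSeries
  rw [← tsum_mul_left]
  exact tsum_congr fun n => (x3_term χ k M t n).symm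

theorem x3_cpow_norm (t : ℝ) {n : ℕ} (hn : 1 ≤ n) : ‖(n : ℂ) ^ (-(t * I) : ℂ)‖ = 1 := by
  have hn0 : (0 : ℝ) < n := by exact_mod_cast hn
  have : ((n : ℝ) : ℂ) = (n : ℂ) := by push_cast; rfl
  rw [← this, Complex.norm_cpow_eq_rpow_re_of_pos hn0]
  have h : (-(t * I) : ℂ).re = 0 := by simp
  rw [h, Real.rpow_zero]

/-- prime powers -/
theorem x3_SK_sub_SKP : ∃ C : ℝ, 1 ≤ C ∧ ∀ (q : ℕ) [NeZero q] (χ : DirichletCharacter ℂ q)
    (k : ℕ) (M t : ℝ), 2 ≤ M → M ^ 2 ≤ k →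
      ‖SK χ k M t - SKP χ k M t‖ ≤ C * (k / M / Real.sqrt k) * Real.exp (-(M / 4)) := by
  obtain ⟨C, hC, h⟩ := x1_powers_wK
  refine ⟨C, hC, fun q _ χ k M t hM hk => ?_⟩
  obtain ⟨hs, hle⟩ := h k M hM hk
  have hk0 : (0 : ℝ) < k := by nlinarith
  have hσ : 0 < k / M := by positivity
  obtain ⟨hsum, -⟩ := SK_eq χ hσ t
  -- the difference of the terms
  have hdiff : ∀ n : ℕ, ‖((Λ n * wK k M n : ℝ) : ℂ) * χ (n : ZMod q) * (n : ℂ) ^ (-(t * I) : ℂ) -
      (if n.Prime then ((Real.log n * wK k M n : ℝ) : ℂ) * χ (n : ZMod q) *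
    (n : ℂ) ^ (-(t * I) : ℂ) else 0)‖ ≤ (if n.Prime then 0 else Λ n * wK k M n) := by
    intro n
    by_cases hp : n.Prime
    · rw [if_pos hp, if_pos hp, ArithmeticFunction.vonMangoldt_apply_prime hp, sub_self, norm_zero]
    · rw [if_neg hp, if_neg hp, sub_zero]
      rcases Nat.eq_zero_or_pos n with rfl | hn
      · simp
      · rw [norm_mul, norm_mul, x3_cpow_norm t hn, mul_one, Complex.norm_real,
          Real.norm_of_nonneg (mul_nonneg ArithmeticFunction.vonMangoldt_nonneg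
            (wK_nonneg (by linarith) n))]
        have h1 := χ.norm_le_one (n : ZMod q)
        have h2 : 0 ≤ Λ n * wK k M n := mul_nonneg ArithmeticFunction.vonMangoldt_nonneg
            (wK_nonneg (by linarith) n)
        nlinarith
  have hsumd : Summable (fun n : ℕ => ((Λ n * wK k M n : ℝ) : ℂ) * χ (n : ZMod q) *
      (n : ℂ) ^ (-(t * I) : ℂ) - (if n.Prime then ((Real.log n * wK k M n : ℝ) : ℂ) *
        χ (n : ZMod q) * (n : ℂ) ^ (-(t * I) : ℂ) else 0)) :=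
    Summable.of_norm_bounded hs hdiff
  have hsumP : Summable (fun n : ℕ => (if n.Prime then ((Real.log n * wK k M n : ℝ) : ℂ) *
        χ (n : ZMod q) * (n : ℂ) ^ (-(t * I) : ℂ) else 0)) := by
    refine (hsum.sub hsumd).congr fun n => ?_
    ring
  unfold SK SKP
  rw [← hsum.tsum_sub hsumP]
  exact (tsum_of_norm_bounded hs.hasSum hdiff).trans hle

/-- one character: the sum over the prime powers is bounded by the zeros -/
theorem x3_one : ∃ C : ℝ, 1 ≤ C ∧ ∀ (q : ℕ) [NeZero q] (χ : DirichletCharacter ℂ q), χ ≠ 1 →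
    ∀ (k : ℕ) (M t D : ℝ), 1 ≤ M → M ^ 2 ≤ k → |t| + Real.sqrt (k / M) ≤ D →
    ‖SK χ k M t‖ ≤ ∑ ρ ∈ zr (LF χ) (1 / 16) D, mlt (LF χ) ρ *
        Real.exp (-(M * (1 - ρ.re) / 4)) +
      72 * (k + 1) * (k / M) * Real.log (3 * (C * q) * (2 * (k / M) + |t| + 4) ^ 2) *
        Real.exp (-(M / 33)) := by
  obtain ⟨C, hC, hgr⟩ := LF_growth
  refine ⟨C, hC, fun q _ χ hχ k M t D hM hk hD => ?_⟩
  have hd := LF_diff hχ
  have hq : (1 : ℝ) ≤ q := by exact_mod_cast NeZero.one_le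
  have hk0 : (0 : ℝ) < k := by nlinarith
  set σ : ℝ := k / M with hσd
  have hσ : 1 ≤ σ := by rw [hσd, le_div_iff₀ (by linarith)]; nlinarith
  have hkσ : k / σ = M := by rw [hσd]; field_simp
  have hcre : 1 < (1 + (σ : ℂ) + t * I : ℂ).re := by
    simp only [Complex.add_re, Complex.one_re, Complex.ofReal_re, Complex.mul_re, Complex.I_re,
      mul_zero, Complex.ofReal_im, Complex.I_im, mul_one, sub_self, add_zero]
    linarith
  have hlow : 1 / 3 ≤ ‖LF χ (1 + σ + t * I)‖ := by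
    have h1 := LF_lower χ hcre
    have h2 : min 1 ((1 + (σ : ℂ) + t * I : ℂ).re - 1) = 1 := by
      apply min_eq_left
      simp only [Complex.add_re, Complex.one_re, Complex.ofReal_re, Complex.mul_re, Complex.I_re,
        mul_zero, Complex.ofReal_im, Complex.I_im, mul_one, sub_self, add_zero]
      linarith
    rwa [h2] at h1
  have h1 := x2_explicit hd (B₀ := C * q) (by nlinarith) (fun s hs => by
    refine (hgr q χ hχ s hs).trans ?_
    have h2 := Complex.abs_im_le_norm s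
    have h3 : |s.im| + 2 ≤ (‖s‖ + 2) ^ 2 := by nlinarith [norm_nonneg s]
    exact mul_le_mul_of_nonneg_left h3 (by positivity)) hσ hlow k
  rw [LF_deriv χ k hcre, hkσ] at h1
  have h0 : LF χ 2 ≠ 0 := LF_ne_zero hχ (by norm_num)
  obtain ⟨-, hSK⟩ := SK_eq χ (k := k) (M := M) (by positivity) t
  rw [← hσd] at hSK
  set c : ℂ := 1 + σ + t * I with hc
  set Z : ℂ := ∑ ρ ∈ zb (LF χ) c (σ + 1 / 16), (mlt (LF χ) ρ : ℂ) * ((σ : ℂ) / (c - ρ)) ^ (k + 1)
    with hZ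
  have h2 : ((σ ^ (k + 1) : ℝ) : ℂ) * (-((-1) ^ k * Gj χ k c) / (k.factorial : ℂ)) -
      (-1) ^ k * Z = -((-1) ^ k) * (SK χ k M t + Z) := by
    rw [hSK]
    push_cast
    ring
  rw [h2, norm_mul, norm_neg, norm_pow, norm_neg, norm_one, one_pow, one_mul] at h1
  have h3 : ‖Z‖ ≤ ∑ ρ ∈ zr (LF χ) (1 / 16) D, mlt (LF χ) ρ *
      Real.exp (-(M * (1 - ρ.re) / 4)) := by
    have hsub : ∀ ρ ∈ zb (LF χ) c (σ + 1 / 16), ρ ∈ zr (LF χ) (1 / 16) D ∧
        ‖((σ : ℂ) / (c - ρ)) ^ (k + 1)‖ ≤ Real.exp (-(M * (1 - ρ.re) / 4)) := by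
      intro ρ hρ
      obtain ⟨hz, hb⟩ := (mem_zb hd h0 c _ ρ).1 hρ
      have hre := z3_zero_re hχ hz
      rw [mem_closedBall, dist_comm, dist_eq_norm] at hb
      obtain ⟨h4, h5, h6⟩ := x2_term hσ hre.le hb k
      rw [hkσ] at h6
      refine ⟨?_, h6⟩
      rw [mem_zr hd h0]
      refine ⟨hz, h4, hre.le, ?_⟩
      have h7 : |ρ.im| ≤ |ρ.im - t| + |t| := by
        have := abs_add_le (ρ.im - t) t
        simpa using this
      linarith
    have hm : ∀ ρ, 0 ≤ mlt (LF χ) ρ := fun ρ => by unfold mlt; positivity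
    calc ‖Z‖ ≤ ∑ ρ ∈ zb (LF χ) c (σ + 1 / 16), ‖(mlt (LF χ) ρ : ℂ) *
          ((σ : ℂ) / (c - ρ)) ^ (k + 1)‖ := norm_sum_le _ _
      _ ≤ ∑ ρ ∈ zb (LF χ) c (σ + 1 / 16), mlt (LF χ) ρ * Real.exp (-(M * (1 - ρ.re) / 4)) := by
          apply Finset.sum_le_sum
          intro ρ hρ
          rw [norm_mul, Complex.norm_real, Real.norm_of_nonneg (hm ρ)]
          exact mul_le_mul_of_nonneg_left (hsub ρ hρ).2 (hm ρ)
      _ ≤ _ := Finset.sum_le_sum_of_subset_of_nonneg (fun ρ hρ => (hsub ρ hρ).1)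
          fun ρ _ _ => mul_nonneg (hm ρ) (Real.exp_pos _).le
  have h4 : ‖SK χ k M t‖ ≤ ‖SK χ k M t + Z‖ + ‖Z‖ := by
    have := norm_sub_le (SK χ k M t + Z) Z
    simpa using this
  linarith

theorem x3_card {q : ℕ} [NeZero q] : ((Prm q).card : ℝ) ≤ q := by
  have h1 : (Prm q).card ≤ Fintype.card (DirichletCharacter ℂ q) := Finset.card_le_univ _
  have h2 : Fintype.card (DirichletCharacter ℂ q) ≤ q := by
    rw [← Nat.card_eq_fintype_card, DirichletCharacter.card_eq_totient_of_hasEnoughRootsOfUnity]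
    exact Nat.totient_le q
  exact_mod_cast h1.trans h2

theorem x3_pow {a M L : ℝ} {n : ℕ} {D : ℕ} (hD : 2 ≤ D) (hL : L = Real.log D) (ha : 0 < a)
    (h : n * L ≤ a * M) : (D : ℝ) ^ n * Real.exp (-(a * M)) ≤ 1 := by
  have hD0 : (0 : ℝ) < D := by positivity
  have h1 : (D : ℝ) ^ n = Real.exp (n * L) := by
    rw [hL, ← Real.log_pow, Real.exp_log (by positivity)]
  rw [h1, ← Real.exp_add]
  apply Real.exp_le_one_iff.2
  linarith

/-- the error terms -/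
theorem x3_err {C : ℝ} (hC : 1 ≤ C) {D : ℕ} (hD : 2 ≤ D) {k : ℕ} {M t : ℝ} (hM : 1 ≤ M)
    (hMD : 1500 * Real.log D ≤ M) (hk : M ^ 2 ≤ k)
    (hk2 : 4 * k ≤ D ^ 2 * M) (ht : |t| ≤ D / 2) {q : ℝ} (hq1 : 1 ≤ q) (hq : q ≤ D) :
    (D : ℝ) ^ 2 * (72 * (k + 1) * (k / M) * Real.log (3 * (C * q) * (2 * (k / M) + |t| + 4) ^ 2) *
        Real.exp (-(M / 33))) ≤ 1000000 * C * Real.exp (-(M / 132)) := by
  have hDR : (2 : ℝ) ≤ D := by exact_mod_cast hD
  have hk0 : (0 : ℝ) < k := by nlinarith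
  set σ : ℝ := k / M with hσ
  have hσ0 : 0 < σ := by positivity
  have hσ1 : σ ≤ (D : ℝ) ^ 2 / 4 := by
    rw [hσ, div_le_iff₀ (by linarith)]; linarith
  have ht0 := abs_nonneg t
  have hD2 : (2 : ℝ) * D ≤ (D : ℝ) ^ 2 := by nlinarith
  have hlog : Real.log (3 * (C * q) * (2 * σ + |t| + 4) ^ 2) ≤ 48 * C * (D : ℝ) ^ 5 := by
    refine (Real.log_le_self (by positivity)).trans ?_
    have h1 : 2 * σ + |t| + 4 ≤ 4 * (D : ℝ) ^ 2 := by nlinarith
    have h2 : (2 * σ + |t| + 4) ^ 2 ≤ (4 * (D : ℝ) ^ 2) ^ 2 :=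
      pow_le_pow_left₀ (by positivity) h1 2
    calc 3 * (C * q) * (2 * σ + |t| + 4) ^ 2 ≤ 3 * (C * D) * (4 * (D : ℝ) ^ 2) ^ 2 := by gcongr
      _ = 48 * C * (D : ℝ) ^ 5 := by ring
  have hk1 : (k : ℝ) + 1 ≤ (D : ℝ) ^ 2 * M := by
    have h1 : (4 : ℝ) ≤ (D : ℝ) ^ 2 := by nlinarith
    nlinarith
  have hlog0 : 0 ≤ Real.log (3 * (C * q) * (2 * σ + |t| + 4) ^ 2) := by
    apply Real.log_nonneg
    have h1 : (1 : ℝ) ≤ (2 * σ + |t| + 4) ^ 2 := by nlinarith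
    nlinarith [mul_le_mul hC hq1 (by norm_num) (by linarith : (0 : ℝ) ≤ C)]
  have h1 : (D : ℝ) ^ 2 * (72 * (k + 1) * σ *
      Real.log (3 * (C * q) * (2 * σ + |t| + 4) ^ 2) * Real.exp (-(M / 33))) ≤
      (D : ℝ) ^ 2 * (72 * ((D : ℝ) ^ 2 * M) * ((D : ℝ) ^ 2 / 4) *
        (48 * C * (D : ℝ) ^ 5) * Real.exp (-(M / 33))) := by
    gcongr
  refine h1.trans ?_
  have h2 : M ≤ 132 / 2 * Real.exp (M / 66) := by
    have := Real.add_one_le_exp (M / 66)
    linarith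
  have h3 : (D : ℝ) ^ 11 * Real.exp (-((1 / 132) * M)) ≤ 1 :=
    x3_pow hD rfl (by norm_num) (by push_cast; linarith)
  have h4 : Real.exp (M / 66) * Real.exp (-(M / 33)) = Real.exp (-((1 / 132) * M)) *
      Real.exp (-(M / 132)) := by
    rw [← Real.exp_add, ← Real.exp_add]
    congr 1
    ring
  calc (D : ℝ) ^ 2 * (72 * ((D : ℝ) ^ 2 * M) * ((D : ℝ) ^ 2 / 4) *
        (48 * C * (D : ℝ) ^ 5) * Real.exp (-(M / 33))) =
      (864 * C * (D : ℝ) ^ 11) * (M * Real.exp (-(M / 33))) := by ring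
    _ ≤ (864 * C * (D : ℝ) ^ 11) * ((132 / 2 * Real.exp (M / 66)) * Real.exp (-(M / 33))) := by
        gcongr
    _ = 57024 * C * ((D : ℝ) ^ 11 * Real.exp (-((1 / 132) * M))) * Real.exp (-(M / 132)) := by
        rw [mul_assoc (132 / 2 : ℝ), h4]; ring
    _ ≤ 57024 * C * 1 * Real.exp (-(M / 132)) := by gcongr
    _ ≤ 1000000 * C * Real.exp (-(M / 132)) := by
        have : 0 ≤ C * Real.exp (-(M / 132)) := by positivity
        nlinarith

end Pool.Agent.GA
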