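import Pool.Agent.Lib_helper98.GAF.X6

/-!
# GA part X, file 7: the weights (Gallagher's theorem in the form used by part G)
-/

set_option autoImplicit false
set_option linter.unusedSectionVars false

namespace Pool.Agent.GA

open Finset Complex Metric Filter
open scoped ArithmeticFunction.vonMangoldt Classical Topology

theorem wK_pos {k : ℕ} {M : ℝ} (hM : 0 < M) (hk : 1 ≤ k) {n : ℕ} (hn : 2 ≤ n) :
    0 < wK k M n := by
  unfold wK
  have h1 : 0 < Real.log n := Real.log_pos (by exact_mod_cast hn)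
  have h2 : (0 : ℝ) < k := by exact_mod_cast hk
  positivity

/-- total number of characters -/
theorem x7_card {D : ℕ} {B : ℝ} (hB : 0 ≤ B) :
    ∑ q ∈ Icc 1 D, ∑ _χ ∈ Prm q, B ≤ (D : ℝ) ^ 2 * B := by
  have h1 : ∀ q ∈ Icc 1 D, ∑ _χ ∈ Prm q, B ≤ (D : ℝ) * B := by
    intro q hq
    obtain ⟨hq1, hq2⟩ := Finset.mem_Icc.1 hq
    haveI : NeZero q := ⟨by omega⟩
    rw [Finset.sum_const, nsmul_eq_mul]
    apply mul_le_mul_of_nonneg_right _ hB
    refine (x3_card (q := q)).trans ?_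
    exact_mod_cast hq2
  refine (Finset.sum_le_sum h1).trans ?_
  rw [Finset.sum_const, nsmul_eq_mul, Nat.card_Icc]
  apply le_of_eq
  rw [Nat.add_sub_cancel]
  ring

/-- the weights, non-asymptotic form -/
theorem x7_core (hden : ∃ C : ℝ, 1 ≤ C ∧ ∀ D : ℕ, 2 ≤ D → ∀ δ : ℝ, 0 ≤ δ → δ ≤ 1 / 16 →
      nz riemannZeta₁ δ D ≤ Real.exp (C * (1 + δ * Real.log D))) {c₁ : ℝ} (hc₁ : 0 < c₁) :
    ∃ C : ℝ, 1 ≤ C ∧ ∃ c : ℝ, 0 < c ∧ ∃ A : ℝ, 1 ≤ A ∧
    ∀ D : ℕ, 4 ≤ D → Good c₁ D → ∀ (k : ℕ) (M Δ : ℝ), 2 ≤ M → A * Real.log D ≤ M →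
    M ^ 2 ≤ k → 4 * k ≤ D ^ 2 * M → 0 < Δ → Δ ≤ 1 → 32 * M ^ 2 ≤ Δ * k →
    C * Real.exp (-(c * M / Real.log D)) ≤ 1 / 16 →
    (D : ℝ) ^ 2 * (C * (k / M / Real.sqrt k) *
      Real.exp (2 * M - Δ ^ 2 * k / (32 * M ^ 2))) ≤ 1 / 16 →
    ∃ u : ℕ → ℝ, (∀ p ∈ PW M Δ, 0 < u p ∧ u p ≤ 2 * Real.log p *
        (Real.exp 2 * (k / M / Real.sqrt k) * (1 / p))) ∧
      ∑ p ∈ PW M Δ, u p = 1 ∧
      ∑ q ∈ Icc 1 D, ∑ χ ∈ Prm q, ‖∑ p ∈ PW M Δ, ((u p : ℝ) : ℂ) * χ (p : ZMod q)‖ ≤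
        2 * (C * Real.exp (-(c * M / Real.log D)) + (D : ℝ) ^ 2 * (C * (k / M / Real.sqrt k) *
          Real.exp (2 * M - Δ ^ 2 * k / (32 * M ^ 2)))) := by
  obtain ⟨Ca, hCa, ca, hca, Aa, hAa, ha⟩ := gal_SKP c₁ hc₁
  obtain ⟨Cb, hCb, cb, hcb, Ab, hAb, hb⟩ := gal_zeta hden
  obtain ⟨Ct, hCt, ht⟩ := x6_trunc
  refine ⟨max Ca (max Cb Ct), le_trans hCa (le_max_left _ _), min ca cb, lt_min hca hcb,
    max Aa Ab, le_trans hAa (le_max_left _ _),
    fun D hD hgood k M Δ hM hAM hk hk4 hΔ hΔ1 hkΔ h1 h2 => ?_⟩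
  set C := max Ca (max Cb Ct) with hC
  set c := min ca cb with hc
  have hDR : (4 : ℝ) ≤ D := by exact_mod_cast hD
  set L : ℝ := Real.log D with hL
  have hL0 : 0 < L := Real.log_pos (by linarith)
  have hk0 : (0 : ℝ) < k := by nlinarith
  have hk1 : 1 ≤ k := by
    have : (0 : ℝ) < k := hk0
    exact_mod_cast this
  have hCa' : Ca ≤ C := le_max_left _ _
  have hCb' : Cb ≤ C := le_trans (le_max_left _ _) (le_max_right _ _)
  have hCt' : Ct ≤ C := le_trans (le_max_right _ _) (le_max_right _ _)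
  have hC0 : 0 < C := by linarith
  have hAa' : Aa * L ≤ M :=
    (mul_le_mul_of_nonneg_right (le_max_left Aa Ab) hL0.le).trans hAM
  have hAb' : Ab * L ≤ M :=
    (mul_le_mul_of_nonneg_right (le_max_right Aa Ab) hL0.le).trans hAM
  have hexp : ∀ {c' : ℝ}, c ≤ c' → Real.exp (-(c' * M / L)) ≤ Real.exp (-(c * M / L)) := by
    intro c' hc'
    apply Real.exp_le_exp.2
    have : c * M / L ≤ c' * M / L := by
      apply div_le_div_of_nonneg_right _ hL0.le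
      exact mul_le_mul_of_nonneg_right hc' (by linarith)
    linarith
  have ha1 := ha D hD hgood k M hM hAa' hk hk4 (fun _ _ => 0) (by
    intro q χ; rw [abs_zero]; linarith)
  have ha2 : ∑ q ∈ Icc 1 D, ∑ χ ∈ Prm q, ‖SKP χ k M 0‖ ≤ C * Real.exp (-(c * M / L)) := by
    refine ha1.trans ?_
    exact mul_le_mul hCa' (hexp (min_le_left _ _)) (Real.exp_pos _).le hC0.le
  have hb1 := hb D hD k M hM hAb' hk hk4 0 (by rw [abs_zero]; linarith)
  have hkM : (((k / M : ℝ) : ℂ) / (((k / M : ℝ) : ℂ) + ((0 : ℝ) : ℂ) * I)) ^ (k + 1) = 1 := by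
    have h3 : ((k / M : ℝ) : ℂ) ≠ 0 := by
      rw [Ne, Complex.ofReal_eq_zero]
      positivity
    rw [Complex.ofReal_zero, zero_mul, add_zero, div_self h3, one_pow]
  rw [hkM] at hb1
  have hb2 : ‖SKP (1 : DirichletCharacter ℂ 1) k M 0 - 1‖ ≤ 1 / 16 := by
    refine hb1.trans (le_trans ?_ h1)
    exact mul_le_mul hCb' (hexp (min_le_right _ _)) (Real.exp_pos _).le hC0.le
  set B : ℝ := C * (k / M / Real.sqrt k) * Real.exp (2 * M - Δ ^ 2 * k / (32 * M ^ 2)) with hB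
  have hB0 : 0 ≤ B := by positivity
  have hD2 : (1 : ℝ) ≤ (D : ℝ) ^ 2 := by nlinarith
  have hBle : B ≤ 1 / 16 := by nlinarith
  have ht' : ∀ (q : ℕ) [NeZero q] (χ : DirichletCharacter ℂ q),
      ‖SKP χ k M 0 - ∑ p ∈ PW M Δ, ((Real.log p * wK k M p : ℝ) : ℂ) * χ (p : ZMod q)‖ ≤ B := by
    intro q _ χ
    refine (ht q χ k M Δ hM hΔ hΔ1 hkΔ).trans ?_
    rw [hB]
    gcongr
  set W : ℝ := ∑ p ∈ PW M Δ, Real.log p * wK k M p with hW
  have hW1 : ‖(W : ℂ) - 1‖ ≤ 1 / 8 := by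
    have h3 := ht' 1 (1 : DirichletCharacter ℂ 1)
    have h4 : ∑ p ∈ PW M Δ, ((Real.log p * wK k M p : ℝ) : ℂ) *
        (1 : DirichletCharacter ℂ 1) (p : ZMod 1) = (W : ℂ) := by
      rw [hW, Complex.ofReal_sum]
      refine Finset.sum_congr rfl fun p _ => ?_
      have : (1 : DirichletCharacter ℂ 1) (p : ZMod 1) = 1 :=
        MulChar.one_apply (isUnit_of_subsingleton _)
      rw [this, mul_one]
    rw [h4] at h3
    have h5 : (W : ℂ) - 1 = -(SKP (1 : DirichletCharacter ℂ 1) k M 0 - W) +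
        (SKP (1 : DirichletCharacter ℂ 1) k M 0 - 1) := by ring
    rw [h5]
    refine (norm_add_le _ _).trans ?_
    rw [norm_neg]
    linarith
  have hW2 : 1 / 2 ≤ W := by
    have h3 : ‖((W - 1 : ℝ) : ℂ)‖ ≤ 1 / 8 := by push_cast; exact hW1
    rw [Complex.norm_real, Real.norm_eq_abs] at h3
    have := (abs_le.1 h3).1
    linarith
  have hW0 : 0 < W := by linarith
  have hWinv : W⁻¹ ≤ 2 := by
    rw [inv_le_comm₀ hW0 (by norm_num)]
    linarith
  refine ⟨fun p => Real.log p * wK k M p / W, fun p hp => ?_, ?_, ?_⟩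
  · have hpp := (mem_PW.1 hp).1
    have hlp : 0 < Real.log p := Real.log_pos (by exact_mod_cast hpp.one_lt)
    refine ⟨div_pos (mul_pos hlp (wK_pos (by linarith) hk1 hpp.two_le)) hW0, ?_⟩
    have h3 := wK_le hM hk (n := p) hpp.pos
    have h4 : wK k M p ≤ Real.exp 2 * (k / M / Real.sqrt k) * (1 / p) := by
      refine h3.trans ?_
      refine mul_le_of_le_one_right (by positivity) ?_
      apply Real.exp_le_one_iff.2
      have := abs_nonneg (Real.log p - M)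
      linarith
    have h5 : 0 ≤ wK k M p := wK_nonneg (by linarith) p
    calc Real.log p * wK k M p / W = W⁻¹ * (Real.log p * wK k M p) := by
          rw [div_eq_inv_mul]
      _ ≤ 2 * (Real.log p * (Real.exp 2 * (k / M / Real.sqrt k) * (1 / p))) := by
          gcongr
      _ = _ := by ring
  · rw [← Finset.sum_div, ← hW, div_self hW0.ne']
  · have h3 : ∀ q ∈ Icc 1 D, ∀ χ ∈ Prm q,
        ‖∑ p ∈ PW M Δ, ((Real.log p * wK k M p / W : ℝ) : ℂ) * χ (p : ZMod q)‖ ≤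
          2 * (‖SKP χ k M 0‖ + B) := by
      intro q hq χ _
      haveI : NeZero q := ⟨by
        have := (Finset.mem_Icc.1 hq).1
        omega⟩
      have h4 : ∑ p ∈ PW M Δ, ((Real.log p * wK k M p / W : ℝ) : ℂ) * χ (p : ZMod q) =
          ((W⁻¹ : ℝ) : ℂ) * ∑ p ∈ PW M Δ, ((Real.log p * wK k M p : ℝ) : ℂ) *
            χ (p : ZMod q) := by
        rw [Finset.mul_sum]
        refine Finset.sum_congr rfl fun p _ => ?_
        rw [div_eq_inv_mul]
        push_cast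
        ring
      rw [h4, norm_mul, Complex.norm_real, Real.norm_of_nonneg (by positivity)]
      have h5 := ht' q χ
      have h6 : ‖∑ p ∈ PW M Δ, ((Real.log p * wK k M p : ℝ) : ℂ) * χ (p : ZMod q)‖ ≤
          ‖SKP χ k M 0‖ + B := by
        have h7 := norm_sub_norm_le (∑ p ∈ PW M Δ, ((Real.log p * wK k M p : ℝ) : ℂ) *
          χ (p : ZMod q)) (SKP χ k M 0)
        rw [norm_sub_rev] at h7
        linarith
      exact mul_le_mul hWinv h6 (norm_nonneg _) (by norm_num)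
    calc ∑ q ∈ Icc 1 D, ∑ χ ∈ Prm q,
          ‖∑ p ∈ PW M Δ, ((Real.log p * wK k M p / W : ℝ) : ℂ) * χ (p : ZMod q)‖ ≤
        ∑ q ∈ Icc 1 D, ∑ χ ∈ Prm q, 2 * (‖SKP χ k M 0‖ + B) :=
          Finset.sum_le_sum fun q hq => Finset.sum_le_sum fun χ hχ => h3 q hq χ hχ
      _ = 2 * ∑ q ∈ Icc 1 D, ∑ χ ∈ Prm q, ‖SKP χ k M 0‖ +
          ∑ q ∈ Icc 1 D, ∑ _χ ∈ Prm q, 2 * B := by
          rw [Finset.mul_sum, ← Finset.sum_add_distrib]
          refine Finset.sum_congr rfl fun q _ => ?_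
          rw [Finset.mul_sum, ← Finset.sum_add_distrib]
          exact Finset.sum_congr rfl fun χ _ => by ring
      _ ≤ 2 * (C * Real.exp (-(c * M / L))) + (D : ℝ) ^ 2 * (2 * B) := by
          have h8 := x7_card (D := D) (B := 2 * B) (by linarith)
          linarith
      _ = 2 * (C * Real.exp (-(c * M / L)) + (D : ℝ) ^ 2 * B) := by ring

end Pool.Agent.GA
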